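import Mathlib

/-!
# Isometric actions of countable groups on `L₁[0,1]` and invariant strictly convex renormings:
definitions
-/

set_option autoImplicit false

open MeasureTheory Topology

noncomputable section

namespace Pool.Agent.Lib_helper92.ActL1

/-- The real Banach space `L₁[0,1]` (Lebesgue measure). -/
abbrev L1 : Type := Lp ℝ 1 (volume : Measure unitInterval)

/-- `Iso(L₁[0,1])`: the group of surjective linear isometries of `L₁[0,1]`. -/
def Iso : Type := L1 ≃ₗᵢ[ℝ] L1

instance : Group Iso := inferInstanceAs (Group (L1 ≃ₗᵢ[ℝ] L1))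

/-- the value of an isometry at a vector -/
def Iso.app (U : Iso) (f : L1) : L1 := (show L1 ≃ₗᵢ[ℝ] L1 from U) f

/-- The strong operator topology on `Iso(L₁[0,1])`: the topology of pointwise convergence. -/
instance : TopologicalSpace Iso := TopologicalSpace.induced Iso.app inferInstance

/-- `Act_G(L₁[0,1])`: the actions of `G` on `L₁[0,1]` by linear isometries, i.e. the homomorphisms
`G → Iso(L₁[0,1])`. -/
def Act (G : Type) [Group G] : Type := G →* Iso

/-- the isometry by which `g` acts -/
def Act.at {G : Type} [Group G] (α : Act G) (g : G) : Iso := (show G →* Iso from α) g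

/-- `Act_G(L₁[0,1])` has the topology of a subspace of `Iso(L₁[0,1])^G` (product topology). -/
instance (G : Type) [Group G] : TopologicalSpace (Act G) :=
  TopologicalSpace.induced Act.at inferInstance

/-- `Act_G⁺(L₁[0,1])`: the actions of `G` on `L₁[0,1]` by positive linear isometries, with the
topology of a subspace of `Act_G(L₁[0,1])`. -/
def ActPos (G : Type) [Group G] : Type :=
  {α : Act G // ∀ (g : G) (f : L1), 0 ≤ f → 0 ≤ (α.at g).app f}

instance (G : Type) [Group G] : TopologicalSpace (ActPos G) :=
  inferInstanceAs (TopologicalSpace {α : Act G // ∀ (g : G) (f : L1), 0 ≤ f → 0 ≤ (α.at g).app f})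

/-- `N` is a norm on `L₁[0,1]` equivalent to the original norm. -/
structure IsEquivalentNorm (N : L1 → ℝ) : Prop where
  add_le : ∀ x y, N (x + y) ≤ N x + N y
  smul : ∀ (c : ℝ) (x : L1), N (c • x) = |c| * N x
  lower : ∃ c : ℝ, 0 < c ∧ ∀ x, c * ‖x‖ ≤ N x
  upper : ∃ C : ℝ, ∀ x, N x ≤ C * ‖x‖

/-- `N` is strictly convex: `x ≠ y` and `N x = N y` imply `N ((x + y) / 2) < N x`. -/
def IsStrictlyConvex (N : L1 → ℝ) : Prop :=
  ∀ x y, x ≠ y → N x = N y → N ((1 / 2 : ℝ) • (x + y)) < N x

/-- The action `α` admits a `G`-invariant strictly convex renorming. -/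
def HasInvariantRenorming {G : Type} [Group G] (α : Act G) : Prop :=
  ∃ N : L1 → ℝ, IsEquivalentNorm N ∧ IsStrictlyConvex N ∧ ∀ (g : G) (x : L1), N ((α.at g).app x) = N x

/-- `G` is amenable: every continuous action of `G` on a (nonempty) compact Hausdorff space has an
invariant regular Borel probability measure. -/
def IsAmenable (G : Type) [Group G] : Prop :=
  ∀ (K : Type) [TopologicalSpace K] [CompactSpace K] [T2Space K] [Nonempty K]
    [MeasurableSpace K] [BorelSpace K] [MulAction G K],
    (∀ g : G, Continuous fun x : K => g • x) →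
      ∃ μ : Measure K, IsProbabilityMeasure μ ∧ μ.Regular ∧
        ∀ g : G, μ.map (fun x : K => g • x) = μ

end Pool.Agent.Lib_helper92.ActL1
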