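import Mathlib

/-!
# Homogeneous functional calculus and isometries of `L₁`
-/

set_option autoImplicit false

open MeasureTheory Topology Finset

noncomputable section

namespace Pool.Agent.Lib_helper92.ActL1

variable {X Y : Type*} [MeasurableSpace X] [MeasurableSpace Y] {μ : Measure X} {ν : Measure Y}
  [IsFiniteMeasure μ]

omit [IsFiniteMeasure μ] in
lemma integral_min (f g : Lp ℝ 1 μ) :
    ∫ x, min |f x| |g x| ∂μ = ‖f‖ + ‖g‖ - (‖f + g‖ + ‖f - g‖) / 2 := by
  have hf : Integrable (fun x => |f x|) μ := (L1.integrable_coeFn f).abs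
  have hg : Integrable (fun x => |g x|) μ := (L1.integrable_coeFn g).abs
  have hs : Integrable (fun x => |(f + g) x|) μ := (L1.integrable_coeFn (f + g)).abs
  have hd : Integrable (fun x => |(f - g) x|) μ := (L1.integrable_coeFn (f - g)).abs
  rw [L1.norm_eq_integral_norm, L1.norm_eq_integral_norm, L1.norm_eq_integral_norm,
    L1.norm_eq_integral_norm]
  simp only [Real.norm_eq_abs]
  have e1 : ∫ a, |f a| ∂μ + ∫ a, |g a| ∂μ - (∫ a, |(f + g) a| ∂μ + ∫ a, |(f - g) a| ∂μ) / 2 =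
      ∫ a, ((|f a| + |g a|) - (|(f + g) a| + |(f - g) a|) / 2) ∂μ := by
    rw [integral_sub (f := fun a => |f a| + |g a|) (g := fun a => (|(f + g) a| + |(f - g) a|) / 2)
      (hf.add hg) ((hs.add hd).div_const 2), integral_div,
      integral_add hf hg, integral_add hs hd]
  rw [e1]
  apply integral_congr_ae
  filter_upwards [Lp.coeFn_add f g, Lp.coeFn_sub f g] with x h1 h2
  rw [h1, h2, Pi.add_apply, Pi.sub_apply]
  rcases abs_cases (f x) with ⟨a1, _⟩ | ⟨a1, _⟩ <;> rcases abs_cases (g x) with ⟨b1, _⟩ | ⟨b1, _⟩ <;>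
  rcases abs_cases (f x + g x) with ⟨c1, _⟩ | ⟨c1, _⟩ <;>
  rcases abs_cases (f x - g x) with ⟨d1, _⟩ | ⟨d1, _⟩ <;>
  rcases min_cases |f x| |g x| with ⟨e1, _⟩ | ⟨e1, _⟩ <;>
  rw [e1, a1, b1, c1, d1] <;> linarith

variable (U : Lp ℝ 1 μ →ₗᵢ[ℝ] Lp ℝ 1 ν)

omit [IsFiniteMeasure μ] in
lemma integral_min_map (f g : Lp ℝ 1 μ) :
    ∫ y, min |U f y| |U g y| ∂ν = ∫ x, min |f x| |g x| ∂μ := by
  rw [integral_min, integral_min, ← map_add, ← map_sub, U.norm_map, U.norm_map, U.norm_map,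
    U.norm_map]

omit [IsFiniteMeasure μ] in
lemma disjoint_map {f g : Lp ℝ 1 μ} (h : ∀ᵐ x ∂μ, f x * g x = 0) :
    ∀ᵐ y ∂ν, U f y * U g y = 0 := by
  have h1 : ∫ x, min |f x| |g x| ∂μ = 0 := by
    rw [← integral_zero X ℝ]
    apply integral_congr_ae
    filter_upwards [h] with x hx
    rcases mul_eq_zero.mp hx with h0 | h0 <;> simp [h0]
  rw [← integral_min_map U f g] at h1
  have hint : Integrable (fun y => min |U f y| |U g y|) ν :=
    (L1.integrable_coeFn (U f)).abs.inf (L1.integrable_coeFn (U g)).abs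
  rw [integral_eq_zero_iff_of_nonneg (fun y => le_min (abs_nonneg _) (abs_nonneg _)) hint] at h1
  filter_upwards [h1] with y hy
  have hy' : min |U f y| |U g y| = 0 := hy
  rcases min_choice |U f y| |U g y| with h2 | h2
  · rw [h2, abs_eq_zero] at hy'
    rw [hy', zero_mul]
  · rw [h2, abs_eq_zero] at hy'
    rw [hy', mul_zero]

/-- algebra behind the next lemma -/
lemma homog_sum {ι V : Type*} [DecidableEq V] (φ : (ι → ℝ) → ℝ)
    (hφ : ∀ (c : ℝ) v, φ (c • v) = |c| * φ v) (s : Finset V) (w : V → ι → ℝ) (a : V → ℝ)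
    (ha : ∀ v ∈ s, ∀ v' ∈ s, v ≠ v' → a v * a v' = 0) :
    φ (fun i => ∑ v ∈ s, w v i * a v) = ∑ v ∈ s, φ (w v) * |a v| := by
  have hφ0 : φ 0 = 0 := by
    have := hφ 0 0
    rwa [smul_zero, abs_zero, zero_mul] at this
  by_cases h : ∃ v ∈ s, a v ≠ 0
  · obtain ⟨v, hv, hav⟩ := h
    have h0 : ∀ v' ∈ s, v' ≠ v → a v' = 0 := by
      intro v' hv' hne
      rcases mul_eq_zero.mp (ha v hv v' hv' hne.symm) with h1 | h1
      · exact absurd h1 hav
      · exact h1
    rw [Finset.sum_eq_single_of_mem v hv (fun v' hv' hne => by rw [h0 v' hv' hne]; simp)]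
    have h1 : (fun i => ∑ v ∈ s, w v i * a v) = a v • w v := by
      funext i
      rw [Finset.sum_eq_single_of_mem v hv (fun v' hv' hne => by rw [h0 v' hv' hne]; simp)]
      simp [mul_comm]
    rw [h1, hφ, mul_comm]
  · push Not at h
    rw [Finset.sum_eq_zero (fun v hv => by rw [h v hv]; simp)]
    have h1 : (fun i => ∑ v ∈ s, w v i * a v) = 0 := by
      funext i
      exact Finset.sum_eq_zero (fun v hv => by rw [h v hv]; simp)
    rw [h1, hφ0]

/-- The indicator function of a fibre of a simple function, as an element of `L₁`. -/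
def fib {E : Type*} (s : SimpleFunc X E) (v : E) : Lp ℝ 1 μ :=
  indicatorConstLp 1 (s.measurableSet_fiber v) (measure_ne_top μ _) (1 : ℝ)

lemma eq_sum_fib {E : Type*} (s : SimpleFunc X E) (c : E → ℝ) (f : Lp ℝ 1 μ)
    (hf : f =ᵐ[μ] fun x => c (s x)) : f = ∑ v ∈ s.range, c v • fib s v := by
  classical
  apply Lp.ext
  have h1 := Lp.coeFn_finsetSum s.range (fun v => c v • (fib s v : Lp ℝ 1 μ))
  have h2 : ∀ v ∈ s.range, ⇑(c v • (fib s v : Lp ℝ 1 μ)) =ᵐ[μ]
      fun x => c v * (s ⁻¹' {v}).indicator (fun _ => (1 : ℝ)) x := by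
    intro v _
    filter_upwards [Lp.coeFn_smul (c v) (fib s v : Lp ℝ 1 μ),
      indicatorConstLp_coeFn (p := 1) (hs := s.measurableSet_fiber v)
        (hμs := measure_ne_top μ (s ⁻¹' {v})) (c := (1 : ℝ))] with x h3 h4
    rw [h3, Pi.smul_apply, smul_eq_mul]
    congr 1
  have h3 : ∀ᵐ x ∂μ, ∀ v ∈ s.range, (c v • (fib s v : Lp ℝ 1 μ)) x =
      c v * (s ⁻¹' {v}).indicator (fun _ => (1 : ℝ)) x := by
    rw [Filter.eventually_all_finset]
    exact h2
  filter_upwards [hf, h1, h3] with x h4 h5 h6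
  rw [h4, h5]
  rw [Finset.sum_apply, Finset.sum_congr rfl h6]
  rw [Finset.sum_eq_single_of_mem (s x) (SimpleFunc.mem_range_self s x)]
  · simp
  · intro v _ hv
    have : x ∉ s ⁻¹' {v} := fun h => hv (by simpa using h.symm)
    simp [this]

theorem homog_simple {ι : Type*} [Fintype ι] (s : SimpleFunc X (ι → ℝ)) (f : ι → Lp ℝ 1 μ)
    (hf : ∀ i, f i =ᵐ[μ] fun x => s x i) (φ : (ι → ℝ) → ℝ)
    (hφ : ∀ (c : ℝ) v, φ (c • v) = |c| * φ v) :
    ∫ y, φ (fun i => U (f i) y) ∂ν = ∫ x, φ (s x) ∂μ := by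
  classical
  have hφ0 : φ 0 = 0 := by
    have := hφ 0 0
    rwa [smul_zero, abs_zero, zero_mul] at this
  have h1 : ∀ i, U (f i) = ∑ v ∈ s.range, v i • U (fib s v : Lp ℝ 1 μ) := by
    intro i
    rw [eq_sum_fib s (fun v => v i) (f i) (hf i), map_sum]
    simp only [map_smul]
  have h2 : ∀ᵐ y ∂ν, ∀ i, U (f i) y = ∑ v ∈ s.range, v i * U (fib s v : Lp ℝ 1 μ) y := by
    rw [ae_all_iff]
    intro i
    rw [h1 i]
    have h3 : ∀ᵐ y ∂ν, ∀ v ∈ s.range, (v i • U (fib s v : Lp ℝ 1 μ)) y =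
        v i * U (fib s v : Lp ℝ 1 μ) y := by
      rw [Filter.eventually_all_finset]
      intro v _
      filter_upwards [Lp.coeFn_smul (v i) (U (fib s v : Lp ℝ 1 μ))] with y hy
      rw [hy, Pi.smul_apply, smul_eq_mul]
    filter_upwards [Lp.coeFn_finsetSum s.range (fun v => v i • U (fib s v : Lp ℝ 1 μ)), h3]
      with y h4 h5
    rw [h4, Finset.sum_apply, Finset.sum_congr rfl h5]
  have h3 : ∀ᵐ y ∂ν, ∀ v ∈ s.range, ∀ v' ∈ s.range, v ≠ v' →
      U (fib s v : Lp ℝ 1 μ) y * U (fib s v' : Lp ℝ 1 μ) y = 0 := by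
    rw [Filter.eventually_all_finset]
    intro v _
    rw [Filter.eventually_all_finset]
    intro v' _
    by_cases hne : v = v'
    · exact Filter.Eventually.of_forall (fun _ h => absurd hne h)
    have hgoal : ∀ᵐ y ∂ν, U (fib s v : Lp ℝ 1 μ) y * U (fib s v' : Lp ℝ 1 μ) y = 0 := ?_
    · filter_upwards [hgoal] with y hy _
      exact hy
    apply disjoint_map
    filter_upwards [indicatorConstLp_coeFn (p := 1) (hs := s.measurableSet_fiber v)
        (hμs := measure_ne_top μ (s ⁻¹' {v})) (c := (1 : ℝ)),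
        indicatorConstLp_coeFn (p := 1) (hs := s.measurableSet_fiber v')
        (hμs := measure_ne_top μ (s ⁻¹' {v'})) (c := (1 : ℝ))] with x h4 h5
    unfold fib
    rw [h4, h5]
    by_cases hx : x ∈ s ⁻¹' {v}
    · have hx' : x ∉ s ⁻¹' {v'} := by
        intro h
        apply hne
        rw [Set.mem_preimage, Set.mem_singleton_iff] at hx h
        rw [← hx, ← h]
      simp [hx']
    · simp [hx]
  have h4 : ∫ y, φ (fun i => U (f i) y) ∂ν =
      ∫ y, ∑ v ∈ s.range, φ v * |U (fib s v : Lp ℝ 1 μ) y| ∂ν := by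
    apply integral_congr_ae
    filter_upwards [h2, h3] with y hy1 hy2
    rw [show (fun i => U (f i) y) = fun i => ∑ v ∈ s.range, v i * U (fib s v : Lp ℝ 1 μ) y from
      funext hy1]
    exact homog_sum φ hφ s.range id _ hy2
  rw [h4, integral_finsetSum]
  · have h5 : ∀ v ∈ s.range, ∫ y, φ v * |U (fib s v : Lp ℝ 1 μ) y| ∂ν =
        μ.real (s ⁻¹' {v}) • φ v := by
      intro v _
      rw [integral_const_mul]
      have h6 : ∫ y, |U (fib s v : Lp ℝ 1 μ) y| ∂ν = ‖U (fib s v : Lp ℝ 1 μ)‖ := by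
        rw [L1.norm_eq_integral_norm]
        rfl
      rw [h6, U.norm_map]
      unfold fib
      rw [norm_indicatorConstLp one_ne_zero ENNReal.one_ne_top]
      simp [mul_comm]
    rw [Finset.sum_congr rfl h5]
    have hint : Integrable (s.map φ) μ := (s.map φ).integrable_of_isFiniteMeasure
    have h7 := SimpleFunc.integral_eq_integral (s.map φ) hint
    have h8 : ∫ x, φ (s x) ∂μ = (s.map φ).integral μ := h7.symm
    rw [h8, SimpleFunc.map_integral s φ s.integrable_of_isFiniteMeasure hφ0]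
  · intro v _
    exact ((L1.integrable_coeFn (U (fib s v))).abs).const_mul _

omit [IsFiniteMeasure μ] in
lemma exists_simple_approx {ι : Type*} [Fintype ι] (f : ι → Lp ℝ 1 μ) (ε : ℝ) (hε : 0 < ε) :
    ∃ (s : SimpleFunc X (ι → ℝ)) (g : ι → Lp ℝ 1 μ), (∀ i, g i =ᵐ[μ] fun x => s x i) ∧
      ∀ i, ‖f i - g i‖ < ε := by
  have hF : MemLp (fun x => (fun i => f i x : ι → ℝ)) 1 μ := by
    rw [memLp_pi_iff]
    exact fun i => Lp.memLp (f i)
  obtain ⟨s, hs1, hs2⟩ := hF.exists_simpleFunc_eLpNorm_sub_lt ENNReal.one_ne_top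
    (ε := ENNReal.ofReal ε) (by simpa using hε)
  have hs3 : ∀ i, MemLp (fun x => s x i) 1 μ := by
    intro i
    rw [memLp_pi_iff] at hs2
    exact hs2 i
  refine ⟨s, fun i => (hs3 i).toLp _, fun i => (hs3 i).coeFn_toLp, fun i => ?_⟩
  rw [Lp.norm_def]
  have h1 : eLpNorm (⇑(f i - (hs3 i).toLp _)) 1 μ ≤
      eLpNorm ((fun x => (fun i => f i x : ι → ℝ)) - ⇑s) 1 μ := by
    apply eLpNorm_mono_ae
    filter_upwards [Lp.coeFn_sub (f i) ((hs3 i).toLp _), (hs3 i).coeFn_toLp] with x h2 h3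
    rw [h2, Pi.sub_apply, h3, Pi.sub_apply]
    exact norm_le_pi_norm ((fun i => f i x : ι → ℝ) - s x) i
  have h2 := lt_of_le_of_lt h1 hs1
  rw [← ENNReal.toReal_ofReal hε.le]
  exact (ENNReal.toReal_lt_toReal h2.ne_top ENNReal.ofReal_ne_top).mpr h2

lemma continuous_of_lip {ι : Type*} [Fintype ι] (φ : (ι → ℝ) → ℝ) (K : ℝ)
    (hK : ∀ v w, |φ v - φ w| ≤ K * ∑ i, |v i - w i|) : Continuous φ := by
  rw [continuous_iff_continuousAt]
  intro v
  rw [ContinuousAt, tendsto_iff_dist_tendsto_zero]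
  have h1 : Filter.Tendsto (fun w : ι → ℝ => K * ∑ i, |w i - v i|) (𝓝 v) (𝓝 0) := by
    have : Continuous (fun w : ι → ℝ => K * ∑ i, |w i - v i|) := by fun_prop
    have h2 := this.tendsto v
    simpa using h2
  refine squeeze_zero (fun _ => dist_nonneg) (fun w => ?_) h1
  rw [Real.dist_eq]
  exact hK w v

lemma homog_integrable {ι Z : Type*} [Fintype ι] [MeasurableSpace Z] {ρ : Measure Z}
    (φ : (ι → ℝ) → ℝ) (hφ0 : φ 0 = 0) (K : ℝ) (hK : ∀ v w, |φ v - φ w| ≤ K * ∑ i, |v i - w i|)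
    (F : ι → Lp ℝ 1 ρ) : Integrable (fun z => φ (fun i => F i z)) ρ := by
  refine Integrable.mono' (g := fun z => K * ∑ i, |F i z|) ?_ ?_ ?_
  · exact (integrable_finsetSum _ (fun i _ => (L1.integrable_coeFn (F i)).abs)).const_mul K
  · apply (continuous_of_lip φ K hK).comp_aestronglyMeasurable
    exact (aemeasurable_pi_iff.mpr
      (fun i => (L1.integrable_coeFn (F i)).aestronglyMeasurable.aemeasurable)).aestronglyMeasurable
  · refine Filter.Eventually.of_forall (fun z => ?_)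
    have := hK (fun i => F i z) 0
    rw [hφ0, sub_zero] at this
    simpa using this

lemma homog_compare {ι Z : Type*} [Fintype ι] [MeasurableSpace Z] {ρ : Measure Z}
    (φ : (ι → ℝ) → ℝ) (hφ0 : φ 0 = 0) (K : ℝ) (hK : ∀ v w, |φ v - φ w| ≤ K * ∑ i, |v i - w i|)
    (F G : ι → Lp ℝ 1 ρ) :
    |∫ z, φ (fun i => F i z) ∂ρ - ∫ z, φ (fun i => G i z) ∂ρ| ≤ K * ∑ i, ‖F i - G i‖ := by
  have hint := fun F : ι → Lp ℝ 1 ρ => homog_integrable φ hφ0 K hK F
  rw [← integral_sub (hint F) (hint G)]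
  refine (abs_integral_le_integral_abs).trans ?_
  have h1 : K * ∑ i, ‖F i - G i‖ = ∫ z, K * ∑ i, |(F i - G i) z| ∂ρ := by
    rw [integral_const_mul, integral_finsetSum _ (fun i _ => (L1.integrable_coeFn _).abs)]
    congr 1
    apply Finset.sum_congr rfl
    intro i _
    rw [L1.norm_eq_integral_norm]
    rfl
  rw [h1]
  apply integral_mono_ae ((hint F).sub (hint G)).abs
  · exact (integrable_finsetSum _ (fun i _ => (L1.integrable_coeFn _).abs)).const_mul K
  · have h2 : ∀ᵐ z ∂ρ, ∀ i, (F i - G i) z = F i z - G i z := by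
      rw [ae_all_iff]
      intro i
      filter_upwards [Lp.coeFn_sub (F i) (G i)] with z hz
      rw [hz]; rfl
    filter_upwards [h2] with z hz
    simp only [hz]
    exact hK _ _

/-- Isometries of `L₁` preserve integrals of (absolutely) homogeneous Lipschitz functions of
finitely many elements. -/
theorem homog {ι : Type*} [Fintype ι] (f : ι → Lp ℝ 1 μ) (φ : (ι → ℝ) → ℝ)
    (hφ : ∀ (c : ℝ) v, φ (c • v) = |c| * φ v) (K : ℝ)
    (hK : ∀ v w, |φ v - φ w| ≤ K * ∑ i, |v i - w i|) :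
    ∫ y, φ (fun i => U (f i) y) ∂ν = ∫ x, φ (fun i => f i x) ∂μ := by
  have hφ0 : φ 0 = 0 := by
    have := hφ 0 0
    rwa [smul_zero, abs_zero, zero_mul] at this
  have key := fun (F G : ι → Lp ℝ 1 ν) => homog_compare φ hφ0 K hK F G
  have key' := fun (F G : ι → Lp ℝ 1 μ) => homog_compare φ hφ0 K hK F G
  have hsmall : ∀ ε : ℝ, 0 < ε →
      |∫ y, φ (fun i => U (f i) y) ∂ν - ∫ x, φ (fun i => f i x) ∂μ| ≤ 2 * (|K| * (Fintype.card ι * ε)) := by
    intro ε hε
    obtain ⟨s, g, hg, hfg⟩ := exists_simple_approx f ε hε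
    have h1 := homog_simple U s g hg φ hφ
    have h2 : ∫ x, φ (s x) ∂μ = ∫ x, φ (fun i => g i x) ∂μ := by
      apply integral_congr_ae
      have : ∀ᵐ x ∂μ, ∀ i, g i x = s x i := by
        rw [ae_all_iff]; exact hg
      filter_upwards [this] with x hx
      congr 1
      exact (funext hx).symm
    have h3 := key (fun i => U (f i)) (fun i => U (g i))
    have h4 := key' f g
    have h5 : K * ∑ i, ‖f i - g i‖ ≤ |K| * (Fintype.card ι * ε) := by
      have h6 : ∑ i, ‖f i - g i‖ ≤ Fintype.card ι * ε := by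
        have : ∑ i, ‖f i - g i‖ ≤ ∑ _i : ι, ε := Finset.sum_le_sum (fun i _ => (hfg i).le)
        simpa using this
      calc K * ∑ i, ‖f i - g i‖ ≤ |K| * ∑ i, ‖f i - g i‖ :=
            mul_le_mul_of_nonneg_right (le_abs_self K) (Finset.sum_nonneg (fun _ _ => norm_nonneg _))
        _ ≤ |K| * (Fintype.card ι * ε) := mul_le_mul_of_nonneg_left h6 (abs_nonneg K)
    have h6 : ∀ i, ‖U (f i) - U (g i)‖ = ‖f i - g i‖ := by
      intro i
      rw [← map_sub, U.norm_map]
    simp only [h6] at h3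
    rw [h1, h2] at h3
    have h7 : ∫ y, φ (fun i => U (f i) y) ∂ν - ∫ x, φ (fun i => f i x) ∂μ =
        (∫ y, φ (fun i => U (f i) y) ∂ν - ∫ x, φ (fun i => g i x) ∂μ) -
        (∫ x, φ (fun i => f i x) ∂μ - ∫ x, φ (fun i => g i x) ∂μ) := by ring
    rw [h7]
    refine (abs_sub _ _).trans ?_
    linarith
  have hzero : |∫ y, φ (fun i => U (f i) y) ∂ν - ∫ x, φ (fun i => f i x) ∂μ| ≤ 0 := by
    apply le_of_forall_pos_le_add
    intro η hη
    have hpos : 0 < 2 * (|K| * (Fintype.card ι + 1)) + 1 := by positivity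
    have h1 := hsmall (η / (2 * (|K| * (Fintype.card ι + 1)) + 1)) (by positivity)
    refine h1.trans ?_
    rw [zero_add]
    have h2 : 2 * (|K| * (Fintype.card ι * (η / (2 * (|K| * (Fintype.card ι + 1)) + 1)))) =
        (2 * (|K| * Fintype.card ι)) * η / (2 * (|K| * (Fintype.card ι + 1)) + 1) := by ring
    rw [h2, div_le_iff₀ hpos]
    have h3 : 0 ≤ |K| := abs_nonneg K
    nlinarith
  have := abs_nonpos_iff.mp hzero
  linarith

end Pool.Agent.Lib_helper92.ActL1
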