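import Mathlib

/-!
# The max-stable process of `L₁[0,1]`
-/

set_option autoImplicit false

open MeasureTheory Topology Filter ProbabilityTheory Set
open scoped NNReal ENNReal

noncomputable section

namespace Pool.Agent.Lib_helper92.ActL1

/-- positions of points -/
abbrev Mk : Type := unitInterval × unitInterval
/-- a block: number of points and positions -/
abbrev Blk : Type := ℕ × (ℕ → Mk)
/-- the sample space -/
abbrev Om : Type := (ℕ × Bool) → Blk

/-- law of a position -/
def mkL : Measure Mk := (volume : Measure unitInterval).prod (volume : Measure unitInterval)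

instance : IsProbabilityMeasure mkL := by unfold mkL; infer_instance

/-- law of a block -/
def blkL : Measure Blk := (poissonMeasure 1).prod (Measure.infinitePi fun _ : ℕ => mkL)

instance : IsProbabilityMeasure blkL := by unfold blkL; infer_instance

/-- the law on the sample space -/
def PP : Measure Om := Measure.infinitePi fun _ : ℕ × Bool => blkL

instance : IsProbabilityMeasure PP := by unfold PP; infer_instance

/-- sign -/
def sg (b : Bool) : ℝ := if b then 1 else -1

lemma blk_void (A : Set Mk) (hA : MeasurableSet A) :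
    blkL {w | ∀ k < w.1, w.2 k ∉ A} = ENNReal.ofReal (Real.exp (-(mkL A).toReal)) := by
  have hm : MeasurableSet {w : Blk | ∀ k < w.1, w.2 k ∉ A} := by
    have : {w : Blk | ∀ k < w.1, w.2 k ∉ A} = ⋂ k : ℕ, {w : Blk | k < w.1 → w.2 k ∉ A} := by
      ext w; simp
    rw [this]
    apply MeasurableSet.iInter
    intro k
    have h2 : {w : Blk | k < w.1 → w.2 k ∉ A} = {w : Blk | k < w.1}ᶜ ∪ {w : Blk | w.2 k ∈ A}ᶜ := by
      ext w
      simp only [mem_ofPred_eq, mem_union, mem_compl_iff]
      tauto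
    rw [h2]
    refine (MeasurableSet.compl ?_).union (MeasurableSet.compl ?_)
    · exact measurable_fst (MeasurableSet.of_discrete (s := {n : ℕ | k < n}))
    · exact ((measurable_pi_apply k).comp measurable_snd) hA
  unfold blkL
  rw [Measure.prod_apply hm]
  have h1 : ∀ n : ℕ, (Measure.infinitePi fun _ : ℕ => mkL) (Prod.mk n ⁻¹'
      {w : Blk | ∀ k < w.1, w.2 k ∉ A}) = (mkL Aᶜ) ^ n := by
    intro n
    have h2 : (Prod.mk n ⁻¹' {w : Blk | ∀ k < w.1, w.2 k ∉ A}) =
        Set.pi (Finset.range n : Finset ℕ) (fun _ => Aᶜ) := by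
      ext y
      simp
    rw [h2, Measure.infinitePi_pi _ (fun i _ => hA.compl), Finset.prod_const, Finset.card_range]
  rw [lintegral_congr h1]
  unfold poissonMeasure
  rw [lintegral_sum_measure]
  simp only [lintegral_smul_measure, lintegral_dirac]
  have h3 : mkL Aᶜ = ENNReal.ofReal (1 - (mkL A).toReal) := by
    rw [prob_compl_eq_one_sub hA, ENNReal.ofReal_sub _ ENNReal.toReal_nonneg,
      ENNReal.ofReal_toReal (measure_ne_top _ _), ENNReal.ofReal_one]
  have h4 : (mkL A).toReal ≤ 1 := by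
    have : mkL A ≤ 1 := prob_le_one
    exact ENNReal.toReal_le_of_le_ofReal zero_le_one (by rwa [ENNReal.ofReal_one])
  obtain ⟨a, ha⟩ : ∃ a, a = (mkL A).toReal := ⟨_, rfl⟩
  rw [h3, ← ha]
  rw [← ha] at h4
  have h5 : ∀ n : ℕ, ENNReal.ofReal (Real.exp (-((1 : ℝ≥0) : ℝ)) * ((1 : ℝ≥0) : ℝ) ^ n /
      (n.factorial : ℝ)) • ENNReal.ofReal (1 - a) ^ n =
      ENNReal.ofReal (Real.exp (-1) * ((1 - a) ^ n / (n.factorial : ℝ))) := by
    intro n
    rw [smul_eq_mul, ← ENNReal.ofReal_pow (by linarith), ← ENNReal.ofReal_mul (by positivity)]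
    congr 1
    simp only [NNReal.coe_one, one_pow, mul_one]
    ring
  simp only [h5]
  have h6 : HasSum (fun n : ℕ => (1 - a) ^ n / (n.factorial : ℝ)) (Real.exp (1 - a)) := by
    rw [Real.exp_eq_exp_ℝ]
    exact NormedSpace.expSeries_div_hasSum_exp (1 - a)
  have h7 := h6.mul_left (Real.exp (-1))
  have h8 : ∀ n : ℕ, 0 ≤ Real.exp (-1) * ((1 - a) ^ n / (n.factorial : ℝ)) := by
    intro n
    have : (0 : ℝ) ≤ 1 - a := by linarith
    positivity
  rw [← ENNReal.ofReal_tsum_of_nonneg h8 h7.summable, h7.tsum_eq, ← Real.exp_add]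
  congr 2
  ring

lemma PP_void (A : ℕ × Bool → Set Mk) (hA : ∀ c, MeasurableSet (A c)) (S : ℝ)
    (hS : HasSum (fun c => (mkL (A c)).toReal) S) :
    PP {ω | ∀ c, ∀ k < (ω c).1, (ω c).2 k ∉ A c} = ENNReal.ofReal (Real.exp (-S)) := by
  have hm : ∀ c, MeasurableSet {w : Blk | ∀ k < w.1, w.2 k ∉ A c} := by
    intro c
    have : {w : Blk | ∀ k < w.1, w.2 k ∉ A c} = ⋂ k : ℕ, {w : Blk | k < w.1 → w.2 k ∉ A c} := by
      ext w; simp
    rw [this]
    apply MeasurableSet.iInter
    intro k
    have h2 : {w : Blk | k < w.1 → w.2 k ∉ A c} =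
        {w : Blk | k < w.1}ᶜ ∪ {w : Blk | w.2 k ∈ A c}ᶜ := by
      ext w
      simp only [mem_ofPred_eq, mem_union, mem_compl_iff]
      tauto
    rw [h2]
    refine (MeasurableSet.compl ?_).union (MeasurableSet.compl ?_)
    · exact measurable_fst (MeasurableSet.of_discrete (s := {n : ℕ | k < n}))
    · exact ((measurable_pi_apply k).comp measurable_snd) (hA c)
  have h1 : {ω : Om | ∀ c, ∀ k < (ω c).1, (ω c).2 k ∉ A c} =
      Set.univ.pi (fun c => {w : Blk | ∀ k < w.1, w.2 k ∉ A c}) := by
    ext ω; simp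
  rw [h1]
  unfold PP
  rw [Measure.infinitePi_pi_univ _ hm]
  have h2 : HasProd (fun c => blkL {w : Blk | ∀ k < w.1, w.2 k ∉ A c})
      (ENNReal.ofReal (Real.exp (-S))) := by
    have h3 : HasProd (fun c => Real.exp (-(mkL (A c)).toReal)) (Real.exp (-S)) := hS.neg.rexp
    have h4 : (fun c => blkL {w : Blk | ∀ k < w.1, w.2 k ∉ A c}) =
        fun c => ENNReal.ofReal (Real.exp (-(mkL (A c)).toReal)) := by
      funext c; exact blk_void _ (hA c)
    rw [h4]
    unfold HasProd at h3 ⊢
    have h5 := (ENNReal.continuous_ofReal.tendsto (Real.exp (-S))).comp h3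
    refine h5.congr (fun s => ?_)
    show ENNReal.ofReal (∏ c ∈ s, Real.exp (-(mkL (A c)).toReal)) = _
    exact ENNReal.ofReal_prod_of_nonneg (fun i _ => (Real.exp_pos _).le)
  exact h2.tprod_eq

lemma vol_lt (y : ℝ) : (volume : Measure unitInterval) {τ | (τ : ℝ) < y} =
    ENNReal.ofReal (min 1 y) := by
  rcases le_or_gt y 0 with h | h
  · have : {τ : unitInterval | (τ : ℝ) < y} = ∅ := by
      ext τ
      simp only [mem_ofPred_eq, mem_empty_iff_false, iff_false, not_lt]
      exact h.trans τ.2.1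
    rw [this, measure_empty, ENNReal.ofReal_of_nonpos ((min_le_right _ _).trans h)]
  · rcases le_or_gt y 1 with h' | h'
    · have : {τ : unitInterval | (τ : ℝ) < y} = Iio (⟨y, h.le, h'⟩ : unitInterval) := by
        ext τ
        simp only [mem_ofPred_eq, mem_Iio]
        exact Iff.rfl
      rw [this, unitInterval.volume_Iio, min_eq_right h']
    · have : {τ : unitInterval | (τ : ℝ) < y} = univ := by
        ext τ
        simp only [mem_ofPred_eq, mem_univ, iff_true]
        exact τ.2.2.trans_lt h'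
      rw [this, measure_univ, min_eq_left h'.le, ENNReal.ofReal_one]

lemma sum_vol (h : ℝ≥0) (n : ℕ) : ∑ j ∈ Finset.range n,
    (volume : Measure unitInterval) {τ | (j : ℝ) + (τ : ℝ) < h} =
    ENNReal.ofReal (min n (h : ℝ)) := by
  induction n with
  | zero => simp
  | succ n ih =>
    rw [Finset.sum_range_succ, ih]
    have h1 : {τ : unitInterval | (n : ℝ) + (τ : ℝ) < h} =
        {τ : unitInterval | (τ : ℝ) < h - n} := by
      ext τ
      simp only [mem_ofPred_eq]
      constructor <;> intro h <;> linarith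
    rw [h1, vol_lt]
    rcases le_or_gt (h : ℝ) n with h2 | h2
    · rw [ENNReal.ofReal_of_nonpos ((min_le_right 1 _).trans (by linarith)), add_zero,
        min_eq_right h2, min_eq_right (by push_cast; linarith)]
    · have h3 : 0 ≤ min 1 ((h : ℝ) - n) := le_min zero_le_one (by linarith)
      rw [← ENNReal.ofReal_add (le_min (Nat.cast_nonneg n) (NNReal.coe_nonneg h)) h3, min_eq_left h2.le]
      congr 1
      push_cast
      rw [← min_add_add_left]
      congr 1
      ring

lemma tsum_vol (h : ℝ≥0) : ∑' j : ℕ,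
    (volume : Measure unitInterval) {τ | (j : ℝ) + (τ : ℝ) < h} = h := by
  have h1 : Tendsto (fun n : ℕ => ∑ j ∈ Finset.range n,
      (volume : Measure unitInterval) {τ | (j : ℝ) + (τ : ℝ) < h}) atTop
      (𝓝 (∑' j : ℕ, (volume : Measure unitInterval) {τ | (j : ℝ) + (τ : ℝ) < h})) :=
    ENNReal.summable.hasSum.tendsto_sum_nat
  refine tendsto_nhds_unique h1 ?_
  simp only [sum_vol]
  obtain ⟨N, hN⟩ := exists_nat_ge (h : ℝ)
  apply tendsto_const_nhds.congr'
  filter_upwards [eventually_ge_atTop N] with n hn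
  have : (h : ℝ) ≤ n := hN.trans (by exact_mod_cast hn)
  rw [min_eq_right this, ENNReal.ofReal_coe_nnreal]

/-- the functional giving the laws of the process -/
def phi {ι : Type} [Fintype ι] (v : ι → ℝ) : ℝ :=
  ((Finset.univ.sup fun i => (v i).toNNReal : ℝ≥0) : ℝ) +
    ((Finset.univ.sup fun i => (-v i).toNNReal : ℝ≥0) : ℝ)

/-- the max-stable process -/
def NN (f : unitInterval → ℝ) (ω : Om) : ℝ≥0∞ :=
  ⨆ (c : ℕ × Bool) (k : ℕ) (_ : k < (ω c).1),
    ENNReal.ofReal (sg c.2 * f ((ω c).2 k).1) / ENNReal.ofReal (c.1 + (((ω c).2 k).2 : ℝ))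

lemma ratio_le_iff (v t : ℝ) (ht : 0 ≤ t) (u : ℝ≥0) :
    ENNReal.ofReal v / ENNReal.ofReal t ≤ u ↔ v ≤ u * t := by
  rw [ENNReal.div_le_iff_le_mul (Or.inr ENNReal.coe_ne_top) (Or.inl ENNReal.ofReal_ne_top)]
  rw [← ENNReal.ofReal_coe_nnreal, ← ENNReal.ofReal_mul (NNReal.coe_nonneg u)]
  exact ENNReal.ofReal_le_ofReal_iff (mul_nonneg u.2 ht)

lemma NN_le_iff (f : unitInterval → ℝ) (ω : Om) (u : ℝ≥0) :
    NN f ω ≤ u ↔ ∀ c, ∀ k < (ω c).1,
      sg c.2 * f ((ω c).2 k).1 ≤ u * (c.1 + (((ω c).2 k).2 : ℝ)) := by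
  unfold NN
  simp only [iSup_le_iff]
  constructor
  · intro h c k hk
    have := h c k hk
    rwa [ratio_le_iff _ _ (add_nonneg (Nat.cast_nonneg _) ((ω c).2 k).2.2.1)] at this
  · intro h c k hk
    rw [ratio_le_iff _ _ (add_nonneg (Nat.cast_nonneg _) ((ω c).2 k).2.2.1)]
    exact h c k hk

lemma measurable_NN (f : unitInterval → ℝ) (hf : Measurable f) : Measurable (NN f) := by
  unfold NN
  apply Measurable.iSup; intro c
  apply Measurable.iSup; intro k
  have h1 : Measurable fun ω : Om => (ω c).1 := measurable_fst.comp (measurable_pi_apply c)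
  have h2 : Measurable fun ω : Om => (ω c).2 k :=
    (measurable_pi_apply k).comp (measurable_snd.comp (measurable_pi_apply c))
  have hs : MeasurableSet {ω : Om | k < (ω c).1} :=
    h1 (MeasurableSet.of_discrete (s := {n : ℕ | k < n}))
  have hF : Measurable fun ω : Om => ENNReal.ofReal (sg c.2 * f ((ω c).2 k).1) /
      ENNReal.ofReal (c.1 + (((ω c).2 k).2 : ℝ)) := by
    apply Measurable.div
    · exact ENNReal.measurable_ofReal.comp ((hf.comp (measurable_fst.comp h2)).const_mul _)
    · exact ENNReal.measurable_ofReal.comp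
        ((measurable_subtype_coe.comp (measurable_snd.comp h2)).const_add _)
  have : (fun ω : Om => ⨆ (_ : k < (ω c).1), ENNReal.ofReal (sg c.2 * f ((ω c).2 k).1) /
      ENNReal.ofReal (c.1 + (((ω c).2 k).2 : ℝ))) =
      fun ω => ({ω : Om | k < (ω c).1}.indicator (fun ω => ENNReal.ofReal (sg c.2 *
        f ((ω c).2 k).1) / ENNReal.ofReal (c.1 + (((ω c).2 k).2 : ℝ))) ω) := by
    funext ω
    by_cases h : k < (ω c).1
    · rw [Set.indicator_of_mem (by exact h)]
      simp [h]
    · rw [Set.indicator_of_notMem (by exact h)]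
      simp [h]
  rw [this]
  exact hF.indicator hs

theorem PP_NN_le {ι : Type} [Fintype ι] (f : ι → unitInterval → ℝ) (hf : ∀ i, Measurable (f i))
    (hint : ∀ i, Integrable (f i)) (u : ι → ℝ≥0) (hu : ∀ i, 0 < u i) :
    PP {ω | ∀ i, NN (f i) ω ≤ u i} =
      ENNReal.ofReal (Real.exp (-∫ x, phi (fun i => f i x / u i))) := by
  let h : Bool → unitInterval → ℝ≥0 := fun b x =>
    Finset.univ.sup fun i => (sg b * (f i x / u i)).toNNReal
  have hm : ∀ b, Measurable (h b) := by
    intro b
    have : h b = Finset.univ.sup (fun i => fun x => (sg b * (f i x / u i)).toNNReal) := by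
      funext x
      rw [Finset.sup_apply]
    rw [this]
    refine Finset.sup_induction (p := fun g : unitInterval → ℝ≥0 => Measurable g)
      measurable_const (fun _ h1 _ h2 => h1.sup h2) ?_
    intro i _
    exact (((hf i).div_const _).const_mul _).real_toNNReal
  have hint' : ∀ b, Integrable (fun x => (h b x : ℝ)) := by
    intro b
    refine Integrable.mono' (g := fun x => ∑ i, |f i x / u i|)
      (integrable_finsetSum _ (fun i _ => ((hint i).div_const _).abs))
      (hm b).coe_nnreal_real.aestronglyMeasurable ?_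
    filter_upwards with x
    rw [Real.norm_eq_abs, NNReal.abs_eq]
    have h1 : h b x ≤ ∑ i, (|f i x / u i|).toNNReal := by
      apply Finset.sup_le
      intro i _
      refine le_trans ?_ (Finset.single_le_sum (f := fun i => (|f i x / u i|).toNNReal)
        (fun _ _ => zero_le) (Finset.mem_univ i))
      apply Real.toNNReal_le_toNNReal
      unfold sg
      split_ifs
      · rw [one_mul]; exact le_abs_self _
      · rw [neg_one_mul]; exact neg_le_abs _
    refine (NNReal.coe_le_coe.mpr h1).trans (le_of_eq ?_)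
    rw [NNReal.coe_sum]
    apply Finset.sum_congr rfl
    intro i _
    exact Real.coe_toNNReal _ (abs_nonneg _)
  let A : ℕ × Bool → Set Mk := fun c => {p | (c.1 : ℝ) + (p.2 : ℝ) < h c.2 p.1}
  have hA : ∀ c, MeasurableSet (A c) := by
    intro c
    apply measurableSet_lt
    · exact (measurable_subtype_coe.comp measurable_snd).const_add _
    · exact (hm c.2).coe_nnreal_real.comp measurable_fst
  have hset : {ω : Om | ∀ i, NN (f i) ω ≤ u i} =
      {ω | ∀ c, ∀ k < (ω c).1, (ω c).2 k ∉ A c} := by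
    ext ω
    simp only [mem_ofPred_eq, NN_le_iff]
    have key : ∀ (c : ℕ × Bool) (k : ℕ), ((ω c).2 k ∉ A c ↔ ∀ i, sg c.2 * f i ((ω c).2 k).1 ≤
        u i * (c.1 + (((ω c).2 k).2 : ℝ))) := by
      intro c k
      have ht : 0 ≤ (c.1 : ℝ) + (((ω c).2 k).2 : ℝ) :=
        add_nonneg (Nat.cast_nonneg _) ((ω c).2 k).2.2.1
      show ¬ ((c.1 : ℝ) + (((ω c).2 k).2 : ℝ) < h c.2 ((ω c).2 k).1) ↔ _
      rw [not_lt]
      have h1 : ((h c.2 ((ω c).2 k).1 : ℝ) ≤ (c.1 : ℝ) + (((ω c).2 k).2 : ℝ)) ↔
          h c.2 ((ω c).2 k).1 ≤ ((c.1 : ℝ) + (((ω c).2 k).2 : ℝ)).toNNReal := by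
        rw [← NNReal.coe_le_coe, Real.coe_toNNReal _ ht]
      rw [h1, Finset.sup_le_iff]
      have h2 : ∀ i, ((sg c.2 * (f i ((ω c).2 k).1 / u i)).toNNReal ≤
          ((c.1 : ℝ) + (((ω c).2 k).2 : ℝ)).toNNReal ↔ sg c.2 * f i ((ω c).2 k).1 ≤
        u i * (c.1 + (((ω c).2 k).2 : ℝ))) := by
        intro i
        rw [Real.toNNReal_le_toNNReal_iff ht]
        have hui : (0 : ℝ) < u i := hu i
        rw [← mul_div_assoc, div_le_iff₀ hui, mul_comm _ (u i : ℝ)]
      constructor
      · intro h3 i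
        exact (h2 i).mp (h3 i (Finset.mem_univ i))
      · intro h3 i _
        exact (h2 i).mpr (h3 i)
    constructor
    · intro h3 c k hk
      rw [key]
      intro i
      exact h3 i c k hk
    · intro h3 i c k hk
      exact (key c k).mp (h3 c k hk) i
  rw [hset]
  -- the intensity
  have hsumE : ∀ b, ∑' j : ℕ, mkL (A (j, b)) = ∫⁻ x, (h b x : ℝ≥0∞) := by
    intro b
    have h1 : ∀ j : ℕ, mkL (A (j, b)) =
        ∫⁻ x, (volume : Measure unitInterval) {τ | (j : ℝ) + (τ : ℝ) < h b x} := by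
      intro j
      unfold mkL
      rw [Measure.prod_apply (hA (j, b))]
      rfl
    simp only [h1]
    rw [← lintegral_tsum]
    · apply lintegral_congr
      intro x
      exact tsum_vol (h b x)
    · intro j
      have := measurable_measure_prodMk_left (ν := (volume : Measure unitInterval)) (hA (j, b))
      exact this.aemeasurable
  have hlin : ∀ b, ∫⁻ x, (h b x : ℝ≥0∞) = ENNReal.ofReal (∫ x, (h b x : ℝ)) := by
    intro b
    rw [ofReal_integral_eq_lintegral_ofReal (hint' b)
      (Eventually.of_forall (fun x => (h b x).2))]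
    apply lintegral_congr
    intro x
    rw [ENNReal.ofReal_coe_nnreal]
  have hS0 : ∑' c : ℕ × Bool, mkL (A c) =
      ENNReal.ofReal ((∫ x, (h true x : ℝ)) + ∫ x, (h false x : ℝ)) := by
    rw [ENNReal.tsum_prod (f := fun j b => mkL (A (j, b))), ENNReal.tsum_comm, tsum_bool, hsumE,
      hsumE, hlin, hlin, ← ENNReal.ofReal_add, add_comm]
    · exact integral_nonneg (fun x => (h false x).2)
    · exact integral_nonneg (fun x => (h true x).2)
  have hS : HasSum (fun c : ℕ × Bool => (mkL (A c)).toReal)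
      ((∫ x, (h true x : ℝ)) + ∫ x, (h false x : ℝ)) := by
    have h1 : ∑' c : ℕ × Bool, mkL (A c) ≠ ⊤ := by
      rw [hS0]; exact ENNReal.ofReal_ne_top
    have h2 := ENNReal.hasSum_toReal h1
    have h3 : (∑' c : ℕ × Bool, (mkL (A c)).toReal) =
        (∫ x, (h true x : ℝ)) + ∫ x, (h false x : ℝ) := by
      rw [← ENNReal.tsum_toReal_eq (fun j => measure_ne_top _ _), hS0]
      exact ENNReal.toReal_ofReal (add_nonneg (integral_nonneg (fun x => (h true x).2))
        (integral_nonneg (fun x => (h false x).2)))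
    rw [← h3]
    exact h2
  rw [PP_void A hA _ hS]
  congr 3
  rw [← integral_add (hint' true) (hint' false)]
  apply integral_congr_ae
  filter_upwards with x
  show _ = phi _
  unfold phi
  simp only [h, sg, if_true, one_mul]
  simp

end Pool.Agent.Lib_helper92.ActL1
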