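import Mathlib
import Pool.Agent.Lib_helper92.ActL1.Defs
import Pool.Agent.Lib_helper92.ActL1.Homog
import Pool.Agent.Lib_helper92.ActL1.Process

/-!
# The law of the max-stable process, invariance and moments
-/

set_option autoImplicit false

open MeasureTheory Topology Filter ProbabilityTheory Set
open scoped NNReal ENNReal

noncomputable section

namespace Pool.Agent.Lib_helper92.ActL1

section phi
variable {ι : Type} [Fintype ι]

/-- the positive half -/
def pos (v : ι → ℝ) : ℝ≥0 := Finset.univ.sup fun i => (v i).toNNReal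

lemma phi_eq (v : ι → ℝ) : phi v = (pos v : ℝ) + (pos (-v) : ℝ) := rfl

lemma phi_nonneg (v : ι → ℝ) : 0 ≤ phi v := by
  rw [phi_eq]; positivity

lemma pos_smul (c : ℝ) (hc : 0 ≤ c) (v : ι → ℝ) : (pos (c • v) : ℝ) = c * (pos v : ℝ) := by
  have h1 : pos (c • v) = c.toNNReal * pos v := by
    unfold pos
    rw [NNReal.mul_finset_sup]
    congr 1
    funext i
    rw [Pi.smul_apply, smul_eq_mul, Real.toNNReal_mul hc]
  rw [h1, NNReal.coe_mul, Real.coe_toNNReal _ hc]

lemma phi_smul (c : ℝ) (v : ι → ℝ) : phi (c • v) = |c| * phi v := by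
  rcases le_total 0 c with hc | hc
  · rw [phi_eq, phi_eq, ← smul_neg, pos_smul c hc, pos_smul c hc, abs_of_nonneg hc]
    ring
  · have h1 : c • v = (-c) • (-v) := by rw [neg_smul_neg]
    rw [phi_eq, phi_eq, h1, ← smul_neg, neg_neg, pos_smul (-c) (by linarith),
      pos_smul (-c) (by linarith), abs_of_nonpos hc]
    ring

lemma pos_lip (v w : ι → ℝ) : (pos v : ℝ) ≤ pos w + ∑ i, |v i - w i| := by
  have h1 : pos v ≤ pos w + ∑ i, (|v i - w i|).toNNReal := by
    apply Finset.sup_le
    intro i _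
    have h2 : (v i).toNNReal ≤ (w i).toNNReal + (|v i - w i|).toNNReal := by
      refine le_trans (Real.toNNReal_le_toNNReal ?_) Real.toNNReal_add_le
      linarith [le_abs_self (v i - w i)]
    refine h2.trans (add_le_add ?_ ?_)
    · exact Finset.le_sup (f := fun i => (w i).toNNReal) (Finset.mem_univ i)
    · exact Finset.single_le_sum (f := fun i => (|v i - w i|).toNNReal)
        (fun _ _ => zero_le) (Finset.mem_univ i)
  have h2 := NNReal.coe_le_coe.mpr h1
  rw [NNReal.coe_add, NNReal.coe_sum] at h2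
  refine h2.trans (le_of_eq ?_)
  congr 1
  apply Finset.sum_congr rfl
  intro i _
  exact Real.coe_toNNReal _ (abs_nonneg _)

lemma phi_lip (v w : ι → ℝ) : |phi v - phi w| ≤ 2 * ∑ i, |v i - w i| := by
  have h1 := pos_lip v w
  have h2 := pos_lip w v
  have h3 := pos_lip (-v) (-w)
  have h4 := pos_lip (-w) (-v)
  have e1 : ∑ i, |w i - v i| = ∑ i, |v i - w i| :=
    Finset.sum_congr rfl (fun i _ => abs_sub_comm _ _)
  have e2 : ∑ i, |(-v) i - (-w) i| = ∑ i, |v i - w i| :=
    Finset.sum_congr rfl (fun i _ => by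
      rw [Pi.neg_apply, Pi.neg_apply, neg_sub_neg, abs_sub_comm])
  have e3 : ∑ i, |(-w) i - (-v) i| = ∑ i, |v i - w i| :=
    Finset.sum_congr rfl (fun i _ => by rw [Pi.neg_apply, Pi.neg_apply, neg_sub_neg])
  rw [e1] at h2
  rw [e2] at h3
  rw [e3] at h4
  rw [phi_eq, phi_eq, abs_le]
  constructor <;> linarith

lemma phi_zero : phi (0 : ι → ℝ) = 0 := by
  have := phi_smul (0 : ℝ) (0 : ι → ℝ)
  rwa [smul_zero, abs_zero, zero_mul] at this

/-- the scale of a finite family of vectors -/
def Sc (c : ι → ℝ) (f : ι → L1) : ℝ := ∫ x, phi (fun i => c i * f i x)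

lemma phi_hom (c : ι → ℝ) (a : ℝ) (v : ι → ℝ) :
    (fun v : ι → ℝ => phi fun i => c i * v i) (a • v) =
      |a| * (fun v : ι → ℝ => phi fun i => c i * v i) v := by
  show phi (fun i => c i * (a • v) i) = |a| * phi (fun i => c i * v i)
  rw [← phi_smul]
  congr 1
  funext i
  simp only [Pi.smul_apply, smul_eq_mul]
  ring

lemma phi_lip' (c : ι → ℝ) (v w : ι → ℝ) :
    |(fun v : ι → ℝ => phi fun i => c i * v i) v - (fun v : ι → ℝ => phi fun i => c i * v i) w| ≤
      (2 * ∑ j, |c j|) * ∑ i, |v i - w i| := by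
  refine (phi_lip _ _).trans ?_
  rw [mul_assoc]
  apply mul_le_mul_of_nonneg_left _ (by norm_num : (0 : ℝ) ≤ 2)
  rw [Finset.mul_sum]
  apply Finset.sum_le_sum
  intro i _
  rw [← mul_sub, abs_mul]
  exact mul_le_mul_of_nonneg_right (Finset.single_le_sum (f := fun j => |c j|)
    (fun _ _ => abs_nonneg _) (Finset.mem_univ i)) (abs_nonneg _)

lemma integrable_phi (c : ι → ℝ) (f : ι → L1) : Integrable (fun x => phi (fun i => c i * f i x)) :=
  homog_integrable (fun v : ι → ℝ => phi fun i => c i * v i)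
    (by
      show phi (fun i => c i * (0 : ι → ℝ) i) = 0
      have : (fun i => c i * (0 : ι → ℝ) i) = 0 := by funext i; simp
      rw [this, phi_zero]) _ (phi_lip' c) f

lemma Sc_map (U : L1 →ₗᵢ[ℝ] L1) (c : ι → ℝ) (f : ι → L1) : Sc c (fun i => U (f i)) = Sc c f :=
  homog U f (fun v : ι → ℝ => phi fun i => c i * v i) (phi_hom c) _ (phi_lip' c)

lemma Sc_nonneg (c : ι → ℝ) (f : ι → L1) : 0 ≤ Sc c f :=
  integral_nonneg (fun _ => phi_nonneg _)

lemma Sc_lip (c c' : ι → ℝ) (f : ι → L1) :
    |Sc c f - Sc c' f| ≤ 2 * ∑ i, |c i - c' i| * ‖f i‖ := by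
  unfold Sc
  rw [← integral_sub (integrable_phi c f) (integrable_phi c' f)]
  refine abs_integral_le_integral_abs.trans ?_
  have h1 : 2 * ∑ i, |c i - c' i| * ‖f i‖ = ∫ x, 2 * ∑ i, |c i - c' i| * |f i x| := by
    rw [integral_const_mul, integral_finsetSum _
      (fun i _ => ((L1.integrable_coeFn (f i)).abs.const_mul _))]
    congr 1
    apply Finset.sum_congr rfl
    intro i _
    rw [integral_const_mul]
    congr 1
    exact L1.norm_eq_integral_norm (f i)
  rw [h1]
  apply integral_mono ((integrable_phi c f).sub (integrable_phi c' f)).abs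
  · exact (integrable_finsetSum _
      (fun i _ => ((L1.integrable_coeFn (f i)).abs.const_mul _))).const_mul _
  · intro x
    refine (phi_lip _ _).trans (le_of_eq ?_)
    show 2 * ∑ i, |c i * f i x - c' i * f i x| = 2 * ∑ i, |c i - c' i| * |f i x|
    congr 1
    apply Finset.sum_congr rfl
    intro i _
    rw [← sub_mul, abs_mul]

end phi

section law
variable (D : Set L1)

/-- the map giving the process -/
def evD (ω : Om) : D → ℝ≥0∞ := fun f => NN (f : L1) ω

lemma measurable_evD : Measurable (evD D) := by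
  apply measurable_pi_lambda
  intro f
  exact measurable_NN _ (Lp.stronglyMeasurable (f : L1)).measurable

/-- the law of the process indexed by `D` -/
def muD : Measure (D → ℝ≥0∞) := PP.map (evD D)

instance : IsProbabilityMeasure (muD D) :=
  Measure.isProbabilityMeasure_map (measurable_evD D).aemeasurable

lemma measurableSet_box {ι : Type} [Fintype ι] (f : ι → D) (u : ι → ℝ≥0∞) :
    MeasurableSet {w : D → ℝ≥0∞ | ∀ i, w (f i) ≤ u i} := by
  have : {w : D → ℝ≥0∞ | ∀ i, w (f i) ≤ u i} = ⋂ i, {w | w (f i) ≤ u i} := by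
    ext w; simp
  rw [this]
  exact MeasurableSet.iInter (fun i => measurableSet_le (measurable_pi_apply _) measurable_const)

lemma muD_box {ι : Type} [Fintype ι] (f : ι → D) (u : ι → ℝ≥0) (hu : ∀ i, 0 < u i) :
    muD D {w | ∀ i, w (f i) ≤ u i} =
      ENNReal.ofReal (Real.exp (-Sc (fun i => (u i : ℝ)⁻¹) (fun i => (f i : L1)))) := by
  unfold muD
  rw [Measure.map_apply (measurable_evD D) (measurableSet_box D f _)]
  have h1 : evD D ⁻¹' {w | ∀ i, w (f i) ≤ u i} = {ω | ∀ i, NN (f i : L1) ω ≤ u i} := rfl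
  rw [h1, PP_NN_le (fun i => ((f i : L1) : unitInterval → ℝ))
    (fun i => (Lp.stronglyMeasurable _).measurable) (fun i => L1.integrable_coeFn _) u hu]
  unfold Sc
  congr 4
  funext x
  congr 1
  funext i
  rw [div_eq_inv_mul]

/-- the boxes -/
def boxes : Set (Set (D → ℝ≥0∞)) :=
  {B | ∃ (s : Finset D) (u : D → ℝ≥0), (∀ f, 0 < u f) ∧ B = {w | ∀ f ∈ s, w f ≤ (u f : ℝ≥0∞)}}

lemma isPiSystem_boxes : IsPiSystem (boxes D) := by
  classical
  rintro _ ⟨s, u, hu, rfl⟩ _ ⟨s', u', hu', rfl⟩ _
  refine ⟨s ∪ s', fun f => if f ∈ s then (if f ∈ s' then min (u f) (u' f) else u f) else u' f,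
    ?_, ?_⟩
  · intro f
    dsimp only
    split_ifs
    · exact lt_min (hu f) (hu' f)
    · exact hu f
    · exact hu' f
  · ext w
    simp only [mem_inter_iff, mem_ofPred_eq, Finset.mem_union]
    constructor
    · rintro ⟨h1, h2⟩ f hf
      by_cases a : f ∈ s
      · by_cases b : f ∈ s'
        · simp only [a, b, if_true]
          rw [ENNReal.coe_min]
          exact le_min (h1 f a) (h2 f b)
        · simp only [a, b, if_true, if_false]
          exact h1 f a
      · have b : f ∈ s' := by tauto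
        simp only [a, if_false]
        exact h2 f b
    · intro h
      constructor
      · intro f a
        have h1 := h f (Or.inl a)
        by_cases b : f ∈ s'
        · simp only [a, b, if_true] at h1
          rw [ENNReal.coe_min] at h1
          exact h1.trans (min_le_left _ _)
        · simp only [a, b, if_true, if_false] at h1
          exact h1
      · intro f b
        have h1 := h f (Or.inr b)
        by_cases a : f ∈ s
        · simp only [a, b, if_true] at h1
          rw [ENNReal.coe_min] at h1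
          exact h1.trans (min_le_right _ _)
        · simp only [a, if_false] at h1
          exact h1

lemma measurableSet_of_Iic {δ : Type} (m : MeasurableSpace δ) (h : δ → ℝ≥0∞)
    (hh : ∀ u : ℝ≥0, 0 < u → MeasurableSet {w | h w ≤ u}) : Measurable h := by
  apply measurable_of_Iic
  intro a
  induction a with
  | top =>
    have : h ⁻¹' Iic ⊤ = univ := by ext w; simp
    rw [this]; exact MeasurableSet.univ
  | coe a =>
    rcases eq_or_ne a 0 with rfl | ha
    · have : h ⁻¹' Iic ((0 : ℝ≥0) : ℝ≥0∞) = ⋂ n : ℕ, {w | h w ≤ ((1 / ((n : ℝ≥0) + 1) : ℝ≥0) : ℝ≥0∞)} := by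
        ext w
        simp only [mem_preimage, mem_Iic, mem_iInter, mem_ofPred_eq]
        constructor
        · intro h1 n
          exact h1.trans (by simp)
        · intro h1
          rw [ENNReal.coe_zero]
          apply ge_of_tendsto' (f := fun n : ℕ => ((1 / ((n : ℝ≥0) + 1) : ℝ≥0) : ℝ≥0∞)) (x := atTop)
          · rw [← ENNReal.coe_zero, ENNReal.tendsto_coe]
            have := tendsto_one_div_add_atTop_nhds_zero_nat (𝕜 := ℝ)
            rw [← NNReal.tendsto_coe]
            simpa using this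
          · exact h1
      rw [this]
      exact MeasurableSet.iInter (fun n => hh _ (by positivity))
    · exact hh a (pos_iff_ne_zero.mpr ha)

lemma generateFrom_boxes : (MeasurableSpace.pi : MeasurableSpace (D → ℝ≥0∞)) =
    MeasurableSpace.generateFrom (boxes D) := by
  classical
  apply le_antisymm
  · unfold MeasurableSpace.pi
    apply iSup_le
    intro f
    rw [← measurable_iff_comap_le]
    apply measurableSet_of_Iic (MeasurableSpace.generateFrom (boxes D))
    intro u hu
    apply MeasurableSpace.measurableSet_generateFrom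
    refine ⟨{f}, fun _ => u, fun _ => hu, ?_⟩
    ext w
    simp
  · apply MeasurableSpace.generateFrom_le
    rintro _ ⟨s, u, hu, rfl⟩
    have : {w : D → ℝ≥0∞ | ∀ f ∈ s, w f ≤ u f} =
        {w : D → ℝ≥0∞ | ∀ i : s, w (i : D) ≤ (u i : ℝ≥0∞)} := by
      ext w
      exact ⟨fun h i => h i i.2, fun h f hf => h ⟨f, hf⟩⟩
    rw [this]
    exact measurableSet_box D (fun i : s => (i : D)) (fun i => u i)

lemma ext_boxes (ν ν' : Measure (D → ℝ≥0∞)) [IsProbabilityMeasure ν] [IsProbabilityMeasure ν']
    (h : ∀ (s : Finset D) (u : D → ℝ≥0), (∀ f, 0 < u f) →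
      ν {w | ∀ i : s, w (i : D) ≤ u i} = ν' {w | ∀ i : s, w (i : D) ≤ u i}) : ν = ν' := by
  apply ext_of_generate_finite (boxes D) (generateFrom_boxes D) (isPiSystem_boxes D)
  · rintro _ ⟨s, u, hu, rfl⟩
    have : {w : D → ℝ≥0∞ | ∀ f ∈ s, w f ≤ u f} =
        {w : D → ℝ≥0∞ | ∀ i : s, w (i : D) ≤ (u i : ℝ≥0∞)} := by
      ext w
      exact ⟨fun h i => h i i.2, fun h f hf => h ⟨f, hf⟩⟩
    rw [this]
    exact h s u hu
  · rw [measure_univ, measure_univ]

/-- shifting the coordinates -/
def shift (T : D → D) (w : D → ℝ≥0∞) : D → ℝ≥0∞ := fun f => w (T f)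

lemma measurable_shift (T : D → D) : Measurable (shift D T) :=
  measurable_pi_lambda _ (fun _ => measurable_pi_apply _)

lemma measurePreserving_shift (T : D → D) (U : L1 →ₗᵢ[ℝ] L1) (hT : ∀ f, (T f : L1) = U f) :
    MeasurePreserving (shift D T) (muD D) (muD D) := by
  refine ⟨measurable_shift D T, ?_⟩
  have : IsProbabilityMeasure ((muD D).map (shift D T)) :=
    Measure.isProbabilityMeasure_map (measurable_shift D T).aemeasurable
  apply ext_boxes
  intro s u hu
  rw [Measure.map_apply (measurable_shift D T) (measurableSet_box D (fun i : s => (i : D)) _)]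
  have h1 : shift D T ⁻¹' {w | ∀ i : s, w (i : D) ≤ u i} =
      {w : D → ℝ≥0∞ | ∀ i : s, w (T i) ≤ (u i : ℝ≥0∞)} := rfl
  rw [h1, muD_box D (fun i : s => T i) (fun i => u i) (fun i => hu i),
    muD_box D (fun i : s => (i : D)) (fun i => u i) (fun i => hu i)]
  congr 3
  simp only [hT]
  exact Sc_map U (fun i : s => ((u i : ℝ≥0) : ℝ)⁻¹) (fun i : s => ((i : D) : L1))

end law

end Pool.Agent.Lib_helper92.ActL1
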