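import Mathlib
import Pool.Agent.Lib_helper92.ActL1.Law

/-!
# Moments of the max-stable process
-/

set_option autoImplicit false

open MeasureTheory Topology Filter ProbabilityTheory Set
open scoped NNReal ENNReal

noncomputable section

namespace Pool.Agent.Lib_helper92.ActL1

lemma pos_subtype {ι : Type} [Fintype ι] (p : ι → Prop) [DecidablePred p] (v : ι → ℝ)
    (hv : ∀ i, ¬ p i → v i = 0) : pos (fun i : {i // p i} => v i) = pos v := by
  apply le_antisymm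
  · apply Finset.sup_le
    intro i _
    exact Finset.le_sup (f := fun i => (v i).toNNReal) (Finset.mem_univ (i : ι))
  · apply Finset.sup_le
    intro i _
    by_cases hi : p i
    · exact Finset.le_sup (f := fun i : {i // p i} => (v i).toNNReal)
        (Finset.mem_univ (⟨i, hi⟩ : {i // p i}))
    · rw [hv i hi, Real.toNNReal_zero]
      exact zero_le

lemma phi_subtype {ι : Type} [Fintype ι] (p : ι → Prop) [DecidablePred p] (v : ι → ℝ)
    (hv : ∀ i, ¬ p i → v i = 0) : phi (fun i : {i // p i} => v i) = phi v := by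
  rw [phi_eq, phi_eq, pos_subtype p v hv]
  congr 2
  exact pos_subtype p (-v) (fun i hi => by rw [Pi.neg_apply, hv i hi, neg_zero])

variable (D : Set L1)

lemma muD_sup {ι : Type} [Fintype ι] (f : ι → D) (c : ι → ℝ≥0) (u : ℝ≥0) (hu : 0 < u) :
    muD D {w | (Finset.univ.sup fun i => (c i : ℝ≥0∞) * w (f i)) ≤ u} =
      ENNReal.ofReal (Real.exp (-(Sc (fun i => (c i : ℝ)) (fun i => (f i : L1)) / u))) := by
  classical
  have hset : {w : D → ℝ≥0∞ | (Finset.univ.sup fun i => (c i : ℝ≥0∞) * w (f i)) ≤ u} =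
      {w : D → ℝ≥0∞ | ∀ i : {i // c i ≠ 0}, w (f i) ≤ ((u / c i : ℝ≥0) : ℝ≥0∞)} := by
    ext w
    simp only [mem_ofPred_eq, Finset.sup_le_iff, Finset.mem_univ, true_implies]
    constructor
    · rintro h ⟨i, hi⟩
      have h1 := h i
      rw [ENNReal.coe_div hi, ENNReal.le_div_iff_mul_le (Or.inl (by simpa using hi))
        (Or.inl ENNReal.coe_ne_top), mul_comm]
      exact h1
    · intro h i
      by_cases hi : c i = 0
      · rw [hi]; simp
      · have h1 := h ⟨i, hi⟩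
        rw [ENNReal.coe_div hi, ENNReal.le_div_iff_mul_le (Or.inl (by simpa using hi))
          (Or.inl ENNReal.coe_ne_top), mul_comm] at h1
        exact h1
  rw [hset, muD_box D (fun i : {i // c i ≠ 0} => f i) (fun i => u / c i)
    (fun i => div_pos hu (pos_iff_ne_zero.mpr i.2))]
  congr 3
  unfold Sc
  rw [div_eq_inv_mul, ← integral_const_mul]
  apply integral_congr_ae
  filter_upwards with x
  have hu' : (0 : ℝ) < u := hu
  have h1 := phi_smul ((u : ℝ)⁻¹) (fun i => (c i : ℝ) * (f i : L1) x)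
  rw [abs_of_pos (inv_pos.mpr hu')] at h1
  rw [← h1, ← phi_subtype (fun i => c i ≠ 0) ((u : ℝ)⁻¹ • (fun i => (c i : ℝ) * (f i : L1) x))]
  · congr 1
    funext i
    simp only [Pi.smul_apply, smul_eq_mul, NNReal.coe_div, inv_div]
    ring
  · intro i hi
    rw [not_not] at hi
    simp [hi]

/-- the reference law -/
def FR : Measure ℝ≥0∞ := PP.map (NN fun _ => 1)

instance : IsProbabilityMeasure FR :=
  Measure.isProbabilityMeasure_map (measurable_NN _ measurable_const).aemeasurable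

lemma FR_Iic (u : ℝ≥0) (hu : 0 < u) : FR (Iic (u : ℝ≥0∞)) =
    ENNReal.ofReal (Real.exp (-(1 / (u : ℝ)))) := by
  unfold FR
  rw [Measure.map_apply (measurable_NN _ measurable_const) measurableSet_Iic]
  have h1 := PP_NN_le (ι := Unit) (fun _ _ => (1 : ℝ)) (fun _ => measurable_const)
    (fun _ => integrable_const _) (fun _ => u) (fun _ => hu)
  have h2 : (NN fun _ => 1) ⁻¹' Iic (u : ℝ≥0∞) = {ω | ∀ _ : Unit, NN (fun _ => 1) ω ≤ u} := by
    ext ω
    simp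
  rw [h2, h1]
  have h3 : phi (fun _ : Unit => 1 / (u : ℝ)) = 1 / u := by
    unfold phi
    have hu' : (0 : ℝ) < 1 / u := by positivity
    rw [Finset.univ_unique, Finset.sup_singleton, Finset.sup_singleton, Real.coe_toNNReal _ hu'.le,
      Real.toNNReal_of_nonpos (by linarith), NNReal.coe_zero, add_zero]
  simp only [h3]
  simp

lemma ext_Iic (ν ν' : Measure ℝ≥0∞) [IsProbabilityMeasure ν] [IsProbabilityMeasure ν']
    (h : ∀ u : ℝ≥0, 0 < u → ν (Iic (u : ℝ≥0∞)) = ν' (Iic (u : ℝ≥0∞))) : ν = ν' := by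
  apply ext_of_generate_finite {B : Set ℝ≥0∞ | ∃ u : ℝ≥0, 0 < u ∧ B = Iic (u : ℝ≥0∞)}
  · apply le_antisymm
    · intro s hs
      have h1 := measurableSet_of_Iic (δ := ℝ≥0∞) (MeasurableSpace.generateFrom
        {B : Set ℝ≥0∞ | ∃ u : ℝ≥0, 0 < u ∧ B = Iic (u : ℝ≥0∞)}) (fun w => w) ?_
      · exact h1 hs
      · intro u hu
        apply MeasurableSpace.measurableSet_generateFrom
        exact ⟨u, hu, rfl⟩
    · apply MeasurableSpace.generateFrom_le
      rintro _ ⟨u, hu, rfl⟩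
      exact measurableSet_Iic
  · rintro _ ⟨u, hu, rfl⟩ _ ⟨u', hu', rfl⟩ _
    refine ⟨min u u', lt_min hu hu', ?_⟩
    rw [Iic_inter_Iic, ENNReal.coe_min]
  · rintro _ ⟨u, hu, rfl⟩
    exact h u hu
  · rw [measure_univ, measure_univ]

lemma measurable_sup {ι : Type} [Fintype ι] (f : ι → D) (c : ι → ℝ≥0) :
    Measurable fun w : D → ℝ≥0∞ => Finset.univ.sup fun i => (c i : ℝ≥0∞) * w (f i) := by
  have : (fun w : D → ℝ≥0∞ => Finset.univ.sup fun i => (c i : ℝ≥0∞) * w (f i)) =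
      Finset.univ.sup (fun i => fun w : D → ℝ≥0∞ => (c i : ℝ≥0∞) * w (f i)) := by
    funext w
    rw [Finset.sup_apply]
  rw [this]
  refine Finset.sup_induction (p := fun g : (D → ℝ≥0∞) → ℝ≥0∞ => Measurable g)
    measurable_const (fun _ h1 _ h2 => h1.sup h2) ?_
  intro i _
  exact (measurable_pi_apply (f i)).const_mul _

lemma map_sup {ι : Type} [Fintype ι] (f : ι → D) (c : ι → ℝ≥0) :
    (muD D).map (fun w => Finset.univ.sup fun i => (c i : ℝ≥0∞) * w (f i)) =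
      FR.map (fun y => ENNReal.ofReal (Sc (fun i => (c i : ℝ)) (fun i => (f i : L1))) * y) := by
  have hm := measurable_sup D f c
  have i1 : IsProbabilityMeasure ((muD D).map
    (fun w => Finset.univ.sup fun i => (c i : ℝ≥0∞) * w (f i))) :=
    Measure.isProbabilityMeasure_map hm.aemeasurable
  have hm2 : Measurable (fun y : ℝ≥0∞ => ENNReal.ofReal
    (Sc (fun i => (c i : ℝ)) (fun i => (f i : L1))) * y) := measurable_id.const_mul _
  have i2 : IsProbabilityMeasure (FR.map (fun y => ENNReal.ofReal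
    (Sc (fun i => (c i : ℝ)) (fun i => (f i : L1))) * y)) :=
    Measure.isProbabilityMeasure_map hm2.aemeasurable
  apply ext_Iic
  intro u hu
  rw [Measure.map_apply hm measurableSet_Iic, Measure.map_apply hm2 measurableSet_Iic]
  have h1 : (fun w : D → ℝ≥0∞ => Finset.univ.sup fun i => (c i : ℝ≥0∞) * w (f i)) ⁻¹'
      Iic (u : ℝ≥0∞) = {w | (Finset.univ.sup fun i => (c i : ℝ≥0∞) * w (f i)) ≤ u} := rfl
  rw [h1, muD_sup D f c u hu]
  obtain ⟨S, hS⟩ : ∃ S, S = Sc (fun i => (c i : ℝ)) (fun i => (f i : L1)) := ⟨_, rfl⟩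
  have hS0 : 0 ≤ S := hS ▸ Sc_nonneg _ _
  rw [← hS]
  have hu' : (0 : ℝ) < u := hu
  rcases hS0.eq_or_lt with h0 | h0
  · rw [← h0]
    have : (fun y : ℝ≥0∞ => ENNReal.ofReal 0 * y) ⁻¹' Iic (u : ℝ≥0∞) = univ := by
      ext y; simp
    rw [this, measure_univ]
    simp
  · have h2 : (fun y : ℝ≥0∞ => ENNReal.ofReal S * y) ⁻¹' Iic (u : ℝ≥0∞) =
        Iic (((u / S.toNNReal : ℝ≥0)) : ℝ≥0∞) := by
      ext y
      have hne : S.toNNReal ≠ 0 := by
        intro h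
        rw [Real.toNNReal_eq_zero] at h
        linarith
      simp only [mem_preimage, mem_Iic]
      rw [ENNReal.coe_div hne, ENNReal.le_div_iff_mul_le (Or.inl (by simpa using h0))
        (Or.inl ENNReal.coe_ne_top), mul_comm]
      rfl
    have hpos : 0 < u / S.toNNReal := div_pos hu (Real.toNNReal_pos.mpr h0)
    rw [h2, FR_Iic _ hpos]
    congr 3
    rw [NNReal.coe_div, Real.coe_toNNReal _ h0.le]
    field_simp

/-- the moments of the reference law -/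
def kap (p : ℝ) : ℝ≥0∞ := ∫⁻ y, y ^ p ∂FR

lemma moment {ι : Type} [Fintype ι] (f : ι → D) (c : ι → ℝ≥0) (p : ℝ) (hp : 0 < p) :
    ∫⁻ w, (Finset.univ.sup fun i => (c i : ℝ≥0∞) * (w (f i)) ^ p) ∂(muD D) =
      ENNReal.ofReal (Sc (fun i => (c i : ℝ) ^ (1 / p)) (fun i => (f i : L1))) ^ p * kap p := by
  have h1 : ∀ w : D → ℝ≥0∞, (Finset.univ.sup fun i => (c i : ℝ≥0∞) * (w (f i)) ^ p) =
      (Finset.univ.sup fun i => (((c i) ^ (1 / p) : ℝ≥0) : ℝ≥0∞) * w (f i)) ^ p := by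
    intro w
    rw [Finset.apply_sup_eq_sup_comp_of_linearOrder (fun y : ℝ≥0∞ => y ^ p)
      (ENNReal.monotone_rpow_of_nonneg hp.le) (by simp [hp])]
    congr 1
    funext i
    simp only [Function.comp]
    rw [ENNReal.mul_rpow_of_nonneg _ _ hp.le, ← ENNReal.coe_rpow_of_nonneg _ hp.le,
      ← NNReal.rpow_mul, one_div_mul_cancel hp.ne', NNReal.rpow_one]
  rw [lintegral_congr h1]
  have hm := measurable_sup D f (fun i => (c i) ^ (1 / p))
  have h2 := lintegral_map (μ := muD D) (f := fun y : ℝ≥0∞ => y ^ p)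
    (ENNReal.continuous_rpow_const.measurable) hm
  rw [← h2, map_sup]
  have hm2 : Measurable (fun y : ℝ≥0∞ => ENNReal.ofReal
    (Sc (fun i => (((c i) ^ (1 / p) : ℝ≥0) : ℝ)) (fun i => (f i : L1))) * y) :=
    measurable_id.const_mul _
  rw [lintegral_map ENNReal.continuous_rpow_const.measurable hm2]
  unfold kap
  rw [← lintegral_const_mul _ ENNReal.continuous_rpow_const.measurable]
  apply lintegral_congr
  intro y
  rw [ENNReal.mul_rpow_of_nonneg _ _ hp.le]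
  rfl

lemma FR_tail (n : ℕ) : FR (Ioi (((2 : ℝ≥0) ^ n : ℝ≥0) : ℝ≥0∞)) ≤ (2⁻¹) ^ n := by
  have h1 : FR (Ioi (((2 : ℝ≥0) ^ n : ℝ≥0) : ℝ≥0∞)) =
      1 - FR (Iic (((2 : ℝ≥0) ^ n : ℝ≥0) : ℝ≥0∞)) := by
    rw [← prob_compl_eq_one_sub measurableSet_Iic, compl_Iic]
  have hpos : (0 : ℝ≥0) < 2 ^ n := by positivity
  rw [h1, FR_Iic _ hpos, ← ENNReal.ofReal_one, ← ENNReal.ofReal_sub _ (Real.exp_pos _).le]
  have h2 : 1 - Real.exp (-(1 / (((2 : ℝ≥0) ^ n : ℝ≥0) : ℝ))) ≤ (1 / 2) ^ n := by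
    have := Real.add_one_le_exp (-(1 / (((2 : ℝ≥0) ^ n : ℝ≥0) : ℝ)))
    have h3 : (1 / (((2 : ℝ≥0) ^ n : ℝ≥0) : ℝ)) = (1 / 2) ^ n := by
      push_cast
      rw [one_div_pow]
    rw [h3] at this ⊢
    linarith
  refine (ENNReal.ofReal_le_ofReal h2).trans (le_of_eq ?_)
  rw [ENNReal.ofReal_pow (by norm_num)]
  congr 1
  rw [one_div, ENNReal.ofReal_inv_of_pos (by norm_num)]
  norm_num

lemma pow_rpow_comm (n : ℕ) (p : ℝ) : ((2 : ℝ≥0∞) ^ n) ^ p = ((2 : ℝ≥0∞) ^ p) ^ n := by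
  rw [← ENNReal.rpow_natCast, ← ENNReal.rpow_natCast, ← ENNReal.rpow_mul, ← ENNReal.rpow_mul,
    mul_comm]

lemma kap_pointwise (p : ℝ) (hp0 : 0 < p) (y : ℝ≥0∞) :
    y ^ p ≤ 1 + ∑' n : ℕ, ((2 : ℝ≥0∞) ^ p) ^ (n + 2) *
      (Ioi (((2 : ℝ≥0) ^ n : ℝ≥0) : ℝ≥0∞)).indicator 1 y := by
  have hb : (1 : ℝ≥0∞) ≤ (2 : ℝ≥0∞) ^ p := ENNReal.one_le_rpow (by norm_num) hp0
  induction y with
  | top =>
    have h1 : ∑' n : ℕ, ((2 : ℝ≥0∞) ^ p) ^ (n + 2) *
      (Ioi (((2 : ℝ≥0) ^ n : ℝ≥0) : ℝ≥0∞)).indicator 1 (⊤ : ℝ≥0∞) = ⊤ := by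
      rw [eq_top_iff]
      have h2 : ∑' _ : ℕ, (1 : ℝ≥0∞) = ⊤ := ENNReal.tsum_const_eq_top_of_ne_zero one_ne_zero
      refine h2.symm.le.trans ?_
      apply ENNReal.tsum_le_tsum
      intro n
      rw [indicator_of_mem (by exact ENNReal.coe_lt_top)]
      rw [Pi.one_apply, mul_one]
      exact one_le_pow₀ hb
    rw [h1]
    simp
  | coe y =>
    rcases le_or_gt y 1 with h | h
    · refine le_trans ?_ le_self_add
      exact ENNReal.rpow_le_one (by exact_mod_cast h) hp0.le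
    · have key : ∃ k : ℕ, (2 : ℝ≥0) ^ k < y ∧ y ≤ (2 : ℝ≥0) ^ (k + 2) := by
        obtain ⟨n, hn1, hn2⟩ := exists_nat_pow_near h.le (by norm_num : (1 : ℝ≥0) < 2)
        rcases n with _ | k
        · refine ⟨0, by simpa using h, hn2.le.trans ?_⟩
          exact pow_le_pow_right₀ (by norm_num) (by norm_num)
        · refine ⟨k, lt_of_lt_of_le ?_ hn1, hn2.le⟩
          exact pow_lt_pow_right₀ (by norm_num) (by norm_num)
      obtain ⟨k, hk1, hk2⟩ := key
      refine le_trans ?_ le_add_self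
      refine le_trans ?_ (ENNReal.le_tsum k)
      rw [indicator_of_mem (by
        show (((2 : ℝ≥0) ^ k : ℝ≥0) : ℝ≥0∞) < (y : ℝ≥0∞)
        exact_mod_cast hk1), Pi.one_apply, mul_one, ← pow_rpow_comm]
      apply ENNReal.rpow_le_rpow _ hp0.le
      exact_mod_cast hk2

lemma kap_ne_top (p : ℝ) (hp0 : 0 < p) (hp : p < 1) : kap p ≠ ⊤ := by
  have h1 : kap p ≤ ∫⁻ y, (1 + ∑' n : ℕ, ((2 : ℝ≥0∞) ^ p) ^ (n + 2) *
      (Ioi (((2 : ℝ≥0) ^ n : ℝ≥0) : ℝ≥0∞)).indicator 1 y) ∂FR :=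
    lintegral_mono (kap_pointwise p hp0)
  have h2 : ∫⁻ y, (1 + ∑' n : ℕ, ((2 : ℝ≥0∞) ^ p) ^ (n + 2) *
      (Ioi (((2 : ℝ≥0) ^ n : ℝ≥0) : ℝ≥0∞)).indicator 1 y) ∂FR =
      1 + ∑' n : ℕ, ((2 : ℝ≥0∞) ^ p) ^ (n + 2) * FR (Ioi (((2 : ℝ≥0) ^ n : ℝ≥0) : ℝ≥0∞)) := by
    rw [lintegral_add_left measurable_const, lintegral_const, measure_univ, mul_one,
      lintegral_tsum]
    · congr 2
      funext n
      rw [lintegral_const_mul _ (measurable_one.indicator measurableSet_Ioi),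
        lintegral_indicator_one measurableSet_Ioi]
    · intro n
      exact ((measurable_one.indicator measurableSet_Ioi).const_mul _).aemeasurable
  rw [h2] at h1
  have h3 : ∑' n : ℕ, ((2 : ℝ≥0∞) ^ p) ^ (n + 2) * FR (Ioi (((2 : ℝ≥0) ^ n : ℝ≥0) : ℝ≥0∞)) ≤
      ((2 : ℝ≥0∞) ^ p) ^ 2 * ∑' n : ℕ, ((2 : ℝ≥0∞) ^ p * 2⁻¹) ^ n := by
    rw [← ENNReal.tsum_mul_left]
    apply ENNReal.tsum_le_tsum
    intro n
    refine (mul_le_mul_right (FR_tail n) _).trans (le_of_eq ?_)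
    rw [mul_pow]
    ring
  have hb : (2 : ℝ≥0∞) ^ p * 2⁻¹ < 1 := by
    have h4 : (2 : ℝ≥0∞) ^ p < 2 := by
      have := ENNReal.rpow_lt_rpow_of_exponent_lt (x := 2) (by norm_num) (by norm_num) hp
      rwa [ENNReal.rpow_one] at this
    have h5 : (2 : ℝ≥0∞) ^ p * 2⁻¹ < 2 * 2⁻¹ := by
      rw [ENNReal.mul_lt_mul_iff_left (by norm_num) (by norm_num)]
      exact h4
    rwa [ENNReal.mul_inv_cancel (by norm_num) (by norm_num)] at h5
  have hb2 : (2 : ℝ≥0∞) ^ p ≠ ⊤ := ENNReal.rpow_ne_top_of_nonneg hp0.le (by norm_num)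
  have h6 : ((2 : ℝ≥0∞) ^ p) ^ 2 * ∑' n : ℕ, ((2 : ℝ≥0∞) ^ p * 2⁻¹) ^ n ≠ ⊤ := by
    rw [ENNReal.tsum_geometric]
    apply ENNReal.mul_ne_top (ENNReal.pow_ne_top hb2)
    rw [ENNReal.inv_ne_top]
    exact (tsub_pos_of_lt hb).ne'
  exact ne_top_of_le_ne_top (ENNReal.add_ne_top.mpr ⟨ENNReal.one_ne_top,
    ne_top_of_le_ne_top h6 h3⟩) h1

lemma kap_ne_zero (p : ℝ) (hp0 : 0 < p) : kap p ≠ 0 := by
  intro h
  unfold kap at h
  rw [lintegral_eq_zero_iff ENNReal.continuous_rpow_const.measurable] at h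
  have h1 : ∀ᵐ y ∂FR, y = 0 := by
    filter_upwards [h] with y hy
    have : y ^ p = 0 := hy
    rw [ENNReal.rpow_eq_zero_iff] at this
    rcases this with h | h
    · exact h.1
    · linarith [h.2]
  have h2 : FR (Iic ((1 : ℝ≥0) : ℝ≥0∞)) = 1 := by
    rw [prob_compl_eq_zero_iff measurableSet_Iic |>.symm]
    apply measure_mono_null _ h1
    intro y hy
    simp only [mem_compl_iff, mem_Iic, not_le] at hy
    show ¬ (y = 0)
    intro h0
    rw [h0] at hy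
    exact absurd hy (by simp)
  rw [FR_Iic 1 one_pos] at h2
  have h3 : Real.exp (-(1 / ((1 : ℝ≥0) : ℝ))) < 1 := by
    rw [Real.exp_lt_one_iff]
    norm_num
  have h4 : ENNReal.ofReal (Real.exp (-(1 / ((1 : ℝ≥0) : ℝ)))) < 1 := by
    rw [← ENNReal.ofReal_one]
    exact (ENNReal.ofReal_lt_ofReal_iff one_pos).mpr h3
  exact h4.ne h2

end Pool.Agent.Lib_helper92.ActL1
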