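import Mathlib
import Pool.Agent.Lib_helper92.ActL1.Moment

/-!
# Asymptotics of the normalised powers of the process
-/

set_option autoImplicit false

open MeasureTheory Topology Filter ProbabilityTheory Set
open scoped NNReal ENNReal

noncomputable section

namespace Pool.Agent.Lib_helper92.ActL1

/-- the exponents -/
def pn (n : ℕ) : ℝ := 1 - 1 / ((n : ℝ) + 2)

lemma pn_pos (n : ℕ) : 0 < pn n := by
  unfold pn
  have : 1 / ((n : ℝ) + 2) < 1 := by
    rw [div_lt_one (by positivity)]
    have : (0 : ℝ) ≤ n := Nat.cast_nonneg n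
    linarith
  linarith

lemma pn_lt_one (n : ℕ) : pn n < 1 := by
  unfold pn
  have : 0 < 1 / ((n : ℝ) + 2) := by positivity
  linarith

lemma tendsto_pn : Tendsto pn atTop (𝓝 1) := by
  have h1 : Tendsto (fun n : ℕ => (1 : ℝ) / ((n : ℝ) + 1)) atTop (𝓝 0) :=
    tendsto_one_div_add_atTop_nhds_zero_nat
  have h2 := (tendsto_add_atTop_iff_nat 1).mpr h1
  have h3 : Tendsto (fun n : ℕ => 1 - 1 / (((n + 1 : ℕ) : ℝ) + 1)) atTop (𝓝 (1 - 0)) :=
    h2.const_sub 1
  rw [sub_zero] at h3
  refine h3.congr (fun n => ?_)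
  unfold pn
  push_cast
  ring

variable (D : Set L1)

/-- the normalised powers -/
def rr (n : ℕ) (f : D) (w : D → ℝ≥0∞) : ℝ≥0 := ((w f) ^ (pn n) / kap (pn n)).toNNReal

lemma measurable_rr (n : ℕ) (f : D) : Measurable (rr D n f) := by
  unfold rr
  apply Measurable.ennreal_toNNReal
  exact (ENNReal.continuous_rpow_const.measurable.comp (measurable_pi_apply f)).div_const _

lemma ae_fin (f : D) : ∀ᵐ w ∂(muD D), w f ≠ ⊤ := by
  have h1 := moment D (fun _ : Unit => f) (fun _ => 1) (1 / 2) (by norm_num)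
  have h2 : ∫⁻ w, (w f) ^ (1 / 2 : ℝ) ∂(muD D) ≠ ⊤ := by
    have h3 : (fun w : D → ℝ≥0∞ => (w f) ^ (1 / 2 : ℝ)) = fun w =>
        (Finset.univ.sup fun _ : Unit => ((1 : ℝ≥0) : ℝ≥0∞) * (w f) ^ (1 / 2 : ℝ)) := by
      funext w
      simp
    rw [h3, h1]
    exact ENNReal.mul_ne_top (ENNReal.rpow_ne_top_of_nonneg (by norm_num) ENNReal.ofReal_ne_top)
      (kap_ne_top _ (by norm_num) (by norm_num))
  have h4 := ae_lt_top' ((ENNReal.continuous_rpow_const.measurable.comp
    (measurable_pi_apply f)).aemeasurable) h2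
  filter_upwards [h4] with w hw h5
  have h6 : (w f) ^ (1 / 2 : ℝ) < ⊤ := hw
  rw [h5] at h6
  simp at h6

lemma coe_rr (n : ℕ) (f : D) (w : D → ℝ≥0∞) (hw : w f ≠ ⊤) :
    (rr D n f w : ℝ≥0∞) = (w f) ^ (pn n) / kap (pn n) := by
  unfold rr
  apply ENNReal.coe_toNNReal
  apply ENNReal.div_ne_top
  · exact ENNReal.rpow_ne_top_of_nonneg (pn_pos n).le hw
  · exact kap_ne_zero _ (pn_pos n)

/-- the maximum of a weighted finite family -/
def mx (n : ℕ) {ι : Type} [Fintype ι] (c : ι → ℝ≥0) (f : ι → D) (w : D → ℝ≥0∞) : ℝ≥0 :=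
  Finset.univ.sup fun i => c i * rr D n (f i) w

lemma measurable_mx (n : ℕ) {ι : Type} [Fintype ι] (c : ι → ℝ≥0) (f : ι → D) :
    Measurable (mx D n c f) := by
  have : mx D n c f = Finset.univ.sup (fun i => fun w : D → ℝ≥0∞ => c i * rr D n (f i) w) := by
    funext w
    rw [Finset.sup_apply]; rfl
  rw [this]
  refine Finset.sup_induction (p := fun g : (D → ℝ≥0∞) → ℝ≥0 => Measurable g)
    measurable_const (fun _ h1 _ h2 => h1.sup h2) ?_
  intro i _
  exact (measurable_rr D n (f i)).const_mul _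

lemma lintegral_mx (n : ℕ) {ι : Type} [Fintype ι] (c : ι → ℝ≥0) (f : ι → D) :
    ∫⁻ w, (mx D n c f w : ℝ≥0∞) ∂(muD D) =
      ENNReal.ofReal (Sc (fun i => (c i : ℝ) ^ (1 / pn n)) (fun i => (f i : L1))) ^ (pn n) := by
  have hk0 := kap_ne_zero _ (pn_pos n)
  have hk1 := kap_ne_top _ (pn_pos n) (pn_lt_one n)
  have h1 : ∀ᵐ w ∂(muD D), (mx D n c f w : ℝ≥0∞) =
      (Finset.univ.sup fun i => (c i : ℝ≥0∞) * (w (f i)) ^ (pn n)) * (kap (pn n))⁻¹ := by
    have h2 : ∀ᵐ w ∂(muD D), ∀ i, w (f i) ≠ ⊤ := ae_all_iff.mpr (fun i => ae_fin D (f i))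
    filter_upwards [h2] with w hw
    unfold mx
    rw [Finset.apply_sup_eq_sup_comp_of_linearOrder (fun y : ℝ≥0 => (y : ℝ≥0∞))
      (fun _ _ h => ENNReal.coe_le_coe.mpr h) (by simp)]
    rw [Finset.apply_sup_eq_sup_comp_of_linearOrder (fun y : ℝ≥0∞ => y * (kap (pn n))⁻¹)
      (fun _ _ h => mul_le_mul_left h _) (by simp)]
    congr 1
    funext i
    simp only [Function.comp]
    rw [ENNReal.coe_mul, coe_rr D n (f i) w (hw i), ENNReal.div_eq_inv_mul]
    ring
  rw [lintegral_congr_ae h1, lintegral_mul_const']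
  · rw [moment D f c (pn n) (pn_pos n), mul_assoc, ENNReal.mul_inv_cancel hk0 hk1, mul_one]
  · exact ENNReal.inv_ne_top.mpr hk0

lemma integrable_mx (n : ℕ) {ι : Type} [Fintype ι] (c : ι → ℝ≥0) (f : ι → D) :
    Integrable (fun w => (mx D n c f w : ℝ)) (muD D) := by
  refine ⟨(measurable_mx D n c f).coe_nnreal_real.aestronglyMeasurable, ?_⟩
  rw [hasFiniteIntegral_iff_enorm]
  have h1 : ∀ w, ‖(mx D n c f w : ℝ)‖ₑ = (mx D n c f w : ℝ≥0∞) := by
    intro w
    rw [Real.enorm_eq_ofReal (NNReal.coe_nonneg _), ENNReal.ofReal_coe_nnreal]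
  simp only [h1]
  rw [lintegral_mx]
  exact (ENNReal.rpow_ne_top_of_nonneg (pn_pos n).le ENNReal.ofReal_ne_top).lt_top

lemma integral_mx (n : ℕ) {ι : Type} [Fintype ι] (c : ι → ℝ≥0) (f : ι → D) :
    ∫ w, (mx D n c f w : ℝ) ∂(muD D) =
      (Sc (fun i => (c i : ℝ) ^ (1 / pn n)) (fun i => (f i : L1))) ^ (pn n) := by
  rw [integral_eq_lintegral_of_nonneg_ae (Eventually.of_forall
    (fun w => NNReal.coe_nonneg (mx D n c f w)))
    (measurable_mx D n c f).coe_nnreal_real.aestronglyMeasurable]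
  have h1 : ∀ w, ENNReal.ofReal (mx D n c f w : ℝ) = (mx D n c f w : ℝ≥0∞) :=
    fun w => ENNReal.ofReal_coe_nnreal
  simp only [h1]
  rw [lintegral_mx, ← ENNReal.toReal_rpow, ENNReal.toReal_ofReal (Sc_nonneg _ _)]

lemma tendsto_mx {ι : Type} [Fintype ι] (c : ι → ℝ≥0) (f : ι → D) :
    Tendsto (fun n => ∫ w, (mx D n c f w : ℝ) ∂(muD D)) atTop
      (𝓝 (Sc (fun i => (c i : ℝ)) (fun i => (f i : L1)))) := by
  simp only [integral_mx]
  have hq : Tendsto (fun n => 1 / pn n) atTop (𝓝 1) := by
    have := (tendsto_pn.inv₀ one_ne_zero)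
    simpa using this
  have hc : ∀ i, Tendsto (fun n => (c i : ℝ) ^ (1 / pn n)) atTop (𝓝 (c i : ℝ)) := by
    intro i
    have h1 := (tendsto_const_nhds (x := (c i : ℝ)) (f := atTop (α := ℕ))).rpow hq
      (Or.inr one_pos)
    rwa [Real.rpow_one] at h1
  have hS : Tendsto (fun n => Sc (fun i => (c i : ℝ) ^ (1 / pn n)) (fun i => (f i : L1))) atTop
      (𝓝 (Sc (fun i => (c i : ℝ)) (fun i => (f i : L1)))) := by
    rw [tendsto_iff_dist_tendsto_zero]
    have h2 : Tendsto (fun n => 2 * ∑ i, |(c i : ℝ) ^ (1 / pn n) - c i| * ‖(f i : L1)‖) atTop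
        (𝓝 0) := by
      have h3 : Tendsto (fun n => 2 * ∑ i, |(c i : ℝ) ^ (1 / pn n) - c i| * ‖(f i : L1)‖) atTop
        (𝓝 (2 * ∑ i, |(c i : ℝ) - c i| * ‖(f i : L1)‖)) := by
        apply Tendsto.const_mul
        apply tendsto_finsetSum
        intro i _
        exact (((hc i).sub_const _).abs).mul_const _
      simpa using h3
    refine squeeze_zero (fun n => dist_nonneg) (fun n => ?_) h2
    rw [Real.dist_eq]
    exact Sc_lip _ _ _
  have h3 := hS.rpow tendsto_pn (Or.inr one_pos)
  rwa [Real.rpow_one] at h3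


lemma integrable_rr (n : ℕ) (f : D) : Integrable (fun w => (rr D n f w : ℝ)) (muD D) := by
  have h1 := integrable_mx D n (fun _ : Unit => 1) (fun _ => f)
  have h2 : ∀ w, mx D n (fun _ : Unit => 1) (fun _ => f) w = rr D n f w := by
    intro w; simp [mx]
  simpa only [h2] using h1

lemma phi_unit (a : ℝ) : phi (fun _ : Unit => a) = |a| := by
  unfold phi
  rw [Finset.univ_unique, Finset.sup_singleton, Finset.sup_singleton, Real.coe_toNNReal',
    Real.coe_toNNReal']
  rcases le_total 0 a with h | h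
  · rw [max_eq_left h, max_eq_right (by linarith), abs_of_nonneg h, add_zero]
  · rw [max_eq_right h, max_eq_left (by linarith), abs_of_nonpos h, zero_add]

lemma phi_bool (v : Bool → ℝ) : phi v = max (max (v true) 0) (max (v false) 0) +
    max (max (-v true) 0) (max (-v false) 0) := by
  unfold phi
  have h : ∀ g : Bool → ℝ≥0, (Finset.univ.sup g) = g true ⊔ g false := by
    intro g
    rw [Fintype.univ_bool, Finset.sup_insert, Finset.sup_singleton]
  rw [h, h, NNReal.coe_max, NNReal.coe_max, Real.coe_toNNReal', Real.coe_toNNReal',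
    Real.coe_toNNReal', Real.coe_toNNReal']

lemma Sc_unit (f : L1) : Sc (fun _ : Unit => ((1 : ℝ≥0) : ℝ)) (fun _ => f) = ‖f‖ := by
  unfold Sc
  rw [L1.norm_eq_integral_norm]
  congr 1
  funext x
  rw [phi_unit, NNReal.coe_one, one_mul, Real.norm_eq_abs]

lemma tendsto_rr (f : D) : Tendsto (fun n => ∫ w, (rr D n f w : ℝ) ∂(muD D)) atTop
    (𝓝 ‖(f : L1)‖) := by
  have h1 := tendsto_mx D (fun _ : Unit => 1) (fun _ => f)
  rw [Sc_unit] at h1
  have h2 : ∀ n w, mx D n (fun _ : Unit => 1) (fun _ => f) w = rr D n f w := by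
    intro n w; simp [mx]
  simpa only [h2] using h1

lemma mx_bool (n : ℕ) (f f' : D) (w : D → ℝ≥0∞) :
    (mx D n (fun _ : Bool => 1) (fun b => cond b f f') w : ℝ) =
      max (rr D n f w : ℝ) (rr D n f' w) := by
  unfold mx
  rw [Fintype.univ_bool, Finset.sup_insert, Finset.sup_singleton, ← NNReal.coe_max]
  simp

lemma Sc_bool (f f' : L1) : Sc (fun _ : Bool => ((1 : ℝ≥0) : ℝ)) (fun b => cond b f f') =
    ∫ x, (max (max (f x) 0) (max (f' x) 0) + max (max (-f x) 0) (max (-f' x) 0)) := by
  unfold Sc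
  congr 1
  funext x
  rw [phi_bool]
  simp

lemma integrable_bool (f f' : L1) : Integrable (fun x =>
    (max (max (f x) 0) (max (f' x) 0) + max (max (-f x) 0) (max (-f' x) 0))) := by
  have h1 := integrable_phi (fun _ : Bool => ((1 : ℝ≥0) : ℝ)) (fun b => cond b f f')
  refine h1.congr ?_
  filter_upwards with x
  rw [phi_bool]
  simp

lemma abs_sub_eq_max (a b : ℝ) : 2 * (max (max a 0) (max b 0) + max (max (-a) 0) (max (-b) 0)) -
    |a| - |b| = |a - b| := by
  rcases le_total 0 a with ha | ha <;> rcases le_total 0 b with hb | hb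
  · rw [max_eq_left ha, max_eq_left hb, max_eq_right (by linarith : -a ≤ 0),
      max_eq_right (by linarith : -b ≤ 0), max_self, abs_of_nonneg ha, abs_of_nonneg hb]
    rcases le_total a b with hab | hab
    · rw [max_eq_right hab, abs_of_nonpos (by linarith)]; ring
    · rw [max_eq_left hab, abs_of_nonneg (by linarith)]; ring
  · rw [max_eq_left ha, max_eq_right hb, max_eq_left ha, max_eq_right (by linarith : -a ≤ 0),
      max_eq_left (by linarith : 0 ≤ -b), max_eq_right (by linarith : 0 ≤ -b), abs_of_nonneg ha,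
      abs_of_nonpos hb, abs_of_nonneg (by linarith : 0 ≤ a - b)]
    ring
  · rw [max_eq_right ha, max_eq_left hb, max_eq_right hb, max_eq_left (by linarith : 0 ≤ -a),
      max_eq_right (by linarith : -b ≤ 0), max_eq_left (by linarith : 0 ≤ -a), abs_of_nonpos ha,
      abs_of_nonneg hb, abs_of_nonpos (by linarith : a - b ≤ 0)]
    ring
  · rw [max_eq_right ha, max_eq_right hb, max_self, max_eq_left (by linarith : 0 ≤ -a),
      max_eq_left (by linarith : 0 ≤ -b), abs_of_nonpos ha, abs_of_nonpos hb]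
    rcases le_total a b with hab | hab
    · rw [max_eq_left (by linarith : -b ≤ -a), abs_of_nonpos (by linarith)]; ring
    · rw [max_eq_right (by linarith : -a ≤ -b), abs_of_nonneg (by linarith)]; ring

lemma min_pw (a b : ℝ) (hx : a * b ≤ 0) : |a| + |b| -
    (max (max a 0) (max b 0) + max (max (-a) 0) (max (-b) 0)) = 0 := by
  rcases lt_trichotomy 0 a with ha | ha | ha
  · have hb : b ≤ 0 := by
      by_contra hcon
      have := mul_pos ha (not_le.mp hcon)
      linarith
    rw [abs_of_pos ha, abs_of_nonpos hb, max_eq_left ha.le, max_eq_right hb,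
      max_eq_right (by linarith : -a ≤ 0), max_eq_left (by linarith : 0 ≤ -b),
      max_eq_left ha.le, max_eq_right (by linarith)]
    ring
  · rw [← ha]
    simp only [max_self, neg_zero, abs_zero]
    rcases le_total 0 b with hb | hb
    · rw [max_eq_left hb, max_eq_right hb, max_eq_right (by linarith : -b ≤ 0),
        max_self, abs_of_nonneg hb]
      ring
    · rw [max_eq_right hb, max_self, max_eq_left (by linarith : 0 ≤ -b),
        max_eq_right (by linarith : 0 ≤ -b), abs_of_nonpos hb]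
      ring
  · have hb : 0 ≤ b := by
      by_contra hcon
      have := mul_pos_of_neg_of_neg ha (not_le.mp hcon)
      linarith
    rw [abs_of_neg ha, abs_of_nonneg hb, max_eq_right ha.le, max_eq_left hb,
      max_eq_left (by linarith : 0 ≤ -a), max_eq_right (by linarith : -b ≤ 0),
      max_eq_right hb, max_eq_left (by linarith)]
    ring

lemma int_three {α : Type} [MeasurableSpace α] {μ : Measure α} {a b c : α → ℝ}
    (ha : Integrable a μ) (hb : Integrable b μ) (hc : Integrable c μ) :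
    2 * (∫ x, a x ∂μ) - (∫ x, b x ∂μ) - (∫ x, c x ∂μ) = ∫ x, (2 * a x - b x - c x) ∂μ := by
  rw [integral_sub (f := fun x => 2 * a x - b x) ((ha.const_mul 2).sub hb) hc,
    integral_sub (f := fun x => 2 * a x) (ha.const_mul 2) hb, integral_const_mul]

lemma int_min {α : Type} [MeasurableSpace α] {μ : Measure α} {a b c : α → ℝ}
    (ha : Integrable a μ) (hb : Integrable b μ) (hc : Integrable c μ) :
    (∫ x, a x ∂μ) + (∫ x, b x ∂μ) - (∫ x, c x ∂μ) = ∫ x, (a x + b x - c x) ∂μ := by
  rw [integral_sub (f := fun x => a x + b x) (ha.add hb) hc, integral_add ha hb]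

lemma int_four {α : Type} [MeasurableSpace α] {μ : Measure α} {a b c d : α → ℝ}
    (ha : Integrable a μ) (hb : Integrable b μ) (hc : Integrable c μ) (hd : Integrable d μ) :
    2 * (∫ x, a x ∂μ) - (∫ x, b x ∂μ) - 2 * (∫ x, c x ∂μ) + (∫ x, d x ∂μ) =
      ∫ x, (2 * a x - b x - 2 * c x + d x) ∂μ := by
  rw [integral_add (f := fun x => 2 * a x - b x - 2 * c x)
      (((ha.const_mul 2).sub hb).sub (hc.const_mul 2)) hd,
    integral_sub (f := fun x => 2 * a x - b x) (g := fun x => 2 * c x)
      ((ha.const_mul 2).sub hb) (hc.const_mul 2),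
    integral_sub (f := fun x => 2 * a x) (ha.const_mul 2) hb, integral_const_mul,
    integral_const_mul]

/-- the powers are asymptotically isometric -/
lemma tendsto_rr_sub (f f' : D) :
    Tendsto (fun n => ∫ w, |(rr D n f w : ℝ) - rr D n f' w| ∂(muD D)) atTop
      (𝓝 ‖(f : L1) - f'‖) := by
  have h1 := tendsto_mx D (fun _ : Bool => 1) (fun b => cond b f f')
  have h2 : (fun b : Bool => ((cond b f f' : D) : L1)) = fun b => cond b (f : L1) (f' : L1) := by
    funext b; cases b <;> rfl
  rw [h2, Sc_bool] at h1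
  have h3 := ((h1.const_mul 2).sub (tendsto_rr D f)).sub (tendsto_rr D f')
  have h4 : 2 * (∫ x, (max (max ((f : L1) x) 0) (max ((f' : L1) x) 0) +
      max (max (-(f : L1) x) 0) (max (-(f' : L1) x) 0))) - ‖(f : L1)‖ - ‖(f' : L1)‖ =
      ‖(f : L1) - f'‖ := by
    have i1 := (L1.integrable_coeFn (f : L1)).abs
    have i2 := (L1.integrable_coeFn (f' : L1)).abs
    have i3 := integrable_bool (f : L1) (f' : L1)
    rw [L1.norm_eq_integral_norm, L1.norm_eq_integral_norm, L1.norm_eq_integral_norm]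
    simp only [Real.norm_eq_abs]
    rw [int_three i3 i1 i2]
    apply integral_congr_ae
    filter_upwards [Lp.coeFn_sub (f : L1) (f' : L1)] with x hx
    rw [hx, Pi.sub_apply, abs_sub_eq_max]
  rw [h4] at h3
  refine h3.congr (fun n => ?_)
  have i1 := integrable_rr D n f
  have i2 := integrable_rr D n f'
  have i3 := integrable_mx D n (fun _ : Bool => 1) (fun b => cond b f f')
  rw [int_three i3 i1 i2]
  apply integral_congr_ae
  filter_upwards with w
  rw [mx_bool]
  generalize (rr D n f w : ℝ) = a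
  generalize (rr D n f' w : ℝ) = b
  rcases le_total a b with hab | hab
  · rw [max_eq_right hab, abs_of_nonpos (by linarith)]; ring
  · rw [max_eq_left hab, abs_of_nonneg (by linarith)]; ring

/-- near disjointness -/
lemma tendsto_rr_min (f f' : D) (h : ∀ᵐ x, (f : L1) x * (f' : L1) x ≤ 0) :
    Tendsto (fun n => ∫ w, min (rr D n f w : ℝ) (rr D n f' w) ∂(muD D)) atTop (𝓝 0) := by
  have h1 := tendsto_mx D (fun _ : Bool => 1) (fun b => cond b f f')
  have h2 : (fun b : Bool => ((cond b f f' : D) : L1)) = fun b => cond b (f : L1) (f' : L1) := by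
    funext b; cases b <;> rfl
  rw [h2, Sc_bool] at h1
  have h3 := ((tendsto_rr D f).add (tendsto_rr D f')).sub h1
  have h4 : ‖(f : L1)‖ + ‖(f' : L1)‖ - (∫ x, (max (max ((f : L1) x) 0) (max ((f' : L1) x) 0) +
      max (max (-(f : L1) x) 0) (max (-(f' : L1) x) 0))) = 0 := by
    have i1 := (L1.integrable_coeFn (f : L1)).abs
    have i2 := (L1.integrable_coeFn (f' : L1)).abs
    have i3 := integrable_bool (f : L1) (f' : L1)
    rw [L1.norm_eq_integral_norm, L1.norm_eq_integral_norm]
    simp only [Real.norm_eq_abs]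
    rw [int_min i1 i2 i3]
    apply integral_eq_zero_of_ae
    filter_upwards [h] with x hx
    exact min_pw _ _ hx
  rw [h4] at h3
  refine h3.congr (fun n => ?_)
  have i1 := integrable_rr D n f
  have i2 := integrable_rr D n f'
  have i3 := integrable_mx D n (fun _ : Bool => 1) (fun b => cond b f f')
  rw [int_min i1 i2 i3]
  apply integral_congr_ae
  filter_upwards with w
  rw [mx_bool]
  have := min_add_max (rr D n f w : ℝ) (rr D n f' w)
  linarith

lemma mx_option (n : ℕ) {ι : Type} [Fintype ι] (c : ι → ℝ≥0) (f : ι → D) (h : D)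
    (w : D → ℝ≥0∞) :
    (mx D n (fun o : Option ι => o.elim 1 c) (fun o => o.elim h f) w : ℝ) =
      max (rr D n h w : ℝ) (mx D n c f w) := by
  rw [← NNReal.coe_max]
  congr 1
  apply le_antisymm
  · apply Finset.sup_le
    intro o _
    cases o with
    | none => simp
    | some i => exact le_max_of_le_right (Finset.le_sup (f := fun i => c i * rr D n (f i) w)
        (Finset.mem_univ i))
  · apply max_le
    · have := Finset.le_sup (f := fun o : Option ι => (o.elim 1 c : ℝ≥0) *
        rr D n (o.elim h f) w) (Finset.mem_univ none)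
      refine le_trans (le_of_eq ?_) this
      simp
    · apply Finset.sup_le
      intro i _
      exact Finset.le_sup (f := fun o : Option ι => (o.elim 1 c : ℝ≥0) *
        rr D n (o.elim h f) w) (Finset.mem_univ (some i))

lemma phi_of_single {ι : Type} [Fintype ι] (v : ι → ℝ) (i : ι) (h : ∀ j, j ≠ i → v j = 0) :
    phi v = |v i| := by
  classical
  have key : ∀ v : ι → ℝ, (∀ j, j ≠ i → v j = 0) → pos v = (v i).toNNReal := by
    intro v h
    apply le_antisymm
    · apply Finset.sup_le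
      intro j _
      by_cases hj : j = i
      · rw [hj]
      · rw [h j hj, Real.toNNReal_zero]; exact zero_le
    · exact Finset.le_sup (f := fun i => (v i).toNNReal) (Finset.mem_univ i)
  rw [phi_eq, key v h, key (-v) (fun j hj => by rw [Pi.neg_apply, h j hj, neg_zero]),
    ← phi_unit (v i)]
  unfold phi
  rw [Finset.univ_unique, Finset.sup_singleton, Finset.sup_singleton]
  rfl

lemma phi_option {ι : Type} [Fintype ι] (v : ι → ℝ) (i : ι) (h : ∀ j, j ≠ i → v j = 0) :
    phi (fun o : Option ι => o.elim (v i) v) = |v i| := by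
  have key : ∀ v : ι → ℝ, (∀ j, j ≠ i → v j = 0) →
      pos (fun o : Option ι => o.elim (v i) v) = (v i).toNNReal := by
    intro v h
    apply le_antisymm
    · apply Finset.sup_le
      intro o _
      cases o with
      | none => exact le_rfl
      | some j =>
        by_cases hj : j = i
        · rw [hj]; rfl
        · show (v j).toNNReal ≤ _
          rw [h j hj, Real.toNNReal_zero]; exact zero_le
    · exact Finset.le_sup (f := fun o : Option ι => ((o.elim (v i) v : ℝ)).toNNReal)
        (Finset.mem_univ none)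
  have h2 : (-(fun o : Option ι => o.elim (v i) v)) =
      fun o : Option ι => o.elim ((-v) i) (-v) := by
    funext o; cases o <;> rfl
  rw [phi_eq, h2, key v h, key (-v) (fun j hj => by rw [Pi.neg_apply, h j hj, neg_zero]),
    ← phi_unit (v i)]
  unfold phi
  rw [Finset.univ_unique, Finset.sup_singleton, Finset.sup_singleton]
  rfl

/-- asymptotic additivity and homogeneity -/
lemma tendsto_rr_sum {ι : Type} [Fintype ι] (c : ι → ℝ≥0) (f : ι → D) (h : D)
    (H : ∀ᵐ x, ∃ i, (c i : ℝ) * (f i : L1) x = (h : L1) x ∧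
      ∀ j, j ≠ i → (c j : ℝ) * (f j : L1) x = 0) :
    Tendsto (fun n => ∫ w, |(rr D n h w : ℝ) - ∑ i, (c i : ℝ) * rr D n (f i) w| ∂(muD D)) atTop
      (𝓝 0) := by
  have t1 := tendsto_mx D (fun o : Option ι => o.elim 1 c) (fun o => o.elim h f)
  have t2 := tendsto_mx D c f
  have t3 := tendsto_rr D h
  have t4 : Tendsto (fun n => ∑ i, (c i : ℝ) * ∫ w, (rr D n (f i) w : ℝ) ∂(muD D)) atTop
      (𝓝 (∑ i, (c i : ℝ) * ‖(f i : L1)‖)) :=
    tendsto_finsetSum _ (fun i _ => (tendsto_rr D (f i)).const_mul _)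
  have t5 := (((t1.const_mul 2).sub t3).sub (t2.const_mul 2)).add t4
  have e1 : Sc (fun o : Option ι => ((o.elim 1 c : ℝ≥0) : ℝ)) (fun o => ((o.elim h f : D) : L1)) =
      ‖(h : L1)‖ := by
    unfold Sc
    rw [L1.norm_eq_integral_norm]
    apply integral_congr_ae
    filter_upwards [H] with x hx
    obtain ⟨i, hi, hj⟩ := hx
    have := phi_option (fun i => (c i : ℝ) * (f i : L1) x) i hj
    rw [Real.norm_eq_abs, ← hi, ← this]
    congr 1
    funext o
    cases o with
    | none => simp [hi]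
    | some j => rfl
  have e2 : Sc (fun i => (c i : ℝ)) (fun i => (f i : L1)) = ‖(h : L1)‖ := by
    unfold Sc
    rw [L1.norm_eq_integral_norm]
    apply integral_congr_ae
    filter_upwards [H] with x hx
    obtain ⟨i, hi, hj⟩ := hx
    have := phi_of_single (fun i => (c i : ℝ) * (f i : L1) x) i hj
    rw [Real.norm_eq_abs, ← hi, ← this]
  have e3 : ∑ i, (c i : ℝ) * ‖(f i : L1)‖ = ‖(h : L1)‖ := by
    have : ∀ i, (c i : ℝ) * ‖(f i : L1)‖ = ∫ x, |(c i : ℝ) * (f i : L1) x| := by
      intro i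
      rw [L1.norm_eq_integral_norm, ← integral_const_mul]
      congr 1
      funext x
      rw [Real.norm_eq_abs, abs_mul, NNReal.abs_eq]
    simp only [this]
    rw [L1.norm_eq_integral_norm, ← integral_finsetSum]
    · apply integral_congr_ae
      filter_upwards [H] with x hx
      obtain ⟨i, hi, hj⟩ := hx
      rw [Finset.sum_eq_single i, hi, Real.norm_eq_abs]
      · intro j _ hne
        rw [hj j hne, abs_zero]
      · intro h; exact absurd (Finset.mem_univ i) h
    · intro i _
      exact ((L1.integrable_coeFn (f i : L1)).const_mul _).abs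
  rw [e1, e2, e3] at t5
  have e4 : 2 * ‖(h : L1)‖ - ‖(h : L1)‖ - 2 * ‖(h : L1)‖ + ‖(h : L1)‖ = 0 := by ring
  rw [e4] at t5
  refine squeeze_zero (fun n => integral_nonneg (fun w => abs_nonneg _)) (fun n => ?_) t5
  have i1 := integrable_mx D n (fun o : Option ι => o.elim 1 c) (fun o => o.elim h f)
  have i2 := integrable_mx D n c f
  have i3 := integrable_rr D n h
  have i4 : Integrable (fun w => ∑ i, (c i : ℝ) * rr D n (f i) w) (muD D) :=
    integrable_finsetSum _ (fun i _ => (integrable_rr D n (f i)).const_mul _)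
  have e5 : ∑ i, (c i : ℝ) * ∫ w, (rr D n (f i) w : ℝ) ∂(muD D) =
      ∫ w, ∑ i, (c i : ℝ) * rr D n (f i) w ∂(muD D) := by
    rw [integral_finsetSum _ (fun i _ => (integrable_rr D n (f i)).const_mul _)]
    apply Finset.sum_congr rfl
    intro i _
    rw [integral_const_mul]
  rw [e5, int_four i1 i3 i2 i4]
  apply integral_mono (i3.sub i4).abs ((((i1.const_mul 2).sub i3).sub (i2.const_mul 2)).add i4)
  intro w
  show |(rr D n h w : ℝ) - ∑ i, (c i : ℝ) * rr D n (f i) w| ≤
    2 * (mx D n (fun o : Option ι => o.elim 1 c) (fun o => o.elim h f) w : ℝ) - rr D n h w -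
      2 * mx D n c f w + ∑ i, (c i : ℝ) * rr D n (f i) w
  rw [mx_option]
  have hle : (mx D n c f w : ℝ) ≤ ∑ i, (c i : ℝ) * rr D n (f i) w := by
    have : mx D n c f w ≤ ∑ i, c i * rr D n (f i) w := by
      apply Finset.sup_le
      intro i _
      exact Finset.single_le_sum (f := fun i => c i * rr D n (f i) w) (fun _ _ => zero_le)
        (Finset.mem_univ i)
    have h2 := NNReal.coe_le_coe.mpr this
    rw [NNReal.coe_sum] at h2
    simpa only [NNReal.coe_mul] using h2
  generalize (rr D n h w : ℝ) = a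
  generalize (mx D n c f w : ℝ) = b at hle ⊢
  generalize ∑ i, (c i : ℝ) * (rr D n (f i) w : ℝ) = d at hle ⊢
  rcases le_total a b with hab | hab
  · rw [max_eq_right hab, abs_le]
    constructor <;> linarith
  · rw [max_eq_left hab, abs_le]
    constructor <;> linarith

end Pool.Agent.Lib_helper92.ActL1
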