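import Mathlib

/-!
# Isomorphism modulo null sets of an atomless standard Borel space with `[0,1]`
-/

set_option autoImplicit false

open MeasureTheory Topology Filter ProbabilityTheory Set

noncomputable section

namespace Pool.Agent.Lib_helper92.ActL1

section
variable (ρ : Measure ℝ) [IsProbabilityMeasure ρ] [NullSingletonClass ρ]

lemma continuous_cdf : Continuous (cdf ρ) := by
  rw [continuous_iff_continuousAt]
  intro a
  rw [(monotone_cdf ρ).continuousAt_iff_leftLim_eq_rightLim]
  have h1 : (cdf ρ).measure {a} = 0 := by rw [measure_cdf]; exact measure_singleton a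
  rw [StieltjesFunction.measure_singleton, ENNReal.ofReal_eq_zero] at h1
  have h2 : Function.leftLim (cdf ρ) a ≤ cdf ρ a := (monotone_cdf ρ).leftLim_le le_rfl
  have h3 : Function.rightLim (cdf ρ) a = cdf ρ a := (cdf ρ).rightLim_eq a
  rw [h3]
  linarith

lemma exists_cdf_eq {s : ℝ} (h0 : 0 < s) (h1 : s < 1) : ∃ y, cdf ρ y = s := by
  have ha := (tendsto_cdf_atBot ρ).eventually (gt_mem_nhds h0)
  have hb := (tendsto_cdf_atTop ρ).eventually (lt_mem_nhds h1)
  obtain ⟨a, ha⟩ := ha.exists
  obtain ⟨b, hb⟩ := hb.exists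
  exact mem_range_of_exists_le_of_exists_ge (continuous_cdf ρ) ⟨a, ha.le⟩ ⟨b, hb.le⟩

lemma measure_cdf_le {t : ℝ} (h0 : 0 ≤ t) (h1 : t ≤ 1) :
    ρ {y | cdf ρ y ≤ t} = ENNReal.ofReal t := by
  apply le_antisymm
  · rcases h1.lt_or_eq with h1 | h1
    · refine ge_of_tendsto (x := 𝓝[>] t) (f := fun s : ℝ => ENNReal.ofReal s) ?_ ?_
      · exact (ENNReal.continuous_ofReal.tendsto t).mono_left nhdsWithin_le_nhds
      · filter_upwards [Ioo_mem_nhdsGT h1] with s hs
        obtain ⟨y, hy⟩ := exists_cdf_eq ρ (h0.trans_lt hs.1) hs.2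
        rw [← hy, ofReal_cdf]
        apply measure_mono
        intro z hz
        by_contra hcon
        have h2 : y ≤ z := (not_le.mp hcon).le
        have h3 := monotone_cdf ρ h2
        have h4 : cdf ρ z ≤ t := hz
        linarith [hs.1]
    · rw [h1, ENNReal.ofReal_one]
      exact prob_le_one
  · rcases h0.lt_or_eq with h0 | h0
    · rcases h1.lt_or_eq with h1 | h1
      · obtain ⟨y, hy⟩ := exists_cdf_eq ρ h0 h1
        rw [← hy, ofReal_cdf]
        apply measure_mono
        intro z hz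
        exact monotone_cdf ρ hz
      · rw [h1]
        have : {y | cdf ρ y ≤ 1} = univ := by
          ext y; simp [cdf_le_one]
        rw [this, measure_univ, ENNReal.ofReal_one]
    · rw [← h0, ENNReal.ofReal_zero]
      exact zero_le

/-- the quantile function -/
def quant (t : unitInterval) : ℝ := if (0 < t ∧ t < 1) then sInf {y | (t : ℝ) ≤ cdf ρ y} else 0

lemma quant_le_iff {t : unitInterval} (ht : 0 < t ∧ t < 1) (y : ℝ) :
    quant ρ t ≤ y ↔ (t : ℝ) ≤ cdf ρ y := by
  have ht0 : (0 : ℝ) < t := ht.1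
  have ht1 : (t : ℝ) < 1 := ht.2
  have hne : {y | (t : ℝ) ≤ cdf ρ y}.Nonempty := by
    obtain ⟨b, hb⟩ := ((tendsto_cdf_atTop ρ).eventually (lt_mem_nhds ht1)).exists
    exact ⟨b, hb.le⟩
  have hbdd : BddBelow {y | (t : ℝ) ≤ cdf ρ y} := by
    obtain ⟨a, ha⟩ := ((tendsto_cdf_atBot ρ).eventually (gt_mem_nhds ht0)).exists
    refine ⟨a, fun y hy => ?_⟩
    by_contra hcon
    have := monotone_cdf ρ (not_le.mp hcon).le
    have h2 : (t : ℝ) ≤ cdf ρ y := hy
    linarith
  have hclosed : IsClosed {y | (t : ℝ) ≤ cdf ρ y} := isClosed_le continuous_const (continuous_cdf ρ)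
  unfold quant
  rw [if_pos ht]
  constructor
  · intro h
    exact (hclosed.csInf_mem hne hbdd : _ ≤ cdf ρ _).trans (monotone_cdf ρ h)
  · intro h
    exact csInf_le hbdd h

lemma measurable_quant : Measurable (quant ρ) := by
  apply measurable_of_Iic
  intro y
  have hO : MeasurableSet {t : unitInterval | 0 < t ∧ t < 1} :=
    (measurableSet_Ioi (a := (0 : unitInterval))).inter (measurableSet_Iio (a := (1 : unitInterval)))
  have : quant ρ ⁻¹' Iic y = ({t : unitInterval | 0 < t ∧ t < 1} ∩ {t | (t : ℝ) ≤ cdf ρ y}) ∪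
      ({t : unitInterval | 0 < t ∧ t < 1}ᶜ ∩ {t | (0 : ℝ) ≤ y}) := by
    ext t
    by_cases ht : (0 < t ∧ t < 1)
    · simp only [mem_preimage, mem_Iic, quant_le_iff ρ ht, mem_union, mem_inter_iff,
        mem_compl_iff, mem_ofPred_eq]
      tauto
    · simp only [mem_preimage, mem_Iic, mem_union, mem_inter_iff,
        mem_compl_iff, mem_ofPred_eq]
      unfold quant
      rw [if_neg ht]
      tauto
  rw [this]
  refine (hO.inter ?_).union (hO.compl.inter ?_)
  · exact measurableSet_le measurable_subtype_coe measurable_const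
  · exact MeasurableSet.const _

lemma ae_Ioo : ∀ᵐ t : unitInterval, 0 < t ∧ t < 1 := by
  have h0 : ∀ᵐ t : unitInterval, t ≠ 0 := by
    rw [ae_iff]; simp
  have h1 : ∀ᵐ t : unitInterval, t ≠ 1 := by
    rw [ae_iff]; simp
  filter_upwards [h0, h1] with t a b
  exact ⟨lt_of_le_of_ne t.2.1 (fun h => a h.symm),
    lt_of_le_of_ne t.2.2 (fun h => b h)⟩

lemma map_quant : (volume : Measure unitInterval).map (quant ρ) = ρ := by
  have : IsProbabilityMeasure ((volume : Measure unitInterval).map (quant ρ)) :=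
    Measure.isProbabilityMeasure_map (measurable_quant ρ).aemeasurable
  apply Measure.ext_of_Iic
  intro y
  rw [Measure.map_apply (measurable_quant ρ) measurableSet_Iic]
  have h1 : quant ρ ⁻¹' Iic y =ᵐ[volume] Iic (⟨cdf ρ y, cdf_nonneg ρ y, cdf_le_one ρ y⟩ :
      unitInterval) := by
    filter_upwards [ae_Ioo] with t ht
    apply propext
    exact quant_le_iff ρ ht y
  rw [measure_congr h1, unitInterval.volume_Iic, ofReal_cdf]

/-- the distribution function with values in the unit interval -/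
def cdfI (y : ℝ) : unitInterval := ⟨cdf ρ y, cdf_nonneg ρ y, cdf_le_one ρ y⟩

lemma measurable_cdfI : Measurable (cdfI ρ) :=
  (continuous_cdf ρ).measurable.subtype_mk

lemma map_cdfI : ρ.map (cdfI ρ) = volume := by
  have : IsProbabilityMeasure (ρ.map (cdfI ρ)) :=
    Measure.isProbabilityMeasure_map (measurable_cdfI ρ).aemeasurable
  apply Measure.ext_of_Iic
  intro t
  rw [Measure.map_apply (measurable_cdfI ρ) measurableSet_Iic, unitInterval.volume_Iic]
  exact measure_cdf_le ρ t.2.1 t.2.2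

omit [NullSingletonClass ρ] in
lemma eq_of_le_of_map {T : ℝ → ℝ} (hT : Measurable T) (hmap : ρ.map T = ρ)
    (hle : ∀ᵐ y ∂ρ, T y ≤ y) : ∀ᵐ y ∂ρ, T y = y := by
  have h1 : ∀ r : ℚ, ∀ᵐ y ∂ρ, (T y ≤ r → y ≤ r) := by
    intro r
    have h2 : (Iic (r : ℝ)) =ᵐ[ρ] T ⁻¹' Iic (r : ℝ) := by
      apply ae_eq_of_ae_subset_of_measure_ge
      · filter_upwards [hle] with y hy hyr
        exact hy.trans hyr
      · rw [← Measure.map_apply hT measurableSet_Iic, hmap]
      · exact measurableSet_Iic.nullMeasurableSet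
      · exact measure_ne_top _ _
    filter_upwards [h2] with y hy hyr
    have : (Iic (r : ℝ)) y = (T ⁻¹' Iic (r : ℝ)) y := hy
    have h3 : (T ⁻¹' Iic (r : ℝ)) y := hyr
    rw [← this] at h3
    exact h3
  filter_upwards [hle, ae_all_iff.mpr h1] with y h2 h3
  apply le_antisymm h2
  by_contra hcon
  obtain ⟨r, hr1, hr2⟩ := exists_rat_btwn (not_le.mp hcon)
  exact absurd (h3 r hr1.le) (not_le.mpr hr2)

lemma quant_cdfI : ∀ᵐ y ∂ρ, quant ρ (cdfI ρ y) = y := by
  apply eq_of_le_of_map ρ (T := fun y => quant ρ (cdfI ρ y))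
    ((measurable_quant ρ).comp (measurable_cdfI ρ))
  · have := Measure.map_map (μ := ρ) (measurable_quant ρ) (measurable_cdfI ρ)
    rw [map_cdfI, map_quant] at this
    exact this.symm
  · have h1 : ∀ᵐ y ∂ρ, 0 < cdfI ρ y ∧ cdfI ρ y < 1 := by
      have h2 : ∀ᵐ t ∂(ρ.map (cdfI ρ)), 0 < t ∧ t < 1 := by rw [map_cdfI]; exact ae_Ioo
      exact ae_of_ae_map (measurable_cdfI ρ).aemeasurable h2
    filter_upwards [h1] with y hy
    rw [quant_le_iff ρ hy]
    exact le_rfl

end

theorem exists_iso_mod_zero {Ω : Type} [MeasurableSpace Ω] [StandardBorelSpace Ω]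
    (ν : Measure Ω) [IsProbabilityMeasure ν] [NullSingletonClass ν] {m : ℕ} (κ : Ω → Fin m)
    (hκ : Measurable κ) (hν : ∀ k, ν (κ ⁻¹' {k}) = ENNReal.ofReal (1 / m)) :
    ∃ (c : Ω → unitInterval) (q : unitInterval → Ω), MeasurePreserving c ν volume ∧
      MeasurePreserving q volume ν ∧ (∀ᵐ ω ∂ν, q (c ω) = ω) ∧
      (∀ ω, ((κ ω : ℕ) : ℝ) / m ≤ c ω ∧ (c ω : ℝ) ≤ (((κ ω : ℕ) : ℝ) + 1) / m) := by
  have hne : Nonempty Ω := by
    by_contra hcon
    rw [not_nonempty_iff] at hcon
    have h1 := measure_univ (μ := ν)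
    have h2 : (univ : Set Ω) = ∅ := Set.univ_eq_empty_iff.mpr hcon
    rw [h2, measure_empty] at h1
    exact zero_ne_one h1
  obtain ⟨e, he⟩ : ∃ e, e = fun ω => (((κ ω : ℕ) : ℝ) + ((unitInterval.sigmoid ∘
    MeasureTheory.embeddingReal Ω) ω : ℝ)) := ⟨_, rfl⟩
  have hs := measurableEmbedding_sigmoid_comp_embeddingReal Ω
  have hs0 : ∀ ω, 0 < ((unitInterval.sigmoid ∘ MeasureTheory.embeddingReal Ω) ω : ℝ) := by
    intro ω
    have h1 : unitInterval.sigmoid (MeasureTheory.embeddingReal Ω ω) ∈
      range unitInterval.sigmoid := ⟨_, rfl⟩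
    rw [unitInterval.range_sigmoid] at h1
    exact h1.1
  have hs1 : ∀ ω, ((unitInterval.sigmoid ∘ MeasureTheory.embeddingReal Ω) ω : ℝ) < 1 := by
    intro ω
    have h1 : unitInterval.sigmoid (MeasureTheory.embeddingReal Ω ω) ∈
      range unitInterval.sigmoid := ⟨_, rfl⟩
    rw [unitInterval.range_sigmoid] at h1
    exact h1.2
  have hκr : Measurable fun ω => ((κ ω : ℕ) : ℝ) := by
    exact (Measurable.of_discrete (f := fun k : Fin m => ((k : ℕ) : ℝ))).comp hκ
  have hem : Measurable e := by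
    rw [he]
    exact hκr.add (measurable_subtype_coe.comp hs.measurable)
  have hinj : Function.Injective e := by
    intro a b hab
    rw [he] at hab
    simp only at hab
    have h0 : ((κ a : ℕ) : ℝ) = ((κ b : ℕ) : ℝ) := by
      have a0 := hs0 a
      have a1 := hs1 a
      have b0 := hs0 b
      have b1 := hs1 b
      have h1 : ((κ a : ℕ) : ℝ) < (κ b : ℕ) + 1 := by linarith
      have h2 : ((κ b : ℕ) : ℝ) < (κ a : ℕ) + 1 := by linarith
      have h1' : (κ a : ℕ) < (κ b : ℕ) + 1 := by exact_mod_cast h1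
      have h2' : (κ b : ℕ) < (κ a : ℕ) + 1 := by exact_mod_cast h2
      have : (κ a : ℕ) = (κ b : ℕ) := by omega
      rw [this]
    rw [h0] at hab
    have h3 := add_left_cancel hab
    exact hs.injective (Subtype.ext h3)
  have hE : MeasurableEmbedding e := hem.measurableEmbedding hinj
  let ρ := ν.map e
  have hρ : IsProbabilityMeasure ρ := Measure.isProbabilityMeasure_map hem.aemeasurable
  have hρ0 : NullSingletonClass ρ := by
    constructor
    intro y
    rw [Measure.map_apply hem (measurableSet_singleton y)]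
    have hsub : (e ⁻¹' {y}).Subsingleton := by
      intro a ha b hb
      exact hinj ((ha : e a = y).trans (hb : e b = y).symm)
    exact hsub.measure_zero ν
  have hinv : Measurable hE.invFun := hE.measurable_invFun
  have hinvmap : ρ.map hE.invFun = ν := by
    show (ν.map e).map hE.invFun = ν
    rw [Measure.map_map hinv hem, Function.LeftInverse.id hE.leftInverse_invFun, Measure.map_id]
  refine ⟨fun ω => cdfI ρ (e ω), fun t => hE.invFun (quant ρ t),
    ⟨(measurable_cdfI ρ).comp hem, ?_⟩, ⟨hinv.comp (measurable_quant ρ), ?_⟩, ?_, ?_⟩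
  · have h1 := Measure.map_map (μ := ν) (measurable_cdfI ρ) hem
    refine h1.symm.trans ?_
    exact map_cdfI ρ
  · have h1 := Measure.map_map (μ := (volume : Measure unitInterval)) hinv (measurable_quant ρ)
    rw [map_quant, hinvmap] at h1
    exact h1.symm
  · have h1 := quant_cdfI ρ
    have h2 := ae_of_ae_map hem.aemeasurable h1
    filter_upwards [h2] with ω hω
    rw [hω]
    exact hE.leftInverse_invFun ω
  · -- location of the blocks
    have hcum : ∀ j : ℕ, j ≤ m → ρ (Iic (j : ℝ)) = ENNReal.ofReal ((j : ℝ) / m) := by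
      intro j hj
      have h1 : ρ (Iic (j : ℝ)) = ν {ω | (κ ω : ℕ) < j} := by
        rw [Measure.map_apply hem measurableSet_Iic]
        congr 1
        ext ω
        show e ω ≤ j ↔ (κ ω : ℕ) < j
        rw [he]
        have a0 := hs0 ω
        have a1 := hs1 ω
        constructor
        · intro h
          have h' : (((κ ω : ℕ) : ℝ) + ((unitInterval.sigmoid ∘
            MeasureTheory.embeddingReal Ω) ω : ℝ)) ≤ j := h
          have h2 : ((κ ω : ℕ) : ℝ) < j := by linarith
          exact_mod_cast h2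
        · intro h
          have h2 : ((κ ω : ℕ) : ℝ) + 1 ≤ j := by exact_mod_cast h
          show (((κ ω : ℕ) : ℝ) + ((unitInterval.sigmoid ∘
            MeasureTheory.embeddingReal Ω) ω : ℝ)) ≤ j
          linarith
      rw [h1]
      have h2 : {ω | (κ ω : ℕ) < j} = ⋃ k ∈ (Finset.univ.filter fun k : Fin m => (k : ℕ) < j),
          κ ⁻¹' {k} := by
        ext ω
        simp
      rw [h2, measure_biUnion_finset]
      · rw [Finset.sum_congr rfl (fun k _ => hν k), Finset.sum_const]
        have h3 : (Finset.univ.filter fun k : Fin m => (k : ℕ) < j).card = j := by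
          rw [Fin.card_filter_val_lt]
          exact min_eq_right hj
        rw [h3, nsmul_eq_mul, ← ENNReal.ofReal_natCast, ← ENNReal.ofReal_mul (by positivity)]
        congr 1
        ring
      · intro a _ b _ hab
        apply Disjoint.preimage
        simpa using hab
      · intro k _
        exact hκ (measurableSet_singleton k)
    intro ω
    have a0 := hs0 ω
    have a1 := hs1 ω
    have hlt : (κ ω : ℕ) < m := (κ ω).2
    have l1 := hcum (κ ω : ℕ) hlt.le
    have l2 := hcum ((κ ω : ℕ) + 1) hlt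
    rw [← ofReal_cdf, ENNReal.ofReal_eq_ofReal_iff (cdf_nonneg _ _) (by positivity)] at l1 l2
    constructor
    · show _ ≤ cdf ρ (e ω)
      rw [← l1]
      apply monotone_cdf
      rw [he]
      show _ ≤ (((κ ω : ℕ) : ℝ) + ((unitInterval.sigmoid ∘
            MeasureTheory.embeddingReal Ω) ω : ℝ))
      linarith
    · show cdf ρ (e ω) ≤ _
      have l2' : cdf ρ (((κ ω : ℕ) + 1 : ℕ) : ℝ) = (((κ ω : ℕ) : ℝ) + 1) / m := by
        rw [l2]; push_cast; rfl
      rw [← l2']
      apply monotone_cdf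
      rw [he]
      show (((κ ω : ℕ) : ℝ) + ((unitInterval.sigmoid ∘
            MeasureTheory.embeddingReal Ω) ω : ℝ)) ≤ _
      push_cast
      linarith

end Pool.Agent.Lib_helper92.ActL1
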