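import Mathlib
import Pool.Agent.Lib_helper92.ActL1.Homog

/-!
# The modulus of an isometry of `L₁`
-/

set_option autoImplicit false

open MeasureTheory Topology Finset

noncomputable section

namespace Pool.Agent.Lib_helper92.ActL1

variable {X : Type*} [MeasurableSpace X] {μ : Measure X} [IsFiniteMeasure μ]

/-- transfer of almost everywhere identities -/
lemma ae_homog {Y : Type*} [MeasurableSpace Y] {ν : Measure Y} (U : Lp ℝ 1 μ →ₗᵢ[ℝ] Lp ℝ 1 ν)
    {ι : Type*} [Fintype ι] (f : ι → Lp ℝ 1 μ) (φ : (ι → ℝ) → ℝ)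
    (hφ : ∀ (c : ℝ) v, φ (c • v) = |c| * φ v) (K : ℝ)
    (hK : ∀ v w, |φ v - φ w| ≤ K * ∑ i, |v i - w i|) (hpos : ∀ v, 0 ≤ φ v)
    (h : ∀ᵐ x ∂μ, φ (fun i => f i x) = 0) : ∀ᵐ y ∂ν, φ (fun i => U (f i) y) = 0 := by
  have hφ0 : φ 0 = 0 := by
    have := hφ 0 0
    rwa [smul_zero, abs_zero, zero_mul] at this
  have h1 := homog U f φ hφ K hK
  have h2 : ∫ x, φ (fun i => f i x) ∂μ = 0 := by
    rw [integral_congr_ae h]; simp
  rw [h2, integral_eq_zero_iff_of_nonneg (fun _ => hpos _) (homog_integrable φ hφ0 K hK _)] at h1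
  exact h1

/-- positive part -/
def pp (f : Lp ℝ 1 μ) : Lp ℝ 1 μ := f ⊔ 0

/-- negative part -/
def np (f : Lp ℝ 1 μ) : Lp ℝ 1 μ := (-f) ⊔ 0

omit [IsFiniteMeasure μ] in
lemma pp_coe (f : Lp ℝ 1 μ) : ∀ᵐ x ∂μ, pp f x = max (f x) 0 := by
  unfold pp
  filter_upwards [Lp.coeFn_sup f 0, Lp.coeFn_zero ℝ 1 μ] with x h1 h2
  rw [h1, Pi.sup_apply, h2]; rfl

omit [IsFiniteMeasure μ] in
lemma np_coe (f : Lp ℝ 1 μ) : ∀ᵐ x ∂μ, np f x = max (-f x) 0 := by
  unfold np
  filter_upwards [Lp.coeFn_sup (-f) 0, Lp.coeFn_zero ℝ 1 μ, Lp.coeFn_neg f] with x h1 h2 h3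
  rw [h1, Pi.sup_apply, h2, h3]; rfl

/-- the modulus of an isometry, as a function -/
def modF (U : Lp ℝ 1 μ →ₗᵢ[ℝ] Lp ℝ 1 μ) (f : Lp ℝ 1 μ) : Lp ℝ 1 μ := |U (pp f)| - |U (np f)|

omit [IsFiniteMeasure μ] in
lemma modF_coe (U : Lp ℝ 1 μ →ₗᵢ[ℝ] Lp ℝ 1 μ) (f : Lp ℝ 1 μ) :
    ∀ᵐ x ∂μ, modF U f x = |U (pp f) x| - |U (np f) x| := by
  unfold modF
  filter_upwards [Lp.coeFn_sub |U (pp f)| |U (np f)|, Lp.coeFn_abs (U (pp f)),
    Lp.coeFn_abs (U (np f))] with x h1 h2 h3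
  rw [h1, Pi.sub_apply, h2, h3]

section aux

lemma abs_abs_sub (a b : ℝ) : |(|a| - |b|)| ≤ |a - b| := abs_abs_sub_abs_le_abs_sub a b

end aux

lemma modF_add (U : Lp ℝ 1 μ →ₗᵢ[ℝ] Lp ℝ 1 μ) (f g : Lp ℝ 1 μ) :
    modF U (f + g) = modF U f + modF U g := by
  have h := ae_homog U ![pp (f + g), np (f + g), pp f, np f, pp g, np g]
    (fun v => |(|v 0| - |v 1|) - (|v 2| - |v 3|) - (|v 4| - |v 5|)|)
    (fun c v => by
      simp only [Pi.smul_apply, smul_eq_mul, abs_mul]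
      rw [show |c| * |v 0| - |c| * |v 1| - (|c| * |v 2| - |c| * |v 3|) -
        (|c| * |v 4| - |c| * |v 5|) = |c| * (|v 0| - |v 1| - (|v 2| - |v 3|) - (|v 4| - |v 5|)) by
          ring, abs_mul, abs_abs]) 1
    (fun v w => by
      rw [Fin.sum_univ_six, one_mul]
      refine (abs_abs_sub_abs_le_abs_sub _ _).trans ?_
      have e : (|v 0| - |v 1|) - (|v 2| - |v 3|) - (|v 4| - |v 5|) -
          ((|w 0| - |w 1|) - (|w 2| - |w 3|) - (|w 4| - |w 5|)) =
          (|v 0| - |w 0|) - (|v 1| - |w 1|) - (|v 2| - |w 2|) + (|v 3| - |w 3|) - (|v 4| - |w 4|)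
            + (|v 5| - |w 5|) := by ring
      rw [e, abs_le]
      have k := fun i : Fin 6 => abs_le.mp (abs_abs_sub (v i) (w i))
      constructor <;> linarith [(k 0).1, (k 0).2, (k 1).1, (k 1).2, (k 2).1, (k 2).2, (k 3).1,
        (k 3).2, (k 4).1, (k 4).2, (k 5).1, (k 5).2])
    (fun v => abs_nonneg _)
    (by
      filter_upwards [pp_coe (f + g), np_coe (f + g), pp_coe f, np_coe f, pp_coe g, np_coe g,
        Lp.coeFn_add f g] with x h1 h2 h3 h4 h5 h6 h7
      have e : ∀ a : ℝ, |max a 0| - |max (-a) 0| = a := by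
        intro a
        rcases le_total a 0 with h | h
        · rw [max_eq_right h, max_eq_left (by linarith), abs_zero, abs_neg, abs_of_nonpos h]; ring
        · rw [max_eq_left h, max_eq_right (by linarith), abs_zero, abs_of_nonneg h]; ring
      show |(|pp (f + g) x| - |np (f + g) x|) - (|pp f x| - |np f x|) - (|pp g x| - |np g x|)| = 0
      rw [h1, h2, h3, h4, h5, h6, e, e, e, h7, Pi.add_apply]
      simp)
  apply Lp.ext
  filter_upwards [h, modF_coe U (f + g), modF_coe U f, modF_coe U g,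
    Lp.coeFn_add (modF U f) (modF U g)] with x h0 h1 h2 h3 h4
  have h0' : |(|U (pp (f + g)) x| - |U (np (f + g)) x|) - (|U (pp f) x| - |U (np f) x|) -
    (|U (pp g) x| - |U (np g) x|)| = 0 := h0
  rw [abs_eq_zero] at h0'
  rw [h4, Pi.add_apply, h1, h2, h3]
  linarith

lemma modF_smul (U : Lp ℝ 1 μ →ₗᵢ[ℝ] Lp ℝ 1 μ) (c : ℝ) (f : Lp ℝ 1 μ) :
    modF U (c • f) = c • modF U f := by
  have h := ae_homog U ![pp (c • f), np (c • f), pp f, np f]
    (fun v => |(|v 0| - |v 1|) - c * (|v 2| - |v 3|)|)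
    (fun a v => by
      simp only [Pi.smul_apply, smul_eq_mul, abs_mul]
      rw [show |a| * |v 0| - |a| * |v 1| - c * (|a| * |v 2| - |a| * |v 3|) =
        |a| * (|v 0| - |v 1| - c * (|v 2| - |v 3|)) by ring, abs_mul, abs_abs]) (1 + |c|)
    (fun v w => by
      rw [Fin.sum_univ_four]
      refine (abs_abs_sub_abs_le_abs_sub _ _).trans ?_
      have e : (|v 0| - |v 1|) - c * (|v 2| - |v 3|) - ((|w 0| - |w 1|) - c * (|w 2| - |w 3|)) =
          (|v 0| - |w 0|) - (|v 1| - |w 1|) - c * ((|v 2| - |w 2|) - (|v 3| - |w 3|)) := by ring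
      have k := fun i : Fin 4 => abs_abs_sub (v i) (w i)
      have n := fun i : Fin 4 => abs_nonneg (v i - w i)
      have hc := abs_nonneg c
      rw [e]
      refine (abs_sub _ _).trans ?_
      rw [abs_mul]
      have e1 : |(|v 0| - |w 0|) - (|v 1| - |w 1|)| ≤ |v 0 - w 0| + |v 1 - w 1| :=
        (abs_sub _ _).trans (add_le_add (k 0) (k 1))
      have e2 : |(|v 2| - |w 2|) - (|v 3| - |w 3|)| ≤ |v 2 - w 2| + |v 3 - w 3| :=
        (abs_sub _ _).trans (add_le_add (k 2) (k 3))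
      have e3 := mul_le_mul_of_nonneg_left e2 hc
      nlinarith [n 0, n 1, n 2, n 3, mul_nonneg hc (n 0), mul_nonneg hc (n 1)])
    (fun v => abs_nonneg _)
    (by
      filter_upwards [pp_coe (c • f), np_coe (c • f), pp_coe f, np_coe f,
        Lp.coeFn_smul c f] with x h1 h2 h3 h4 h7
      have e : ∀ a : ℝ, |max a 0| - |max (-a) 0| = a := by
        intro a
        rcases le_total a 0 with h | h
        · rw [max_eq_right h, max_eq_left (by linarith), abs_zero, abs_neg, abs_of_nonpos h]; ring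
        · rw [max_eq_left h, max_eq_right (by linarith), abs_zero, abs_of_nonneg h]; ring
      show |(|pp (c • f) x| - |np (c • f) x|) - c * (|pp f x| - |np f x|)| = 0
      rw [h1, h2, h3, h4, e, e, h7, Pi.smul_apply]
      simp)
  apply Lp.ext
  filter_upwards [h, modF_coe U (c • f), modF_coe U f,
    Lp.coeFn_smul c (modF U f)] with x h0 h1 h2 h4
  have h0' : |(|U (pp (c • f)) x| - |U (np (c • f)) x|) - c * (|U (pp f) x| - |U (np f) x|)| = 0 :=
    h0
  rw [abs_eq_zero] at h0'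
  rw [h4, Pi.smul_apply, h1, h2, smul_eq_mul]
  linarith

/-- `|mod U f| = |U f|` -/
lemma abs_modF (U : Lp ℝ 1 μ →ₗᵢ[ℝ] Lp ℝ 1 μ) (f : Lp ℝ 1 μ) : |modF U f| = |U f| := by
  have h := ae_homog U ![pp f, np f, f]
    (fun v => |(|(|v 0| - |v 1|)| - |v 2|)|)
    (fun a v => by
      simp only [Pi.smul_apply, smul_eq_mul, abs_mul]
      rw [← mul_sub, abs_mul, abs_abs, ← mul_sub, abs_mul, abs_abs]) 1
    (fun v w => by
      rw [Fin.sum_univ_three, one_mul]
      refine (abs_abs_sub_abs_le_abs_sub _ _).trans ?_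
      have k := fun i : Fin 3 => abs_abs_sub (v i) (w i)
      have e : |(|v 0| - |v 1|)| - |v 2| - (|(|w 0| - |w 1|)| - |w 2|) =
        (|(|v 0| - |v 1|)| - |(|w 0| - |w 1|)|) - (|v 2| - |w 2|) := by ring
      rw [e]
      refine (abs_sub _ _).trans ?_
      refine add_le_add ?_ (k 2)
      refine (abs_abs_sub_abs_le_abs_sub _ _).trans ?_
      have e' : |v 0| - |v 1| - (|w 0| - |w 1|) = (|v 0| - |w 0|) - (|v 1| - |w 1|) := by ring
      rw [e']
      exact (abs_sub _ _).trans (add_le_add (k 0) (k 1)))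
    (fun v => abs_nonneg _)
    (by
      filter_upwards [pp_coe f, np_coe f] with x h1 h2
      have e : ∀ a : ℝ, |max a 0| - |max (-a) 0| = a := by
        intro a
        rcases le_total a 0 with h | h
        · rw [max_eq_right h, max_eq_left (by linarith), abs_zero, abs_neg, abs_of_nonpos h]; ring
        · rw [max_eq_left h, max_eq_right (by linarith), abs_zero, abs_of_nonneg h]; ring
      show |(|(|pp f x| - |np f x|)| - |f x|)| = 0
      rw [h1, h2, e]
      simp)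
  apply Lp.ext
  filter_upwards [h, modF_coe U f, Lp.coeFn_abs (modF U f), Lp.coeFn_abs (U f)] with x h0 h1 h2 h3
  have h0' : |(|(|U (pp f) x| - |U (np f) x|)| - |U f x|)| = 0 := h0
  rw [abs_eq_zero] at h0'
  rw [h2, h3, h1]
  linarith

omit [IsFiniteMeasure μ] in
lemma norm_abs_L1 (f : Lp ℝ 1 μ) : ‖|f|‖ = ‖f‖ := norm_abs_eq_norm f

lemma norm_modF (U : Lp ℝ 1 μ →ₗᵢ[ℝ] Lp ℝ 1 μ) (f : Lp ℝ 1 μ) : ‖modF U f‖ = ‖f‖ := by
  rw [← norm_abs_L1, abs_modF, norm_abs_L1, U.norm_map]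

/-- `|U |f|| = |U f|` -/
lemma abs_map_abs (U : Lp ℝ 1 μ →ₗᵢ[ℝ] Lp ℝ 1 μ) (f : Lp ℝ 1 μ) : |U (|f|)| = |U f| := by
  have h := ae_homog U ![|f|, f]
    (fun v => |(|v 0| - |v 1|)|)
    (fun a v => by
      simp only [Pi.smul_apply, smul_eq_mul, abs_mul]
      rw [← mul_sub, abs_mul, abs_abs]) 1
    (fun v w => by
      rw [Fin.sum_univ_two, one_mul]
      refine (abs_abs_sub_abs_le_abs_sub _ _).trans ?_
      have k := fun i : Fin 2 => abs_abs_sub (v i) (w i)
      have e' : |v 0| - |v 1| - (|w 0| - |w 1|) = (|v 0| - |w 0|) - (|v 1| - |w 1|) := by ring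
      rw [e']
      exact (abs_sub _ _).trans (add_le_add (k 0) (k 1)))
    (fun v => abs_nonneg _)
    (by
      filter_upwards [Lp.coeFn_abs f] with x h1
      show |(|(|f|) x| - |f x|)| = 0
      rw [h1]
      simp)
  apply Lp.ext
  filter_upwards [h, Lp.coeFn_abs (U |f|), Lp.coeFn_abs (U f)] with x h0 h1 h2
  have h0' : |(|U (|f|) x| - |U f x|)| = 0 := h0
  rw [abs_eq_zero] at h0'
  rw [h1, h2]
  linarith

omit [IsFiniteMeasure μ] in
/-- on nonnegative functions the modulus is `f ↦ |U f|` -/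
lemma modF_of_nonneg (U : Lp ℝ 1 μ →ₗᵢ[ℝ] Lp ℝ 1 μ) {f : Lp ℝ 1 μ} (hf : 0 ≤ f) :
    modF U f = |U f| := by
  have h1 : pp f = f := sup_eq_left.mpr hf
  have h2 : np f = 0 := sup_eq_right.mpr (neg_nonpos.mpr hf)
  unfold modF
  rw [h1, h2, map_zero, abs_zero, sub_zero]

lemma modF_modF (U V : Lp ℝ 1 μ →ₗᵢ[ℝ] Lp ℝ 1 μ) (f : Lp ℝ 1 μ) :
    modF U (modF V f) = modF (U.comp V) f := by
  have hd : ∀ᵐ x ∂μ, V (pp f) x * V (np f) x = 0 := by
    apply disjoint_map
    filter_upwards [pp_coe f, np_coe f] with x h1 h2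
    rw [h1, h2]
    rcases le_total (f x) 0 with h | h
    · rw [max_eq_right h, zero_mul]
    · rw [max_eq_right (show -f x ≤ 0 by linarith), mul_zero]
  have h1 : pp (modF V f) = |V (pp f)| := by
    apply Lp.ext
    filter_upwards [hd, pp_coe (modF V f), modF_coe V f, Lp.coeFn_abs (V (pp f))]
      with x h1 h2 h3 h4
    rw [h2, h3, h4]
    rcases mul_eq_zero.mp h1 with h | h
    · rw [h, abs_zero, zero_sub, max_eq_right (neg_nonpos.mpr (abs_nonneg _))]
    · rw [h, abs_zero, sub_zero, max_eq_left (abs_nonneg _)]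
  have h2 : np (modF V f) = |V (np f)| := by
    apply Lp.ext
    filter_upwards [hd, np_coe (modF V f), modF_coe V f, Lp.coeFn_abs (V (np f))]
      with x h1 h2 h3 h4
    rw [h2, h3, h4]
    rcases mul_eq_zero.mp h1 with h | h
    · rw [h, abs_zero, zero_sub, neg_neg, max_eq_left (abs_nonneg _)]
    · rw [h, abs_zero, sub_zero, max_eq_right (neg_nonpos.mpr (abs_nonneg _))]
  show |U (pp (modF V f))| - |U (np (modF V f))| = |U (V (pp f))| - |U (V (np f))|
  rw [h1, h2, abs_map_abs, abs_map_abs]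

omit [IsFiniteMeasure μ] in
lemma modF_id (f : Lp ℝ 1 μ) : modF (LinearIsometry.id) f = f := by
  apply Lp.ext
  filter_upwards [modF_coe LinearIsometry.id f, pp_coe f, np_coe f] with x h1 h2 h3
  rw [h1, LinearIsometry.id_apply, LinearIsometry.id_apply, h2, h3]
  rcases le_total (f x) 0 with h | h
  · rw [max_eq_right h, max_eq_left (by linarith), abs_zero, abs_neg, abs_of_nonpos h]; ring
  · rw [max_eq_left h, max_eq_right (by linarith), abs_zero, abs_of_nonneg h]; ring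

/-- The modulus as a group homomorphism. -/
def modHom : (Lp ℝ 1 μ ≃ₗᵢ[ℝ] Lp ℝ 1 μ) →* (Lp ℝ 1 μ ≃ₗᵢ[ℝ] Lp ℝ 1 μ) where
  toFun U :=
    { toFun := modF U.toLinearIsometry
      invFun := modF U.symm.toLinearIsometry
      map_add' := modF_add _
      map_smul' := modF_smul _
      left_inv := by
        intro f
        rw [modF_modF]
        have : U.symm.toLinearIsometry.comp U.toLinearIsometry = LinearIsometry.id := by
          ext1 f
          simp
        rw [this, modF_id]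
      right_inv := by
        intro f
        rw [modF_modF]
        have : U.toLinearIsometry.comp U.symm.toLinearIsometry = LinearIsometry.id := by
          ext1 f
          simp
        rw [this, modF_id]
      norm_map' := norm_modF _ }
  map_one' := by
    ext1 f
    exact modF_id f
  map_mul' := by
    intro U V
    ext1 f
    show modF (U * V).toLinearIsometry f = modF U.toLinearIsometry (modF V.toLinearIsometry f)
    rw [modF_modF]
    rfl

lemma modHom_apply (U : Lp ℝ 1 μ ≃ₗᵢ[ℝ] Lp ℝ 1 μ) (f : Lp ℝ 1 μ) :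
    modHom U f = modF U.toLinearIsometry f := rfl

lemma abs_modHom (U : Lp ℝ 1 μ ≃ₗᵢ[ℝ] Lp ℝ 1 μ) (f : Lp ℝ 1 μ) : |modHom U f| = |U f| :=
  abs_modF U.toLinearIsometry f

lemma modHom_of_nonneg (U : Lp ℝ 1 μ ≃ₗᵢ[ℝ] Lp ℝ 1 μ) {f : Lp ℝ 1 μ} (hf : 0 ≤ f) :
    modHom U f = |U f| := modF_of_nonneg U.toLinearIsometry hf

end Pool.Agent.Lib_helper92.ActL1
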