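import Mathlib
import Pool.Agent.Lib_helper92.ActL1.Modulus

/-!
# The Mazur map between `L₁` and `L₂` and the induced isometries of `L₂`
-/

set_option autoImplicit false

open MeasureTheory Topology Finset

noncomputable section

namespace Pool.Agent.Lib_helper92.ActL1

/-- signed square root -/
def sr (a : ℝ) : ℝ := a / √|a|

/-- signed square -/
def sq (a : ℝ) : ℝ := a * |a|

lemma sr_mul (a b : ℝ) : sr (a * b) = sr a * sr b := by
  unfold sr
  rw [abs_mul, Real.sqrt_mul (abs_nonneg a), mul_div_mul_comm]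

lemma sr_zero : sr 0 = 0 := by simp [sr]

lemma sr_sq_eq (a : ℝ) : sr a ^ 2 = |a| := by
  unfold sr
  rcases eq_or_ne a 0 with rfl | h
  · simp
  · rw [div_pow, Real.sq_sqrt (abs_nonneg a), div_eq_iff (abs_ne_zero.mpr h), ← sq_abs, pow_two]

lemma sq_sr (a : ℝ) : sq (sr a) = a := by
  unfold sq sr
  rcases eq_or_ne a 0 with rfl | h
  · simp
  · have h1 : (0 : ℝ) < √|a| := Real.sqrt_pos.mpr (abs_pos.mpr h)
    rw [abs_div, abs_of_pos h1, div_mul_div_comm, Real.mul_self_sqrt (abs_nonneg a),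
      mul_div_assoc, div_self (abs_ne_zero.mpr h), mul_one]

lemma sr_sq (a : ℝ) : sr (sq a) = a := by
  unfold sq sr
  rcases eq_or_ne a 0 with rfl | h
  · simp
  · rw [abs_mul, abs_abs, Real.sqrt_mul_self (abs_nonneg a), mul_div_assoc,
      div_self (abs_ne_zero.mpr h), mul_one]

lemma sr_of_nonneg {a : ℝ} (h : 0 ≤ a) : sr a = √a := by
  unfold sr
  rw [abs_of_nonneg h, Real.div_sqrt]

lemma sr_neg (a : ℝ) : sr (-a) = - sr a := by
  unfold sr
  rw [abs_neg, neg_div]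

lemma sqrt_sub_sq {a b : ℝ} (ha : 0 ≤ a) (hb : 0 ≤ b) : (√a - √b) ^ 2 ≤ |a - b| := by
  have h1 := Real.sqrt_nonneg a
  have h2 := Real.sqrt_nonneg b
  have h3 := Real.sq_sqrt ha
  have h4 := Real.sq_sqrt hb
  rcases le_total a b with h | h
  · rw [abs_of_nonpos (by linarith)]
    have h5 := Real.sqrt_le_sqrt h
    nlinarith
  · rw [abs_of_nonneg (by linarith)]
    have h5 := Real.sqrt_le_sqrt h
    nlinarith

lemma sr_sub_sq (a b : ℝ) : (sr a - sr b) ^ 2 ≤ 2 * |a - b| := by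
  rcases le_total 0 a with ha | ha <;> rcases le_total 0 b with hb | hb
  · rw [sr_of_nonneg ha, sr_of_nonneg hb]
    have := sqrt_sub_sq ha hb
    have := abs_nonneg (a - b)
    linarith
  · have hb' : 0 ≤ -b := by linarith
    have e : sr b = -√(-b) := by rw [← sr_of_nonneg hb', sr_neg, neg_neg]
    rw [sr_of_nonneg ha, e, abs_of_nonneg (by linarith)]
    have h3 := Real.sq_sqrt ha
    have h4 := Real.sq_sqrt hb'
    nlinarith [sq_nonneg (√a - √(-b))]
  · have ha' : 0 ≤ -a := by linarith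
    have e : sr a = -√(-a) := by rw [← sr_of_nonneg ha', sr_neg, neg_neg]
    rw [sr_of_nonneg hb, e, abs_of_nonpos (by linarith)]
    have h3 := Real.sq_sqrt ha'
    have h4 := Real.sq_sqrt hb
    nlinarith [sq_nonneg (√b - √(-a))]
  · have ha' : 0 ≤ -a := by linarith
    have hb' : 0 ≤ -b := by linarith
    have e : sr a = -√(-a) := by rw [← sr_of_nonneg ha', sr_neg, neg_neg]
    have e' : sr b = -√(-b) := by rw [← sr_of_nonneg hb', sr_neg, neg_neg]
    rw [e, e']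
    have := sqrt_sub_sq ha' hb'
    have h1 : |(-a) - (-b)| = |a - b| := by rw [← abs_neg]; congr 1; ring
    rw [h1] at this
    have := abs_nonneg (a - b)
    nlinarith

lemma sq_sub_abs (a b : ℝ) : |sq a - sq b| ≤ |a - b| * (|a| + |b|) := by
  unfold sq
  have h1 : a * |a| - b * |b| = (a - b) * |a| + b * (|a| - |b|) := by ring
  rw [h1]
  refine (abs_add_le _ _).trans ?_
  rw [abs_mul, abs_mul, abs_abs, mul_add]
  have h2 := abs_abs_sub_abs_le_abs_sub a b
  have h3 := mul_le_mul_of_nonneg_left h2 (abs_nonneg b)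
  linarith

lemma continuous_sr : Continuous sr := by
  rw [Metric.continuous_iff]
  intro a ε hε
  refine ⟨ε ^ 2 / 4, by positivity, fun b hb => ?_⟩
  rw [Real.dist_eq] at hb ⊢
  have h1 := sr_sub_sq b a
  have h2 : (sr b - sr a) ^ 2 < ε ^ 2 := by nlinarith
  exact abs_lt_of_sq_lt_sq h2 hε.le

lemma continuous_sq : Continuous sq := by
  unfold sq
  fun_prop

variable {X : Type*} [MeasurableSpace X] {μ : Measure X}

lemma norm_sq_L2 (h : Lp ℝ 2 μ) : ‖h‖ ^ 2 = ∫ x, h x ^ 2 ∂μ := by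
  rw [← real_inner_self_eq_norm_sq, L2.inner_def]
  apply integral_congr_ae
  filter_upwards with x
  simp [pow_two]

lemma memLp_theta (f : Lp ℝ 1 μ) : MemLp (fun x => sr (f x)) 2 μ := by
  rw [memLp_two_iff_integrable_sq]
  · simp only [sr_sq_eq]
    exact (L1.integrable_coeFn f).abs
  · exact continuous_sr.comp_aestronglyMeasurable (L1.integrable_coeFn f).aestronglyMeasurable

/-- the Mazur map `L₁ → L₂` -/
def theta (f : Lp ℝ 1 μ) : Lp ℝ 2 μ := (memLp_theta f).toLp _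

lemma theta_coe (f : Lp ℝ 1 μ) : ∀ᵐ x ∂μ, theta f x = sr (f x) := (memLp_theta f).coeFn_toLp

lemma integrable_sq_L2 (h : Lp ℝ 2 μ) : Integrable (fun x => h x ^ 2) μ :=
  (memLp_two_iff_integrable_sq (Lp.memLp h).aestronglyMeasurable).mp (Lp.memLp h)

lemma memLp_theta' (h : Lp ℝ 2 μ) : MemLp (fun x => sq (h x)) 1 μ := by
  rw [memLp_one_iff_integrable]
  refine Integrable.mono' (integrable_sq_L2 h)
    (continuous_sq.comp_aestronglyMeasurable (Lp.memLp h).aestronglyMeasurable) ?_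
  filter_upwards with x
  unfold sq
  rw [Real.norm_eq_abs, abs_mul, abs_abs, ← pow_two, sq_abs]

/-- the inverse `L₂ → L₁` of the Mazur map -/
def theta' (h : Lp ℝ 2 μ) : Lp ℝ 1 μ := (memLp_theta' h).toLp _

lemma theta'_coe (h : Lp ℝ 2 μ) : ∀ᵐ x ∂μ, theta' h x = sq (h x) := (memLp_theta' h).coeFn_toLp

lemma theta_theta' (h : Lp ℝ 2 μ) : theta (theta' h) = h := by
  apply Lp.ext
  filter_upwards [theta_coe (theta' h), theta'_coe h] with x h1 h2
  rw [h1, h2, sr_sq]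

lemma theta'_theta (f : Lp ℝ 1 μ) : theta' (theta f) = f := by
  apply Lp.ext
  filter_upwards [theta'_coe (theta f), theta_coe f] with x h1 h2
  rw [h1, h2, sq_sr]

lemma norm_L1 (f : Lp ℝ 1 μ) : ‖f‖ = ∫ x, |f x| ∂μ := L1.norm_eq_integral_norm f

lemma norm_theta_sq (f : Lp ℝ 1 μ) : ‖theta f‖ ^ 2 = ‖f‖ := by
  rw [norm_sq_L2, norm_L1]
  apply integral_congr_ae
  filter_upwards [theta_coe f] with x h1
  rw [h1, sr_sq_eq]

lemma theta_sub (f g : Lp ℝ 1 μ) : ‖theta f - theta g‖ ^ 2 ≤ 2 * ‖f - g‖ := by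
  rw [norm_sq_L2, norm_L1, ← integral_const_mul]
  apply integral_mono_ae (integrable_sq_L2 _) ((L1.integrable_coeFn (f - g)).abs.const_mul 2)
  filter_upwards [theta_coe f, theta_coe g, Lp.coeFn_sub (theta f) (theta g), Lp.coeFn_sub f g]
    with x h1 h2 h3 h4
  rw [h3, Pi.sub_apply, h1, h2, h4, Pi.sub_apply]
  exact sr_sub_sq _ _

lemma theta'_sub (h k : Lp ℝ 2 μ) : ‖theta' h - theta' k‖ ≤ ‖h - k‖ * (‖h‖ + ‖k‖) := by
  have h1 : ‖theta' h - theta' k‖ ≤ inner ℝ (|h - k|) (|h| + |k|) := by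
    rw [norm_L1, L2.inner_def]
    apply integral_mono_ae (L1.integrable_coeFn _).abs (L2.integrable_inner _ _)
    filter_upwards [theta'_coe h, theta'_coe k, Lp.coeFn_sub (theta' h) (theta' k),
      Lp.coeFn_abs (h - k), Lp.coeFn_sub h k, Lp.coeFn_add |h| |k|, Lp.coeFn_abs h,
      Lp.coeFn_abs k] with x a1 a2 a3 a4 a5 a6 a7 a8
    simp only [RCLike.inner_apply, conj_trivial]
    rw [a3, Pi.sub_apply, a1, a2, a4, a5, a6, Pi.add_apply, a7, a8, Pi.sub_apply]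
    refine (sq_sub_abs _ _).trans ?_
    rw [mul_comm]
  refine h1.trans ((real_inner_le_norm _ _).trans ?_)
  rw [norm_abs_eq_norm]
  refine mul_le_mul_of_nonneg_left ((norm_add_le _ _).trans ?_) (norm_nonneg _)
  rw [norm_abs_eq_norm, norm_abs_eq_norm]

lemma continuous_theta : Continuous (theta : Lp ℝ 1 μ → Lp ℝ 2 μ) := by
  rw [Metric.continuous_iff]
  intro a ε hε
  refine ⟨ε ^ 2 / 4, by positivity, fun b hb => ?_⟩
  rw [dist_eq_norm] at hb ⊢
  have h1 := theta_sub b a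
  have h2 : ‖theta b - theta a‖ ^ 2 < ε ^ 2 := by nlinarith
  exact lt_of_pow_lt_pow_left₀ 2 hε.le h2

lemma continuous_theta' : Continuous (theta' : Lp ℝ 2 μ → Lp ℝ 1 μ) := by
  rw [continuous_iff_continuousAt]
  intro a
  rw [ContinuousAt, tendsto_iff_norm_sub_tendsto_zero]
  have h1 : Filter.Tendsto (fun b : Lp ℝ 2 μ => ‖b - a‖ * (‖b‖ + ‖a‖)) (𝓝 a) (𝓝 0) := by
    have : Continuous (fun b : Lp ℝ 2 μ => ‖b - a‖ * (‖b‖ + ‖a‖)) := by fun_prop
    have h2 := this.tendsto a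
    simpa using h2
  exact squeeze_zero (fun _ => norm_nonneg _) (fun b => theta'_sub b a) h1

variable [IsFiniteMeasure μ]

/-- the homogeneous function used below -/
def phi3 (v : Fin 3 → ℝ) : ℝ := (sr (v 0) + sr (v 1) - sr (v 2)) ^ 2

lemma phi3_smul (c : ℝ) (v : Fin 3 → ℝ) : phi3 (c • v) = |c| * phi3 v := by
  unfold phi3
  simp only [Pi.smul_apply, smul_eq_mul, sr_mul]
  rw [← sr_sq_eq c]
  ring

/-- the third coordinate is chosen so that `phi3` vanishes -/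
def m3 (v : Fin 2 → ℝ) : Fin 3 → ℝ := ![v 0, v 1, sq (sr (v 0) + sr (v 1))]

lemma phi3_m3 (v : Fin 2 → ℝ) : phi3 (m3 v) = 0 := by
  unfold phi3 m3
  simp [sr_sq]

lemma pi_add_simple (U : Lp ℝ 1 μ →ₗᵢ[ℝ] Lp ℝ 1 μ) (s : SimpleFunc X (Fin 2 → ℝ))
    (f g : Lp ℝ 1 μ) (hf : f =ᵐ[μ] fun x => s x 0) (hg : g =ᵐ[μ] fun x => s x 1) :
    theta (U (theta' (theta f + theta g))) = theta (U f) + theta (U g) := by
  obtain ⟨e, he⟩ : ∃ e, e = theta' (theta f + theta g) := ⟨_, rfl⟩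
  rw [← he]
  have he' : e =ᵐ[μ] fun x => m3 (s x) 2 := by
    filter_upwards [hf, hg, theta'_coe (theta f + theta g),
      Lp.coeFn_add (theta f) (theta g), theta_coe f, theta_coe g]
      with x a1 a2 a3 a4 a5 a6
    rw [he, a3, a4, Pi.add_apply, a5, a6, a1, a2]
    rfl
  obtain ⟨F, hF⟩ : ∃ F : Fin 3 → Lp ℝ 1 μ, F = ![f, g, e] := ⟨_, rfl⟩
  have hF0 : F 0 = f := by rw [hF]; rfl
  have hF1 : F 1 = g := by rw [hF]; rfl
  have hF2 : F 2 = e := by rw [hF]; rfl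
  have hFs : ∀ i, F i =ᵐ[μ] fun x => (s.map m3) x i := by
    intro i
    fin_cases i
    · show F 0 =ᵐ[μ] fun x => m3 (s x) 0
      rw [hF0]; exact hf
    · show F 1 =ᵐ[μ] fun x => m3 (s x) 1
      rw [hF1]; exact hg
    · show F 2 =ᵐ[μ] fun x => m3 (s x) 2
      rw [hF2]; exact he'
  have h1 := homog_simple U (s.map m3) F hFs phi3 phi3_smul
  have h2 : ∫ x, phi3 ((s.map m3) x) ∂μ = 0 := by
    have : ∀ x, phi3 ((s.map m3) x) = 0 := fun x => phi3_m3 (s x)
    simp only [this, integral_zero]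
  rw [h2] at h1
  have h3 : ‖theta (U f) + theta (U g) - theta (U e)‖ ^ 2 = 0 := by
    rw [norm_sq_L2, ← h1]
    apply integral_congr_ae
    filter_upwards [Lp.coeFn_sub (theta (U f) + theta (U g)) (theta (U e)),
      Lp.coeFn_add (theta (U f)) (theta (U g)), theta_coe (U f),
      theta_coe (U g), theta_coe (U e)] with x a1 a2 a3 a4 a5
    rw [a1, Pi.sub_apply, a2, Pi.add_apply, a3, a4, a5]
    show _ = (sr (U (F 0) x) + sr (U (F 1) x) - sr (U (F 2) x)) ^ 2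
    rw [hF0, hF1, hF2]
  have h4 := pow_eq_zero_iff (two_ne_zero) |>.mp h3
  rw [norm_eq_zero, sub_eq_zero] at h4
  exact h4.symm

omit [IsFiniteMeasure μ] in
lemma pi_closed1 (U : Lp ℝ 1 μ →ₗᵢ[ℝ] Lp ℝ 1 μ) :
    Continuous (fun p : Lp ℝ 1 μ × Lp ℝ 1 μ => theta (U (theta' (theta p.1 + theta p.2)))) := by
  have h1 : Continuous (fun p : Lp ℝ 1 μ × Lp ℝ 1 μ => theta p.1 + theta p.2) :=
    (continuous_theta.comp continuous_fst).add (continuous_theta.comp continuous_snd)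
  have h2 : Continuous (fun p : Lp ℝ 1 μ × Lp ℝ 1 μ => theta' (theta p.1 + theta p.2)) :=
    continuous_theta'.comp h1
  have h3 : Continuous (fun p : Lp ℝ 1 μ × Lp ℝ 1 μ => U (theta' (theta p.1 + theta p.2))) :=
    U.continuous.comp h2
  exact continuous_theta.comp h3

omit [IsFiniteMeasure μ] in
lemma pi_closed2 (U : Lp ℝ 1 μ →ₗᵢ[ℝ] Lp ℝ 1 μ) :
    Continuous (fun p : Lp ℝ 1 μ × Lp ℝ 1 μ => theta (U p.1) + theta (U p.2)) := by
  have h1 : Continuous (fun p : Lp ℝ 1 μ × Lp ℝ 1 μ => U p.1) := U.continuous.comp continuous_fst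
  have h2 : Continuous (fun p : Lp ℝ 1 μ × Lp ℝ 1 μ => U p.2) := U.continuous.comp continuous_snd
  exact (continuous_theta.comp h1).add (continuous_theta.comp h2)

lemma pi_add_aux (U : Lp ℝ 1 μ →ₗᵢ[ℝ] Lp ℝ 1 μ) (f g : Lp ℝ 1 μ) :
    theta (U (theta' (theta f + theta g))) = theta (U f) + theta (U g) := by
  have key : ∀ n : ℕ, ∃ p : Lp ℝ 1 μ × Lp ℝ 1 μ, ‖f - p.1‖ < 1 / ((n : ℝ) + 1) ∧
      ‖g - p.2‖ < 1 / ((n : ℝ) + 1) ∧
      theta (U (theta' (theta p.1 + theta p.2))) = theta (U p.1) + theta (U p.2) := by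
    intro n
    obtain ⟨s, F, hF, hF'⟩ := exists_simple_approx ![f, g] (1 / ((n : ℝ) + 1)) (by positivity)
    have h0 : ‖f - F 0‖ < 1 / ((n : ℝ) + 1) := hF' 0
    have h1 : ‖g - F 1‖ < 1 / ((n : ℝ) + 1) := hF' 1
    exact ⟨(F 0, F 1), h0, h1, pi_add_simple U s (F 0) (F 1) (hF 0) (hF 1)⟩
  choose p hp1 hp2 hp3 using key
  have hlim : Filter.Tendsto p Filter.atTop (𝓝 (f, g)) := by
    have l1 : Filter.Tendsto (fun n => (p n).1) Filter.atTop (𝓝 f) := by
      rw [tendsto_iff_norm_sub_tendsto_zero]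
      refine squeeze_zero (fun _ => norm_nonneg _) (fun n => ?_)
        tendsto_one_div_add_atTop_nhds_zero_nat
      rw [norm_sub_rev]; exact (hp1 n).le
    have l2 : Filter.Tendsto (fun n => (p n).2) Filter.atTop (𝓝 g) := by
      rw [tendsto_iff_norm_sub_tendsto_zero]
      refine squeeze_zero (fun _ => norm_nonneg _) (fun n => ?_)
        tendsto_one_div_add_atTop_nhds_zero_nat
      rw [norm_sub_rev]; exact (hp2 n).le
    exact l1.prodMk_nhds l2
  have h1 := ((pi_closed1 U).tendsto (f, g)).comp hlim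
  have h2 := ((pi_closed2 U).tendsto (f, g)).comp hlim
  have h3 : ((fun p : Lp ℝ 1 μ × Lp ℝ 1 μ => theta (U (theta' (theta p.1 + theta p.2)))) ∘ p) =
      ((fun p : Lp ℝ 1 μ × Lp ℝ 1 μ => theta (U p.1) + theta (U p.2)) ∘ p) := by
    funext n
    exact hp3 n
  rw [h3] at h1
  exact tendsto_nhds_unique h1 h2

/-- the isometry of `L₂` induced by an isometry of `L₁`, as a function -/
def piF (U : Lp ℝ 1 μ →ₗᵢ[ℝ] Lp ℝ 1 μ) (h : Lp ℝ 2 μ) : Lp ℝ 2 μ := theta (U (theta' h))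

lemma piF_add (U : Lp ℝ 1 μ →ₗᵢ[ℝ] Lp ℝ 1 μ) (h k : Lp ℝ 2 μ) :
    piF U (h + k) = piF U h + piF U k := by
  have := pi_add_aux U (theta' h) (theta' k)
  rw [theta_theta', theta_theta'] at this
  exact this

omit [IsFiniteMeasure μ] in
lemma theta'_smul (c : ℝ) (h : Lp ℝ 2 μ) : theta' (c • h) = (c * |c|) • theta' h := by
  apply Lp.ext
  filter_upwards [theta'_coe (c • h), theta'_coe h, Lp.coeFn_smul c h,
    Lp.coeFn_smul (c * |c|) (theta' h)] with x a1 a2 a3 a4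
  rw [a1, a3, a4, Pi.smul_apply, Pi.smul_apply, a2, smul_eq_mul, smul_eq_mul]
  unfold sq
  rw [abs_mul]; ring

omit [IsFiniteMeasure μ] in
lemma theta_smul (c : ℝ) (f : Lp ℝ 1 μ) : theta ((c * |c|) • f) = c • theta f := by
  apply Lp.ext
  filter_upwards [theta_coe ((c * |c|) • f), theta_coe f, Lp.coeFn_smul (c * |c|) f,
    Lp.coeFn_smul c (theta f)] with x a1 a2 a3 a4
  rw [a1, a3, a4, Pi.smul_apply, Pi.smul_apply, a2, smul_eq_mul, smul_eq_mul, sr_mul]
  have := sr_sq c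
  unfold sq at this
  rw [this]

omit [IsFiniteMeasure μ] in
lemma piF_smul (U : Lp ℝ 1 μ →ₗᵢ[ℝ] Lp ℝ 1 μ) (c : ℝ) (h : Lp ℝ 2 μ) :
    piF U (c • h) = c • piF U h := by
  unfold piF
  rw [theta'_smul, map_smul, theta_smul]

omit [IsFiniteMeasure μ] in
lemma norm_piF (U : Lp ℝ 1 μ →ₗᵢ[ℝ] Lp ℝ 1 μ) (h : Lp ℝ 2 μ) : ‖piF U h‖ = ‖h‖ := by
  have h1 : ‖piF U h‖ ^ 2 = ‖h‖ ^ 2 := by
    unfold piF
    rw [norm_theta_sq, U.norm_map, ← norm_theta_sq, theta_theta']
  exact (pow_left_inj₀ (norm_nonneg _) (norm_nonneg _) two_ne_zero).mp h1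

/-- the induced homomorphism of isometry groups -/
def piHom : (Lp ℝ 1 μ ≃ₗᵢ[ℝ] Lp ℝ 1 μ) →* (Lp ℝ 2 μ ≃ₗᵢ[ℝ] Lp ℝ 2 μ) where
  toFun U :=
    { toFun := piF U.toLinearIsometry
      invFun := piF U.symm.toLinearIsometry
      map_add' := piF_add _
      map_smul' := piF_smul _
      left_inv := by
        intro h
        simp [piF, theta'_theta, theta_theta']
      right_inv := by
        intro h
        simp [piF, theta'_theta, theta_theta']
      norm_map' := norm_piF _ }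
  map_one' := by
    ext1 h
    exact theta_theta' h
  map_mul' := by
    intro U V
    ext1 h
    show theta (U (V (theta' h))) = theta (U (theta' (theta (V (theta' h)))))
    rw [theta'_theta]

lemma piHom_apply (U : Lp ℝ 1 μ ≃ₗᵢ[ℝ] Lp ℝ 1 μ) (h : Lp ℝ 2 μ) :
    piHom U h = theta (U (theta' h)) := rfl

end Pool.Agent.Lib_helper92.ActL1
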