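import Mathlib
import Pool.Agent.Lib_helper92.ActL1.Defs
import Pool.Agent.Lib_helper92.ActL1.Mazur

/-!
# An invariant density gives an invariant strictly convex norm
-/

set_option autoImplicit false

open MeasureTheory Topology Finset

noncomputable section

namespace Pool.Agent.Lib_helper92.ActL1

/-- Euclidean norm of the plane -/
def hyp (a b : ℝ) : ℝ := ‖(⟨a, b⟩ : ℂ)‖

lemma hyp_nonneg (a b : ℝ) : 0 ≤ hyp a b := norm_nonneg _

lemma hyp_sq (a b : ℝ) : hyp a b ^ 2 = a ^ 2 + b ^ 2 := by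
  unfold hyp
  rw [Complex.sq_norm, Complex.normSq_mk]
  ring

lemma hyp_mono {a b b' : ℝ} (h : |b| ≤ |b'|) : hyp a b ≤ hyp a b' := by
  apply (pow_le_pow_iff_left₀ (hyp_nonneg _ _) (hyp_nonneg _ _) two_ne_zero).mp
  rw [hyp_sq, hyp_sq]
  have := sq_le_sq.mpr h
  linarith

lemma abs_le_hyp (a b : ℝ) : |a| ≤ hyp a b := Complex.abs_re_le_norm ⟨a, b⟩

lemma hyp_le (a b : ℝ) : hyp a b ≤ |a| + |b| := Complex.norm_le_abs_re_add_abs_im ⟨a, b⟩

lemma hyp_add (a b a' b' : ℝ) : hyp (a + a') (b + b') ≤ hyp a b + hyp a' b' :=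
  norm_add_le (⟨a, b⟩ : ℂ) ⟨a', b'⟩

lemma hyp_smul (c a b : ℝ) : hyp (c * a) (c * b) = |c| * hyp a b := by
  apply (pow_left_inj₀ (hyp_nonneg _ _) (mul_nonneg (abs_nonneg _) (hyp_nonneg _ _))
    two_ne_zero).mp
  rw [mul_pow, hyp_sq, hyp_sq, sq_abs]
  ring

lemma hyp_neg_right (a b : ℝ) : hyp a (-b) = hyp a b := by
  apply (pow_left_inj₀ (hyp_nonneg _ _) (hyp_nonneg _ _) two_ne_zero).mp
  rw [hyp_sq, hyp_sq]; ring

lemma hyp_abs_right (a b : ℝ) : hyp a |b| = hyp a b := by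
  apply (pow_left_inj₀ (hyp_nonneg _ _) (hyp_nonneg _ _) two_ne_zero).mp
  rw [hyp_sq, hyp_sq, sq_abs]

lemma hyp_congr {a b b' : ℝ} (h : |b| = |b'|) : hyp a b = hyp a b' := by
  rw [← hyp_abs_right, h, hyp_abs_right]

lemma hyp_lip (a b a' b' : ℝ) : |hyp a b - hyp a' b'| ≤ |a - a'| + |b - b'| := by
  have h1 := abs_norm_sub_norm_le (⟨a, b⟩ : ℂ) ⟨a', b'⟩
  refine h1.trans ?_
  exact Complex.norm_le_abs_re_add_abs_im ((⟨a, b⟩ : ℂ) - ⟨a', b'⟩)

lemma hyp_eq {a b a' b' : ℝ} (h : hyp (a + a') (b + b') = hyp a b + hyp a' b') :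
    a * b' = a' * b := by
  have h1 : hyp (a + a') (b + b') ^ 2 = (hyp a b + hyp a' b') ^ 2 := by rw [h]
  have e1 := hyp_sq a b
  have e2 := hyp_sq a' b'
  rw [hyp_sq] at h1
  have h2 : a * a' + b * b' = hyp a b * hyp a' b' := by nlinarith
  have h3 : (a * a' + b * b') ^ 2 = (a ^ 2 + b ^ 2) * (a' ^ 2 + b' ^ 2) := by
    rw [h2, mul_pow, e1, e2]
  have h4 : (a * b' - a' * b) ^ 2 = 0 := by nlinarith
  have h5 := pow_eq_zero_iff (two_ne_zero) |>.mp h4
  linarith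

/-- An action is good if it has an invariant density. -/
def Good {G : Type} [Group G] (α : Act G) : Prop :=
  ∃ ψ : L1, (∀ᵐ x, ψ x ≠ 0) ∧ ∀ g, |(α.at g).app ψ| = |ψ|

/-- the linear isometry underlying an element of `Iso` -/
def Iso.li (U : Iso) : L1 →ₗᵢ[ℝ] L1 := (show L1 ≃ₗᵢ[ℝ] L1 from U).toLinearIsometry

lemma Iso.li_apply (U : Iso) (f : L1) : U.li f = U.app f := rfl

lemma Iso.norm_app (U : Iso) (f : L1) : ‖U.app f‖ = ‖f‖ := U.li.norm_map f

/-- the norm -/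
def Nn (ψ : L1) (f : L1) : ℝ := ∫ x, hyp (f x) (‖f‖ * ψ x)

lemma integrable_hyp (ψ f : L1) (s : ℝ) : Integrable (fun x => hyp (f x) (s * ψ x)) := by
  refine Integrable.mono' (g := fun x => |f x| + |s * ψ x|)
    ((L1.integrable_coeFn f).abs.add ((L1.integrable_coeFn ψ).const_mul s).abs) ?_ ?_
  · have hc : Continuous (fun p : ℝ × ℝ => hyp p.1 p.2) := by
      unfold hyp
      apply Continuous.norm
      have : (fun p : ℝ × ℝ => (⟨p.1, p.2⟩ : ℂ)) = fun p => (p.1 : ℂ) + (p.2 : ℂ) * Complex.I := by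
        funext p
        apply Complex.ext <;> simp
      rw [this]
      fun_prop
    exact hc.comp_aestronglyMeasurable ((L1.integrable_coeFn f).aestronglyMeasurable.prodMk
      ((L1.integrable_coeFn ψ).const_mul s).aestronglyMeasurable)
  · filter_upwards with x
    rw [Real.norm_eq_abs, abs_of_nonneg (hyp_nonneg _ _)]
    exact hyp_le _ _

lemma Nn_smul (ψ : L1) (c : ℝ) (f : L1) : Nn ψ (c • f) = |c| * Nn ψ f := by
  unfold Nn
  rw [← integral_const_mul]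
  apply integral_congr_ae
  filter_upwards [Lp.coeFn_smul c f] with x hx
  rw [hx, Pi.smul_apply, smul_eq_mul, norm_smul, Real.norm_eq_abs]
  rw [← hyp_smul]
  apply hyp_congr
  rw [abs_mul, abs_mul, abs_mul, abs_abs, abs_mul, mul_assoc]

lemma Nn_lower (ψ f : L1) : ‖f‖ ≤ Nn ψ f := by
  rw [norm_L1]
  unfold Nn
  apply integral_mono (L1.integrable_coeFn f).abs (integrable_hyp ψ f _)
  intro x
  exact abs_le_hyp _ _

lemma Nn_upper (ψ f : L1) : Nn ψ f ≤ (1 + ‖ψ‖) * ‖f‖ := by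
  have h1 : (1 + ‖ψ‖) * ‖f‖ = ∫ x, (|f x| + ‖f‖ * |ψ x|) := by
    rw [integral_add (L1.integrable_coeFn f).abs ((L1.integrable_coeFn ψ).abs.const_mul _),
      integral_const_mul, ← norm_L1, ← norm_L1]
    ring
  rw [h1]
  unfold Nn
  apply integral_mono (integrable_hyp ψ f _)
    ((L1.integrable_coeFn f).abs.add ((L1.integrable_coeFn ψ).abs.const_mul _))
  intro x
  refine (hyp_le _ _).trans ?_
  rw [abs_mul, abs_of_nonneg (norm_nonneg f)]
  rfl

lemma Nn_pointwise (ψ f g : L1) : ∀ᵐ x, hyp ((f + g) x) (‖f + g‖ * ψ x) ≤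
    hyp (f x + g x) (‖f‖ * ψ x + ‖g‖ * ψ x) ∧
    hyp (f x + g x) (‖f‖ * ψ x + ‖g‖ * ψ x) ≤ hyp (f x) (‖f‖ * ψ x) + hyp (g x) (‖g‖ * ψ x) := by
  filter_upwards [Lp.coeFn_add f g] with x hx
  constructor
  · rw [hx, Pi.add_apply]
    apply hyp_mono
    rw [← add_mul, abs_mul, abs_mul, abs_of_nonneg (norm_nonneg _),
      abs_of_nonneg (add_nonneg (norm_nonneg f) (norm_nonneg g))]
    exact mul_le_mul_of_nonneg_right (norm_add_le f g) (abs_nonneg _)
  · exact hyp_add _ _ _ _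

lemma Nn_add (ψ f g : L1) : Nn ψ (f + g) ≤ Nn ψ f + Nn ψ g := by
  unfold Nn
  rw [← integral_add (integrable_hyp ψ f _) (integrable_hyp ψ g _)]
  apply integral_mono_ae (integrable_hyp ψ (f + g) _)
    ((integrable_hyp ψ f _).add (integrable_hyp ψ g _))
  filter_upwards [Nn_pointwise ψ f g] with x hx
  exact hx.1.trans hx.2

lemma Nn_strict (ψ : L1) (hψ : ∀ᵐ x, ψ x ≠ 0) : IsStrictlyConvex (Nn ψ) := by
  intro f g hne hN
  by_contra hcon
  rw [not_lt, Nn_smul] at hcon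
  have h1 : Nn ψ (f + g) = Nn ψ f + Nn ψ g := by
    have := Nn_add ψ f g
    rw [abs_of_pos (by norm_num : (0 : ℝ) < 1 / 2)] at hcon
    linarith
  have h2 : ∀ᵐ x, hyp ((f + g) x) (‖f + g‖ * ψ x) =
      hyp (f x) (‖f‖ * ψ x) + hyp (g x) (‖g‖ * ψ x) := by
    have h3 : ∫ x, (hyp (f x) (‖f‖ * ψ x) + hyp (g x) (‖g‖ * ψ x) -
        hyp ((f + g) x) (‖f + g‖ * ψ x)) = 0 := by
      rw [integral_sub (f := fun x => hyp (f x) (‖f‖ * ψ x) + hyp (g x) (‖g‖ * ψ x))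
        ((integrable_hyp ψ f _).add (integrable_hyp ψ g _))
        (integrable_hyp ψ (f + g) _), integral_add (integrable_hyp ψ f _) (integrable_hyp ψ g _)]
      unfold Nn at h1
      linarith
    rw [integral_eq_zero_iff_of_nonneg_ae] at h3
    · filter_upwards [h3] with x hx
      have : hyp (f x) (‖f‖ * ψ x) + hyp (g x) (‖g‖ * ψ x) -
        hyp ((f + g) x) (‖f + g‖ * ψ x) = 0 := hx
      linarith
    · filter_upwards [Nn_pointwise ψ f g] with x hx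
      have := hx.1.trans hx.2
      show (0 : ℝ) ≤ _
      linarith
    · exact ((integrable_hyp ψ f _).add (integrable_hyp ψ g _)).sub (integrable_hyp ψ (f + g) _)
  have h4 : ‖g‖ • f = ‖f‖ • g := by
    apply Lp.ext
    filter_upwards [h2, Nn_pointwise ψ f g, hψ, Lp.coeFn_smul ‖g‖ f, Lp.coeFn_smul ‖f‖ g]
      with x a1 a2 a3 a4 a5
    have h5 : hyp (f x + g x) (‖f‖ * ψ x + ‖g‖ * ψ x) =
        hyp (f x) (‖f‖ * ψ x) + hyp (g x) (‖g‖ * ψ x) := le_antisymm a2.2 (a1 ▸ a2.1)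
    have h6 := hyp_eq h5
    rw [a4, a5, Pi.smul_apply, Pi.smul_apply, smul_eq_mul, smul_eq_mul]
    have h7 : (‖g‖ * f x) * ψ x = (‖f‖ * g x) * ψ x := by linarith
    exact mul_right_cancel₀ a3 h7
  have hf : 0 < ‖f‖ := by
    by_contra h0
    have h5 : ‖f‖ = 0 := le_antisymm (not_lt.mp h0) (norm_nonneg f)
    have hf0 := norm_eq_zero.mp h5
    have h6 : Nn ψ f = 0 := by
      have := Nn_upper ψ f
      rw [h5, mul_zero] at this
      have := Nn_lower ψ f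
      linarith
    have h7 := Nn_lower ψ g
    rw [← hN, h6] at h7
    have hg0 := norm_le_zero_iff.mp h7
    exact hne (hf0.trans hg0.symm)
  have h5 : ‖g‖ * Nn ψ f = ‖f‖ * Nn ψ g := by
    have := congrArg (Nn ψ) h4
    rwa [Nn_smul, Nn_smul, abs_of_nonneg (norm_nonneg _), abs_of_nonneg (norm_nonneg _)] at this
  have hNf : 0 < Nn ψ f := lt_of_lt_of_le hf (Nn_lower ψ f)
  rw [← hN] at h5
  have h6 := mul_right_cancel₀ hNf.ne' h5
  rw [h6] at h4
  apply hne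
  have h7 : ‖f‖ • (f - g) = 0 := by rw [smul_sub, h4, sub_self]
  rcases smul_eq_zero.mp h7 with h8 | h8
  · exact absurd h8 hf.ne'
  · exact sub_eq_zero.mp h8

lemma Nn_map (ψ : L1) (U : Iso) (hU : |U.app ψ| = |ψ|) (f : L1) : Nn ψ (U.app f) = Nn ψ f := by
  obtain ⟨s, hs⟩ : ∃ s, s = ‖f‖ := ⟨_, rfl⟩
  have h := homog U.li ![f, ψ] (fun v => hyp (v 0) (s * v 1))
    (fun c v => by
      simp only [Pi.smul_apply, smul_eq_mul]
      rw [← hyp_smul]
      congr 1; ring) (1 + |s|)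
    (fun v w => by
      rw [Fin.sum_univ_two]
      refine (hyp_lip _ _ _ _).trans ?_
      rw [← mul_sub, abs_mul]
      have n0 := abs_nonneg (v 0 - w 0)
      have n1 := abs_nonneg (v 1 - w 1)
      have ns := abs_nonneg s
      nlinarith)
  have e1 : Nn ψ (U.app f) = ∫ y, (fun v : Fin 2 → ℝ => hyp (v 0) (s * v 1))
      (fun i => U.li (![f, ψ] i) y) := by
    unfold Nn
    rw [U.norm_app, ← hs]
    apply integral_congr_ae
    filter_upwards [Lp.coeFn_abs (U.app ψ), Lp.coeFn_abs ψ] with x h1 h2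
    show hyp (U.app f x) (s * ψ x) = hyp (U.app f x) (s * U.app ψ x)
    rw [← hyp_abs_right, ← hyp_abs_right _ (s * U.app ψ x), abs_mul, abs_mul, ← h1, ← h2, hU]
  rw [e1, h, hs]
  rfl

theorem hasInvariantRenorming_of_good {G : Type} [Group G] (α : Act G) (h : Good α) :
    HasInvariantRenorming α := by
  obtain ⟨ψ, hψ, hinv⟩ := h
  refine ⟨Nn ψ, ⟨Nn_add ψ, Nn_smul ψ, ⟨1, one_pos, fun x => ?_⟩, ⟨1 + ‖ψ‖, Nn_upper ψ⟩⟩,
    Nn_strict ψ hψ, fun g x => Nn_map ψ (α.at g) (hinv g) x⟩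
  rw [one_mul]
  exact Nn_lower ψ x

end Pool.Agent.Lib_helper92.ActL1
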