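import Mathlib
import Pool.Agent.Lib_helper92.ActL1.Defs
import Pool.Agent.Lib_helper92.ActL1.Cdf

/-!
# Isometries `L₁[0,1] → L₁(Ω)` adapted to a nearly disjoint family
-/

set_option autoImplicit false

open MeasureTheory Topology Filter Set
open scoped NNReal ENNReal

noncomputable section

namespace Pool.Agent.Lib_helper92.ActL1

/-- the cells of the uniform partition -/
def cell (m k : ℕ) : Set unitInterval := {x | (k : ℝ) / m ≤ x ∧ (x : ℝ) < ((k : ℝ) + 1) / m}

lemma measurableSet_cell (m k : ℕ) : MeasurableSet (cell m k) := by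
  apply MeasurableSet.inter
  · exact measurableSet_le measurable_const measurable_subtype_coe
  · exact measurableSet_lt measurable_subtype_coe measurable_const

/-- the indicator of a cell -/
def step (m k : ℕ) : L1 :=
  indicatorConstLp 1 (measurableSet_cell m k) (measure_ne_top _ _) (1 : ℝ)

lemma step_coe (m k : ℕ) : step m k =ᵐ[volume] (cell m k).indicator fun _ => (1 : ℝ) :=
  indicatorConstLp_coeFn

section
variable {Ω : Type} [MeasurableSpace Ω] {μ : Measure Ω} {w : Ω → ℝ} {c : Ω → unitInterval}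
  {q : unitInterval → Ω}

/-- the measure with density `|w|` -/
def nuw (μ : Measure Ω) (w : Ω → ℝ) : Measure Ω := μ.withDensity fun ω => ‖w ω‖ₑ

lemma lint_nuw (hw : Measurable w) {F : Ω → ℝ≥0∞} (hF : Measurable F) :
    ∫⁻ ω, F ω ∂(nuw μ w) = ∫⁻ ω, ‖w ω‖ₑ * F ω ∂μ :=
  lintegral_withDensity_eq_lintegral_mul μ hw.enorm hF

lemma lint_c (hw : Measurable w) (hc : MeasurePreserving c (nuw μ w) volume)
    (f : unitInterval → ℝ) (hf : Measurable f) :
    ∫⁻ ω, ‖w ω * f (c ω)‖ₑ ∂μ = ∫⁻ x, ‖f x‖ₑ := by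
  have h1 : ∀ ω, ‖w ω * f (c ω)‖ₑ = ‖w ω‖ₑ * ‖f (c ω)‖ₑ := fun ω => enorm_mul _ _
  simp only [h1]
  rw [← lint_nuw hw (F := fun ω => ‖f (c ω)‖ₑ) (hf.comp hc.measurable).enorm]
  exact hc.lintegral_comp (f := fun x => ‖f x‖ₑ) hf.enorm

lemma memLp_c (hw : Measurable w) (hc : MeasurePreserving c (nuw μ w) volume) (f : L1) :
    MemLp (fun ω => w ω * f (c ω)) 1 μ := by
  have hf : Measurable f := (Lp.stronglyMeasurable f).measurable
  refine ⟨(hw.mul (hf.comp hc.measurable)).aestronglyMeasurable, ?_⟩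
  rw [eLpNorm_one_eq_lintegral_enorm, lint_c hw hc f hf, ← eLpNorm_one_eq_lintegral_enorm]
  exact (Lp.memLp f).2

lemma ae_nuw (hw : Measurable w) (hw0 : ∀ᵐ ω ∂μ, w ω ≠ 0) {P : Ω → Prop}
    (h : ∀ᵐ ω ∂(nuw μ w), P ω) : ∀ᵐ ω ∂μ, P ω := by
  have h1 : μ ≪ nuw μ w := withDensity_absolutelyContinuous' hw.enorm.aemeasurable (by
    filter_upwards [hw0] with ω hω
    exact enorm_ne_zero.mpr hω)
  exact h1.ae_le h

lemma ae_nuw' {P : Ω → Prop} (h : ∀ᵐ ω ∂μ, P ω) : ∀ᵐ ω ∂(nuw μ w), P ω :=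
  (withDensity_absolutelyContinuous μ _).ae_le h

lemma ae_comp (hw : Measurable w) (hw0 : ∀ᵐ ω ∂μ, w ω ≠ 0)
    (hc : MeasurePreserving c (nuw μ w) volume) {P : unitInterval → Prop}
    (h : ∀ᵐ x, P x) : ∀ᵐ ω ∂μ, P (c ω) :=
  ae_nuw hw hw0 (hc.quasiMeasurePreserving.ae h)

lemma ae_of_comp (hc : MeasurePreserving c (nuw μ w) volume) {P : unitInterval → Prop}
    (hP : MeasurableSet {x | P x}) (h : ∀ᵐ ω ∂μ, P (c ω)) : ∀ᵐ x, P x := by
  have h1 := ae_nuw' (w := w) h
  rw [ae_iff] at h1 ⊢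
  have h2 := hc.measure_preimage (s := {x | ¬ P x}) hP.compl.nullMeasurableSet
  rw [← h2]
  exact h1

/-- the linear isometry -/
def Tli (hw : Measurable w) (hw0 : ∀ᵐ ω ∂μ, w ω ≠ 0)
    (hc : MeasurePreserving c (nuw μ w) volume) : L1 →ₗᵢ[ℝ] Lp ℝ 1 μ where
  toFun f := (memLp_c hw hc f).toLp _
  map_add' := by
    intro f g
    apply Lp.ext
    filter_upwards [(memLp_c hw hc f).coeFn_toLp, (memLp_c hw hc g).coeFn_toLp,
      (memLp_c hw hc (f + g)).coeFn_toLp,
      Lp.coeFn_add ((memLp_c hw hc f).toLp _) ((memLp_c hw hc g).toLp _),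
      ae_comp hw hw0 hc (Lp.coeFn_add f g)] with ω a1 a2 a3 a4 a5
    rw [a3, a4, Pi.add_apply, a1, a2, a5, Pi.add_apply, mul_add]
  map_smul' := by
    intro r f
    apply Lp.ext
    filter_upwards [(memLp_c hw hc f).coeFn_toLp, (memLp_c hw hc (r • f)).coeFn_toLp,
      Lp.coeFn_smul r ((memLp_c hw hc f).toLp _),
      ae_comp hw hw0 hc (Lp.coeFn_smul r f)] with ω a1 a2 a3 a4
    rw [a2, RingHom.id_apply, a3, Pi.smul_apply, a1, a4, Pi.smul_apply, smul_eq_mul, smul_eq_mul]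
    ring
  norm_map' := by
    intro f
    show ‖(memLp_c hw hc f).toLp _‖ = ‖f‖
    rw [Lp.norm_toLp, Lp.norm_def, eLpNorm_one_eq_lintegral_enorm, eLpNorm_one_eq_lintegral_enorm,
      lint_c hw hc f (Lp.stronglyMeasurable f).measurable]

lemma Tli_coe (hw : Measurable w) (hw0 : ∀ᵐ ω ∂μ, w ω ≠ 0)
    (hc : MeasurePreserving c (nuw μ w) volume) (f : L1) :
    Tli hw hw0 hc f =ᵐ[μ] fun ω => w ω * f (c ω) := (memLp_c hw hc f).coeFn_toLp

lemma Tli_surj (hw : Measurable w) (hw0 : ∀ᵐ ω ∂μ, w ω ≠ 0)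
    (hc : MeasurePreserving c (nuw μ w) volume) (hq : MeasurePreserving q volume (nuw μ w))
    (hqc : ∀ᵐ ω ∂(nuw μ w), q (c ω) = ω) : Function.Surjective (Tli hw hw0 hc) := by
  intro Φ
  have hΦ : Measurable Φ := (Lp.stronglyMeasurable Φ).measurable
  have hm : MemLp (fun x => Φ (q x) / w (q x)) 1 (volume : Measure unitInterval) := by
    refine ⟨((hΦ.div hw).comp hq.measurable).aestronglyMeasurable, ?_⟩
    rw [eLpNorm_one_eq_lintegral_enorm]
    have h1 : ∫⁻ x, ‖Φ (q x) / w (q x)‖ₑ = ∫⁻ ω, ‖Φ ω / w ω‖ₑ ∂(nuw μ w) :=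
      hq.lintegral_comp (f := fun ω => ‖Φ ω / w ω‖ₑ) (hΦ.div hw).enorm
    rw [h1, lint_nuw hw (F := fun ω => ‖Φ ω / w ω‖ₑ) (hΦ.div hw).enorm]
    have h2 : ∫⁻ ω, ‖w ω‖ₑ * ‖Φ ω / w ω‖ₑ ∂μ = ∫⁻ ω, ‖Φ ω‖ₑ ∂μ := by
      apply lintegral_congr_ae
      filter_upwards [hw0] with ω hω
      rw [← enorm_mul, mul_div_cancel₀ _ hω]
    rw [h2, ← eLpNorm_one_eq_lintegral_enorm]
    exact (Lp.memLp Φ).2
  refine ⟨hm.toLp _, ?_⟩
  apply Lp.ext
  filter_upwards [Tli_coe hw hw0 hc (hm.toLp _), ae_comp hw hw0 hc hm.coeFn_toLp,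
    ae_nuw hw hw0 hqc, hw0] with ω a1 a2 a3 a4
  rw [a1, a2, a3, mul_div_cancel₀ _ a4]

end

lemma ae_ne_coe (r : ℝ) : ∀ᵐ x : unitInterval, (x : ℝ) ≠ r := by
  rw [ae_iff]
  have : {x : unitInterval | ¬ ((x : ℝ) ≠ r)}.Subsingleton := by
    intro a ha b hb
    simp only [ne_eq, not_not, mem_ofPred_eq] at ha hb
    exact Subtype.ext (ha.trans hb.symm)
  exact this.measure_zero _

theorem exists_isometry {Ω : Type} [MeasurableSpace Ω] [StandardBorelSpace Ω] (μ : Measure Ω)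
    [IsProbabilityMeasure μ] [NullSingletonClass μ] (w : Ω → ℝ) (hw : Measurable w)
    (hw0 : ∀ᵐ ω ∂μ, w ω ≠ 0) (hwint : Integrable w μ) {m : ℕ} (hm : 0 < m) (κ : Ω → Fin m)
    (hκ : Measurable κ) (hκw : ∀ k, ∫ ω in κ ⁻¹' {k}, |w ω| ∂μ = 1 / m) :
    ∃ T : L1 ≃ₗᵢ[ℝ] Lp ℝ 1 μ,
      (∀ k : Fin m, T (step m k) =ᵐ[μ] fun ω => if κ ω = k then w ω else 0) ∧
      (∀ᵐ x, T.symm (Lp.const 1 μ (1 : ℝ)) x ≠ 0) ∧
      ((∀ᵐ ω ∂μ, 0 < w ω) → (∀ f, 0 ≤ f → 0 ≤ T f) ∧ (∀ Φ, 0 ≤ Φ → 0 ≤ T.symm Φ)) := by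
  have hν : ∀ k, nuw μ w (κ ⁻¹' {k}) = ENNReal.ofReal (1 / m) := by
    intro k
    unfold nuw
    rw [withDensity_apply _ (hκ (measurableSet_singleton k)), ← hκw k,
      ← ofReal_integral_norm_eq_lintegral_enorm hwint.restrict]
    rfl
  have hprob : IsProbabilityMeasure (nuw μ w) := by
    constructor
    have h1 : (univ : Set Ω) = ⋃ k ∈ (Finset.univ : Finset (Fin m)), κ ⁻¹' {k} := by
      ext ω; simp
    rw [h1, measure_biUnion_finset]
    · rw [Finset.sum_congr rfl (fun k _ => hν k), Finset.sum_const, Finset.card_univ,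
        Fintype.card_fin, nsmul_eq_mul, ← ENNReal.ofReal_natCast,
        ← ENNReal.ofReal_mul (by positivity)]
      have : (m : ℝ) ≠ 0 := by positivity
      rw [mul_one_div_cancel this, ENNReal.ofReal_one]
    · intro a _ b _ hab
      apply Disjoint.preimage
      simpa using hab
    · intro k _
      exact hκ (measurableSet_singleton k)
  have hatom : NullSingletonClass (nuw μ w) := by
    constructor
    intro x
    exact (withDensity_absolutelyContinuous μ _) (measure_singleton x)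
  obtain ⟨c, q, hc, hq, hqc, hloc⟩ := exists_iso_mod_zero (nuw μ w) κ hκ hν
  have hsurj := Tli_surj hw hw0 hc hq hqc
  let T := LinearIsometryEquiv.ofSurjective (Tli hw hw0 hc) hsurj
  have hT : ∀ f, T f =ᵐ[μ] fun ω => w ω * f (c ω) := fun f => Tli_coe hw hw0 hc f
  refine ⟨T, ?_, ?_, ?_⟩
  · intro k
    have hne : ∀ᵐ ω ∂μ, ∀ j : ℕ, (c ω : ℝ) ≠ ((j : ℝ) + 1) / m := by
      rw [ae_all_iff]
      intro j
      exact ae_comp hw hw0 hc (ae_ne_coe _)
    filter_upwards [hT (step m k), ae_comp hw hw0 hc (step_coe m k), hne] with ω a1 a2 a3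
    rw [a1, a2]
    have hmr : (0 : ℝ) < m := by exact_mod_cast hm
    by_cases h : κ ω = k
    · rw [if_pos h, indicator_of_mem, mul_one]
      have h1 := hloc ω
      rw [h] at h1
      exact ⟨h1.1, lt_of_le_of_ne h1.2 (a3 k)⟩
    · rw [if_neg h, indicator_of_notMem, mul_zero]
      rintro ⟨h2, h3⟩
      have h1 := hloc ω
      have h4 : (c ω : ℝ) < (((κ ω : ℕ) : ℝ) + 1) / m := lt_of_le_of_ne h1.2 (a3 _)
      have h5 : ((k : ℕ) : ℝ) < ((κ ω : ℕ) : ℝ) + 1 := by
        have := h2.trans_lt h4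
        rwa [div_lt_div_iff_of_pos_right hmr] at this
      have h6 : ((κ ω : ℕ) : ℝ) < ((k : ℕ) : ℝ) + 1 := by
        have := h1.1.trans_lt h3
        rwa [div_lt_div_iff_of_pos_right hmr] at this
      have h5' : (k : ℕ) < (κ ω : ℕ) + 1 := by exact_mod_cast h5
      have h6' : (κ ω : ℕ) < (k : ℕ) + 1 := by exact_mod_cast h6
      apply h
      apply Fin.ext
      omega
  · have h1 : T (T.symm (Lp.const 1 μ (1 : ℝ))) = Lp.const 1 μ (1 : ℝ) := T.apply_symm_apply _
    have h2 := hT (T.symm (Lp.const 1 μ (1 : ℝ)))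
    rw [h1] at h2
    have h3 : ∀ᵐ ω ∂μ, T.symm (Lp.const 1 μ (1 : ℝ)) (c ω) ≠ 0 := by
      filter_upwards [h2, Lp.coeFn_const 1 μ (1 : ℝ)] with ω a1 a2 a3
      rw [a2, a3, mul_zero] at a1
      exact one_ne_zero a1
    refine ae_of_comp hc ?_ h3
    exact (((Lp.stronglyMeasurable (T.symm (Lp.const 1 μ (1 : ℝ)))).measurable)
      (measurableSet_singleton (0 : ℝ))).compl
  · intro hpos
    constructor
    · intro f hf
      rw [← Lp.coeFn_nonneg] at hf ⊢
      filter_upwards [hT f, hpos, ae_comp hw hw0 hc hf] with ω a1 a2 a3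
      rw [a1]
      exact mul_nonneg a2.le a3
    · intro Φ hΦ
      have h1 : T (T.symm Φ) = Φ := T.apply_symm_apply _
      have h2 := hT (T.symm Φ)
      rw [h1] at h2
      rw [← Lp.coeFn_nonneg] at hΦ ⊢
      have h3 : ∀ᵐ ω ∂μ, 0 ≤ T.symm Φ (c ω) := by
        filter_upwards [h2, hpos, hΦ] with ω a1 a2 a3
        rw [a1] at a3
        by_contra hcon
        have := mul_neg_of_pos_of_neg a2 (not_le.mp hcon)
        exact absurd a3 (not_le.mpr this)
      refine ae_of_comp hc ?_ h3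
      exact ((Lp.stronglyMeasurable (T.symm Φ)).measurable) measurableSet_Ici


/-- an index of maximal modulus, chosen measurably -/
lemma exists_argmax {Ω : Type} [MeasurableSpace Ω] {m : ℕ} (hm : 0 < m) (φ : Fin m → Ω → ℝ)
    (hφ : ∀ k, Measurable (φ k)) : ∃ κ : Ω → Fin m, Measurable κ ∧
      ∀ ω l, |φ l ω| ≤ |φ (κ ω) ω| := by
  have hex : ∀ ω, ∃ k : Fin m, ∀ l, |φ l ω| < |φ k ω| ∨ (|φ l ω| = |φ k ω| ∧ k ≤ l) := by
    intro ω
    have hne : (Finset.univ : Finset (Fin m)).Nonempty := ⟨⟨0, hm⟩, Finset.mem_univ _⟩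
    obtain ⟨k, _, hk⟩ := Finset.exists_max_image Finset.univ
      (fun k => toLex (|φ k ω|, OrderDual.toDual k)) hne
    refine ⟨k, fun l => ?_⟩
    have h1 := hk l (Finset.mem_univ l)
    rw [Prod.Lex.le_iff] at h1
    rcases h1 with h1 | h1
    · left; exact h1
    · right; exact ⟨h1.1, h1.2⟩
  choose κ hκ using hex
  have huniq : ∀ ω k, (∀ l, |φ l ω| < |φ k ω| ∨ (|φ l ω| = |φ k ω| ∧ k ≤ l)) → κ ω = k := by
    intro ω k hk
    have h1 := hκ ω k
    have h2 := hk (κ ω)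
    rcases h1 with h1 | h1 <;> rcases h2 with h2 | h2
    · linarith
    · linarith [h2.1]
    · linarith [h1.1]
    · exact le_antisymm h1.2 h2.2
  refine ⟨κ, ?_, ?_⟩
  · apply measurable_to_countable'
    intro k
    have : κ ⁻¹' {k} = ⋂ l, {ω | |φ l ω| < |φ k ω| ∨ (|φ l ω| = |φ k ω| ∧ k ≤ l)} := by
      ext ω
      simp only [mem_preimage, mem_singleton_iff, mem_iInter, mem_ofPred_eq]
      constructor
      · intro h l
        rw [← h]
        exact hκ ω l
      · intro h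
        exact huniq ω k h
    rw [this]
    apply MeasurableSet.iInter
    intro l
    have h1 : {ω | |φ l ω| < |φ k ω| ∨ (|φ l ω| = |φ k ω| ∧ k ≤ l)} =
        {ω | |φ l ω| < |φ k ω|} ∪ ({ω | |φ l ω| = |φ k ω|} ∩ {ω | k ≤ l}) := by
      ext ω
      simp
    rw [h1]
    refine (measurableSet_lt (hφ l).abs (hφ k).abs).union
      ((measurableSet_eq_fun (hφ l).abs (hφ k).abs).inter ?_)
    exact MeasurableSet.const _
  · intro ω l
    rcases hκ ω l with h | h
    · exact h.le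
    · exact h.1.le

theorem exists_approx_isometry {Ω : Type} [MeasurableSpace Ω] [StandardBorelSpace Ω]
    (μ : Measure Ω) [IsProbabilityMeasure μ] [NullSingletonClass μ] {m : ℕ} (hm : 0 < m)
    (Φ : Fin m → Lp ℝ 1 μ) (δ : ℝ) (hδ : 0 < δ) (hδm : (m : ℝ) ^ 2 * δ < 1)
    (h1 : ∀ k, |‖Φ k‖ - 1 / m| ≤ δ)
    (h2 : ∀ k l, k ≠ l → ∫ ω, min |Φ k ω| |Φ l ω| ∂μ ≤ δ) :
    ∃ T : L1 ≃ₗᵢ[ℝ] Lp ℝ 1 μ,
      (∀ k : Fin m, ‖T (step m k) - Φ k‖ ≤ (2 * m + 1) * δ) ∧
      (∀ᵐ x, T.symm (Lp.const 1 μ (1 : ℝ)) x ≠ 0) ∧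
      ((∀ k, 0 ≤ Φ k) → (∀ f, 0 ≤ f → 0 ≤ T f) ∧ (∀ F, 0 ≤ F → 0 ≤ T.symm F)) := by
  have hmr : (0 : ℝ) < m := by exact_mod_cast hm
  have hm1 : (1 : ℝ) ≤ m := by exact_mod_cast hm
  have hφ : ∀ k, Measurable (Φ k) := fun k => (Lp.stronglyMeasurable (Φ k)).measurable
  have hφi : ∀ k, Integrable (Φ k) μ := fun k => L1.integrable_coeFn _
  obtain ⟨κ, hκ, hκmax⟩ := exists_argmax hm (fun k => (Φ k : Ω → ℝ)) hφ
  let B : Fin m → Set Ω := fun k => κ ⁻¹' {k}
  have hB : ∀ k, MeasurableSet (B k) := fun k => hκ (measurableSet_singleton k)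
  -- mass outside the own block
  have hout : ∀ k, ∫ ω in (B k)ᶜ, |Φ k ω| ∂μ ≤ (m - 1) * δ := by
    intro k
    have hpt : ∀ ω, (B k)ᶜ.indicator (fun ω => |Φ k ω|) ω ≤
        ∑ l ∈ Finset.univ.erase k, min |Φ k ω| |Φ l ω| := by
      intro ω
      by_cases h : ω ∈ (B k)ᶜ
      · rw [indicator_of_mem h]
        have hne : κ ω ≠ k := h
        refine le_trans ?_ (Finset.single_le_sum (f := fun l => min |Φ k ω| |Φ l ω|)
          (fun l _ => le_min (abs_nonneg _) (abs_nonneg _))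
          (Finset.mem_erase.mpr ⟨hne, Finset.mem_univ _⟩))
        exact le_min le_rfl (hκmax ω k)
      · rw [indicator_of_notMem h]
        exact Finset.sum_nonneg (fun l _ => le_min (abs_nonneg _) (abs_nonneg _))
    have hmi : ∀ l, Integrable (fun ω => min |Φ k ω| |Φ l ω|) μ := fun l =>
      (hφi k).abs.inf (hφi l).abs
    rw [← integral_indicator (hB k).compl]
    calc ∫ ω, (B k)ᶜ.indicator (fun ω => |Φ k ω|) ω ∂μ
        ≤ ∫ ω, ∑ l ∈ Finset.univ.erase k, min |Φ k ω| |Φ l ω| ∂μ :=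
          integral_mono ((hφi k).abs.indicator (hB k).compl)
            (integrable_finsetSum _ (fun l _ => hmi l)) hpt
      _ = ∑ l ∈ Finset.univ.erase k, ∫ ω, min |Φ k ω| |Φ l ω| ∂μ :=
          integral_finsetSum _ (fun l _ => hmi l)
      _ ≤ ∑ l ∈ Finset.univ.erase k, δ :=
          Finset.sum_le_sum (fun l hl => h2 k l (Finset.ne_of_mem_erase hl).symm)
      _ = (m - 1) * δ := by
          rw [Finset.sum_const, Finset.card_erase_of_mem (Finset.mem_univ _), Finset.card_univ,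
            Fintype.card_fin, nsmul_eq_mul, Nat.cast_sub hm, Nat.cast_one]
  -- the density
  let g : Fin m → Ω → ℝ := fun k ω => if Φ k ω = 0 then δ else Φ k ω
  have hg : ∀ k, Measurable (g k) := fun k =>
    Measurable.ite (measurableSet_eq_fun (hφ k) measurable_const) measurable_const (hφ k)
  have hg0 : ∀ k ω, g k ω ≠ 0 := by
    intro k ω
    show (if Φ k ω = 0 then δ else Φ k ω) ≠ 0
    split_ifs with h
    · exact hδ.ne'
    · exact h
  have hgle : ∀ k ω, |g k ω| ≤ |Φ k ω| + δ := by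
    intro k ω
    show |if Φ k ω = 0 then δ else Φ k ω| ≤ _
    split_ifs with h
    · rw [h, abs_zero, zero_add, abs_of_pos hδ]
    · linarith
  have hgge : ∀ k ω, |Φ k ω| ≤ |g k ω| := by
    intro k ω
    show _ ≤ |if Φ k ω = 0 then δ else Φ k ω|
    split_ifs with h
    · rw [h, abs_zero]; exact abs_nonneg _
    · exact le_rfl
  have hgsub : ∀ k ω, |g k ω - Φ k ω| ≤ δ := by
    intro k ω
    show |(if Φ k ω = 0 then δ else Φ k ω) - Φ k ω| ≤ δ
    split_ifs with h
    · rw [h, sub_zero, abs_of_pos hδ]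
    · rw [sub_self, abs_zero]; exact hδ.le
  have hgi : ∀ k, Integrable (g k) μ := by
    intro k
    refine Integrable.mono' ((hφi k).abs.add (integrable_const δ)) (hg k).aestronglyMeasurable ?_
    filter_upwards with ω
    exact hgle k ω
  let I : Fin m → ℝ := fun k => ∫ ω in B k, |g k ω| ∂μ
  have hsplit : ∀ k, ∫ ω in B k, |Φ k ω| ∂μ = ‖Φ k‖ - ∫ ω in (B k)ᶜ, |Φ k ω| ∂μ := by
    intro k
    have h := integral_add_compl (hB k) (hφi k).abs
    have h' : ‖Φ k‖ = ∫ ω, |Φ k ω| ∂μ := L1.norm_eq_integral_norm _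
    linarith
  have hout0 : ∀ k, 0 ≤ ∫ ω in (B k)ᶜ, |Φ k ω| ∂μ := fun k =>
    integral_nonneg (fun _ => abs_nonneg _)
  have hI1 : ∀ k, 1 / m - m * δ ≤ I k := by
    intro k
    have h3 : ∫ ω in B k, |Φ k ω| ∂μ ≤ I k :=
      integral_mono (hφi k).abs.integrableOn (hgi k).abs.integrableOn (hgge k)
    have h4 := hsplit k
    have h5 := hout k
    have h6 := (abs_le.mp (h1 k)).1
    linarith
  have hI2 : ∀ k, I k ≤ 1 / m + 2 * δ := by
    intro k
    have h3 : I k ≤ ∫ ω in B k, (|Φ k ω| + δ) ∂μ :=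
      integral_mono (hgi k).abs.integrableOn
        ((hφi k).abs.add (integrable_const δ)).integrableOn (hgle k)
    rw [integral_add (hφi k).abs.integrableOn (integrable_const δ).integrableOn,
      setIntegral_const, smul_eq_mul] at h3
    have h4 := hsplit k
    have h5 := hout0 k
    have h6 := (abs_le.mp (h1 k)).2
    have h7 : μ.real (B k) * δ ≤ 1 * δ :=
      mul_le_mul_of_nonneg_right measureReal_le_one hδ.le
    linarith
  have hIpos : ∀ k, 0 < I k := by
    intro k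
    refine lt_of_lt_of_le ?_ (hI1 k)
    rw [sub_pos, lt_div_iff₀ hmr]
    nlinarith
  let s : Fin m → ℝ := fun k => 1 / (m * I k)
  have hs : ∀ k, 0 < s k := fun k => by
    have := hIpos k
    show 0 < 1 / (m * I k)
    positivity
  have hsI : ∀ k, s k * I k = 1 / m := by
    intro k
    have := (hIpos k).ne'
    show 1 / (m * I k) * I k = 1 / m
    field_simp
  let w : Ω → ℝ := fun ω => s (κ ω) * g (κ ω) ω
  have hwB : ∀ k, ∀ ω ∈ B k, w ω = s k * g k ω := by
    intro k ω hω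
    have : κ ω = k := hω
    show s (κ ω) * g (κ ω) ω = _
    rw [this]
  have hw : Measurable w := by
    have h3 : Measurable (fun p : Fin m × Ω => s p.1 * g p.1 p.2) :=
      measurable_from_prod_countable_right (fun k => (hg k).const_mul (s k))
    exact h3.comp (hκ.prodMk measurable_id)
  have hw0 : ∀ ω, w ω ≠ 0 := fun ω => mul_ne_zero (hs _).ne' (hg0 _ _)
  have hwint : Integrable w μ := by
    refine Integrable.mono' (g := fun ω => ∑ k, s k * |g k ω|)
      (integrable_finsetSum _ (fun k _ => ((hgi k).abs.const_mul _))) hw.aestronglyMeasurable ?_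
    filter_upwards with ω
    show |s (κ ω) * g (κ ω) ω| ≤ _
    rw [abs_mul, abs_of_pos (hs _)]
    exact Finset.single_le_sum (f := fun k => s k * |g k ω|)
      (fun k _ => mul_nonneg (hs k).le (abs_nonneg _)) (Finset.mem_univ (κ ω))
  have hκw : ∀ k, ∫ ω in κ ⁻¹' {k}, |w ω| ∂μ = 1 / m := by
    intro k
    rw [← hsI k]
    show ∫ ω in B k, |w ω| ∂μ = s k * ∫ ω in B k, |g k ω| ∂μ
    rw [← integral_const_mul]
    apply setIntegral_congr_fun (hB k)
    intro ω hω
    show |w ω| = s k * |g k ω|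
    rw [hwB k ω hω, abs_mul, abs_of_pos (hs k)]
  obtain ⟨T, hT1, hT2, hT3⟩ := exists_isometry μ w hw (Eventually.of_forall hw0) hwint hm κ hκ hκw
  refine ⟨T, ?_, hT2, ?_⟩
  · intro k
    have h3 : ‖T (step m k) - Φ k‖ = ∫ ω, |(if κ ω = k then w ω else 0) - Φ k ω| ∂μ := by
      rw [L1.norm_eq_integral_norm]
      apply integral_congr_ae
      filter_upwards [Lp.coeFn_sub (T (step m k)) (Φ k), hT1 k] with ω a1 a2
      rw [a1, Pi.sub_apply, a2]; rfl
    have hint : Integrable (fun ω => |(if κ ω = k then w ω else 0) - Φ k ω|) μ := by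
      have h4 : Integrable (fun ω => if κ ω = k then w ω else 0) μ := by
        have h5 := hwint.indicator (hB k)
        refine h5.congr ?_
        filter_upwards with ω
        by_cases h : κ ω = k
        · rw [if_pos h, indicator_of_mem (by exact h)]
        · rw [if_neg h, indicator_of_notMem (by exact h)]
      exact (h4.sub (hφi k)).abs
    rw [h3, ← integral_add_compl (hB k) hint]
    have h6 : ∫ ω in (B k)ᶜ, |(if κ ω = k then w ω else 0) - Φ k ω| ∂μ =
        ∫ ω in (B k)ᶜ, |Φ k ω| ∂μ := by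
      apply setIntegral_congr_fun (hB k).compl
      intro ω hω
      have hne : ¬ (κ ω = k) := hω
      show |(if κ ω = k then w ω else 0) - Φ k ω| = |Φ k ω|
      rw [if_neg hne, zero_sub, abs_neg]
    have h7 : ∫ ω in B k, |(if κ ω = k then w ω else 0) - Φ k ω| ∂μ ≤
        |s k - 1| * I k + δ := by
      have h8 : ∫ ω in B k, |(if κ ω = k then w ω else 0) - Φ k ω| ∂μ ≤
          ∫ ω in B k, (|s k - 1| * |g k ω| + δ) ∂μ := by
        apply setIntegral_mono_on hint.integrableOn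
          ((((hgi k).abs.const_mul _).add (integrable_const δ)).integrableOn) (hB k)
        intro ω hω
        have he : κ ω = k := hω
        rw [if_pos he, hwB k ω hω]
        have h9 : s k * g k ω - Φ k ω = (s k - 1) * g k ω + (g k ω - Φ k ω) := by ring
        rw [h9]
        refine (abs_add_le _ _).trans ?_
        rw [abs_mul]
        exact add_le_add le_rfl (hgsub k ω)
      refine h8.trans ?_
      rw [integral_add ((hgi k).abs.const_mul _).integrableOn (integrable_const δ).integrableOn,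
        setIntegral_const, smul_eq_mul, integral_const_mul]
      have h10 : μ.real (B k) * δ ≤ 1 * δ :=
        mul_le_mul_of_nonneg_right measureReal_le_one hδ.le
      show |s k - 1| * I k + μ.real (B k) * δ ≤ _
      linarith
    have h11 : |s k - 1| * I k ≤ (m + 1) * δ := by
      have h13 : |s k - 1| * I k = |(s k - 1) * I k| := by
        rw [abs_mul, abs_of_pos (hIpos k)]
      rw [h13, sub_mul, one_mul, hsI k, abs_le]
      have a1 := hI1 k
      have a2 := hI2 k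
      constructor
      · nlinarith
      · nlinarith
    rw [h6]
    have h12 := hout k
    linarith
  · intro hpos
    apply hT3
    have h3 : ∀ᵐ ω ∂μ, ∀ k, 0 ≤ Φ k ω := by
      rw [ae_all_iff]
      intro k
      exact (Lp.coeFn_nonneg _).mpr (hpos k)
    filter_upwards [h3] with ω hω
    show 0 < s (κ ω) * g (κ ω) ω
    apply mul_pos (hs _)
    refine lt_of_le_of_ne ?_ (hg0 _ _).symm
    show 0 ≤ if Φ (κ ω) ω = 0 then δ else Φ (κ ω) ω
    split_ifs
    · exact hδ.le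
    · exact hω _

end Pool.Agent.Lib_helper92.ActL1
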