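import Mathlib
import Pool.Agent.Lib_helper92.ActL1.TLemma

/-!
# Step functions
-/

set_option autoImplicit false

open MeasureTheory Topology Filter Set
open scoped NNReal ENNReal

noncomputable section

namespace Pool.Agent.Lib_helper92.ActL1

/-- step functions on the uniform partition -/
def stepL (m : ℕ) (a : Fin m → ℝ) : L1 := ∑ k, a k • step m k

lemma ae_cell (m : ℕ) (hm : 0 < m) : ∀ᵐ x : unitInterval, ∃ k : Fin m, x ∈ cell m k ∧
    ∀ j : Fin m, j ≠ k → x ∉ cell m j := by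
  have hmr : (0 : ℝ) < m := by exact_mod_cast hm
  filter_upwards [ae_ne_coe 1] with x hx
  have hx1 : (x : ℝ) < 1 := lt_of_le_of_ne x.2.2 hx
  have hx0 : (0 : ℝ) ≤ x := x.2.1
  have h1 : ⌊(m : ℝ) * x⌋₊ < m := by
    rw [Nat.floor_lt (mul_nonneg hmr.le hx0)]
    nlinarith
  refine ⟨⟨⌊(m : ℝ) * x⌋₊, h1⟩, ⟨?_, ?_⟩, ?_⟩
  · show ((⌊(m : ℝ) * x⌋₊ : ℕ) : ℝ) / m ≤ x
    rw [div_le_iff₀ hmr, mul_comm (x : ℝ)]
    exact Nat.floor_le (mul_nonneg hmr.le hx0)
  · show (x : ℝ) < (((⌊(m : ℝ) * x⌋₊ : ℕ) : ℝ) + 1) / m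
    rw [lt_div_iff₀ hmr, mul_comm (x : ℝ)]
    exact Nat.lt_floor_add_one _
  · intro j hj hxj
    apply hj
    apply Fin.ext
    show (j : ℕ) = ⌊(m : ℝ) * x⌋₊
    symm
    rw [Nat.floor_eq_iff (mul_nonneg hmr.le hx0)]
    obtain ⟨h2, h3⟩ := hxj
    rw [div_le_iff₀ hmr] at h2
    rw [lt_div_iff₀ hmr] at h3
    constructor <;> linarith

lemma ae_step (m : ℕ) (hm : 0 < m) : ∀ᵐ x : unitInterval, ∃ k : Fin m, x ∈ cell m k ∧
    ∀ j : Fin m, step m j x = if j = k then 1 else 0 := by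
  have h1 : ∀ᵐ x : unitInterval, ∀ j : Fin m, step m j x = (cell m j).indicator (fun _ => (1 : ℝ)) x :=
    ae_all_iff.mpr (fun j => step_coe m j)
  filter_upwards [ae_cell m hm, h1] with x hx h1
  obtain ⟨k, hk, hne⟩ := hx
  refine ⟨k, hk, fun j => ?_⟩
  rw [h1 j]
  split_ifs with h
  · rw [h]; exact indicator_of_mem hk _
  · exact indicator_of_notMem (hne j h) _

lemma stepL_ae (m : ℕ) (a : Fin m → ℝ) : ∀ᵐ x : unitInterval,
    stepL m a x = ∑ k, a k * step m k x := by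
  have h1 : ∀ᵐ x : unitInterval, ∀ k, (a k • step m k) x = a k * step m k x := by
    rw [ae_all_iff]
    intro k
    filter_upwards [Lp.coeFn_smul (a k) (step m k)] with x hx
    rw [hx]; rfl
  filter_upwards [Lp.coeFn_finsetSum Finset.univ (fun k => a k • step m k), h1] with x h2 h3
  show (∑ k, a k • step m k : L1) x = _
  rw [h2, Finset.sum_apply]
  exact Finset.sum_congr rfl (fun k _ => h3 k)

lemma ae_stepL (m : ℕ) (hm : 0 < m) (a : Fin m → ℝ) : ∀ᵐ x : unitInterval, ∃ k : Fin m,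
    x ∈ cell m k ∧ (∀ j : Fin m, step m j x = if j = k then 1 else 0) ∧ stepL m a x = a k := by
  filter_upwards [ae_step m hm, stepL_ae m a] with x hx h1
  obtain ⟨k, hk, hj⟩ := hx
  refine ⟨k, hk, hj, ?_⟩
  rw [h1, Finset.sum_eq_single k]
  · rw [hj k, if_pos rfl, mul_one]
  · intro j _ hne
    rw [hj j, if_neg hne, mul_zero]
  · intro h; exact absurd (Finset.mem_univ k) h

lemma norm_step (m : ℕ) (k : Fin m) : ‖step m k‖ = 1 / m := by
  have hm : 0 < m := lt_of_le_of_lt (Nat.zero_le _) k.2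
  have hmr : (0 : ℝ) < m := by exact_mod_cast hm
  have h1 : (volume : Measure unitInterval) (cell m k) = ENNReal.ofReal (1 / m) := by
    have a0 : (0 : ℝ) ≤ ((k : ℕ) : ℝ) / m := by positivity
    have hk : ((k : ℕ) : ℝ) + 1 ≤ m := by exact_mod_cast k.2
    have a1 : ((k : ℕ) : ℝ) / m ≤ 1 := by rw [div_le_one hmr]; linarith
    have b0 : (0 : ℝ) ≤ (((k : ℕ) : ℝ) + 1) / m := by positivity
    have b1 : (((k : ℕ) : ℝ) + 1) / m ≤ 1 := by rw [div_le_one hmr]; exact hk
    have h2 : cell m k = Ico (⟨((k : ℕ) : ℝ) / m, a0, a1⟩ : unitInterval)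
        ⟨(((k : ℕ) : ℝ) + 1) / m, b0, b1⟩ := by
      ext x
      exact Iff.rfl
    rw [h2, unitInterval.volume_Ico]
    congr 1
    show (((k : ℕ) : ℝ) + 1) / m - ((k : ℕ) : ℝ) / m = 1 / m
    ring
  unfold step
  rw [norm_indicatorConstLp one_ne_zero ENNReal.one_ne_top, measureReal_def, h1,
    ENNReal.toReal_ofReal (by positivity)]
  simp

theorem exists_step_approx (f : L1) (ε : ℝ) (hε : 0 < ε) : ∃ M : ℕ, ∀ m, M ≤ m →
    ∃ a : Fin m → ℝ, ‖f - stepL m a‖ < ε ∧ (0 ≤ f → ∀ k, 0 ≤ a k) := by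
  have hd := ContinuousMap.toLp_denseRange ℝ (volume : Measure unitInterval) ℝ
    (p := 1) ENNReal.one_ne_top
  obtain ⟨g, hg⟩ := hd.exists_dist_lt f (half_pos hε)
  rw [dist_eq_norm] at hg
  have hguc : UniformContinuous g := CompactSpace.uniformContinuous_of_continuous g.continuous
  obtain ⟨δ, hδ, hδ'⟩ := Metric.uniformContinuous_iff.mp hguc (ε / 4) (by positivity)
  obtain ⟨M, hM⟩ := exists_nat_gt (1 / δ)
  refine ⟨M + 1, fun m hm => ?_⟩
  have hm0 : 0 < m := by omega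
  have hmr : (0 : ℝ) < m := by exact_mod_cast hm0
  have hmδ : 1 / (m : ℝ) < δ := by
    rw [div_lt_iff₀ hmr]
    have h1 : (M : ℝ) + 1 ≤ m := by exact_mod_cast hm
    have h2 : 1 < δ * M := by
      rw [div_lt_iff₀ hδ] at hM
      linarith
    nlinarith
  have hkI : ∀ k : Fin m, ((k : ℕ) : ℝ) / m ∈ unitInterval := by
    intro k
    constructor
    · positivity
    · rw [div_le_one hmr]
      have : ((k : ℕ) : ℝ) + 1 ≤ m := by exact_mod_cast k.2
      linarith
  -- approximation with the values of `g`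
  let a : Fin m → ℝ := fun k => g ⟨_, hkI k⟩
  have h1 : ‖f - stepL m a‖ < ε := by
    have h2 : ‖ContinuousMap.toLp 1 (volume : Measure unitInterval) ℝ g - stepL m a‖ ≤ ε / 4 := by
      rw [L1.norm_eq_integral_norm]
      have h3 : ∫ _ : unitInterval, ε / 4 = ε / 4 := by simp
      rw [← h3]
      apply integral_mono_ae (L1.integrable_coeFn _).norm (integrable_const _)
      filter_upwards [Lp.coeFn_sub (ContinuousMap.toLp 1 (volume : Measure unitInterval) ℝ g)
        (stepL m a), ae_stepL m hm0 a, ContinuousMap.coeFn_toLp (p := 1)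
        (volume : Measure unitInterval) (𝕜 := ℝ) g] with x b1 b2 b3
      obtain ⟨k, hk, -, hak⟩ := b2
      rw [b1, Pi.sub_apply, b3, hak, Real.norm_eq_abs, ← Real.dist_eq]
      apply le_of_lt
      apply hδ'
      rw [Subtype.dist_eq, Real.dist_eq, abs_of_nonneg (by linarith [hk.1])]
      have h4 := hk.2
      show (x : ℝ) - ((k : ℕ) : ℝ) / m < δ
      have h5 : (((k : ℕ) : ℝ) + 1) / m = ((k : ℕ) : ℝ) / m + 1 / m := by ring
      rw [h5] at h4
      linarith
    calc ‖f - stepL m a‖ ≤ ‖f - ContinuousMap.toLp 1 (volume : Measure unitInterval) ℝ g‖ +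
          ‖ContinuousMap.toLp 1 (volume : Measure unitInterval) ℝ g - stepL m a‖ :=
          norm_sub_le_norm_sub_add_norm_sub _ _ _
      _ < ε / 2 + ε / 2 := by linarith
      _ = ε := by ring
  by_cases hf : 0 ≤ f
  · refine ⟨fun k => max (a k) 0, lt_of_le_of_lt ?_ h1, fun _ k => le_max_right _ _⟩
    rw [L1.norm_eq_integral_norm, L1.norm_eq_integral_norm]
    apply integral_mono_ae (L1.integrable_coeFn _).norm (L1.integrable_coeFn _).norm
    filter_upwards [Lp.coeFn_sub f (stepL m a), Lp.coeFn_sub f (stepL m fun k => max (a k) 0),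
      ae_stepL m hm0 a, ae_stepL m hm0 (fun k => max (a k) 0), (Lp.coeFn_nonneg f).mpr hf]
      with x b1 b2 b3 b4 b5
    obtain ⟨k, hk, hj, hak⟩ := b3
    obtain ⟨k', hk', hj', hak'⟩ := b4
    have hkk : k' = k := by
      by_contra hne
      have c1 := hj k'
      have c2 := hj' k'
      rw [if_neg hne] at c1
      rw [if_pos rfl] at c2
      rw [c1] at c2
      exact zero_ne_one c2
    rw [b1, b2, Pi.sub_apply, Pi.sub_apply, hak, hak', hkk, Real.norm_eq_abs, Real.norm_eq_abs]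
    have b5' : (0 : ℝ) ≤ f x := b5
    rcases le_total 0 (a k) with h | h
    · rw [max_eq_left h]
    · rw [max_eq_right h, abs_of_nonneg (by linarith), abs_of_nonneg (by linarith)]
      linarith
  · exact ⟨a, h1, fun h => absurd h hf⟩

end Pool.Agent.Lib_helper92.ActL1
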