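import Mathlib
import Pool.Agent.Lib_helper92.ActL1.NormCon
import Pool.Agent.Lib_helper92.ActL1.Asym
import Pool.Agent.Lib_helper92.ActL1.Steps

/-!
# The action on the law space and the almost equivariant embeddings
-/

set_option autoImplicit false

open MeasureTheory Topology Filter Set
open scoped NNReal ENNReal

noncomputable section

namespace Pool.Agent.Lib_helper92.ActL1

lemma app_add (U : Iso) (f g : L1) : U.app (f + g) = U.app f + U.app g := map_add U.li f g
lemma app_sub (U : Iso) (f g : L1) : U.app (f - g) = U.app f - U.app g := map_sub U.li f g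
lemma app_neg (U : Iso) (f : L1) : U.app (-f) = -U.app f := map_neg U.li f

section
variable {G : Type} [Group G] (α : Act G)

lemma at_mul (g h : G) (f : L1) : (α.at (g * h)).app f = (α.at g).app ((α.at h).app f) := by
  have h1 : α.at (g * h) = α.at g * α.at h := map_mul (show G →* Iso from α) g h
  rw [h1]; rfl

lemma at_one (f : L1) : (α.at 1).app f = f := by
  have h1 : α.at 1 = 1 := map_one (show G →* Iso from α)
  rw [h1]; rfl

/-- an invariant symmetric set -/
structure Inv (D : Set L1) : Prop where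
  map : ∀ g, ∀ f ∈ D, (α.at g).app f ∈ D
  neg : ∀ f ∈ D, -f ∈ D

variable {α} {D : Set L1} (h : Inv α D)
include h

/-- the action on `D` -/
def TD (g : G) (f : D) : D := ⟨(α.at g).app f, h.map g f f.2⟩

/-- negation on `D` -/
def nD (f : D) : D := ⟨-(f : L1), h.neg f f.2⟩

lemma TD_coe (g : G) (f : D) : (TD h g f : L1) = (α.at g).app f := rfl

lemma nD_coe (f : D) : (nD h f : L1) = -(f : L1) := rfl

lemma nD_nD (f : D) : nD h (nD h f) = f := Subtype.ext (by rw [nD_coe, nD_coe, neg_neg])

lemma TD_nD (g : G) (f : D) : TD h g (nD h f) = nD h (TD h g f) :=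
  Subtype.ext (by rw [TD_coe, nD_coe, nD_coe, TD_coe, app_neg])

lemma TD_mul (g g' : G) (f : D) : TD h (g * g') f = TD h g (TD h g' f) :=
  Subtype.ext (at_mul α g g' f)

lemma TD_one (f : D) : TD h 1 f = f := Subtype.ext (at_one α f)

lemma mp (g : G) : MeasurePreserving (shift D (TD h g)) (muD D) (muD D) :=
  measurePreserving_shift D (TD h g) (α.at g).li (fun _ => rfl)

/-- the isometry of `L₁` of the law space -/
def beta (g : G) : Lp ℝ 1 (muD D) →ₗᵢ[ℝ] Lp ℝ 1 (muD D) :=
  Lp.compMeasurePreservingₗᵢ ℝ (shift D (TD h g)) (mp h g)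

lemma beta_coe (g : G) (F : Lp ℝ 1 (muD D)) :
    beta h g F =ᵐ[muD D] F ∘ shift D (TD h g) := Lp.coeFn_compMeasurePreserving F (mp h g)

lemma beta_mul (g g' : G) (F : Lp ℝ 1 (muD D)) : beta h (g * g') F = beta h g (beta h g' F) := by
  apply Lp.ext
  filter_upwards [beta_coe h (g * g') F, beta_coe h g (beta h g' F),
    (mp h g).quasiMeasurePreserving.ae (beta_coe h g' F)] with w a1 a2 a3
  rw [a1, a2, Function.comp_apply, Function.comp_apply, a3, Function.comp_apply]
  congr 1
  funext f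
  show w (TD h (g * g') f) = w (TD h g (TD h g' f))
  rw [TD_mul]

lemma beta_one (F : Lp ℝ 1 (muD D)) : beta h 1 F = F := by
  apply Lp.ext
  filter_upwards [beta_coe h 1 F] with w a1
  rw [a1, Function.comp_apply]
  congr 1
  funext f
  show w (TD h 1 f) = w f
  rw [TD_one]

lemma beta_const (g : G) : beta h g (Lp.const 1 (muD D) (1 : ℝ)) = Lp.const 1 (muD D) (1 : ℝ) := by
  apply Lp.ext
  filter_upwards [beta_coe h g (Lp.const 1 (muD D) (1 : ℝ)), Lp.coeFn_const 1 (muD D) (1 : ℝ),
    (mp h g).quasiMeasurePreserving.ae (Lp.coeFn_const 1 (muD D) (1 : ℝ))] with w a1 a2 a3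
  rw [a1, a2, Function.comp_apply, a3]
  rfl

lemma beta_nonneg (g : G) (F : Lp ℝ 1 (muD D)) (hF : 0 ≤ F) : 0 ≤ beta h g F := by
  rw [← Lp.coeFn_nonneg] at hF ⊢
  filter_upwards [beta_coe h g F, (mp h g).quasiMeasurePreserving.ae hF] with w a1 a2
  rw [a1]; exact a2

/-- the conjugated action -/
def newAct (T : L1 ≃ₗᵢ[ℝ] Lp ℝ 1 (muD D)) : Act G :=
  show G →* Iso from
  { toFun := fun g => show L1 ≃ₗᵢ[ℝ] L1 from
      { toFun := fun f => T.symm (beta h g (T f))
        invFun := fun f => T.symm (beta h g⁻¹ (T f))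
        left_inv := fun f => by
          simp only [LinearIsometryEquiv.apply_symm_apply]
          rw [← beta_mul, inv_mul_cancel, beta_one, T.symm_apply_apply]
        right_inv := fun f => by
          simp only [LinearIsometryEquiv.apply_symm_apply]
          rw [← beta_mul, mul_inv_cancel, beta_one, T.symm_apply_apply]
        map_add' := fun f f' => by simp only [map_add]
        map_smul' := fun c f => by simp only [map_smul, RingHom.id_apply]
        norm_map' := fun f => by
          show ‖T.symm (beta h g (T f))‖ = ‖f‖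
          rw [T.symm.norm_map, (beta h g).norm_map, T.norm_map] }
    map_one' := by
      apply LinearIsometryEquiv.ext
      intro f
      show T.symm (beta h 1 (T f)) = f
      rw [beta_one, T.symm_apply_apply]
    map_mul' := fun g g' => by
      apply LinearIsometryEquiv.ext
      intro f
      show T.symm (beta h (g * g') (T f)) = T.symm (beta h g (T (T.symm (beta h g' (T f)))))
      rw [T.apply_symm_apply, beta_mul] }

lemma newAct_app (T : L1 ≃ₗᵢ[ℝ] Lp ℝ 1 (muD D)) (g : G) (f : L1) :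
    ((newAct h T).at g).app f = T.symm (beta h g (T f)) := rfl

lemma newAct_good (T : L1 ≃ₗᵢ[ℝ] Lp ℝ 1 (muD D))
    (hT : ∀ᵐ x, T.symm (Lp.const 1 (muD D) (1 : ℝ)) x ≠ 0) : Good (newAct h T) := by
  refine ⟨T.symm (Lp.const 1 (muD D) (1 : ℝ)), hT, fun g => ?_⟩
  rw [newAct_app, T.apply_symm_apply, beta_const]

end

section
variable {G : Type} [Group G] {α : Act G} {D : Set L1} (h : Inv α D)

/-- the normalised power as an element of `L₁` -/
def RR (D : Set L1) (n : ℕ) (f : D) : Lp ℝ 1 (muD D) :=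
  (memLp_one_iff_integrable.mpr (integrable_rr D n f)).toLp _

lemma RR_coe (n : ℕ) (f : D) : RR D n f =ᵐ[muD D] fun w => (rr D n f w : ℝ) :=
  (memLp_one_iff_integrable.mpr (integrable_rr D n f)).coeFn_toLp

lemma RR_nonneg (n : ℕ) (f : D) : 0 ≤ RR D n f := by
  rw [← Lp.coeFn_nonneg]
  filter_upwards [RR_coe n f] with w hw
  rw [hw]
  exact NNReal.coe_nonneg _

lemma beta_RR (n : ℕ) (g : G) (f : D) : beta h g (RR D n f) = RR D n (TD h g f) := by
  apply Lp.ext
  filter_upwards [beta_coe h g (RR D n f), (mp h g).quasiMeasurePreserving.ae (RR_coe n f),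
    RR_coe n (TD h g f)] with w a1 a2 a3
  rw [a1, a3, Function.comp_apply, a2]
  rfl

lemma tendsto_RR_sub (f f' : D) :
    Tendsto (fun n => ‖RR D n f - RR D n f'‖) atTop (𝓝 ‖(f : L1) - f'‖) := by
  refine (tendsto_rr_sub D f f').congr (fun n => ?_)
  rw [L1.norm_eq_integral_norm]
  apply integral_congr_ae
  filter_upwards [Lp.coeFn_sub (RR D n f) (RR D n f'), RR_coe n f, RR_coe n f'] with w a1 a2 a3
  rw [a1, Pi.sub_apply, a2, a3, Real.norm_eq_abs]

lemma tendsto_RR (f : D) : Tendsto (fun n => ‖RR D n f‖) atTop (𝓝 ‖(f : L1)‖) := by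
  refine (tendsto_rr D f).congr (fun n => ?_)
  rw [L1.norm_eq_integral_norm]
  apply integral_congr_ae
  filter_upwards [RR_coe n f] with w a1
  rw [a1, Real.norm_eq_abs, NNReal.abs_eq]

/-- the almost equivariant almost isometric map -/
def JJ (n : ℕ) (s : ℝ) (f : D) : Lp ℝ 1 (muD D) :=
  (1 / (1 + s)) • (RR D n f - s • RR D n (nD h f))

lemma JJ_zero (n : ℕ) (f : D) : JJ h n 0 f = RR D n f := by
  unfold JJ
  simp

lemma beta_JJ (n : ℕ) (s : ℝ) (g : G) (f : D) : beta h g (JJ h n s f) = JJ h n s (TD h g f) := by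
  unfold JJ
  rw [map_smul, map_sub, map_smul, beta_RR, beta_RR, TD_nD]

lemma JJ_sub_le (s : ℝ) (hs : 0 ≤ s) (f f' : D) (ε : ℝ) (hε : 0 < ε) :
    ∀ᶠ n in atTop, ‖JJ h n s f - JJ h n s f'‖ ≤ ‖(f : L1) - f'‖ + ε := by
  have h1 := tendsto_RR_sub f f'
  have h2 := tendsto_RR_sub (nD h f) (nD h f')
  have h3 : ‖(nD h f : L1) - nD h f'‖ = ‖(f : L1) - f'‖ := by
    rw [nD_coe, nD_coe, ← norm_neg]
    congr 1
    abel
  rw [h3] at h2
  have h4 := (h1.add (h2.const_mul s)).const_mul (1 / (1 + s))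
  have h5 : 1 / (1 + s) * (‖(f : L1) - f'‖ + s * ‖(f : L1) - f'‖) = ‖(f : L1) - f'‖ := by
    have : 1 + s ≠ 0 := by positivity
    field_simp
  rw [h5] at h4
  have h6 := h4.eventually (gt_mem_nhds (show ‖(f : L1) - f'‖ < ‖(f : L1) - f'‖ + ε by linarith))
  filter_upwards [h6] with n hn
  refine le_trans ?_ hn.le
  unfold JJ
  rw [← smul_sub, norm_smul, Real.norm_eq_abs, abs_of_nonneg (by positivity : 0 ≤ 1 / (1 + s))]
  apply mul_le_mul_of_nonneg_left _ (by positivity)
  have h7 : RR D n f - s • RR D n (nD h f) - (RR D n f' - s • RR D n (nD h f')) =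
      (RR D n f - RR D n f') - s • (RR D n (nD h f) - RR D n (nD h f')) := by
    rw [smul_sub]; abel
  rw [h7]
  refine (norm_sub_le _ _).trans ?_
  rw [norm_smul, Real.norm_eq_abs, abs_of_nonneg hs]

lemma tendsto_JJ (s : ℝ) (hs : s = 0 ∨ s = 1) (f : D) :
    Tendsto (fun n => ‖JJ h n s f‖) atTop (𝓝 ‖(f : L1)‖) := by
  rcases hs with rfl | rfl
  · simp only [JJ_zero]
    exact tendsto_RR f
  · have h1 := (tendsto_RR_sub f (nD h f)).const_mul (1 / 2)
    have h2 : 1 / 2 * ‖(f : L1) - nD h f‖ = ‖(f : L1)‖ := by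
      rw [nD_coe, sub_neg_eq_add, ← two_smul ℝ (f : L1), norm_smul]
      norm_num
      ring
    rw [h2] at h1
    refine h1.congr (fun n => ?_)
    unfold JJ
    rw [norm_smul, one_smul]
    norm_num


/-- near disjointness of the images of the cells -/
lemma tendsto_JJ_min (s : ℝ) (hs : s = 0 ∨ s = 1) (f f' : D)
    (hff : ∀ᵐ x, (f : L1) x * (f' : L1) x = 0) :
    Tendsto (fun n => ∫ w, min |JJ h n s f w| |JJ h n s f' w| ∂(muD D)) atTop (𝓝 0) := by
  have hn : ∀ f : D, ∀ᵐ x, (nD h f : L1) x = -(f : L1) x := by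
    intro f
    filter_upwards [Lp.coeFn_neg (f : L1)] with x hx
    rw [nD_coe, hx]; rfl
  have t1 := tendsto_rr_min D f f' (by
    filter_upwards [hff] with x hx
    exact hx.le)
  have t2 := tendsto_rr_min D f (nD h f') (by
    filter_upwards [hff, hn f'] with x hx h1
    rw [h1, mul_neg, hx, neg_zero])
  have t3 := tendsto_rr_min D (nD h f) f' (by
    filter_upwards [hff, hn f] with x hx h1
    rw [h1, neg_mul, hx, neg_zero])
  have t4 := tendsto_rr_min D (nD h f) (nD h f') (by
    filter_upwards [hff, hn f, hn f'] with x hx h1 h2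
    rw [h1, h2, neg_mul_neg, hx])
  have t5 := ((t1.add t2).add t3).add t4
  simp only [add_zero] at t5
  have hs0 : 0 ≤ s := by rcases hs with rfl | rfl <;> norm_num
  have hs1 : s ≤ 1 := by rcases hs with rfl | rfl <;> norm_num
  have hJ : ∀ (n : ℕ) (f : D), ∀ᵐ w ∂(muD D), |JJ h n s f w| ≤
      (rr D n f w : ℝ) + rr D n (nD h f) w := by
    intro n f
    unfold JJ
    filter_upwards [Lp.coeFn_smul (1 / (1 + s)) (RR D n f - s • RR D n (nD h f)),
      Lp.coeFn_sub (RR D n f) (s • RR D n (nD h f)), Lp.coeFn_smul s (RR D n (nD h f)),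
      RR_coe n f, RR_coe n (nD h f)] with w a1 a2 a3 a4 a5
    rw [a1, Pi.smul_apply, a2, Pi.sub_apply, a3, Pi.smul_apply, a4, a5, smul_eq_mul, smul_eq_mul,
      abs_mul, abs_of_nonneg (by positivity : 0 ≤ 1 / (1 + s))]
    have b1 : 1 / (1 + s) ≤ 1 := by
      rw [div_le_one (by linarith)]; linarith
    have b2 : |(rr D n f w : ℝ) - s * rr D n (nD h f) w| ≤
        (rr D n f w : ℝ) + rr D n (nD h f) w := by
      have c1 : (0 : ℝ) ≤ rr D n f w := NNReal.coe_nonneg _
      have c2 : (0 : ℝ) ≤ rr D n (nD h f) w := NNReal.coe_nonneg _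
      rw [abs_le]
      constructor <;> nlinarith
    calc 1 / (1 + s) * |(rr D n f w : ℝ) - s * rr D n (nD h f) w|
        ≤ 1 * |(rr D n f w : ℝ) - s * rr D n (nD h f) w| :=
          mul_le_mul_of_nonneg_right b1 (abs_nonneg _)
      _ ≤ _ := by rw [one_mul]; exact b2
  have hmi : ∀ (n : ℕ) (f f' : D), Integrable (fun w => min (rr D n f w : ℝ) (rr D n f' w)) (muD D) :=
    fun n f f' => (integrable_rr D n f).inf (integrable_rr D n f')
  refine squeeze_zero (fun n => integral_nonneg (fun w => le_min (abs_nonneg _) (abs_nonneg _)))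
    (fun n => ?_) t5
  rw [← integral_add (hmi n _ _) (hmi n _ _),
    ← integral_add (f := fun w => min (rr D n f w : ℝ) (rr D n f' w) +
      min (rr D n f w : ℝ) (rr D n (nD h f') w)) ((hmi n _ _).add (hmi n _ _)) (hmi n _ _),
    ← integral_add (f := fun w => min (rr D n f w : ℝ) (rr D n f' w) +
      min (rr D n f w : ℝ) (rr D n (nD h f') w) + min (rr D n (nD h f) w : ℝ) (rr D n f' w))
      (((hmi n _ _).add (hmi n _ _)).add (hmi n _ _)) (hmi n _ _)]
  apply integral_mono_ae
    ((L1.integrable_coeFn (JJ h n s f)).abs.inf (L1.integrable_coeFn (JJ h n s f')).abs)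
    ((((hmi n _ _).add (hmi n _ _)).add (hmi n _ _)).add (hmi n _ _))
  filter_upwards [hJ n f, hJ n f'] with w a1 a2
  have key : ∀ a b c d : ℝ, 0 ≤ a → 0 ≤ b → 0 ≤ c → 0 ≤ d →
      min (a + b) (c + d) ≤ min a c + min a d + min b c + min b d := by
    intro a b c d ha hb hc hd
    have m1 : 0 ≤ min a c := le_min ha hc
    have m2 : 0 ≤ min a d := le_min ha hd
    have m3 : 0 ≤ min b c := le_min hb hc
    have m4 : 0 ≤ min b d := le_min hb hd
    rcases le_total a c with h1 | h1 <;> rcases le_total b d with h2 | h2 <;>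
      rcases le_total a d with h3 | h3 <;> rcases le_total b c with h4 | h4
    all_goals
      simp only [min_eq_left, min_eq_right, h1, h2, h3, h4] at m1 m2 m3 m4 ⊢
      rcases le_total (a + b) (c + d) with h5 | h5
      · rw [min_eq_left h5]; linarith
      · rw [min_eq_right h5]; linarith
  exact (min_le_min a1 a2).trans (key _ _ _ _ (NNReal.coe_nonneg _) (NNReal.coe_nonneg _)
    (NNReal.coe_nonneg _) (NNReal.coe_nonneg _))

/-- asymptotic linearity of the powers on step functions -/
lemma tendsto_RR_step (m : ℕ) (hm : 0 < m) (e : Fin m → D) (he : ∀ k, (e k : L1) = step m k)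
    (a : Fin m → ℝ) (u : D) (hu : (u : L1) = stepL m a) :
    Tendsto (fun n => ‖RR D n u - ∑ k, ((max (a k) 0) • RR D n (e k) +
      (max (-a k) 0) • RR D n (nD h (e k)))‖) atTop (𝓝 0) := by
  have hn : ∀ f : D, ∀ᵐ x, (nD h f : L1) x = -(f : L1) x := by
    intro f
    filter_upwards [Lp.coeFn_neg (f : L1)] with x hx
    rw [nD_coe, hx]; rfl
  have t1 := tendsto_rr_sum D (ι := Fin m × Bool)
    (fun i => (cond i.2 (a i.1) (-a i.1)).toNNReal)
    (fun i => cond i.2 (e i.1) (nD h (e i.1))) u (by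
      have h1 : ∀ᵐ x, ∀ k, (nD h (e k) : L1) x = -(e k : L1) x := ae_all_iff.mpr (fun k => hn _)
      filter_upwards [h1, ae_stepL m hm a] with x b1 b2
      obtain ⟨k, hk, hj, hak⟩ := b2
      rw [hu, hak]
      have hcase : ∀ (j : Fin m) (b : Bool), j ≠ k →
          (((cond b (a j) (-a j)).toNNReal : ℝ≥0) : ℝ) *
            ((cond b (e j) (nD h (e j)) : D) : L1) x = 0 := by
        intro j b hjk
        cases b
        · show _ * (nD h (e j) : L1) x = 0
          rw [b1 j, he j, hj j, if_neg hjk, neg_zero, mul_zero]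
        · show _ * (e j : L1) x = 0
          rw [he j, hj j, if_neg hjk, mul_zero]
      rcases le_total 0 (a k) with h0 | h0
      · refine ⟨(k, true), ?_, ?_⟩
        · show (((a k).toNNReal : ℝ≥0) : ℝ) * (e k : L1) x = a k
          rw [he k, hj k, if_pos rfl, mul_one, Real.coe_toNNReal _ h0]
        · rintro ⟨j, b⟩ hne
          by_cases hjk : j = k
          · subst hjk
            cases b
            · show (((-a j).toNNReal : ℝ≥0) : ℝ) * _ = 0
              rw [Real.toNNReal_of_nonpos (by linarith), NNReal.coe_zero, zero_mul]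
            · exact absurd rfl hne
          · exact hcase j b hjk
      · refine ⟨(k, false), ?_, ?_⟩
        · show (((-a k).toNNReal : ℝ≥0) : ℝ) * (nD h (e k) : L1) x = a k
          rw [b1 k, he k, hj k, if_pos rfl, Real.coe_toNNReal _ (by linarith)]
          ring
        · rintro ⟨j, b⟩ hne
          by_cases hjk : j = k
          · subst hjk
            cases b
            · exact absurd rfl hne
            · show (((a j).toNNReal : ℝ≥0) : ℝ) * _ = 0
              rw [Real.toNNReal_of_nonpos h0, NNReal.coe_zero, zero_mul]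
          · exact hcase j b hjk)
  refine t1.congr (fun n => ?_)
  rw [L1.norm_eq_integral_norm]
  apply integral_congr_ae
  have g1 : ∀ᵐ w ∂(muD D), ∀ k, (((max (a k) 0) • RR D n (e k) +
      (max (-a k) 0) • RR D n (nD h (e k)) : Lp ℝ 1 (muD D)) : (D → ℝ≥0∞) → ℝ) w =
      max (a k) 0 * (rr D n (e k) w : ℝ) + max (-a k) 0 * rr D n (nD h (e k)) w := by
    rw [ae_all_iff]
    intro k
    filter_upwards [Lp.coeFn_add ((max (a k) 0) • RR D n (e k))
      ((max (-a k) 0) • RR D n (nD h (e k))), Lp.coeFn_smul (max (a k) 0) (RR D n (e k)),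
      Lp.coeFn_smul (max (-a k) 0) (RR D n (nD h (e k))), RR_coe n (e k), RR_coe n (nD h (e k))]
      with w a1 a2 a3 a4 a5
    rw [a1, Pi.add_apply, a2, a3, Pi.smul_apply, Pi.smul_apply, a4, a5, smul_eq_mul, smul_eq_mul]
  filter_upwards [Lp.coeFn_sub (RR D n u) (∑ k, ((max (a k) 0) • RR D n (e k) +
      (max (-a k) 0) • RR D n (nD h (e k)))), Lp.coeFn_finsetSum Finset.univ
      (fun k => ((max (a k) 0) • RR D n (e k) + (max (-a k) 0) • RR D n (nD h (e k)))),
      RR_coe n u, g1] with w b1 b2 b3 b4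
  rw [b1, Pi.sub_apply, b2, Finset.sum_apply, b3, Real.norm_eq_abs]
  congr 2
  rw [Fintype.sum_prod_type]
  apply Finset.sum_congr rfl
  intro k _
  rw [b4 k, Fintype.sum_bool]
  simp only [cond_true, cond_false, Real.coe_toNNReal']

lemma JJ_alg (V : Type) [AddCommGroup V] [Module ℝ V] (s a : ℝ) (hs : s = 1 ∨ (s = 0 ∧ 0 ≤ a))
    (x y : V) : (max a 0 • x + max (-a) 0 • y) - s • (max (-a) 0 • x + max a 0 • y) =
      a • (x - s • y) := by
  rcases hs with rfl | ⟨rfl, ha⟩
  · rcases le_total 0 a with h | h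
    · rw [max_eq_left h, max_eq_right (by linarith)]
      module
    · rw [max_eq_right h, max_eq_left (by linarith)]
      module
  · rw [max_eq_left ha, max_eq_right (by linarith)]
    module

/-- asymptotic linearity on step functions -/
lemma tendsto_JJ_step (m : ℕ) (hm : 0 < m) (e : Fin m → D) (he : ∀ k, (e k : L1) = step m k)
    (a : Fin m → ℝ) (u : D) (hu : (u : L1) = stepL m a) (s : ℝ)
    (hs : s = 1 ∨ (s = 0 ∧ ∀ k, 0 ≤ a k)) :
    Tendsto (fun n => ‖JJ h n s u - ∑ k, a k • JJ h n s (e k)‖) atTop (𝓝 0) := by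
  have hs0 : 0 ≤ s := by
    rcases hs with h1 | ⟨h1, -⟩
    · rw [h1]; norm_num
    · rw [h1]
  have t1 := tendsto_RR_step h m hm e he a u hu
  have t2 := tendsto_RR_step h m hm e he (fun k => -a k) (nD h u) (by
    rw [nD_coe, hu]
    unfold stepL
    rw [← Finset.sum_neg_distrib]
    apply Finset.sum_congr rfl
    intro k _
    rw [neg_smul])
  have t3 := (t1.add (t2.const_mul s)).const_mul (1 / (1 + s))
  simp only [mul_zero, add_zero] at t3
  refine squeeze_zero (fun n => norm_nonneg _) (fun n => ?_) t3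
  have key : JJ h n s u - ∑ k, a k • JJ h n s (e k) = (1 / (1 + s)) •
      ((RR D n u - ∑ k, ((max (a k) 0) • RR D n (e k) + (max (-a k) 0) • RR D n (nD h (e k)))) -
      s • (RR D n (nD h u) - ∑ k, ((max (-a k) 0) • RR D n (e k) +
        (max (- -a k) 0) • RR D n (nD h (e k))))) := by
    have k1 : ∀ k, a k • JJ h n s (e k) = (1 / (1 + s)) •
        (((max (a k) 0) • RR D n (e k) + (max (-a k) 0) • RR D n (nD h (e k))) -
          s • ((max (-a k) 0) • RR D n (e k) + (max (- -a k) 0) • RR D n (nD h (e k)))) := by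
      intro k
      rw [neg_neg, JJ_alg _ s (a k) (by
        rcases hs with h1 | ⟨h1, h2⟩
        · exact Or.inl h1
        · exact Or.inr ⟨h1, h2 k⟩)]
      unfold JJ
      rw [smul_comm]
    rw [Finset.sum_congr rfl (fun k _ => k1 k), ← Finset.smul_sum, Finset.sum_sub_distrib,
      ← Finset.smul_sum]
    unfold JJ
    rw [← smul_sub]
    congr 1
    rw [smul_sub]
    abel
  rw [key, norm_smul, Real.norm_eq_abs, abs_of_nonneg (by positivity : 0 ≤ 1 / (1 + s))]
  apply mul_le_mul_of_nonneg_left _ (by positivity)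
  refine (norm_sub_le _ _).trans ?_
  rw [norm_smul, Real.norm_eq_abs, abs_of_nonneg hs0]

end

end Pool.Agent.Lib_helper92.ActL1
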