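import Mathlib
import Pool.Agent.Lib_helper92.ActL1.Shift

/-!
# Density of the good actions
-/

set_option autoImplicit false

open MeasureTheory Topology Filter Set
open scoped NNReal ENNReal

noncomputable section

namespace Pool.Agent.Lib_helper92.ActL1

lemma muD_Iic (D : Set L1) (f : D) (u : ℝ≥0) (hu : 0 < u) :
    muD D {w | w f ≤ u} = ENNReal.ofReal (Real.exp (-(‖(f : L1)‖ / u))) := by
  have h1 := muD_sup D (fun _ : Unit => f) (fun _ => 1) u hu
  rw [Sc_unit] at h1
  rw [← h1]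
  congr 1
  ext w
  simp

lemma muD_fiber (D : Set L1) (f : D) (hf : (f : L1) ≠ 0) (y : ℝ≥0∞) :
    muD D {w | w f = y} = 0 := by
  have hS : 0 < ‖(f : L1)‖ := norm_pos_iff.mpr hf
  obtain ⟨S, hSdef⟩ : ∃ S, S = ‖(f : L1)‖ := ⟨_, rfl⟩
  induction y with
  | top =>
    have := ae_fin D f
    rw [ae_iff] at this
    simpa using this
  | coe y =>
    rcases eq_or_ne y 0 with rfl | hy
    · have h1 : ∀ k : ℕ, muD D {w | w f = ((0 : ℝ≥0) : ℝ≥0∞)} ≤
          ENNReal.ofReal (Real.exp (-(‖(f : L1)‖ * ((k : ℝ) + 1)))) := by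
        intro k
        have h2 := muD_Iic D f (1 / ((k : ℝ≥0) + 1)) (by positivity)
        have h3 : ‖(f : L1)‖ / ((1 / ((k : ℝ≥0) + 1) : ℝ≥0) : ℝ) = ‖(f : L1)‖ * ((k : ℝ) + 1) := by
          push_cast
          rw [div_div_eq_mul_div, div_one]
        rw [h3] at h2
        rw [← h2]
        apply measure_mono
        intro w hw
        have hw' : w f = 0 := by simpa using hw
        show w f ≤ _
        rw [hw']
        exact zero_le
      have h2 : Tendsto (fun k : ℕ => ENNReal.ofReal (Real.exp (-(‖(f : L1)‖ * ((k : ℝ) + 1)))))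
          atTop (𝓝 0) := by
        rw [← ENNReal.ofReal_zero]
        apply ENNReal.tendsto_ofReal
        apply Real.tendsto_exp_neg_atTop_nhds_zero.comp
        apply Tendsto.const_mul_atTop hS
        exact tendsto_atTop_add_const_right _ _ tendsto_natCast_atTop_atTop
      exact le_antisymm (ge_of_tendsto' h2 h1) zero_le
    · have hy0 : (0 : ℝ) < y := by
        have := pos_iff_ne_zero.mpr hy
        exact this
      have h1 : ∀ᶠ u' : ℝ in 𝓝[<] (y : ℝ), muD D {w | w f = (y : ℝ≥0∞)} ≤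
          ENNReal.ofReal (Real.exp (-(S / y)) - Real.exp (-(S / u'))) := by
        filter_upwards [Ioo_mem_nhdsLT hy0] with u' hu'
        have hu0 : (0 : ℝ) < u' := hu'.1
        have e1 := muD_Iic D f y (pos_iff_ne_zero.mpr hy)
        have e2 := muD_Iic D f u'.toNNReal (Real.toNNReal_pos.mpr hu0)
        rw [Real.coe_toNNReal _ hu0.le] at e2
        rw [hSdef, ENNReal.ofReal_sub _ (Real.exp_pos _).le, ← e1, ← e2, ← measure_sdiff]
        · apply measure_mono
          intro w hw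
          have hw' : w f = (y : ℝ≥0∞) := hw
          constructor
          · exact hw'.le
          · show ¬ (w f ≤ _)
            rw [hw', ENNReal.coe_le_coe, not_le, Real.toNNReal_lt_iff_lt_coe hu0.le]
            exact hu'.2
        · intro w hw
          have hw' : w f ≤ (u'.toNNReal : ℝ≥0∞) := hw
          refine hw'.trans ?_
          rw [ENNReal.coe_le_coe, Real.toNNReal_le_iff_le_coe]
          exact hu'.2.le
        · exact (measurableSet_le (measurable_pi_apply f) measurable_const).nullMeasurableSet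
        · exact measure_ne_top _ _
      have h2 : Tendsto (fun u' : ℝ => ENNReal.ofReal (Real.exp (-(S / y)) - Real.exp (-(S / u'))))
          (𝓝[<] (y : ℝ)) (𝓝 0) := by
        rw [← ENNReal.ofReal_zero]
        apply ENNReal.tendsto_ofReal
        have h3 : ContinuousAt (fun u' : ℝ => Real.exp (-(S / y)) - Real.exp (-(S / u'))) (y : ℝ) := by
          apply ContinuousAt.sub continuousAt_const
          apply Real.continuous_exp.continuousAt.comp
          exact (continuousAt_const.div continuousAt_id hy0.ne').neg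
        have h4 := h3.tendsto
        simp only [sub_self] at h4
        exact h4.mono_left nhdsWithin_le_nhds
      exact le_antisymm (ge_of_tendsto h2 h1) zero_le

lemma nullSingleton (D : Set L1) (f : D) (hf : (f : L1) ≠ 0) : NullSingletonClass (muD D) := by
  constructor
  intro w
  apply measure_mono_null _ (muD_fiber D f hf (w f))
  intro w' hw'
  have : w' = w := hw'
  rw [this]
  rfl

lemma step_mul_ae (m : ℕ) (k l : Fin m) (hkl : k ≠ l) : ∀ᵐ x, step m k x * step m l x = 0 := by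
  have hm : 0 < m := lt_of_le_of_lt (Nat.zero_le _) k.2
  filter_upwards [ae_step m hm] with x hx
  obtain ⟨j, hj, h⟩ := hx
  rw [h k, h l]
  by_cases h1 : k = j
  · rw [if_neg (fun h2 : l = j => hkl (h1.trans h2.symm)), mul_zero]
  · rw [if_neg h1, zero_mul]

/-- the orbit set -/
def orb {G : Type} [Group G] (α : Act G) (D0 : Set L1) : Set L1 :=
  {x | ∃ (g : G) (y : L1), y ∈ D0 ∧ (x = (α.at g).app y ∨ x = -(α.at g).app y)}

lemma orb_inv {G : Type} [Group G] (α : Act G) (D0 : Set L1) : Inv α (orb α D0) where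
  map := by
    rintro g _ ⟨g', y, hy, rfl | rfl⟩
    · exact ⟨g * g', y, hy, Or.inl (at_mul α g g' y).symm⟩
    · exact ⟨g * g', y, hy, Or.inr (by rw [at_mul, app_neg])⟩
  neg := by
    rintro _ ⟨g', y, hy, rfl | rfl⟩
    · exact ⟨g', y, hy, Or.inr rfl⟩
    · exact ⟨g', y, hy, Or.inl (neg_neg _)⟩

lemma subset_orb {G : Type} [Group G] (α : Act G) (D0 : Set L1) : D0 ⊆ orb α D0 :=
  fun y hy => ⟨1, y, hy, Or.inl (at_one α y).symm⟩

lemma orb_countable {G : Type} [Group G] [Countable G] (α : Act G) (D0 : Set L1)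
    (h : D0.Countable) : (orb α D0).Countable := by
  have h1 : orb α D0 ⊆ (⋃ g : G, (α.at g).app '' D0) ∪ (⋃ g : G, (fun y => -(α.at g).app y) '' D0) := by
    rintro _ ⟨g, y, hy, rfl | rfl⟩
    · left
      exact mem_iUnion.mpr ⟨g, y, hy, rfl⟩
    · right
      exact mem_iUnion.mpr ⟨g, y, hy, rfl⟩
  apply Set.Countable.mono h1
  exact (countable_iUnion (fun g => h.image _)).union (countable_iUnion (fun g => h.image _))

theorem exists_good {G : Type} [Group G] [Countable G] (α : Act G) (s : ℝ) (hs : s = 0 ∨ s = 1)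
    (hpos : s = 0 → ∀ g f, 0 ≤ f → 0 ≤ (α.at g).app f) (F : Finset (G × L1))
    (hF : s = 0 → ∀ p ∈ F, 0 ≤ p.2) (ε : ℝ) (hε : 0 < ε) :
    ∃ α' : Act G, Good α' ∧
      (∀ p ∈ F, ‖(α'.at p.1).app p.2 - (α.at p.1).app p.2‖ < ε) ∧
      (s = 0 → ∀ g f, 0 ≤ f → 0 ≤ (α'.at g).app f) := by
  classical
  have hs0 : 0 ≤ s := by rcases hs with rfl | rfl <;> norm_num
  obtain ⟨e, he⟩ : ∃ e, e = ε / 10 := ⟨_, rfl⟩
  have he0 : 0 < e := by rw [he]; positivity
  -- step approximations
  choose M1 hM1 using fun p : G × L1 => exists_step_approx p.2 e he0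
  choose M2 hM2 using fun p : G × L1 => exists_step_approx ((α.at p.1).app p.2) e he0
  obtain ⟨m, hm⟩ : ∃ m : ℕ, m = 1 + ∑ p ∈ F, (M1 p + M2 p) := ⟨_, rfl⟩
  have hm0 : 0 < m := by omega
  have hmr : (0 : ℝ) < m := by exact_mod_cast hm0
  have hle : ∀ p ∈ F, M1 p ≤ m ∧ M2 p ≤ m := by
    intro p hp
    have := Finset.single_le_sum (f := fun p => M1 p + M2 p) (fun _ _ => Nat.zero_le _) hp
    omega
  have hA : ∀ p : G × L1, ∃ a : Fin m → ℝ, p ∈ F → ‖p.2 - stepL m a‖ < e ∧
      (0 ≤ p.2 → ∀ k, 0 ≤ a k) := by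
    intro p
    by_cases hp : p ∈ F
    · obtain ⟨a, ha⟩ := hM1 p m (hle p hp).1
      exact ⟨a, fun _ => ha⟩
    · exact ⟨0, fun h => absurd h hp⟩
  have hBB : ∀ p : G × L1, ∃ b : Fin m → ℝ, p ∈ F → ‖(α.at p.1).app p.2 - stepL m b‖ < e ∧
      (0 ≤ (α.at p.1).app p.2 → ∀ k, 0 ≤ b k) := by
    intro p
    by_cases hp : p ∈ F
    · obtain ⟨b, hb⟩ := hM2 p m (hle p hp).2
      exact ⟨b, fun _ => hb⟩
    · exact ⟨0, fun h => absurd h hp⟩
  choose a ha using hA
  choose b hb using hBB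
  -- the invariant set
  let D0 : Set L1 := (range fun k : Fin m => step m k) ∪ ((fun p => stepL m (a p)) '' F) ∪
    ((fun p => stepL m (b p)) '' F)
  have hD0c : D0.Countable := by
    refine ((countable_range _).union ?_).union ?_
    · exact (F.countable_toSet).image _
    · exact (F.countable_toSet).image _
  let D := orb α D0
  have hDc : D.Countable := orb_countable α D0 hD0c
  have : Countable D := hDc.to_subtype
  have hinv : Inv α D := orb_inv α D0
  have hsub : D0 ⊆ D := subset_orb α D0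
  let ek : Fin m → D := fun k => ⟨step m k, hsub (Or.inl (Or.inl ⟨k, rfl⟩))⟩
  have hek : ∀ k, (ek k : L1) = step m k := fun k => rfl
  have hstep_ne : step m (⟨0, hm0⟩ : Fin m) ≠ 0 := by
    intro h0
    have h1 := norm_step m ⟨0, hm0⟩
    rw [h0, norm_zero] at h1
    have : (0 : ℝ) < 1 / m := by positivity
    linarith
  have hatom : NullSingletonClass (muD D) := nullSingleton D (ek ⟨0, hm0⟩) hstep_ne
  have hu : ∀ p, ∃ u : D, p ∈ F → (u : L1) = stepL m (a p) := by
    intro p
    by_cases hp : p ∈ F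
    · exact ⟨⟨stepL m (a p), hsub (Or.inl (Or.inr ⟨p, hp, rfl⟩))⟩, fun _ => rfl⟩
    · exact ⟨ek ⟨0, hm0⟩, fun h => absurd h hp⟩
  have hv : ∀ p, ∃ v : D, p ∈ F → (v : L1) = stepL m (b p) := by
    intro p
    by_cases hp : p ∈ F
    · exact ⟨⟨stepL m (b p), hsub (Or.inr ⟨p, hp, rfl⟩)⟩, fun _ => rfl⟩
    · exact ⟨ek ⟨0, hm0⟩, fun h => absurd h hp⟩
  choose u hu using hu
  choose v hv using hv
  -- tolerance
  obtain ⟨A, hAdef⟩ : ∃ A : ℝ, A = 1 + ∑ p ∈ F, (∑ k, |a p k| + ∑ k, |b p k|) := ⟨_, rfl⟩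
  have hA1 : 1 ≤ A := by
    rw [hAdef]
    have : 0 ≤ ∑ p ∈ F, (∑ k, |a p k| + ∑ k, |b p k|) := by positivity
    linarith
  have hAa : ∀ p ∈ F, ∑ k, |a p k| ≤ A ∧ ∑ k, |b p k| ≤ A := by
    intro p hp
    have h1 := Finset.single_le_sum (f := fun p => (∑ k, |a p k| + ∑ k, |b p k|))
      (fun _ _ => by positivity) hp
    have h2 : 0 ≤ ∑ k, |a p k| := by positivity
    have h3 : 0 ≤ ∑ k, |b p k| := by positivity
    constructor <;> linarith
  obtain ⟨δ, hδdef⟩ : ∃ δ : ℝ, δ = min (e / ((2 * m + 1) * A)) (1 / (2 * (m : ℝ) ^ 2)) := ⟨_, rfl⟩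
  have hδ0 : 0 < δ := by
    rw [hδdef]
    apply lt_min <;> positivity
  have hδ1 : (m : ℝ) ^ 2 * δ < 1 := by
    have h1 : δ ≤ 1 / (2 * (m : ℝ) ^ 2) := hδdef ▸ min_le_right _ _
    calc (m : ℝ) ^ 2 * δ ≤ (m : ℝ) ^ 2 * (1 / (2 * (m : ℝ) ^ 2)) :=
          mul_le_mul_of_nonneg_left h1 (by positivity)
      _ = 1 / 2 := by field_simp
      _ < 1 := by norm_num
  have hδ2 : A * ((2 * m + 1) * δ) ≤ e := by
    have h1 : δ ≤ e / ((2 * m + 1) * A) := hδdef ▸ min_le_left _ _
    calc A * ((2 * m + 1) * δ) ≤ A * ((2 * m + 1) * (e / ((2 * m + 1) * A))) := by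
          apply mul_le_mul_of_nonneg_left _ (by positivity)
          exact mul_le_mul_of_nonneg_left h1 (by positivity)
      _ = e := by
          have : A ≠ 0 := by positivity
          field_simp
  -- choose `n`
  have E1 : ∀ᶠ n in atTop, ∀ k, |‖JJ hinv n s (ek k)‖ - 1 / m| ≤ δ := by
    rw [eventually_all]
    intro k
    have h1 := tendsto_JJ hinv s hs (ek k)
    rw [hek, norm_step] at h1
    have h2 := (Metric.tendsto_nhds.mp h1) δ hδ0
    filter_upwards [h2] with n hn
    rw [Real.dist_eq] at hn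
    exact hn.le
  have E2 : ∀ᶠ n in atTop, ∀ k l, k ≠ l →
      ∫ w, min |JJ hinv n s (ek k) w| |JJ hinv n s (ek l) w| ∂(muD D) ≤ δ := by
    rw [eventually_all]
    intro k
    rw [eventually_all]
    intro l
    by_cases hkl : k = l
    · exact Eventually.of_forall (fun n h => absurd hkl h)
    · have h1 := tendsto_JJ_min hinv s hs (ek k) (ek l) (step_mul_ae m k l hkl)
      filter_upwards [h1.eventually (gt_mem_nhds hδ0)] with n hn _
      exact hn.le
  have hsa : ∀ p ∈ F, s = 1 ∨ (s = 0 ∧ ∀ k, 0 ≤ a p k) := by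
    intro p hp
    rcases hs with h0 | h0
    · exact Or.inr ⟨h0, (ha p hp).2 (hF h0 p hp)⟩
    · exact Or.inl h0
  have hsb : ∀ p ∈ F, s = 1 ∨ (s = 0 ∧ ∀ k, 0 ≤ b p k) := by
    intro p hp
    rcases hs with h0 | h0
    · exact Or.inr ⟨h0, (hb p hp).2 (hpos h0 _ _ (hF h0 p hp))⟩
    · exact Or.inl h0
  have E3 : ∀ᶠ n in atTop, ∀ p ∈ F, ‖JJ hinv n s (u p) - ∑ k, a p k • JJ hinv n s (ek k)‖ ≤ e := by
    rw [Filter.eventually_all_finset]
    intro p hp
    have h1 := tendsto_JJ_step hinv m hm0 ek hek (a p) (u p) (hu p hp) s (hsa p hp)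
    filter_upwards [h1.eventually (gt_mem_nhds he0)] with n hn
    exact hn.le
  have E4 : ∀ᶠ n in atTop, ∀ p ∈ F, ‖JJ hinv n s (v p) - ∑ k, b p k • JJ hinv n s (ek k)‖ ≤ e := by
    rw [Filter.eventually_all_finset]
    intro p hp
    have h1 := tendsto_JJ_step hinv m hm0 ek hek (b p) (v p) (hv p hp) s (hsb p hp)
    filter_upwards [h1.eventually (gt_mem_nhds he0)] with n hn
    exact hn.le
  have E5 : ∀ᶠ n in atTop, ∀ p ∈ F, ‖JJ hinv n s (TD hinv p.1 (u p)) - JJ hinv n s (v p)‖ ≤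
      ‖((TD hinv p.1 (u p) : D) : L1) - (v p : L1)‖ + e := by
    rw [Filter.eventually_all_finset]
    intro p hp
    exact JJ_sub_le hinv s hs0 _ _ e he0
  obtain ⟨n, e1, e2, e3, e4, e5⟩ := (E1.and (E2.and (E3.and (E4.and E5)))).exists
  obtain ⟨T, hT1, hT2, hT3⟩ := exists_approx_isometry (muD D) hm0 (fun k => JJ hinv n s (ek k)) δ
    hδ0 hδ1 e1 e2
  refine ⟨newAct hinv T, newAct_good hinv T hT2, ?_, ?_⟩
  · intro p hp
    rw [newAct_app]
    -- comparison of `T` and `J` on step functions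
    have hcomp : ∀ (c : Fin m → ℝ) (x : D), (x : L1) = stepL m c → ∑ k, |c k| ≤ A →
        ‖JJ hinv n s x - ∑ k, c k • JJ hinv n s (ek k)‖ ≤ e → ‖T x - JJ hinv n s x‖ ≤ 2 * e := by
      intro c x hx hc hJ
      have h1 : T x - JJ hinv n s x = ∑ k, c k • (T (step m k) - JJ hinv n s (ek k)) -
          (JJ hinv n s x - ∑ k, c k • JJ hinv n s (ek k)) := by
        rw [hx]
        unfold stepL
        rw [map_sum]
        simp only [smul_sub, Finset.sum_sub_distrib, map_smul]
        abel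
      rw [h1]
      refine (norm_sub_le _ _).trans ?_
      have h2 : ‖∑ k, c k • (T (step m k) - JJ hinv n s (ek k))‖ ≤ A * ((2 * m + 1) * δ) := by
        refine (norm_sum_le _ _).trans ?_
        calc ∑ k, ‖c k • (T (step m k) - JJ hinv n s (ek k))‖
            ≤ ∑ k, |c k| * ((2 * m + 1) * δ) := by
              apply Finset.sum_le_sum
              intro k _
              rw [norm_smul, Real.norm_eq_abs]
              exact mul_le_mul_of_nonneg_left (hT1 k) (abs_nonneg _)
          _ = (∑ k, |c k|) * ((2 * m + 1) * δ) := by rw [Finset.sum_mul]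
          _ ≤ A * ((2 * m + 1) * δ) := mul_le_mul_of_nonneg_right hc (by positivity)
      linarith
    have c1 := hcomp (a p) (u p) (hu p hp) (hAa p hp).1 (e3 p hp)
    have c2 := hcomp (b p) (v p) (hv p hp) (hAa p hp).2 (e4 p hp)
    have c3 := e5 p hp
    have c4 := (ha p hp).1
    have c5 := (hb p hp).1
    rw [← hu p hp] at c4
    rw [← hv p hp] at c5
    have c6 : ‖((TD hinv p.1 (u p) : D) : L1) - (v p : L1)‖ ≤ 2 * e := by
      rw [TD_coe]
      have : (α.at p.1).app (u p) - (v p : L1) = -(α.at p.1).app (p.2 - (u p : L1)) +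
          ((α.at p.1).app p.2 - (v p : L1)) := by
        rw [app_sub]; abel
      rw [this]
      refine (norm_add_le _ _).trans ?_
      rw [norm_neg, Iso.norm_app]
      linarith
    -- main estimate, upstairs
    have key : ‖beta hinv p.1 (T p.2) - T ((α.at p.1).app p.2)‖ ≤ 9 * e := by
      have d1 : beta hinv p.1 (T p.2) - T ((α.at p.1).app p.2) =
          beta hinv p.1 (T (p.2 - (u p : L1))) +
          beta hinv p.1 (T (u p : L1) - JJ hinv n s (u p)) +
          (JJ hinv n s (TD hinv p.1 (u p)) - JJ hinv n s (v p)) -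
          (T (v p : L1) - JJ hinv n s (v p)) - T ((α.at p.1).app p.2 - (v p : L1)) := by
        rw [← beta_JJ]
        simp only [map_sub]
        abel
      rw [d1]
      have n1 : ‖beta hinv p.1 (T (p.2 - (u p : L1)))‖ ≤ e := by
        rw [(beta hinv p.1).norm_map, T.norm_map]; exact c4.le
      have n2 : ‖beta hinv p.1 (T (u p : L1) - JJ hinv n s (u p))‖ ≤ 2 * e := by
        rw [(beta hinv p.1).norm_map]; exact c1
      have n3 : ‖JJ hinv n s (TD hinv p.1 (u p)) - JJ hinv n s (v p)‖ ≤ 3 * e := by linarith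
      have n5 : ‖T ((α.at p.1).app p.2 - (v p : L1))‖ ≤ e := by
        rw [T.norm_map]; exact c5.le
      refine (norm_sub_le _ _).trans ?_
      have q1 := norm_sub_le (beta hinv p.1 (T (p.2 - (u p : L1))) +
          beta hinv p.1 (T (u p : L1) - JJ hinv n s (u p)) +
          (JJ hinv n s (TD hinv p.1 (u p)) - JJ hinv n s (v p)))
          (T (v p : L1) - JJ hinv n s (v p))
      have q2 := norm_add_le (beta hinv p.1 (T (p.2 - (u p : L1))) +
          beta hinv p.1 (T (u p : L1) - JJ hinv n s (u p)))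
          (JJ hinv n s (TD hinv p.1 (u p)) - JJ hinv n s (v p))
      have q3 := norm_add_le (beta hinv p.1 (T (p.2 - (u p : L1))))
          (beta hinv p.1 (T (u p : L1) - JJ hinv n s (u p)))
      linarith
    have d2 : T.symm (beta hinv p.1 (T p.2)) - (α.at p.1).app p.2 =
        T.symm (beta hinv p.1 (T p.2) - T ((α.at p.1).app p.2)) := by
      rw [map_sub, T.symm_apply_apply]
    rw [d2, T.symm.norm_map]
    refine lt_of_le_of_lt key ?_
    rw [he]
    linarith
  · intro h0 g f hf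
    have h1 := hT3 (by
      intro k
      show 0 ≤ JJ hinv n s (ek k)
      rw [h0, JJ_zero]
      exact RR_nonneg n _)
    rw [newAct_app]
    exact h1.2 _ (beta_nonneg hinv g _ (h1.1 f hf))

theorem dense_good (G : Type) [Group G] [Countable G] : Dense {α : Act G | Good α} := by
  classical
  intro α
  have h1 : ∀ i : Finset (G × L1) × ℕ, ∃ α' : Act G, Good α' ∧
      ∀ p ∈ i.1, ‖(α'.at p.1).app p.2 - (α.at p.1).app p.2‖ < 1 / ((i.2 : ℝ) + 1) := by
    intro i
    obtain ⟨α', h2, h3, -⟩ := exists_good α 1 (Or.inr rfl) (fun h => absurd h one_ne_zero) i.1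
      (fun h => absurd h one_ne_zero) (1 / ((i.2 : ℝ) + 1)) (by positivity)
    exact ⟨α', h2, h3⟩
  choose α' hα'1 hα'2 using h1
  have h2 : Tendsto α' atTop (𝓝 α) := by
    have i1 : Topology.IsInducing (Act.at : Act G → G → Iso) := ⟨rfl⟩
    have i2 : Topology.IsInducing (Iso.app : Iso → L1 → L1) := ⟨rfl⟩
    rw [i1.tendsto_nhds_iff, tendsto_pi_nhds]
    intro g
    rw [i2.tendsto_nhds_iff, tendsto_pi_nhds]
    intro f
    rw [Metric.tendsto_atTop]
    intro ε hε
    obtain ⟨N, hN⟩ := exists_nat_one_div_lt hε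
    refine ⟨({(g, f)}, N), fun i hi => ?_⟩
    have h3 := hα'2 i (g, f) (hi.1 (Finset.mem_singleton_self _))
    show dist (((α' i).at g).app f) ((α.at g).app f) < ε
    rw [dist_eq_norm]
    refine h3.trans (lt_of_le_of_lt ?_ hN)
    apply one_div_le_one_div_of_le (by positivity)
    have : (N : ℝ) ≤ i.2 := by exact_mod_cast hi.2
    linarith
  exact mem_closure_of_tendsto h2 (Eventually.of_forall hα'1)

theorem dense_good_pos (G : Type) [Group G] [Countable G] :
    Dense {α : ActPos G | Good α.1} := by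
  classical
  intro α
  have h1 : ∀ i : Finset (G × L1) × ℕ, ∃ α' : ActPos G, Good α'.1 ∧
      ∀ p ∈ i.1, 0 ≤ p.2 →
        ‖(α'.1.at p.1).app p.2 - (α.1.at p.1).app p.2‖ < 1 / ((i.2 : ℝ) + 1) := by
    intro i
    obtain ⟨α', h2, h3, h4⟩ := exists_good α.1 0 (Or.inl rfl) (fun _ => α.2)
      (i.1.filter fun p => 0 ≤ p.2) (fun _ p hp => (Finset.mem_filter.mp hp).2)
      (1 / ((i.2 : ℝ) + 1)) (by positivity)
    exact ⟨⟨α', h4 rfl⟩, h2, fun p hp hp0 => h3 p (Finset.mem_filter.mpr ⟨hp, hp0⟩)⟩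
  choose α' hα'1 hα'2 using h1
  have hposlim : ∀ (g : G) (f : L1), 0 ≤ f →
      Tendsto (fun i => ((α' i).1.at g).app f) atTop (𝓝 ((α.1.at g).app f)) := by
    intro g f hf
    rw [Metric.tendsto_atTop]
    intro ε hε
    obtain ⟨N, hN⟩ := exists_nat_one_div_lt hε
    refine ⟨({(g, f)}, N), fun i hi => ?_⟩
    have h3 := hα'2 i (g, f) (hi.1 (Finset.mem_singleton_self _)) hf
    rw [dist_eq_norm]
    refine h3.trans (lt_of_le_of_lt ?_ hN)
    apply one_div_le_one_div_of_le (by positivity)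
    have : (N : ℝ) ≤ i.2 := by exact_mod_cast hi.2
    linarith
  have h2 : Tendsto α' atTop (𝓝 α) := by
    have i0 : Topology.IsInducing (fun α : ActPos G => α.1) := ⟨rfl⟩
    have i1 : Topology.IsInducing (Act.at : Act G → G → Iso) := ⟨rfl⟩
    have i2 : Topology.IsInducing (Iso.app : Iso → L1 → L1) := ⟨rfl⟩
    rw [i0.tendsto_nhds_iff, i1.tendsto_nhds_iff, tendsto_pi_nhds]
    intro g
    rw [i2.tendsto_nhds_iff, tendsto_pi_nhds]
    intro f
    have h3 := (hposlim g (f ⊔ 0) le_sup_right).sub (hposlim g (-f ⊔ 0) le_sup_right)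
    have h4 : f ⊔ 0 - (-f ⊔ 0) = f := by
      have := posPart_sub_negPart f
      exact this
    have h5 : ∀ U : Iso, U.app (f ⊔ 0) - U.app (-f ⊔ 0) = U.app f := by
      intro U
      rw [← app_sub, h4]
    simp only [h5] at h3
    exact h3
  exact mem_closure_of_tendsto h2 (Eventually.of_forall hα'1)

end Pool.Agent.Lib_helper92.ActL1
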