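import Mathlib

/-!
# A spectral gap for three isometries of order five which pairwise generate Heisenberg groups
-/

set_option autoImplicit false

open Topology Finset

noncomputable section

namespace Pool.Agent.Lib_helper92.ActL1.Kazhdan

variable {H : Type*} [NormedAddCommGroup H] [InnerProductSpace ℝ H]

/-- the average over a cyclic group of order 5 -/
def avg (X : Module.End ℝ H) : Module.End ℝ H := (1 / 5 : ℝ) • ∑ k ∈ range 5, X ^ k

section algebra

variable {X Y C : Module.End ℝ H}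

lemma pow_mul_avg (hX : X ^ 5 = 1) (j : ℕ) : X ^ j * avg X = avg X := by
  induction j with
  | zero => simp
  | succ j ih =>
    rw [pow_succ', mul_assoc, ih]
    unfold avg
    rw [mul_smul_comm]
    congr 1
    simp only [Finset.sum_range_succ, Finset.range_zero, Finset.sum_empty, zero_add, pow_zero,
      pow_one]
    have h1 : X * (1 + X + X ^ 2 + X ^ 3 + X ^ 4) = X + X ^ 2 + X ^ 3 + X ^ 4 + X ^ 5 := by
      noncomm_ring
    rw [h1, hX]
    abel

lemma avg_mul_pow (hX : X ^ 5 = 1) (j : ℕ) : avg X * X ^ j = avg X := by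
  have h : Commute (avg X) (X ^ j) := by
    unfold avg
    apply Commute.smul_left
    apply Commute.sum_left
    intro i _
    exact (Commute.refl X).pow_pow i j
  rw [h.eq, pow_mul_avg hX]

lemma avg_mul_avg (hX : X ^ 5 = 1) : avg X * avg X = avg X := by
  have h0 : avg X * avg X = (1 / 5 : ℝ) • ∑ k ∈ range 5, X ^ k * avg X := by
    rw [← Finset.sum_mul, ← smul_mul_assoc]
    rfl
  rw [h0]
  simp only [pow_mul_avg hX]
  rw [Finset.sum_const, Finset.card_range, ← Nat.cast_smul_eq_nsmul ℝ, smul_smul]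
  norm_num

lemma commute_avg {A : Module.End ℝ H} (h : Commute A X) : Commute A (avg X) := by
  unfold avg
  apply Commute.smul_right
  apply Commute.sum_right
  intro i _
  exact h.pow_right i

/-- `X^j Y^k = C^{jk} Y^k X^j` -/
lemma comm_pow (hXY : X * Y = C * (Y * X)) (hCX : Commute C X) (hCY : Commute C Y) (j k : ℕ) :
    X ^ j * Y ^ k = C ^ (j * k) * (Y ^ k * X ^ j) := by
  have h1 : ∀ j, X ^ j * Y = C ^ j * (Y * X ^ j) := by
    intro j
    induction j with
    | zero => simp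
    | succ j ih =>
      calc X ^ (j + 1) * Y = X * (X ^ j * Y) := by rw [pow_succ', mul_assoc]
        _ = (X * C ^ j) * (Y * X ^ j) := by rw [ih, mul_assoc]
        _ = (C ^ j * X) * (Y * X ^ j) := by rw [(hCX.pow_left j).eq]
        _ = C ^ j * ((X * Y) * X ^ j) := by simp only [mul_assoc]
        _ = C ^ (j + 1) * (Y * X ^ (j + 1)) := by
          rw [hXY, pow_succ C j, pow_succ' X j]
          simp only [mul_assoc]
  induction k with
  | zero => simp
  | succ k ih =>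
    rw [pow_succ, ← mul_assoc, ih, mul_assoc, mul_assoc, h1 j, ← mul_assoc (Y ^ k),
      ← ((hCY.pow_left j).pow_right k).eq, mul_assoc, ← mul_assoc (C ^ (j * k)), ← pow_add,
      ← mul_assoc (Y ^ k), ← pow_succ, mul_add, mul_one]

lemma C_pow (hX : X ^ 5 = 1) (hXY : X * Y = C * (Y * X)) (hCX : Commute C X) (hCY : Commute C Y)
    (hY : Y ^ 5 = 1) : C ^ 5 = 1 := by
  have h := comm_pow hXY hCX hCY 5 1
  rw [hX, pow_one, one_mul, mul_one, mul_one] at h
  have h2 : (1 : Module.End ℝ H) = C ^ 5 := by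
    calc (1 : Module.End ℝ H) = Y * Y ^ 4 := by rw [← pow_succ', hY]
      _ = (C ^ 5 * Y) * Y ^ 4 := by rw [← h]
      _ = C ^ 5 := by rw [mul_assoc, ← pow_succ', hY, mul_one]
  exact h2.symm

lemma sum_pow_mul (hC : C ^ 5 = 1) {k : ℕ} (hk : k ∈ ({1, 2, 3, 4} : Finset ℕ)) :
    ∑ j ∈ range 5, C ^ (j * k) = ∑ j ∈ range 5, C ^ j := by
  have h6 : C ^ 6 = C := by rw [pow_succ, hC, one_mul]
  have h8 : C ^ 8 = C ^ 3 := by rw [show 8 = 5 + 3 by norm_num, pow_add, hC, one_mul]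
  have h9 : C ^ 9 = C ^ 4 := by rw [show 9 = 5 + 4 by norm_num, pow_add, hC, one_mul]
  have h12 : C ^ 12 = C ^ 2 := by
    rw [show 12 = 5 + 5 + 2 by norm_num, pow_add, pow_add, hC, one_mul, one_mul]
  have h16 : C ^ 16 = C := by
    rw [show 16 = 5 + 5 + 5 + 1 by norm_num, pow_add, pow_add, pow_add, hC]; simp
  simp only [Finset.mem_insert, Finset.mem_singleton] at hk
  rcases hk with rfl | rfl | rfl | rfl
  · simp
  · simp only [Finset.sum_range_succ, Finset.range_zero, Finset.sum_empty]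
    norm_num
    rw [h6, h8]; abel
  · simp only [Finset.sum_range_succ, Finset.range_zero, Finset.sum_empty]
    norm_num
    rw [h6, h9, h12]; abel
  · simp only [Finset.sum_range_succ, Finset.range_zero, Finset.sum_empty]
    norm_num
    rw [h8, h12, h16]; abel

/-- the key identity: `(1 - E) P Q P = (1/5) (1 - E) P` -/
lemma key_identity (hX : X ^ 5 = 1) (hY : Y ^ 5 = 1) (hXY : X * Y = C * (Y * X))
    (hCX : Commute C X) (hCY : Commute C Y) :
    (1 - avg C) * (avg X * avg Y * avg X) = (1 / 5 : ℝ) • ((1 - avg C) * avg X) := by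
  have hC := C_pow hX hXY hCX hCY hY
  have hCE : avg C * avg C = avg C := avg_mul_avg hC
  have h1 : ∀ k ∈ ({1, 2, 3, 4} : Finset ℕ),
      (1 - avg C) * (avg X * Y ^ k * avg X) = 0 := by
    intro k hk
    have h2 : ∀ j, avg X * Y ^ k * avg X = C ^ (j * k) * (avg X * Y ^ k * avg X) := by
      intro j
      have h3 := comm_pow hXY hCX hCY j k
      have hcomm : Commute (C ^ (j * k)) (avg X) := commute_avg (hCX.pow_left _)
      calc avg X * Y ^ k * avg X = (avg X * X ^ j) * Y ^ k * avg X := by rw [avg_mul_pow hX]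
        _ = avg X * (X ^ j * Y ^ k) * avg X := by rw [mul_assoc (avg X)]
        _ = avg X * (C ^ (j * k) * (Y ^ k * X ^ j)) * avg X := by rw [h3]
        _ = (avg X * C ^ (j * k)) * Y ^ k * (X ^ j * avg X) := by simp only [mul_assoc]
        _ = (C ^ (j * k) * avg X) * Y ^ k * avg X := by rw [pow_mul_avg hX, hcomm.eq]
        _ = C ^ (j * k) * (avg X * Y ^ k * avg X) := by simp only [mul_assoc]
    have h4 : avg C * (avg X * Y ^ k * avg X) = avg X * Y ^ k * avg X := by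
      have h5 : ∑ j ∈ range 5, C ^ (j * k) * (avg X * Y ^ k * avg X) =
          (5 : ℕ) • (avg X * Y ^ k * avg X) := by
        rw [← Finset.sum_congr rfl (fun j _ => h2 j), Finset.sum_const, Finset.card_range]
      rw [← Finset.sum_mul, sum_pow_mul hC hk] at h5
      unfold avg at h5 ⊢
      rw [smul_mul_assoc, h5, ← Nat.cast_smul_eq_nsmul ℝ, smul_smul]
      norm_num
    rw [sub_mul, one_mul, h4, sub_self]
  have h2 : avg X * avg Y * avg X = (1 / 5 : ℝ) • (avg X + ∑ k ∈ ({1, 2, 3, 4} : Finset ℕ),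
      avg X * Y ^ k * avg X) := by
    have h3 : avg Y = (1 / 5 : ℝ) • ∑ k ∈ range 5, Y ^ k := rfl
    rw [h3, mul_smul_comm, smul_mul_assoc, Finset.mul_sum, Finset.sum_mul]
    congr 1
    rw [show range 5 = insert 0 ({1, 2, 3, 4} : Finset ℕ) by decide,
      Finset.sum_insert (by decide), pow_zero, mul_one, avg_mul_avg hX]
  rw [h2, mul_smul_comm, mul_add, Finset.mul_sum, Finset.sum_eq_zero h1, add_zero]

/-- on the range of `E` the averages commute -/
lemma key_commute (hXY : X * Y = C * (Y * X)) (hCX : Commute C X) (hCY : Commute C Y)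
    (hC : C ^ 5 = 1) : avg C * (avg X * avg Y) = avg C * (avg Y * avg X) := by
  have h1 : ∀ j k, avg C * (X ^ j * Y ^ k) = avg C * (Y ^ k * X ^ j) := by
    intro j k
    rw [comm_pow hXY hCX hCY j k, ← mul_assoc, avg_mul_pow hC]
  have h2 : avg X * avg Y = (1 / 5 : ℝ) • (1 / 5 : ℝ) • ∑ j ∈ range 5, ∑ k ∈ range 5,
      X ^ j * Y ^ k := by
    unfold avg
    rw [smul_mul_assoc, mul_smul_comm, Finset.sum_mul_sum]
  have h3 : avg Y * avg X = (1 / 5 : ℝ) • (1 / 5 : ℝ) • ∑ j ∈ range 5, ∑ k ∈ range 5,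
      Y ^ k * X ^ j := by
    unfold avg
    rw [smul_mul_assoc, mul_smul_comm, Finset.sum_mul_sum, Finset.sum_comm]
  rw [h2, h3, mul_smul_comm, mul_smul_comm, mul_smul_comm, mul_smul_comm, Finset.mul_sum,
    Finset.mul_sum]
  congr 2
  apply Finset.sum_congr rfl
  intro j _
  rw [Finset.mul_sum, Finset.mul_sum]
  exact Finset.sum_congr rfl (fun k _ => h1 j k)

end algebra

/-- symmetric operators -/
def Sym (A : Module.End ℝ H) : Prop := ∀ u v, inner ℝ (A u) v = inner ℝ u (A v)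

/-- the linear map of an isometry -/
def lin (x : H ≃ₗᵢ[ℝ] H) : Module.End ℝ H := x.toLinearEquiv.toLinearMap

lemma lin_apply (x : H ≃ₗᵢ[ℝ] H) (v : H) : lin x v = x v := rfl

lemma lin_mul (x y : H ≃ₗᵢ[ℝ] H) : lin (x * y) = lin x * lin y := rfl

lemma lin_one : lin (1 : H ≃ₗᵢ[ℝ] H) = 1 := rfl

lemma lin_pow (x : H ≃ₗᵢ[ℝ] H) (n : ℕ) : lin (x ^ n) = lin x ^ n := by
  induction n with
  | zero => simp [lin_one]
  | succ n ih => rw [pow_succ, pow_succ, lin_mul, ih]

lemma sym_avg (x : H ≃ₗᵢ[ℝ] H) (hx : x ^ 5 = 1) : Sym (avg (lin x)) := by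
  intro u v
  have h1 : ∀ k ∈ range 5, inner ℝ ((lin x ^ k) u) v = inner ℝ u ((lin x ^ ((5 - k) % 5)) v) := by
    intro k hk
    rw [mem_range] at hk
    have h2 : lin x ^ k * lin x ^ ((5 - k) % 5) = 1 := by
      rw [← pow_add, ← lin_pow]
      have h3 : x ^ (k + (5 - k) % 5) = 1 := by
        interval_cases k
        · simp
        · exact hx
        · exact hx
        · exact hx
        · exact hx
      rw [h3, lin_one]
    have h3 : v = (lin x ^ k) ((lin x ^ ((5 - k) % 5)) v) := by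
      have := congrArg (fun A : Module.End ℝ H => A v) h2
      exact this.symm
    conv_lhs => rw [h3]
    rw [← lin_pow x k]
    exact (x ^ k).inner_map_map u _
  have e1 : (avg (lin x)) u = (1 / 5 : ℝ) • ∑ k ∈ range 5, (lin x ^ k) u := by
    unfold avg
    rw [LinearMap.smul_apply, LinearMap.sum_apply]
  have e2 : (avg (lin x)) v = (1 / 5 : ℝ) • ∑ k ∈ range 5, (lin x ^ k) v := by
    unfold avg
    rw [LinearMap.smul_apply, LinearMap.sum_apply]
  rw [e1, e2, real_inner_smul_left, real_inner_smul_right, sum_inner, inner_sum]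
  congr 1
  rw [Finset.sum_congr rfl h1]
  simp only [Finset.sum_range_succ, Finset.range_zero, Finset.sum_empty]
  norm_num
  ring

lemma norm_sq_of_proj {P : Module.End ℝ H} (hP : P * P = P) (hs : Sym P) (v : H) :
    inner ℝ v (P v) = ‖P v‖ ^ 2 := by
  have h1 : P v = P (P v) := by
    have := congrArg (fun A : Module.End ℝ H => A v) hP
    exact this.symm
  calc inner ℝ v (P v) = inner ℝ v (P (P v)) := by rw [← h1]
    _ = inner ℝ (P v) (P v) := (hs v (P v)).symm
    _ = ‖P v‖ ^ 2 := real_inner_self_eq_norm_sq _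

/-- angle inequality for two projections with `P Q P = ε² P` at the vector `b` -/
lemma angle_bad {P Q : Module.End ℝ H} (hP : P * P = P) (hQ : Q * Q = Q) (hPs : Sym P)
    (hQs : Sym Q) (ε : ℝ) (hε0 : 0 < ε) (hε1 : ε < 1) (b : H)
    (h : P (Q (P b)) = (ε ^ 2) • P b) :
    0 ≤ 2 * inner ℝ (b - P b) (b - Q b) + ε * (‖b - P b‖ ^ 2 + ‖b - Q b‖ ^ 2) := by
  have hp := norm_sq_of_proj hP hPs b
  have hq := norm_sq_of_proj hQ hQs b
  have hqp : ‖Q (P b)‖ ^ 2 = ε ^ 2 * ‖P b‖ ^ 2 := by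
    rw [← norm_sq_of_proj hQ hQs (P b)]
    have h1 : inner ℝ (P b) (Q (P b)) = inner ℝ b (P (Q (P b))) := hPs b _
    rw [h1, h, real_inner_smul_right, hp]
  have hqp' : ‖Q (P b)‖ = ε * ‖P b‖ := by
    have h1 : ‖Q (P b)‖ ^ 2 = (ε * ‖P b‖) ^ 2 := by rw [hqp]; ring
    exact (pow_left_inj₀ (norm_nonneg _) (by positivity) two_ne_zero).mp h1
  have hc : inner ℝ (P b) (Q b) ≤ ε * (‖P b‖ * ‖Q b‖) := by
    have h1 : Q b = Q (Q b) := by
      have := congrArg (fun A : Module.End ℝ H => A b) hQ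
      exact this.symm
    calc inner ℝ (P b) (Q b) = inner ℝ (P b) (Q (Q b)) := by rw [← h1]
      _ = inner ℝ (Q (P b)) (Q b) := (hQs _ _).symm
      _ ≤ ‖Q (P b)‖ * ‖Q b‖ := real_inner_le_norm _ _
      _ = ε * (‖P b‖ * ‖Q b‖) := by rw [hqp']; ring
  have hc2 : 2 * inner ℝ (P b) (Q b) ≤ ε * (‖P b‖ ^ 2 + ‖Q b‖ ^ 2) := by
    have := sq_nonneg (‖P b‖ - ‖Q b‖)
    nlinarith
  -- expand
  have e1 : inner ℝ (b - P b) (b - Q b) = ‖b‖ ^ 2 - ‖P b‖ ^ 2 - ‖Q b‖ ^ 2 + inner ℝ (P b) (Q b) := by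
    rw [inner_sub_left, inner_sub_right, inner_sub_right, real_inner_self_eq_norm_sq, hq,
      real_inner_comm, hp]
    ring
  have e2 : ‖b - P b‖ ^ 2 = ‖b‖ ^ 2 - ‖P b‖ ^ 2 := by
    rw [norm_sub_sq_real, hp]; ring
  have e3 : ‖b - Q b‖ ^ 2 = ‖b‖ ^ 2 - ‖Q b‖ ^ 2 := by
    rw [norm_sub_sq_real, hq]; ring
  have e4 : 0 ≤ ‖(1 + ε) • b - (P b + Q b)‖ ^ 2 := sq_nonneg _
  rw [norm_sub_sq_real, norm_smul, real_inner_smul_left, inner_add_right, hp, hq,
    norm_add_sq_real, Real.norm_eq_abs, abs_of_pos (by linarith : 0 < 1 + ε)] at e4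
  rw [e1, e2, e3]
  set B := ‖b‖ ^ 2 with hB
  set p := ‖P b‖ ^ 2
  set q := ‖Q b‖ ^ 2
  set c := (inner ℝ (P b) (Q b) : ℝ)
  have e5 : 0 ≤ (1 + ε) ^ 2 * B - 2 * (1 + ε) * (p + q) + (p + q + 2 * c) := by
    have : ((1 + ε) * ‖b‖) ^ 2 = (1 + ε) ^ 2 * B := by rw [hB]; ring
    nlinarith
  have h6 : 0 ≤ (1 - ε) * (ε * (p + q) - 2 * c) :=
    mul_nonneg (by linarith) (by linarith)
  -- (1+ε) * goal = 2 e5 + h6
  have h7 : 0 ≤ (1 + ε) * (2 * (B - p - q + c) + ε * (B - p + (B - q))) := by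
    nlinarith
  exact nonneg_of_mul_nonneg_right h7 (by linarith)

lemma angle_good {P Q : Module.End ℝ H} (hP : P * P = P) (hQ : Q * Q = Q) (hPs : Sym P)
    (hQs : Sym Q) (a : H) (h : P (Q a) = Q (P a)) (hpa : P (Q (P a)) = Q (P a)) :
    0 ≤ inner ℝ (a - P a) (a - Q a) := by
  have e : inner ℝ (a - P a) (a - Q a) = ‖a‖ ^ 2 - ‖P a‖ ^ 2 - ‖Q a‖ ^ 2 + inner ℝ (P a) (Q a) := by
    have hp := norm_sq_of_proj hP hPs a
    have hq := norm_sq_of_proj hQ hQs a
    rw [inner_sub_left, inner_sub_right, inner_sub_right, real_inner_self_eq_norm_sq, hq,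
      real_inner_comm, hp]
    ring
  have e2 : (inner ℝ (P a) (Q a) : ℝ) = ‖Q (P a)‖ ^ 2 := by
    rw [← norm_sq_of_proj hQ hQs (P a)]
    have h1 : inner ℝ (P a) (Q (P a)) = inner ℝ a (P (Q (P a))) := hPs _ _
    rw [h1, hpa, ← h]
    exact hPs _ _
  -- `‖a - P a - Q a + Q P a‖²`
  have e3 : 0 ≤ ‖(a - P a) - Q (a - P a)‖ ^ 2 := sq_nonneg _
  have e4 : ‖(a - P a) - Q (a - P a)‖ ^ 2 = ‖a - P a‖ ^ 2 - ‖Q (a - P a)‖ ^ 2 := by
    rw [norm_sub_sq_real, norm_sq_of_proj hQ hQs (a - P a)]; ring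
  have e5 : ‖a - P a‖ ^ 2 = ‖a‖ ^ 2 - ‖P a‖ ^ 2 := by
    rw [norm_sub_sq_real, norm_sq_of_proj hP hPs a]; ring
  have e6 : ‖Q (a - P a)‖ ^ 2 = ‖Q a‖ ^ 2 - ‖Q (P a)‖ ^ 2 := by
    rw [map_sub, norm_sub_sq_real]
    have h1 : (inner ℝ (Q a) (Q (P a)) : ℝ) = ‖Q (P a)‖ ^ 2 := by
      rw [← h]
      have h2 : (inner ℝ (Q a) (P (Q a)) : ℝ) = ‖P (Q a)‖ ^ 2 := norm_sq_of_proj hP hPs (Q a)
      rw [h2]
    rw [h1]; ring
  rw [e, e2]
  linarith

/-- the relations between two generators: they generate a quotient of the Heisenberg group -/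
structure Heis {Γ : Type*} [Group Γ] (x y : Γ) : Prop where
  x_pow : x ^ 5 = 1
  y_pow : y ^ 5 = 1
  comm_x : Commute (x * y * x⁻¹ * y⁻¹) x
  comm_y : Commute (x * y * x⁻¹ * y⁻¹) y

lemma mul_self_apply {P : Module.End ℝ H} (hP : P * P = P) (v : H) : P (P v) = P v := by
  have := congrArg (fun A : Module.End ℝ H => A v) hP
  exact this

lemma pair_ineq {x y : H ≃ₗᵢ[ℝ] H} (h : Heis x y) (v : H) :
    0 ≤ 2 * inner ℝ (v - avg (lin x) v) (v - avg (lin y) v) +
      (1 / √5) * (‖v - avg (lin x) v‖ ^ 2 + ‖v - avg (lin y) v‖ ^ 2) := by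
  obtain ⟨c, hc⟩ : ∃ c, c = x * y * x⁻¹ * y⁻¹ := ⟨_, rfl⟩
  have hcx : Commute c x := hc ▸ h.comm_x
  have hcy : Commute c y := hc ▸ h.comm_y
  have hX : lin x ^ 5 = 1 := by rw [← lin_pow, h.x_pow, lin_one]
  have hY : lin y ^ 5 = 1 := by rw [← lin_pow, h.y_pow, lin_one]
  have hXY : lin x * lin y = lin c * (lin y * lin x) := by
    rw [← lin_mul, ← lin_mul, ← lin_mul]
    congr 1
    rw [hc]; group
  have hCX : Commute (lin c) (lin x) := by
    show lin c * lin x = lin x * lin c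
    rw [← lin_mul, hcx.eq, lin_mul]
  have hCY : Commute (lin c) (lin y) := by
    show lin c * lin y = lin y * lin c
    rw [← lin_mul, hcy.eq, lin_mul]
  have hC := C_pow hX hXY hCX hCY hY
  have hc5 : c ^ 5 = 1 := by
    have h1 : lin (c ^ 5) = lin 1 := by rw [lin_pow, hC, lin_one]
    ext1 w
    have := congrArg (fun A : Module.End ℝ H => A w) h1
    exact this
  obtain ⟨P, hP⟩ : ∃ P, P = avg (lin x) := ⟨_, rfl⟩
  obtain ⟨Q, hQ⟩ : ∃ Q, Q = avg (lin y) := ⟨_, rfl⟩
  obtain ⟨E, hE⟩ : ∃ E, E = avg (lin c) := ⟨_, rfl⟩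
  have hPP : P * P = P := by rw [hP]; exact avg_mul_avg hX
  have hQQ : Q * Q = Q := by rw [hQ]; exact avg_mul_avg hY
  have hEE : E * E = E := by rw [hE]; exact avg_mul_avg hC
  have hPs : Sym P := by rw [hP]; exact sym_avg x h.x_pow
  have hQs : Sym Q := by rw [hQ]; exact sym_avg y h.y_pow
  have hEs : Sym E := by rw [hE]; exact sym_avg c hc5
  have hEP : Commute E P := by
    rw [hE, hP]
    exact commute_avg (commute_avg hCX.symm).symm
  have hEQ : Commute E Q := by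
    rw [hE, hQ]
    exact commute_avg (commute_avg hCY.symm).symm
  have hEPv : ∀ w, E (P w) = P (E w) := fun w =>
    congrArg (fun A : Module.End ℝ H => A w) hEP.eq
  have hEQv : ∀ w, E (Q w) = Q (E w) := fun w =>
    congrArg (fun A : Module.End ℝ H => A w) hEQ.eq
  have hk1 : ∀ w, P (Q (P w)) - E (P (Q (P w))) = (1 / 5 : ℝ) • (P w - E (P w)) := by
    intro w
    have h1 := key_identity hX hY hXY hCX hCY
    rw [← hP, ← hQ, ← hE] at h1
    exact congrArg (fun A : Module.End ℝ H => A w) h1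
  have hk2 : ∀ w, E (P (Q w)) = E (Q (P w)) := by
    intro w
    have h1 := key_commute hXY hCX hCY hC
    rw [← hP, ← hQ, ← hE] at h1
    exact congrArg (fun A : Module.End ℝ H => A w) h1
  rw [← hP, ← hQ]
  -- decomposition
  obtain ⟨a, ha⟩ : ∃ a, a = E v := ⟨_, rfl⟩
  obtain ⟨b, hb⟩ : ∃ b, b = v - E v := ⟨_, rfl⟩
  have hEa : E a = a := by rw [ha, mul_self_apply hEE]
  have hEb : E b = 0 := by rw [hb, map_sub, mul_self_apply hEE, sub_self]
  have hvab : v = a + b := by rw [ha, hb]; abel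
  have horth : ∀ w w', inner ℝ (E w) (w' - E w') = (0 : ℝ) := by
    intro w w'
    rw [hEs, map_sub, mul_self_apply hEE, sub_self, inner_zero_right]
  have hEfix : ∀ w, E w = w → ∀ w', E w' = 0 → inner ℝ w w' = (0 : ℝ) := by
    intro w hw w' hw'
    have := horth w w'
    rwa [hw, hw', sub_zero] at this
  have eP : v - P v = (a - P a) + (b - P b) := by rw [hvab, map_add]; abel
  have eQ : v - Q v = (a - Q a) + (b - Q b) := by rw [hvab, map_add]; abel
  have fPa : E (a - P a) = a - P a := by rw [map_sub, hEPv, hEa]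
  have fQa : E (a - Q a) = a - Q a := by rw [map_sub, hEQv, hEa]
  have fPb : E (b - P b) = 0 := by rw [map_sub, hEPv, hEb, map_zero, sub_zero]
  have fQb : E (b - Q b) = 0 := by rw [map_sub, hEQv, hEb, map_zero, sub_zero]
  have i1 : (inner ℝ (v - P v) (v - Q v) : ℝ) = inner ℝ (a - P a) (a - Q a) +
      inner ℝ (b - P b) (b - Q b) := by
    rw [eP, eQ, inner_add_left, inner_add_right, inner_add_right, hEfix _ fPa _ fQb,
      real_inner_comm (a - Q a) (b - P b), hEfix _ fQa _ fPb]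
    ring
  have i2 : ‖v - P v‖ ^ 2 = ‖a - P a‖ ^ 2 + ‖b - P b‖ ^ 2 := by
    rw [eP, norm_add_sq_real, hEfix _ fPa _ fPb]; ring
  have i3 : ‖v - Q v‖ ^ 2 = ‖a - Q a‖ ^ 2 + ‖b - Q b‖ ^ 2 := by
    rw [eQ, norm_add_sq_real, hEfix _ fQa _ fQb]; ring
  have h5 : (0 : ℝ) < √5 := Real.sqrt_pos.mpr (by norm_num)
  have h51 : (1 : ℝ) < √5 := by
    rw [Real.lt_sqrt (by norm_num)]; norm_num
  have g1 : 0 ≤ inner ℝ (a - P a) (a - Q a) := by
    have e1 : P (Q a) = Q (P a) := by
      have := hk2 a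
      rw [hEPv, hEQv, hEQv, hEPv, hEa] at this
      exact this
    apply angle_good hPP hQQ hPs hQs a e1
    rw [← e1, mul_self_apply hPP]
  have g2 := angle_bad hPP hQQ hPs hQs (1 / √5) (by positivity)
    (by rw [div_lt_one h5]; exact h51) b (by
      have := hk1 b
      rw [hEPv, hEQv, hEPv, hEb, map_zero, map_zero, map_zero, sub_zero, sub_zero] at this
      rw [this]
      congr 1
      rw [div_pow, one_pow, Real.sq_sqrt (by norm_num)])
  rw [i1, i2, i3]
  have g3 : 0 ≤ (1 / √5) * (‖a - P a‖ ^ 2 + ‖a - Q a‖ ^ 2) := by positivity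
  nlinarith

/-- the Laplacian -/
def Lap (x y z : H ≃ₗᵢ[ℝ] H) (v : H) : H :=
  (v - avg (lin x) v) + (v - avg (lin y) v) + (v - avg (lin z) v)

/-- the energy -/
def En (x y z : H ≃ₗᵢ[ℝ] H) (v : H) : ℝ :=
  ‖v - avg (lin x) v‖ ^ 2 + ‖v - avg (lin y) v‖ ^ 2 + ‖v - avg (lin z) v‖ ^ 2

section descent

variable {x y z : H ≃ₗᵢ[ℝ] H} (hxy : Heis x y) (hyz : Heis y z) (hzx : Heis z x)

include hxy hyz hzx

lemma lap_sq (v : H) : (1 - 2 / √5) * En x y z v ≤ ‖Lap x y z v‖ ^ 2 := by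
  have h1 := pair_ineq hxy v
  have h2 := pair_ineq hyz v
  have h3 := pair_ineq hzx v
  have e : ‖Lap x y z v‖ ^ 2 = En x y z v + 2 * inner ℝ (v - avg (lin x) v) (v - avg (lin y) v) +
      2 * inner ℝ (v - avg (lin y) v) (v - avg (lin z) v) +
      2 * inner ℝ (v - avg (lin z) v) (v - avg (lin x) v) := by
    unfold Lap En
    rw [norm_add_sq_real, norm_add_sq_real, inner_add_left,
      real_inner_comm (v - avg (lin x) v) (v - avg (lin z) v)]
    ring
  rw [e]
  unfold En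
  have h5 : (2 : ℝ) / √5 = 2 * (1 / √5) := by ring
  rw [h5]
  nlinarith

lemma inner_lap (v w : H) : inner ℝ (Lap x y z v) w =
    inner ℝ (v - avg (lin x) v) (w - avg (lin x) w) +
    inner ℝ (v - avg (lin y) v) (w - avg (lin y) w) +
    inner ℝ (v - avg (lin z) v) (w - avg (lin z) w) := by
  have key : ∀ (P : Module.End ℝ H), P * P = P → Sym P → ∀ v w,
      (inner ℝ (v - P v) w : ℝ) = inner ℝ (v - P v) (w - P w) := by
    intro P hP hs v w
    have h1 : (inner ℝ (v - P v) (P w) : ℝ) = 0 := by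
      rw [← hs, map_sub, mul_self_apply hP, sub_self, inner_zero_left]
    rw [inner_sub_right, h1, sub_zero]
  have a1 : lin x ^ 5 = 1 := by rw [← lin_pow, hxy.x_pow, lin_one]
  have a2 : lin y ^ 5 = 1 := by rw [← lin_pow, hyz.x_pow, lin_one]
  have a3 : lin z ^ 5 = 1 := by rw [← lin_pow, hzx.x_pow, lin_one]
  unfold Lap
  rw [inner_add_left, inner_add_left, key _ (avg_mul_avg a1) (sym_avg x hxy.x_pow) v w,
    key _ (avg_mul_avg a2) (sym_avg y hyz.x_pow) v w,
    key _ (avg_mul_avg a3) (sym_avg z hzx.x_pow) v w]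

omit hyz hzx in
lemma norm_sub_avg_le (v : H) : ‖v - avg (lin x) v‖ ≤ ‖v‖ := by
  have a1 : lin x ^ 5 = 1 := by rw [← lin_pow, hxy.x_pow, lin_one]
  have h1 := norm_sq_of_proj (avg_mul_avg a1) (sym_avg x hxy.x_pow) v
  have h2 : ‖v - avg (lin x) v‖ ^ 2 = ‖v‖ ^ 2 - ‖avg (lin x) v‖ ^ 2 := by
    rw [norm_sub_sq_real, h1]; ring
  have h3 : ‖v - avg (lin x) v‖ ^ 2 ≤ ‖v‖ ^ 2 := by
    have := sq_nonneg ‖avg (lin x) v‖
    linarith
  exact (pow_le_pow_iff_left₀ (norm_nonneg _) (norm_nonneg _) two_ne_zero).mp h3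

lemma en_le (v : H) : En x y z v ≤ 3 * ‖v‖ ^ 2 := by
  have h1 := norm_sub_avg_le hxy v
  have h2 := norm_sub_avg_le hyz v
  have h3 := norm_sub_avg_le hzx v
  unfold En
  have k1 := pow_le_pow_left₀ (norm_nonneg _) h1 2
  have k2 := pow_le_pow_left₀ (norm_nonneg _) h2 2
  have k3 := pow_le_pow_left₀ (norm_nonneg _) h3 2
  linarith

lemma en_step (v : H) : En x y z (v - (1 / 3 : ℝ) • Lap x y z v) ≤
    (1 - (1 - 2 / √5) / 3) * En x y z v := by
  have e1 : ∀ w, En x y z w = inner ℝ (Lap x y z w) w := by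
    intro w
    rw [inner_lap hxy hyz hzx w w, real_inner_self_eq_norm_sq, real_inner_self_eq_norm_sq,
      real_inner_self_eq_norm_sq]
    rfl
  have hadd : ∀ (c : ℝ) w w', Lap x y z (w - c • w') = Lap x y z w - c • Lap x y z w' := by
    intro c w w'
    unfold Lap
    simp only [map_sub, map_smul, smul_sub, smul_add]
    abel
  have hsym : ∀ w w', (inner ℝ (Lap x y z w) w' : ℝ) = inner ℝ w (Lap x y z w') := by
    intro w w'
    rw [real_inner_comm _ w, inner_lap hxy hyz hzx w w', inner_lap hxy hyz hzx w' w,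
      real_inner_comm (w' - avg (lin x) w'), real_inner_comm (w' - avg (lin y) w'),
      real_inner_comm (w' - avg (lin z) w')]
  obtain ⟨d, hd⟩ : ∃ d, d = Lap x y z v := ⟨_, rfl⟩
  have h1 : En x y z (v - (1 / 3 : ℝ) • d) = En x y z v - (2 / 3) * ‖d‖ ^ 2 +
      (1 / 9) * En x y z d := by
    rw [e1, e1 v, e1 d, hadd, ← hd, inner_sub_left, inner_sub_right, inner_sub_right,
      real_inner_smul_left, real_inner_smul_left, real_inner_smul_right, real_inner_smul_right,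
      real_inner_self_eq_norm_sq, hsym d v, ← hd, real_inner_self_eq_norm_sq]
    ring
  rw [← hd, h1]
  have h2 := en_le hxy hyz hzx d
  have h3 := lap_sq hxy hyz hzx v
  rw [← hd] at h3
  nlinarith

omit hxy hyz hzx in
lemma norm_lap_le (v : H) : ‖Lap x y z v‖ ^ 2 ≤ 3 * En x y z v := by
  unfold Lap En
  have h1 := norm_add_le (v - avg (lin x) v + (v - avg (lin y) v)) (v - avg (lin z) v)
  have h2 := norm_add_le (v - avg (lin x) v) (v - avg (lin y) v)
  set a := ‖v - avg (lin x) v‖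
  set b := ‖v - avg (lin y) v‖
  set c := ‖v - avg (lin z) v‖
  have h3 : ‖v - avg (lin x) v + (v - avg (lin y) v) + (v - avg (lin z) v)‖ ≤ a + b + c := by
    linarith
  have h4 := pow_le_pow_left₀ (norm_nonneg _) h3 2
  nlinarith [sq_nonneg (a - b), sq_nonneg (b - c), sq_nonneg (a - c)]

theorem exists_fixed [CompleteSpace H] (v : H) : ∃ w : H, x w = w ∧ y w = w ∧ z w = w ∧
    ‖v - w‖ ≤ (1 / (1 - √(1 - (1 - 2 / √5) / 3))) * √(En x y z v) := by
  obtain ⟨r, hr⟩ : ∃ r, r = √(1 - (1 - 2 / √5) / 3) := ⟨_, rfl⟩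
  rw [← hr]
  have h5 : (2 : ℝ) < √5 := by
    rw [Real.lt_sqrt (by norm_num)]; norm_num
  have h51 : 2 / √5 < 1 := by
    rw [div_lt_one (by linarith)]; exact h5
  have h50 : 0 < 2 / √5 := by positivity
  have hr1 : r < 1 := by
    rw [hr, Real.sqrt_lt' one_pos]
    linarith
  have hr0 : 0 ≤ r := by rw [hr]; exact Real.sqrt_nonneg _
  have hr2 : r ^ 2 = 1 - (1 - 2 / √5) / 3 := by
    rw [hr, Real.sq_sqrt (by linarith)]
  let u : ℕ → H := fun n => (fun w => w - (1 / 3 : ℝ) • Lap x y z w)^[n] v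
  have hu : ∀ n, u (n + 1) = u n - (1 / 3 : ℝ) • Lap x y z (u n) := by
    intro n
    show (fun w => w - (1 / 3 : ℝ) • Lap x y z w)^[n + 1] v = _
    rw [Function.iterate_succ_apply']
  have hen : ∀ n, En x y z (u n) ≤ (r ^ 2) ^ n * En x y z v := by
    intro n
    induction n with
    | zero => simp [u]
    | succ n ih =>
      rw [hu, pow_succ]
      have h1 := en_step hxy hyz hzx (u n)
      rw [← hr2] at h1
      have h2 := mul_le_mul_of_nonneg_left ih (sq_nonneg r)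
      linarith
  have hEn0 : ∀ w, 0 ≤ En x y z w := fun w => by unfold En; positivity
  have hdist : ∀ n, dist (u n) (u (n + 1)) ≤ √(En x y z v) * r ^ n := by
    intro n
    rw [hu, dist_eq_norm]
    have h1 : u n - (u n - (1 / 3 : ℝ) • Lap x y z (u n)) = (1 / 3 : ℝ) • Lap x y z (u n) := by abel
    rw [h1, norm_smul]
    have h2 : (‖(1 / 3 : ℝ)‖ * ‖Lap x y z (u n)‖) ^ 2 ≤ (√(En x y z v) * r ^ n) ^ 2 := by
      rw [mul_pow, mul_pow, Real.sq_sqrt (hEn0 v)]
      have h3 := norm_lap_le (x := x) (y := y) (z := z) (u n)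
      have h4 := hen n
      have h6 : ‖(1 / 3 : ℝ)‖ ^ 2 = 1 / 9 := by norm_num
      rw [h6]
      have h7 : (r ^ n) ^ 2 = (r ^ 2) ^ n := by rw [← pow_mul, ← pow_mul, mul_comm]
      rw [h7]
      have h8 := hEn0 (u n)
      nlinarith
    exact (pow_le_pow_iff_left₀ (by positivity) (by positivity) two_ne_zero).mp h2
  have hcauchy := cauchySeq_of_le_geometric r (√(En x y z v)) hr1 hdist
  obtain ⟨w, hw⟩ := cauchySeq_tendsto_of_complete hcauchy
  have hEw : En x y z w = 0 := by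
    have hlin : ∀ x : H ≃ₗᵢ[ℝ] H, Continuous fun w => avg (lin x) w := by
      intro x
      have : (fun w => avg (lin x) w) = fun w => (1 / 5 : ℝ) • ∑ k ∈ range 5, (x ^ k) w := by
        funext w
        unfold avg
        rw [LinearMap.smul_apply, LinearMap.sum_apply]
        simp only [← lin_pow, lin_apply]
      rw [this]
      apply Continuous.const_smul
      exact continuous_finsetSum _ (fun k _ => (x ^ k).continuous)
    have hc : Continuous (En x y z) := by
      unfold En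
      have c1 := hlin x
      have c2 := hlin y
      have c3 := hlin z
      exact (((continuous_id.sub c1).norm.pow 2).add ((continuous_id.sub c2).norm.pow 2)).add
        ((continuous_id.sub c3).norm.pow 2)
    have h1 := (hc.tendsto w).comp hw
    have h2 : Filter.Tendsto (En x y z ∘ u) Filter.atTop (𝓝 0) := by
      refine squeeze_zero (fun n => hEn0 _) hen ?_
      have h3 : Filter.Tendsto (fun n => (r ^ 2) ^ n * En x y z v) Filter.atTop
          (𝓝 (0 * En x y z v)) := by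
        apply Filter.Tendsto.mul_const
        apply tendsto_pow_atTop_nhds_zero_of_lt_one (sq_nonneg r)
        nlinarith
      rwa [zero_mul] at h3
    exact tendsto_nhds_unique h1 h2
  have hfix : ∀ s : H ≃ₗᵢ[ℝ] H, s ^ 5 = 1 → w - avg (lin s) w = 0 → s w = w := by
    intro s hs h
    have a1 : lin s ^ 5 = 1 := by rw [← lin_pow, hs, lin_one]
    have h1 := pow_mul_avg a1 1
    have h2 : lin s (avg (lin s) w) = avg (lin s) w := by
      rw [pow_one] at h1
      exact congrArg (fun A : Module.End ℝ H => A w) h1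
    rw [sub_eq_zero] at h
    rw [← h] at h2
    exact h2
  have hz0 : ‖w - avg (lin x) w‖ = 0 ∧ ‖w - avg (lin y) w‖ = 0 ∧ ‖w - avg (lin z) w‖ = 0 := by
    unfold En at hEw
    have a := sq_nonneg ‖w - avg (lin x) w‖
    have b := sq_nonneg ‖w - avg (lin y) w‖
    have c := sq_nonneg ‖w - avg (lin z) w‖
    refine ⟨?_, ?_, ?_⟩ <;> apply pow_eq_zero_iff (two_ne_zero) |>.mp <;> linarith
  refine ⟨w, hfix x hxy.x_pow (norm_eq_zero.mp hz0.1), hfix y hyz.x_pow (norm_eq_zero.mp hz0.2.1),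
    hfix z hzx.x_pow (norm_eq_zero.mp hz0.2.2), ?_⟩
  have h1 := dist_le_of_le_geometric_of_tendsto₀ r (√(En x y z v)) hr1 hdist hw
  have h2 : u 0 = v := rfl
  rw [h2, dist_eq_norm] at h1
  rw [one_div, inv_mul_eq_div]
  exact h1

end descent

lemma norm_sub_avg_le' (x : H ≃ₗᵢ[ℝ] H) (v : H) : ‖v - avg (lin x) v‖ ≤ 2 * ‖x v - v‖ := by
  have h1 : ∀ k : ℕ, ‖v - (x ^ k) v‖ ≤ k * ‖x v - v‖ := by
    intro k
    induction k with
    | zero => simp
    | succ k ih =>
      have e : v - (x ^ (k + 1)) v = (v - (x ^ k) v) + (x ^ k) (v - x v) := by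
        rw [map_sub, pow_succ]
        show v - (x ^ k) (x v) = _
        abel
      rw [e]
      refine (norm_add_le _ _).trans ?_
      rw [(x ^ k).norm_map, norm_sub_rev v (x v)]
      push_cast
      linarith
  have e : v - avg (lin x) v = (1 / 5 : ℝ) • ∑ k ∈ range 5, (v - (x ^ k) v) := by
    unfold avg
    rw [LinearMap.smul_apply, LinearMap.sum_apply, Finset.sum_sub_distrib, smul_sub,
      Finset.sum_const, Finset.card_range, ← Nat.cast_smul_eq_nsmul ℝ, smul_smul]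
    simp only [← lin_pow, lin_apply]
    norm_num
  rw [e, norm_smul]
  have h2 : ‖∑ k ∈ range 5, (v - (x ^ k) v)‖ ≤ ∑ k ∈ range 5, (k : ℝ) * ‖x v - v‖ :=
    (norm_sum_le _ _).trans (Finset.sum_le_sum (fun k _ => h1 k))
  have h3 : ∑ k ∈ range 5, (k : ℝ) * ‖x v - v‖ = 10 * ‖x v - v‖ := by
    rw [← Finset.sum_mul]
    norm_num [Finset.sum_range_succ]
  rw [h3] at h2
  have h4 : ‖(1 / 5 : ℝ)‖ = 1 / 5 := by norm_num
  rw [h4]
  linarith

/-- The spectral gap in the form used later. -/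
theorem exists_fixed' : ∃ C : ℝ, 0 < C ∧ ∀ {H : Type} [NormedAddCommGroup H]
    [InnerProductSpace ℝ H] [CompleteSpace H] {x y z : H ≃ₗᵢ[ℝ] H} (_ : Heis x y) (_ : Heis y z)
    (_ : Heis z x) (v : H) (η : ℝ), ‖x v - v‖ ≤ η → ‖y v - v‖ ≤ η → ‖z v - v‖ ≤ η →
      ∃ w : H, x w = w ∧ y w = w ∧ z w = w ∧ ‖v - w‖ ≤ C * η := by
  obtain ⟨C, hCdef⟩ : ∃ C : ℝ, C = 1 / (1 - √(1 - (1 - 2 / √5) / 3)) := ⟨_, rfl⟩
  refine ⟨|C| * 4 + 1, by positivity, ?_⟩
  intro H _ _ _ x y z hxy hyz hzx v η h1 h2 h3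
  obtain ⟨w, w1, w2, w3, w4⟩ := exists_fixed hxy hyz hzx v
  rw [← hCdef] at w4
  have hη : 0 ≤ η := (norm_nonneg _).trans h1
  refine ⟨w, w1, w2, w3, w4.trans ?_⟩
  have h4 : √(En x y z v) ≤ 4 * η := by
    rw [Real.sqrt_le_left (by positivity)]
    unfold En
    have k1 := (norm_sub_avg_le' x v).trans (mul_le_mul_of_nonneg_left h1 (by norm_num))
    have k2 := (norm_sub_avg_le' y v).trans (mul_le_mul_of_nonneg_left h2 (by norm_num))
    have k3 := (norm_sub_avg_le' z v).trans (mul_le_mul_of_nonneg_left h3 (by norm_num))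
    have m1 := pow_le_pow_left₀ (norm_nonneg _) k1 2
    have m2 := pow_le_pow_left₀ (norm_nonneg _) k2 2
    have m3 := pow_le_pow_left₀ (norm_nonneg _) k3 2
    nlinarith
  calc C * √(En x y z v) ≤ |C| * √(En x y z v) :=
        mul_le_mul_of_nonneg_right (le_abs_self C) (Real.sqrt_nonneg _)
    _ ≤ |C| * (4 * η) := mul_le_mul_of_nonneg_left h4 (abs_nonneg C)
    _ ≤ (|C| * 4 + 1) * η := by nlinarith

lemma Heis.map {Γ Δ : Type*} [Group Γ] [Group Δ] (φ : Γ →* Δ) {x y : Γ} (h : Heis x y) :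
    Heis (φ x) (φ y) := by
  constructor
  · rw [← map_pow, h.x_pow, map_one]
  · rw [← map_pow, h.y_pow, map_one]
  · have := h.comm_x.map φ
    simpa only [map_mul, map_inv] using this
  · have := h.comm_y.map φ
    simpa only [map_mul, map_inv] using this

end Pool.Agent.Lib_helper92.ActL1.Kazhdan
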