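import Mathlib
import Pool.Agent.Lib_helper92.ActL1.Defs
import Pool.Agent.Lib_helper92.ActL1.Kazhdan

/-!
# The group: a subgroup of `SL(3, F_5[t])` generated by three elements of order five
-/

set_option autoImplicit false

open Polynomial Topology MeasureTheory

noncomputable section

namespace Pool.Agent.Lib_helper92.ActL1

instance fact_prime_five : Fact (Nat.Prime 5) := ⟨by norm_num⟩

/-- the ring `F_5[t]` -/
abbrev R5 : Type := (ZMod 5)[X]

/-- the ambient group `SL(3, F_5[t])` -/
abbrev SL5 : Type := Matrix.SpecialLinearGroup (Fin 3) R5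

/-- elementary matrices -/
def tr (i j : Fin 3) (h : i ≠ j) (a : R5) : SL5 :=
  ⟨Matrix.transvection i j a, Matrix.det_transvection_of_ne i j h a⟩

lemma tr_coe (i j : Fin 3) (h : i ≠ j) (a : R5) :
    ((tr i j h a : SL5) : Matrix (Fin 3) (Fin 3) R5) = 1 + Matrix.single i j a := rfl

lemma tr_add (i j : Fin 3) (h : i ≠ j) (a b : R5) : tr i j h (a + b) = tr i j h a * tr i j h b := by
  apply Subtype.ext
  show Matrix.transvection i j (a + b) = Matrix.transvection i j a * Matrix.transvection i j b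
  rw [Matrix.transvection_mul_transvection_same i j h]

lemma tr_zero (i j : Fin 3) (h : i ≠ j) : tr i j h 0 = 1 := by
  apply Subtype.ext
  show Matrix.transvection i j 0 = 1
  rw [Matrix.transvection_zero]

lemma tr_nsmul (i j : Fin 3) (h : i ≠ j) (a : R5) (n : ℕ) : tr i j h (n • a) = tr i j h a ^ n := by
  induction n with
  | zero => rw [zero_smul, tr_zero, pow_zero]
  | succ n ih => rw [succ_nsmul, tr_add, ih, pow_succ]

lemma tr_pow_five (i j : Fin 3) (h : i ≠ j) (a : R5) : tr i j h a ^ 5 = 1 := by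
  rw [← tr_nsmul]
  have : (5 : ℕ) • a = 0 := by
    rw [nsmul_eq_mul]
    have h5 : ((5 : ℕ) : R5) = 0 := CharP.cast_eq_zero R5 5
    rw [h5, zero_mul]
  rw [this, tr_zero]

lemma tr_inv (i j : Fin 3) (h : i ≠ j) (a : R5) : (tr i j h a)⁻¹ = tr i j h (-a) := by
  rw [inv_eq_iff_mul_eq_one, ← tr_add, add_neg_cancel, tr_zero]

lemma mul_coe (A B : SL5) : ((A * B : SL5) : Matrix (Fin 3) (Fin 3) R5) = A.1 * B.1 := rfl

/-- commutator relation -/
lemma tr_comm (i j k : Fin 3) (hij : i ≠ j) (hjk : j ≠ k) (hik : i ≠ k) (a b : R5) :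
    tr i j hij a * tr j k hjk b = tr i k hik (a * b) * (tr j k hjk b * tr i j hij a) := by
  apply Subtype.ext
  rw [mul_coe, mul_coe, mul_coe, tr_coe, tr_coe, tr_coe]
  have e1 : Matrix.single i j a * Matrix.single j k b = Matrix.single i k (a * b) :=
    Matrix.single_mul_single_same ..
  have e2 : Matrix.single j k b * Matrix.single i j a = 0 :=
    Matrix.single_mul_single_of_ne (h := hik.symm) ..
  have e3 : Matrix.single i k (a * b) * Matrix.single j k b = 0 :=
    Matrix.single_mul_single_of_ne (h := hjk.symm) ..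
  have e4 : Matrix.single i k (a * b) * Matrix.single i j a = 0 :=
    Matrix.single_mul_single_of_ne (h := hik.symm) ..
  generalize Matrix.single i j a = A at *
  generalize Matrix.single j k b = B at *
  generalize Matrix.single i k (a * b) = C at *
  have : (1 + C) * ((1 + B) * (1 + A)) = 1 + B + A + B * A + C + C * B + C * A + C * (B * A) := by
    noncomm_ring
  rw [this, e2, e3, e4, mul_zero]
  have : (1 + A) * (1 + B) = 1 + A + B + A * B := by noncomm_ring
  rw [this, e1]
  abel

lemma tr_commute_left (i j k : Fin 3) (hij : i ≠ j) (hik : i ≠ k) (a b : R5) :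
    Commute (tr i j hij a) (tr i k hik b) := by
  apply Subtype.ext
  rw [mul_coe, mul_coe, tr_coe, tr_coe]
  have e2 : Matrix.single i j a * Matrix.single i k b = 0 :=
    Matrix.single_mul_single_of_ne (h := hij.symm) ..
  have e3 : Matrix.single i k b * Matrix.single i j a = 0 :=
    Matrix.single_mul_single_of_ne (h := hik.symm) ..
  generalize Matrix.single i j a = A at *
  generalize Matrix.single i k b = B at *
  have h1 : (1 + A) * (1 + B) = 1 + A + B + A * B := by noncomm_ring
  have h2 : (1 + B) * (1 + A) = 1 + A + B + B * A := by noncomm_ring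
  rw [h1, h2, e2, e3]

lemma tr_commute_right (i j k : Fin 3) (hik : i ≠ k) (hjk : j ≠ k) (a b : R5) :
    Commute (tr i k hik a) (tr j k hjk b) := by
  apply Subtype.ext
  rw [mul_coe, mul_coe, tr_coe, tr_coe]
  have e2 : Matrix.single i k a * Matrix.single j k b = 0 :=
    Matrix.single_mul_single_of_ne (h := hjk.symm) ..
  have e3 : Matrix.single j k b * Matrix.single i k a = 0 :=
    Matrix.single_mul_single_of_ne (h := hik.symm) ..
  generalize Matrix.single i k a = A at *
  generalize Matrix.single j k b = B at *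
  have h1 : (1 + A) * (1 + B) = 1 + A + B + A * B := by noncomm_ring
  have h2 : (1 + B) * (1 + A) = 1 + A + B + B * A := by noncomm_ring
  rw [h1, h2, e2, e3]

lemma tr_comm' (i j k : Fin 3) (hij : i ≠ j) (hjk : j ≠ k) (hik : i ≠ k) (a b : R5) :
    tr i j hij a * tr j k hjk b * (tr i j hij a)⁻¹ * (tr j k hjk b)⁻¹ = tr i k hik (a * b) := by
  rw [tr_comm i j k hij hjk hik]
  group

/-- the three generators -/
def gx : SL5 := tr 0 1 (by decide) 1
def gy : SL5 := tr 1 2 (by decide) 1
def gz : SL5 := tr 2 0 (by decide) X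

/-- the group -/
def Gam : Subgroup SL5 := Subgroup.closure {gx, gy, gz}

lemma gx_mem : gx ∈ Gam := Subgroup.subset_closure (by simp)
lemma gy_mem : gy ∈ Gam := Subgroup.subset_closure (by simp)
lemma gz_mem : gz ∈ Gam := Subgroup.subset_closure (by simp)

/-- the generators as elements of the group -/
def x' : Gam := ⟨gx, gx_mem⟩
def y' : Gam := ⟨gy, gy_mem⟩
def z' : Gam := ⟨gz, gz_mem⟩

lemma heis_aux (i j k : Fin 3) (hij : i ≠ j) (hjk : j ≠ k) (hik : i ≠ k) (a b : R5)
    (h1 : tr i j hij a ∈ Gam) (h2 : tr j k hjk b ∈ Gam) :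
    Kazhdan.Heis (⟨tr i j hij a, h1⟩ : Gam) ⟨tr j k hjk b, h2⟩ := by
  constructor
  · apply Subtype.ext
    exact tr_pow_five i j hij a
  · apply Subtype.ext
    exact tr_pow_five j k hjk b
  · apply Subtype.ext
    show tr i j hij a * tr j k hjk b * (tr i j hij a)⁻¹ * (tr j k hjk b)⁻¹ * tr i j hij a =
      tr i j hij a * (tr i j hij a * tr j k hjk b * (tr i j hij a)⁻¹ * (tr j k hjk b)⁻¹)
    rw [tr_comm' i j k hij hjk hik]
    exact (tr_commute_left i j k hij hik a (a * b)).symm.eq
  · apply Subtype.ext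
    show tr i j hij a * tr j k hjk b * (tr i j hij a)⁻¹ * (tr j k hjk b)⁻¹ * tr j k hjk b =
      tr j k hjk b * (tr i j hij a * tr j k hjk b * (tr i j hij a)⁻¹ * (tr j k hjk b)⁻¹)
    rw [tr_comm' i j k hij hjk hik]
    exact (tr_commute_right i j k hik hjk (a * b) b).eq

lemma heis_xy : Kazhdan.Heis x' y' :=
  heis_aux 0 1 2 (by decide) (by decide) (by decide) 1 1 gx_mem gy_mem

lemma heis_yz : Kazhdan.Heis y' z' :=
  heis_aux 1 2 0 (by decide) (by decide) (by decide) 1 X gy_mem gz_mem

lemma heis_zx : Kazhdan.Heis z' x' :=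
  heis_aux 2 0 1 (by decide) (by decide) (by decide) X 1 gz_mem gx_mem

instance : Countable Gam := by
  have h1 : Countable R5 := by
    rw [← Cardinal.mk_le_aleph0_iff]
    refine Polynomial.cardinalMk_le_max.trans ?_
    rw [max_le_iff]
    exact ⟨Cardinal.mk_le_aleph0, le_rfl⟩
  have h2 : Countable (Matrix (Fin 3) (Fin 3) R5) := by
    unfold Matrix
    infer_instance
  have h3 : Countable SL5 := Subtype.countable
  infer_instance

lemma Gam_top (K : Subgroup Gam) (hx : x' ∈ K) (hy : y' ∈ K) (hz : z' ∈ K) (g : Gam) : g ∈ K := by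
  have h1 : Gam ≤ K.map Gam.subtype := by
    unfold Gam
    rw [Subgroup.closure_le]
    intro h hh
    have hh' : h = gx ∨ h = gy ∨ h = gz := hh
    rcases hh' with h1 | h1 | h1
    · exact ⟨x', hx, h1.symm⟩
    · exact ⟨y', hy, h1.symm⟩
    · exact ⟨z', hz, h1.symm⟩
  obtain ⟨k, hk, hkg⟩ := h1 g.2
  have : k = g := Subtype.ext hkg
  rw [← this]
  exact hk

/-! ### non-amenability -/

lemma comm_mem {i j k : Fin 3} {hij : i ≠ j} {hjk : j ≠ k} (hik : i ≠ k) {a b : R5}
    (h1 : tr i j hij a ∈ Gam) (h2 : tr j k hjk b ∈ Gam) : tr i k hik (a * b) ∈ Gam := by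
  rw [← tr_comm' i j k hij hjk hik]
  exact Gam.mul_mem (Gam.mul_mem (Gam.mul_mem h1 h2) (Gam.inv_mem h1)) (Gam.inv_mem h2)

lemma mem01 (n : ℕ) : tr 0 1 (by decide) (X ^ n) ∈ Gam := by
  have h21 : tr 2 1 (by decide) X ∈ Gam := by
    have := comm_mem (i := 2) (j := 0) (k := 1) (by decide) gz_mem gx_mem
    rwa [mul_one] at this
  induction n with
  | zero => rw [pow_zero]; exact gx_mem
  | succ n ih =>
    have h02 : tr 0 2 (by decide) (X ^ n) ∈ Gam := by
      have := comm_mem (i := 0) (j := 1) (k := 2) (by decide) ih gy_mem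
      rwa [mul_one] at this
    have := comm_mem (i := 0) (j := 2) (k := 1) (by decide) h02 h21
    rwa [← pow_succ] at this

lemma mem10 (n : ℕ) : tr 1 0 (by decide) (X ^ (n + 1)) ∈ Gam := by
  have h02 : tr 0 2 (by decide) 1 ∈ Gam := by
    have := comm_mem (i := 0) (j := 1) (k := 2) (by decide) gx_mem gy_mem
    rwa [mul_one] at this
  induction n with
  | zero =>
    have := comm_mem (i := 1) (j := 2) (k := 0) (by decide) gy_mem gz_mem
    rwa [one_mul, ← pow_one X] at this
  | succ n ih =>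
    have h12 : tr 1 2 (by decide) (X ^ (n + 1)) ∈ Gam := by
      have := comm_mem (i := 1) (j := 0) (k := 2) (by decide) ih h02
      rwa [mul_one] at this
    have := comm_mem (i := 1) (j := 2) (k := 0) (by decide) h12 gz_mem
    rwa [← pow_succ] at this

/-- degree of a row -/
def rd (i : Fin 3) (g : SL5) : WithBot ℕ := Finset.univ.sup fun j => (g.1 i j).degree

lemma row_ne (g : SL5) (i : Fin 3) : ∃ j, g.1 i j ≠ 0 := by
  by_contra hcon
  push Not at hcon
  have h1 : g.1.det = 0 := Matrix.det_eq_zero_of_row_eq_zero i hcon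
  rw [g.2] at h1
  exact one_ne_zero h1

lemma exists_rd (g : SL5) (i : Fin 3) : ∃ j, (g.1 i j).degree = rd i g ∧ g.1 i j ≠ 0 := by
  obtain ⟨j, _, hj⟩ := Finset.exists_mem_eq_sup (Finset.univ : Finset (Fin 3)) ⟨0, Finset.mem_univ _⟩
    (fun j => (g.1 i j).degree)
  refine ⟨j, hj.symm, fun h => ?_⟩
  obtain ⟨j', hj'⟩ := row_ne g i
  have h1 : (g.1 i j').degree ≤ rd i g := Finset.le_sup (f := fun j => (g.1 i j).degree)
    (Finset.mem_univ j')
  have h2 : rd i g = ⊥ := by
    have : rd i g = (g.1 i j).degree := hj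
    rw [this, h, degree_zero]
  rw [h2, le_bot_iff, degree_eq_bot] at h1
  exact hj' h1

lemma tr_mul_apply (i j : Fin 3) (h : i ≠ j) (a : R5) (g : SL5) (k : Fin 3) :
    (tr i j h a * g).1 i k = g.1 i k + a * g.1 j k := by
  show ((1 + Matrix.single i j a) * g.1) i k = _
  rw [add_mul, one_mul, Matrix.add_apply, Matrix.single_mul_apply_same]

lemma tr_mul_apply_ne (i j : Fin 3) (h : i ≠ j) (a : R5) (g : SL5) (l k : Fin 3) (hl : l ≠ i) :
    (tr i j h a * g).1 l k = g.1 l k := by
  show ((1 + Matrix.single i j a) * g.1) l k = _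
  rw [add_mul, one_mul, Matrix.add_apply, Matrix.single_mul_apply_of_ne _ _ _ _ _ hl, add_zero]

lemma rd_lt (i j : Fin 3) (h : i ≠ j) (a : R5) (ha : 1 ≤ a.degree) (g : SL5)
    (hg : rd i g ≤ rd j g) : rd j (tr i j h a * g) < rd i (tr i j h a * g) := by
  have h1 : rd j (tr i j h a * g) = rd j g := by
    unfold rd
    congr 1
    funext k
    rw [tr_mul_apply_ne i j h a g j k h.symm]
  rw [h1]
  obtain ⟨k, hk1, hk2⟩ := exists_rd g j
  have hgk : g.1 j k ≠ 0 := hk2
  have ha0 : a ≠ 0 := by
    rintro rfl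
    rw [degree_zero] at ha
    exact absurd ha (by decide)
  have h2 : (g.1 i k).degree ≤ rd i g := Finset.le_sup (f := fun j => (g.1 i j).degree)
    (Finset.mem_univ k)
  have h3 : (a * g.1 j k).degree = a.degree + rd j g := by
    rw [degree_mul, hk1]
  have h5 : rd j g < a.degree + rd j g := by
    rw [← hk1, degree_eq_natDegree hgk, degree_eq_natDegree ha0]
    rw [degree_eq_natDegree ha0] at ha
    have ha' : 1 ≤ a.natDegree := by exact_mod_cast ha
    have : (g.1 j k).natDegree < a.natDegree + (g.1 j k).natDegree := by omega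
    exact_mod_cast this
  have h4 : (g.1 i k + a * g.1 j k).degree = a.degree + rd j g := by
    rw [degree_add_eq_right_of_degree_lt]
    · exact h3
    · rw [h3]
      exact lt_of_le_of_lt (h2.trans hg) h5
  have h6 : ((tr i j h a * g).1 i k).degree ≤ rd i (tr i j h a * g) :=
    Finset.le_sup (f := fun k => ((tr i j h a * g).1 i k).degree) (Finset.mem_univ k)
  rw [tr_mul_apply, h4] at h6
  exact lt_of_lt_of_le h5 h6

/-- the action of the group on ultrafilters by translation -/
@[reducible] def ultraAction : MulAction Gam (Ultrafilter Gam) where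
  smul g 𝒰 := 𝒰.map (fun h => g * h)
  one_smul 𝒰 := by
    show 𝒰.map (fun h => 1 * h) = 𝒰
    simp only [one_mul]
    exact Ultrafilter.map_id 𝒰
  mul_smul a b 𝒰 := by
    show 𝒰.map (fun h => a * b * h) = (𝒰.map (fun h => b * h)).map (fun h => a * h)
    rw [Ultrafilter.map_map]
    congr 1
    funext h
    exact mul_assoc a b h

lemma null_of_disjoint {K : Type} [MeasurableSpace K] (μ : Measure K) [IsProbabilityMeasure μ]
    (s : ℕ → Set K) (hs : ∀ n, MeasurableSet (s n)) (hd : Pairwise (Function.onFun Disjoint s))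
    (c : ENNReal) (hc : ∀ n, μ (s n) = c) : c = 0 := by
  have h1 := measure_iUnion hd hs (μ := μ)
  by_contra hne
  have h2 : ∑' n, μ (s n) = ⊤ := by
    simp only [hc]
    exact ENNReal.tsum_const_eq_top_of_ne_zero hne
  rw [h2] at h1
  exact (measure_ne_top μ _) h1

lemma not_amenable : ¬ IsAmenable Gam := by
  intro hG
  let _ : MulAction Gam (Ultrafilter Gam) := ultraAction
  let _ : MeasurableSpace (Ultrafilter Gam) := borel _
  have _ : BorelSpace (Ultrafilter Gam) := ⟨rfl⟩
  have hsm : ∀ (g : Gam) (𝒰 : Ultrafilter Gam), g • 𝒰 = 𝒰.map (fun h => g * h) := fun _ _ => rfl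
  have hcont : ∀ g : Gam, Continuous fun 𝒰 : Ultrafilter Gam => g • 𝒰 := by
    intro g
    apply continuous_generateFrom_iff.mpr
    rintro _ ⟨s, rfl⟩
    have : (fun 𝒰 : Ultrafilter Gam => g • 𝒰) ⁻¹' {u | s ∈ u} =
        {u | (fun h => g * h) ⁻¹' s ∈ u} := by
      ext u
      rfl
    rw [this]
    exact ultrafilter_isOpen_basic _
  obtain ⟨μ, hμ, -, hinv⟩ := hG (Ultrafilter Gam) hcont
  let m : Set Gam → Set (Ultrafilter Gam) := fun s => {u | s ∈ u}
  have hm_meas : ∀ s, MeasurableSet (m s) := fun s => (ultrafilter_isOpen_basic s).measurableSet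
  have hm_inv : ∀ (g : Gam) (s : Set Gam), μ (m ((fun h => g * h) ⁻¹' s)) = μ (m s) := by
    intro g s
    conv_rhs => rw [← hinv g]
    rw [Measure.map_apply (hcont g).measurable (hm_meas s)]
    rfl
  have hm_disj : ∀ s t, Disjoint s t → Disjoint (m s) (m t) := by
    intro s t hst
    rw [Set.disjoint_left]
    intro u hu hu'
    have h1 : s ∩ t ∈ u := Filter.inter_mem hu hu'
    rw [Set.disjoint_iff_inter_eq_empty.mp hst] at h1
    exact u.empty_notMem h1
  -- general vanishing
  have key : ∀ (i j : Fin 3) (h : i ≠ j) (k : ℕ)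
      (hmem : ∀ n : ℕ, tr i j h (X ^ (n + 1)) ∈ Gam),
      μ (m {g : Gam | rd i g.1 ≤ rd j g.1}) = 0 := by
    intro i j h k hmem
    let e : ℕ → Gam := fun n => ⟨tr i j h (X ^ (n + 1)), hmem n⟩
    let s : ℕ → Set Gam := fun n => (fun g => (e n)⁻¹ * g) ⁻¹' {g : Gam | rd i g.1 ≤ rd j g.1}
    have hdisj : ∀ a b, a ≠ b → Disjoint (s a) (s b) := by
      intro a b hab
      rw [Set.disjoint_left]
      intro g hga hgb
      have hga' : rd i ((e a)⁻¹ * g).1 ≤ rd j ((e a)⁻¹ * g).1 := hga
      have hgb' : rd i ((e b)⁻¹ * g).1 ≤ rd j ((e b)⁻¹ * g).1 := hgb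
      have h1 : (((e b)⁻¹ * g : Gam) : SL5) = tr i j h (-(X ^ (b + 1)) + X ^ (a + 1)) *
          (((e a)⁻¹ * g : Gam) : SL5) := by
        rw [tr_add, ← tr_inv]
        show (tr i j h (X ^ (b + 1)))⁻¹ * g.1 = _ * ((tr i j h (X ^ (a + 1)))⁻¹ * g.1)
        group
      have hdeg : 1 ≤ (-(X ^ (b + 1)) + X ^ (a + 1) : R5).degree := by
        have h2 : ∀ n m : ℕ, n < m → 1 ≤ (X ^ m - X ^ n : R5).degree := by
          intro n m hnm
          have h3 : (X ^ m - X ^ n : R5).degree = m := by
            rw [degree_sub_eq_left_of_degree_lt]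
            · exact degree_X_pow m
            · rw [degree_X_pow, degree_X_pow]; exact_mod_cast hnm
          rw [h3]
          have : 1 ≤ m := by omega
          exact_mod_cast this
        rcases lt_or_gt_of_ne hab with h3 | h3
        · have h4 := h2 (a + 1) (b + 1) (by omega)
          have h5 : (-(X ^ (b + 1)) + X ^ (a + 1) : R5) = -(X ^ (b + 1) - X ^ (a + 1)) := by ring
          rw [h5, degree_neg]; exact h4
        · have h4 := h2 (b + 1) (a + 1) (by omega)
          have h5 : (-(X ^ (b + 1)) + X ^ (a + 1) : R5) = X ^ (a + 1) - X ^ (b + 1) := by ring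
          rw [h5]; exact h4
      have h2 := rd_lt i j h _ hdeg _ hga'
      rw [← h1] at h2
      exact absurd hgb' (not_le.mpr h2)
    apply null_of_disjoint μ (fun n => m (s n)) (fun n => hm_meas _)
    · intro a b hab
      exact hm_disj _ _ (hdisj a b hab)
    · intro n
      exact hm_inv _ _
  have h1 := key 0 1 (by decide) 0 (fun n => mem01 (n + 1))
  have h2 := key 1 0 (by decide) 0 mem10
  have h3 : (Set.univ : Set (Ultrafilter Gam)) ⊆ m {g : Gam | rd 0 g.1 ≤ rd 1 g.1} ∪
      m {g : Gam | rd 1 g.1 ≤ rd 0 g.1} := by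
    intro u _
    have h4 : {g : Gam | rd 0 g.1 ≤ rd 1 g.1} ∪ {g : Gam | rd 1 g.1 ≤ rd 0 g.1} ∈ u := by
      have : {g : Gam | rd 0 g.1 ≤ rd 1 g.1} ∪ {g : Gam | rd 1 g.1 ≤ rd 0 g.1} = Set.univ := by
        ext g
        simp only [Set.mem_univ, iff_true]
        exact le_total (rd 0 g.1) (rd 1 g.1)
      rw [this]
      exact Filter.univ_mem
    rcases Ultrafilter.union_mem_iff.mp h4 with h5 | h5
    · left; exact h5
    · right; exact h5
  have h4 : μ Set.univ ≤ 0 := by
    refine (measure_mono h3).trans ((measure_union_le _ _).trans ?_)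
    rw [h1, h2, add_zero]
  rw [measure_univ] at h4
  exact absurd h4 (by simp)

end Pool.Agent.Lib_helper92.ActL1
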