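import Mathlib
import Pool.Agent.Lib_helper92.ActL1.NormCon
import Pool.Agent.Lib_helper92.ActL1.Grp

/-!
# Good actions of the Kazhdan group form a `G_δ` set
-/

set_option autoImplicit false

open MeasureTheory Topology Finset

noncomputable section

namespace Pool.Agent.Lib_helper92.ActL1

lemma continuous_app {G : Type} [Group G] (g : G) (f : L1) :
    Continuous fun α : Act G => (α.at g).app f := by
  have h1 : Continuous (Act.at : Act G → G → Iso) := continuous_induced_dom
  have h2 : Continuous (Iso.app : Iso → L1 → L1) := continuous_induced_dom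
  exact (continuous_apply f).comp (h2.comp ((continuous_apply g).comp h1))

/-- the Kazhdan constant -/
def Cst : ℝ := Kazhdan.exists_fixed'.choose

lemma Cst_pos : 0 < Cst := Kazhdan.exists_fixed'.choose_spec.1

/-- the homomorphism into the isometry group of `L₂` -/
def rho (α : Act Gam) : Gam →* (Lp ℝ 2 (volume : Measure unitInterval) ≃ₗᵢ[ℝ]
    Lp ℝ 2 (volume : Measure unitInterval)) :=
  piHom.comp ((modHom (μ := (volume : Measure unitInterval))).comp (show Gam →* Iso from α))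

lemma rho_apply (α : Act Gam) (g : Gam) (h : Lp ℝ 2 (volume : Measure unitInterval)) :
    rho α g h = theta (modF (α.at g).li (theta' h)) := rfl

lemma exists_invariant (α : Act Gam) (f : L1) (hf : 0 ≤ f) (η : ℝ)
    (hx : ‖|(α.at x').app f| - f‖ ≤ η) (hy : ‖|(α.at y').app f| - f‖ ≤ η)
    (hz : ‖|(α.at z').app f| - f‖ ≤ η) :
    ∃ ψ : L1, (∀ g : Gam, |(α.at g).app ψ| = |ψ|) ∧
      ‖f - ψ‖ ≤ (Cst * √(2 * η)) * (2 * √‖f‖ + Cst * √(2 * η)) := by
  have hη : 0 ≤ η := (norm_nonneg _).trans hx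
  have key : ∀ g : Gam, ‖|(α.at g).app f| - f‖ ≤ η → ‖rho α g (theta f) - theta f‖ ≤ √(2 * η) := by
    intro g hg
    rw [rho_apply, theta'_theta, modF_of_nonneg _ hf]
    apply Real.le_sqrt_of_sq_le
    refine (theta_sub _ _).trans ?_
    exact mul_le_mul_of_nonneg_left hg (by norm_num)
  obtain ⟨w, wx, wy, wz, hw⟩ := Kazhdan.exists_fixed'.choose_spec.2 (heis_xy.map (rho α))
    (heis_yz.map (rho α)) (heis_zx.map (rho α)) (theta f) (√(2 * η)) (key _ hx) (key _ hy)
    (key _ hz)
  have hw' : ‖theta f - w‖ ≤ Cst * √(2 * η) := hw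
  let K : Subgroup Gam :=
    { carrier := {g | rho α g w = w}
      mul_mem' := by
        intro a b ha hb
        show rho α (a * b) w = w
        rw [map_mul]
        show rho α a (rho α b w) = w
        rw [show rho α b w = w from hb, show rho α a w = w from ha]
      one_mem' := by
        show rho α 1 w = w
        rw [map_one]; rfl
      inv_mem' := by
        intro a ha
        show rho α a⁻¹ w = w
        have h1 : rho α a w = w := ha
        conv_lhs => rw [← h1]
        rw [map_inv]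
        exact (rho α a).symm_apply_apply w }
  have hfix : ∀ g : Gam, rho α g w = w := fun g => Gam_top K wx wy wz g
  refine ⟨theta' w, fun g => ?_, ?_⟩
  · have h1 := hfix g
    rw [rho_apply] at h1
    have h2 := congrArg theta' h1
    rw [theta'_theta] at h2
    have h3 := abs_modF (α.at g).li (theta' w)
    rw [h2] at h3
    exact h3.symm
  · have h1 := theta'_sub (theta f) w
    rw [theta'_theta] at h1
    refine h1.trans ?_
    have h2 : ‖theta f‖ = √‖f‖ := by
      rw [← norm_theta_sq, Real.sqrt_sq (norm_nonneg _)]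
    have h3 : ‖w‖ ≤ √‖f‖ + Cst * √(2 * η) := by
      have : w = theta f - (theta f - w) := by abel
      rw [this]
      refine (norm_sub_le _ _).trans ?_
      rw [h2]
      linarith
    rw [h2]
    have h4 : √‖f‖ + ‖w‖ ≤ 2 * √‖f‖ + Cst * √(2 * η) := by linarith
    have h5 : 0 ≤ Cst * √(2 * η) := mul_nonneg Cst_pos.le (Real.sqrt_nonneg _)
    exact mul_le_mul hw' h4 (by positivity) h5

/-- the open sets -/
def On (n : ℕ) : Set (Act Gam) := {α | ∃ (f : L1) (s η : ℝ), 0 ≤ f ∧ 0 < s ∧ 0 < η ∧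
  (Cst * √(2 * η)) * (2 * √‖f‖ + Cst * √(2 * η)) < s / (2 * (n + 1)) ∧
  volume.real {x : unitInterval | f x ≤ s} ≤ 1 / (2 * ((n : ℝ) + 1)) ∧
  ‖|(α.at x').app f| - f‖ < η ∧ ‖|(α.at y').app f| - f‖ < η ∧ ‖|(α.at z').app f| - f‖ < η}

lemma isOpen_On (n : ℕ) : IsOpen (On n) := by
  have : On n = ⋃ (f : L1) (s : ℝ) (η : ℝ) (_ : 0 ≤ f ∧ 0 < s ∧ 0 < η ∧
      (Cst * √(2 * η)) * (2 * √‖f‖ + Cst * √(2 * η)) < s / (2 * (n + 1)) ∧
      volume.real {x : unitInterval | f x ≤ s} ≤ 1 / (2 * ((n : ℝ) + 1))),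
      {α : Act Gam | ‖|(α.at x').app f| - f‖ < η ∧ ‖|(α.at y').app f| - f‖ < η ∧
        ‖|(α.at z').app f| - f‖ < η} := by
    ext α
    simp only [Set.mem_iUnion]
    constructor
    · rintro ⟨f, s, η, h1, h2, h3, h4, h5, h6⟩
      exact ⟨f, s, η, ⟨h1, h2, h3, h4, h5⟩, h6⟩
    · rintro ⟨f, s, η, ⟨h1, h2, h3, h4, h5⟩, h6⟩
      exact ⟨f, s, η, h1, h2, h3, h4, h5, h6⟩
  rw [this]
  apply isOpen_iUnion; intro f
  apply isOpen_iUnion; intro s
  apply isOpen_iUnion; intro η
  apply isOpen_iUnion; intro _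
  have hc : ∀ g : Gam, IsOpen {α : Act Gam | ‖|(α.at g).app f| - f‖ < η} := by
    intro g
    have h1 : Continuous fun α : Act Gam => |(α.at g).app f| :=
      (continuous_app g f).sup (continuous_app g f).neg
    exact isOpen_lt (h1.sub continuous_const).norm continuous_const
  exact (hc x').inter ((hc y').inter (hc z'))

lemma On_good (α : Act Gam) (n : ℕ) (h : α ∈ On n) : ∃ ψ : L1,
    (∀ g : Gam, |(α.at g).app ψ| = |ψ|) ∧ volume.real {x : unitInterval | ψ x = 0} ≤ 1 / ((n : ℝ) + 1) := by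
  obtain ⟨f, s, η, h1, h2, h3, h4, h5, h6, h7, h8⟩ := h
  obtain ⟨ψ, hψ1, hψ2⟩ := exists_invariant α f h1 η h6.le h7.le h8.le
  refine ⟨ψ, hψ1, ?_⟩
  have hsub : {x : unitInterval | ψ x = 0} ⊆ {x | f x ≤ s} ∪ {x | s ≤ |f x - ψ x|} := by
    intro x hx
    have hx' : ψ x = 0 := hx
    rcases le_or_gt (f x) s with h | h
    · left; exact h
    · right
      show s ≤ |f x - ψ x|
      rw [hx', sub_zero, abs_of_pos (h2.trans h)]
      exact h.le
  have hmk : s * volume.real {x : unitInterval | s ≤ |f x - ψ x|} ≤ ‖f - ψ‖ := by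
    have hint : Integrable (fun x => |f x - ψ x|) :=
      ((L1.integrable_coeFn f).sub (L1.integrable_coeFn ψ)).abs
    have := mul_meas_ge_le_integral_of_nonneg
      (Filter.Eventually.of_forall (fun x => abs_nonneg (f x - ψ x))) hint s
    refine this.trans (le_of_eq ?_)
    rw [norm_L1]
    apply integral_congr_ae
    filter_upwards [Lp.coeFn_sub f ψ] with x hx
    rw [hx]; rfl
  have h9 : volume.real {x : unitInterval | s ≤ |f x - ψ x|} ≤ 1 / (2 * ((n : ℝ) + 1)) := by
    have h10 : s * volume.real {x : unitInterval | s ≤ |f x - ψ x|} ≤ s / (2 * (n + 1)) :=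
      hmk.trans (hψ2.trans h4.le)
    have h11 : s / (2 * ((n : ℝ) + 1)) = s * (1 / (2 * ((n : ℝ) + 1))) := by ring
    rw [h11] at h10
    exact le_of_mul_le_mul_left h10 h2
  calc volume.real {x : unitInterval | ψ x = 0}
      ≤ volume.real ({x : unitInterval | f x ≤ s} ∪ {x | s ≤ |f x - ψ x|}) :=
        measureReal_mono hsub
    _ ≤ 1 / (2 * ((n : ℝ) + 1)) + 1 / (2 * ((n : ℝ) + 1)) :=
        (measureReal_union_le _ _).trans (add_le_add h5 h9)
    _ = 1 / ((n : ℝ) + 1) := by field_simp; norm_num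

lemma smul_nonneg_L1 {c : ℝ} (hc : 0 ≤ c) {f : L1} (hf : 0 ≤ f) : 0 ≤ c • f := by
  rw [← Lp.coeFn_nonneg] at hf ⊢
  filter_upwards [hf, Lp.coeFn_smul c f] with x h1 h2
  rw [h2, Pi.smul_apply, smul_eq_mul]
  exact mul_nonneg hc h1

lemma good_of_On (α : Act Gam) (h : ∀ n, α ∈ On n) : Good α := by
  choose ψ hψ1 hψ2 using fun n => On_good α n (h n)
  let c : ℕ → ℝ := fun n => (1 / 2) ^ n / (1 + ‖ψ n‖)
  have hc : ∀ n, 0 < c n := fun n => by
    have := norm_nonneg (ψ n)
    positivity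
  have hsum : Summable fun n => c n • |ψ n| := by
    apply Summable.of_norm_bounded (g := fun n : ℕ => ((1 : ℝ) / 2) ^ n)
      (summable_geometric_of_lt_one (by norm_num) (by norm_num))
    intro n
    rw [norm_smul, norm_abs_L1, Real.norm_eq_abs, abs_of_pos (hc n)]
    have h1 := norm_nonneg (ψ n)
    have h2 : c n * ‖ψ n‖ = (1 / 2) ^ n * (‖ψ n‖ / (1 + ‖ψ n‖)) := by
      show (1 / 2) ^ n / (1 + ‖ψ n‖) * ‖ψ n‖ = _
      ring
    rw [h2]
    have h3 : ‖ψ n‖ / (1 + ‖ψ n‖) ≤ 1 := by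
      rw [div_le_one (by linarith)]; linarith
    have h4 : (0 : ℝ) ≤ (1 / 2) ^ n := by positivity
    nlinarith
  obtain ⟨Ψ, hΨ⟩ : ∃ Ψ, Ψ = ∑' n, c n • |ψ n| := ⟨_, rfl⟩
  have hnonneg : ∀ n, 0 ≤ c n • |ψ n| := fun n => smul_nonneg_L1 (hc n).le (abs_nonneg _)
  refine ⟨Ψ, ?_, ?_⟩
  · have h1 : ∀ᵐ x, ∀ n, c n * |ψ n x| ≤ Ψ x := by
      rw [ae_all_iff]
      intro n
      have h2 : c n • |ψ n| ≤ Ψ := by
        rw [hΨ]
        exact hsum.le_tsum n (fun j _ => hnonneg j)
      rw [← Lp.coeFn_le] at h2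
      filter_upwards [h2, Lp.coeFn_smul (c n) |ψ n|, Lp.coeFn_abs (ψ n)] with x a1 a2 a3
      rw [a2, Pi.smul_apply, a3, smul_eq_mul] at a1
      exact a1
    have h2 : volume {x : unitInterval | Ψ x = 0} = 0 := by
      have h3 : ∀ n : ℕ, volume.real {x : unitInterval | Ψ x = 0} ≤ 1 / ((n : ℝ) + 1) := by
        intro n
        refine le_trans ?_ (hψ2 n)
        apply ENNReal.toReal_mono (measure_ne_top _ _)
        apply measure_mono_ae
        filter_upwards [h1] with x hx hx0
        have h4 := hx n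
        have hx0' : Ψ x = 0 := hx0
        rw [hx0'] at h4
        have h5 : |ψ n x| ≤ 0 := by
          by_contra hcon
          have := mul_pos (hc n) (not_le.mp hcon)
          linarith
        exact abs_nonpos_iff.mp h5
      have h4 : volume.real {x : unitInterval | Ψ x = 0} ≤ 0 := by
        refine ge_of_tendsto' tendsto_one_div_add_atTop_nhds_zero_nat h3
      have h5 : volume.real {x : unitInterval | Ψ x = 0} = 0 := le_antisymm h4 measureReal_nonneg
      rw [measureReal_def, ENNReal.toReal_eq_zero_iff] at h5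
      rcases h5 with h5 | h5
      · exact h5
      · exact absurd h5 (measure_ne_top _ _)
    rw [ae_iff]
    simpa using h2
  · intro g
    have h1 : modHom (show L1 ≃ₗᵢ[ℝ] L1 from α.at g) Ψ = Ψ := by
      rw [hΨ]
      have h2 := (modHom (show L1 ≃ₗᵢ[ℝ] L1 from α.at g)).toContinuousLinearEquiv.map_tsum
        (L := SummationFilter.unconditional ℕ) (f := fun n => c n • |ψ n|)
      refine h2.trans ?_
      congr 1
      funext n
      show modHom (show L1 ≃ₗᵢ[ℝ] L1 from α.at g) (c n • |ψ n|) = c n • |ψ n|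
      rw [map_smul, modHom_of_nonneg _ (abs_nonneg _)]
      congr 1
      have h3 := abs_map_abs (α.at g).li (ψ n)
      exact h3.trans (hψ1 n g)
    have h2 := abs_modHom (show L1 ≃ₗᵢ[ℝ] L1 from α.at g) Ψ
    rw [h1] at h2
    exact h2.symm

lemma On_of_good (α : Act Gam) (h : Good α) (n : ℕ) : α ∈ On n := by
  obtain ⟨ψ, hψ, hinv⟩ := h
  -- choose the level
  have hlev : ∃ s : ℝ, 0 < s ∧ volume.real {x : unitInterval | |ψ| x ≤ s} ≤ 1 / (2 * ((n : ℝ) + 1)) := by
    have h1 : Filter.Tendsto (fun k : ℕ => volume {x : unitInterval | |ψ x| ≤ 1 / ((k : ℝ) + 1)})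
        Filter.atTop (𝓝 (volume (⋂ k : ℕ, {x : unitInterval | |ψ x| ≤ 1 / ((k : ℝ) + 1)}))) := by
      apply tendsto_measure_iInter_atTop
      · intro k
        exact nullMeasurableSet_le
          (L1.integrable_coeFn ψ).abs.aestronglyMeasurable.aemeasurable aemeasurable_const
      · intro a b hab x hx
        have hx' : |ψ x| ≤ 1 / ((b : ℝ) + 1) := hx
        show |ψ x| ≤ 1 / ((a : ℝ) + 1)
        refine hx'.trans ?_
        apply one_div_le_one_div_of_le (by positivity)
        have : (a : ℝ) ≤ b := by exact_mod_cast hab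
        linarith
      · exact ⟨0, measure_ne_top _ _⟩
    have h2 : volume (⋂ k : ℕ, {x : unitInterval | |ψ x| ≤ 1 / ((k : ℝ) + 1)}) = 0 := by
      apply measure_mono_null _ hψ
      intro x hx
      rw [Set.mem_iInter] at hx
      show ¬ (ψ x ≠ 0)
      rw [not_not]
      have h3 : |ψ x| ≤ 0 := ge_of_tendsto' tendsto_one_div_add_atTop_nhds_zero_nat hx
      exact abs_nonpos_iff.mp h3
    rw [h2] at h1
    have h3 := (ENNReal.tendsto_atTop_zero.mp h1) (ENNReal.ofReal (1 / (2 * ((n : ℝ) + 1))))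
      (by rw [gt_iff_lt, ENNReal.ofReal_pos]; positivity)
    obtain ⟨k, hk⟩ := h3
    refine ⟨1 / ((k : ℝ) + 1), by positivity, ?_⟩
    have h4 := hk k le_rfl
    have h5 : volume {x : unitInterval | |ψ| x ≤ 1 / ((k : ℝ) + 1)} =
        volume {x : unitInterval | |ψ x| ≤ 1 / ((k : ℝ) + 1)} := by
      apply measure_congr
      filter_upwards [Lp.coeFn_abs ψ] with x hx
      show ((|ψ| x ≤ 1 / ((k : ℝ) + 1)) = (|ψ x| ≤ 1 / ((k : ℝ) + 1)))
      rw [hx]
    rw [measureReal_def, h5]
    exact ENNReal.toReal_le_of_le_ofReal (by positivity) h4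
  obtain ⟨s, hs, hs'⟩ := hlev
  have hη : ∃ η : ℝ, 0 < η ∧
      (Cst * √(2 * η)) * (2 * √‖|ψ|‖ + Cst * √(2 * η)) < s / (2 * (n + 1)) := by
    have hc : Continuous fun η : ℝ => (Cst * √(2 * η)) * (2 * √‖|ψ|‖ + Cst * √(2 * η)) := by
      fun_prop
    have h1 := hc.tendsto 0
    simp only [mul_zero, Real.sqrt_zero, zero_mul] at h1
    have h2 := h1.eventually (gt_mem_nhds (show 0 < s / (2 * ((n : ℝ) + 1)) by positivity))
    obtain ⟨ε, hε, h3⟩ := Metric.eventually_nhds_iff.mp h2
    refine ⟨ε / 2, by positivity, h3 ?_⟩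
    rw [Real.dist_eq, sub_zero, abs_of_pos (by positivity)]
    linarith
  obtain ⟨η, hη1, hη2⟩ := hη
  have h0 : ∀ g : Gam, ‖|(α.at g).app (|ψ|)| - |ψ|‖ < η := by
    intro g
    have h1 := abs_map_abs (α.at g).li ψ
    have h2 : |(α.at g).app (|ψ|)| = |ψ| := h1.trans (hinv g)
    rw [h2, sub_self, norm_zero]
    exact hη1
  exact ⟨|ψ|, s, η, abs_nonneg _, hs, hη1, hη2, hs', h0 _, h0 _, h0 _⟩

theorem good_residual (hd : Dense {α : Act Gam | Good α}) :
    {α : Act Gam | HasInvariantRenorming α} ∈ residual (Act Gam) := by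
  have h1 : (⋂ n, On n) ∈ residual (Act Gam) := by
    rw [countable_iInter_mem]
    intro n
    apply residual_of_dense_open (isOpen_On n)
    exact hd.mono (fun α hα => On_of_good α hα n)
  refine Filter.mem_of_superset h1 ?_
  intro α hα
  exact hasInvariantRenorming_of_good α (good_of_On α (fun n => Set.mem_iInter.mp hα n))

theorem good_residual_pos (hd : Dense {α : ActPos Gam | Good α.1}) :
    {α : ActPos Gam | HasInvariantRenorming α.1} ∈ residual (ActPos Gam) := by
  have hc : Continuous (fun α : ActPos Gam => α.1) := continuous_subtype_val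
  have h1 : (⋂ n, (fun α : ActPos Gam => α.1) ⁻¹' On n) ∈ residual (ActPos Gam) := by
    rw [countable_iInter_mem]
    intro n
    apply residual_of_dense_open ((isOpen_On n).preimage hc)
    exact hd.mono (fun α hα => On_of_good α.1 hα n)
  refine Filter.mem_of_superset h1 ?_
  intro α hα
  exact hasInvariantRenorming_of_good α.1 (good_of_On α.1 (fun n => Set.mem_iInter.mp hα n))

end Pool.Agent.Lib_helper92.ActL1
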