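import Mathlib
import Pool.Agent.Lib_helper92.ActL1.Defs

/-!
# The spaces of actions are Polish
-/

set_option autoImplicit false

open MeasureTheory Topology Filter Set
open scoped NNReal ENNReal

noncomputable section

namespace Pool.Agent.Lib_helper92.ActL1.Polish

instance : Fact ((1 : ℝ≥0∞) ≠ ⊤) := ⟨ENNReal.one_ne_top⟩

instance : SecondCountableTopology L1 := inferInstance

instance : PolishSpace L1 := inferInstance

variable {G : Type} [Group G]

lemma app_add (U : Iso) (f g : L1) : U.app (f + g) = U.app f + U.app g :=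
  map_add (show L1 ≃ₗᵢ[ℝ] L1 from U) f g

lemma app_sub (U : Iso) (f g : L1) : U.app (f - g) = U.app f - U.app g :=
  map_sub (show L1 ≃ₗᵢ[ℝ] L1 from U) f g

lemma app_smul (U : Iso) (c : ℝ) (f : L1) : U.app (c • f) = c • U.app f :=
  map_smul (show L1 ≃ₗᵢ[ℝ] L1 from U) c f

lemma norm_app (U : Iso) (f : L1) : ‖U.app f‖ = ‖f‖ :=
  (show L1 ≃ₗᵢ[ℝ] L1 from U).norm_map f

lemma at_mul (α : Act G) (g h : G) (f : L1) :
    (α.at (g * h)).app f = (α.at g).app ((α.at h).app f) := by
  have h1 : α.at (g * h) = α.at g * α.at h := map_mul (show G →* Iso from α) g h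
  rw [h1]; rfl

lemma at_one (α : Act G) (f : L1) : (α.at 1).app f = f := by
  have h1 : α.at 1 = 1 := map_one (show G →* Iso from α)
  rw [h1]; rfl

lemma iso_ext (U V : Iso) (h : ∀ f, U.app f = V.app f) : U = V :=
  LinearIsometryEquiv.ext h

lemma act_ext (α β : Act G) (h : ∀ g f, (α.at g).app f = (β.at g).app f) : α = β :=
  MonoidHom.ext (fun g => iso_ext _ _ (h g))

lemma continuous_app (g : G) (f : L1) : Continuous fun α : Act G => (α.at g).app f := by
  have h1 : Continuous (Act.at : Act G → G → Iso) := continuous_induced_dom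
  have h2 : Continuous (Iso.app : Iso → L1 → L1) := continuous_induced_dom
  exact (continuous_apply f).comp (h2.comp ((continuous_apply g).comp h1))

lemma tendsto_act {ι : Type*} {l : Filter ι} {x : ι → Act G} {α : Act G}
    (h : ∀ g f, Tendsto (fun i => ((x i).at g).app f) l (𝓝 ((α.at g).app f))) :
    Tendsto x l (𝓝 α) := by
  have i1 : Topology.IsInducing (Act.at : Act G → G → Iso) := ⟨rfl⟩
  have i2 : Topology.IsInducing (Iso.app : Iso → L1 → L1) := ⟨rfl⟩
  rw [i1.tendsto_nhds_iff, tendsto_pi_nhds]
  intro g
  rw [i2.tendsto_nhds_iff, tendsto_pi_nhds]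
  intro f
  exact h g f

variable (S : Set L1)

/-- evaluation on a set of vectors -/
def ev (α : Act G) : G × S → L1 := fun p => (α.at p.1).app p.2

lemma continuous_ev : Continuous (ev S : Act G → _) :=
  continuous_pi (fun p => continuous_app p.1 p.2)

lemma isInducing_ev (hS : Dense S) : Topology.IsInducing (ev S : Act G → _) := by
  rw [isInducing_iff_nhds]
  intro α
  apply le_antisymm
  · rw [← map_le_iff_le_comap]
    exact (continuous_ev S).tendsto α
  · have key : Tendsto (fun β : Act G => β) (comap (ev S) (𝓝 (ev S α))) (𝓝 α) := by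
      apply tendsto_act
      intro g f
      rw [Metric.tendsto_nhds]
      intro ε hε
      obtain ⟨s, hs, hfs⟩ := hS.exists_dist_lt f (show 0 < ε / 3 by positivity)
      have h1 : Tendsto (fun β : Act G => (β.at g).app s) (comap (ev S) (𝓝 (ev S α)))
          (𝓝 ((α.at g).app s)) := by
        have h2 : Tendsto (fun y : G × S → L1 => y (g, ⟨s, hs⟩)) (𝓝 (ev S α))
            (𝓝 ((α.at g).app s)) := (continuous_apply _).tendsto _
        exact h2.comp tendsto_comap
      filter_upwards [(Metric.tendsto_nhds.mp h1) (ε / 3) (by positivity)] with β hβ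
      rw [dist_eq_norm] at hβ hfs ⊢
      have h3 : (β.at g).app f - (α.at g).app f = (β.at g).app (f - s) +
          ((β.at g).app s - (α.at g).app s) - (α.at g).app (f - s) := by
        rw [app_sub, app_sub]; abel
      rw [h3]
      refine lt_of_le_of_lt (norm_sub_le _ _) ?_
      have h4 := norm_add_le ((β.at g).app (f - s)) ((β.at g).app s - (α.at g).app s)
      rw [norm_app] at h4 ⊢
      linarith
    exact key

lemma injective_ev (hS : Dense S) : Function.Injective (ev S : Act G → _) := by
  intro α β h
  apply act_ext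
  intro g f
  have c1 : Continuous fun f => (α.at g).app f :=
    (show L1 ≃ₗᵢ[ℝ] L1 from α.at g).continuous
  have c2 : Continuous fun f => (β.at g).app f :=
    (show L1 ≃ₗᵢ[ℝ] L1 from β.at g).continuous
  have h1 := Continuous.ext_on hS c1 c2 (fun s hs => congrFun h (g, ⟨s, hs⟩))
  exact congrFun h1 f

theorem exists_limit (x : ℕ → Act G) (U : G → L1 → L1)
    (hU : ∀ g f, Tendsto (fun n => ((x n).at g).app f) atTop (𝓝 (U g f))) :
    ∃ α : Act G, ∀ g f, (α.at g).app f = U g f := by
  have hadd : ∀ g f f', U g (f + f') = U g f + U g f' := by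
    intro g f f'
    refine tendsto_nhds_unique (hU g (f + f')) ?_
    refine ((hU g f).add (hU g f')).congr (fun n => ?_)
    rw [app_add]
  have hsmul : ∀ g (c : ℝ) f, U g (c • f) = c • U g f := by
    intro g c f
    refine tendsto_nhds_unique (hU g (c • f)) ?_
    refine ((hU g f).const_smul c).congr (fun n => ?_)
    rw [app_smul]
  have hnorm : ∀ g f, ‖U g f‖ = ‖f‖ := by
    intro g f
    refine tendsto_nhds_unique (hU g f).norm ?_
    simp only [norm_app]
    exact tendsto_const_nhds
  have hone : ∀ f, U 1 f = f := by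
    intro f
    refine tendsto_nhds_unique (hU 1 f) ?_
    simp only [at_one]
    exact tendsto_const_nhds
  have hmul : ∀ g h f, U (g * h) f = U g (U h f) := by
    intro g h f
    refine tendsto_nhds_unique (hU (g * h) f) ?_
    have h1 := hU g (U h f)
    have h2 : Tendsto (fun n => ((x n).at g).app (((x n).at h).app f - U h f)) atTop (𝓝 0) := by
      rw [tendsto_zero_iff_norm_tendsto_zero]
      simp only [norm_app]
      have h3 := (hU h f).sub_const (U h f)
      rw [sub_self] at h3
      exact tendsto_zero_iff_norm_tendsto_zero.mp h3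
    have h4 := h1.add h2
    rw [add_zero] at h4
    refine h4.congr (fun n => ?_)
    rw [at_mul, app_sub]
    abel
  have hinv : ∀ g f, U g⁻¹ (U g f) = f := by
    intro g f
    rw [← hmul, inv_mul_cancel, hone]
  have hinv' : ∀ g f, U g (U g⁻¹ f) = f := by
    intro g f
    rw [← hmul, mul_inv_cancel, hone]
  let V : G → Iso := fun g => show L1 ≃ₗᵢ[ℝ] L1 from
    { toFun := U g
      invFun := U g⁻¹
      left_inv := hinv g
      right_inv := hinv' g
      map_add' := hadd g
      map_smul' := fun c f => hsmul g c f
      norm_map' := hnorm g }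
  let α : Act G := show G →* Iso from
    { toFun := V
      map_one' := iso_ext _ _ (fun f => hone f)
      map_mul' := fun g h => iso_ext _ _ (fun f => hmul g h f) }
  exact ⟨α, fun g f => rfl⟩

theorem isClosed_range_ev [Countable G] [Countable S] (hS : Dense S) :
    IsClosed (range (ev S : Act G → _)) := by
  apply isClosed_of_closure_subset
  intro a ha
  rw [mem_closure_iff_seq_limit] at ha
  obtain ⟨y, hy, hya⟩ := ha
  choose x hx using hy
  have hxa : ∀ (g : G) (s : S), Tendsto (fun n => ((x n).at g).app s) atTop (𝓝 (a (g, s))) := by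
    intro g s
    have h1 := ((continuous_apply (g, s)).tendsto a).comp hya
    refine h1.congr (fun n => ?_)
    show y n (g, s) = _
    rw [← hx n]; rfl
  have hcau : ∀ g f, CauchySeq (fun n => ((x n).at g).app f) := by
    intro g f
    rw [Metric.cauchySeq_iff']
    intro ε hε
    obtain ⟨s, hs, hfs⟩ := hS.exists_dist_lt f (show 0 < ε / 3 by positivity)
    obtain ⟨N, hN⟩ := Metric.cauchySeq_iff'.mp (hxa g ⟨s, hs⟩).cauchySeq (ε / 3) (by positivity)
    refine ⟨N, fun n hn => ?_⟩
    have h1 := hN n hn
    rw [dist_eq_norm] at h1 hfs ⊢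
    have h3 : ((x n).at g).app f - ((x N).at g).app f = ((x n).at g).app (f - s) +
        (((x n).at g).app s - ((x N).at g).app s) - ((x N).at g).app (f - s) := by
      rw [app_sub, app_sub]; abel
    rw [h3]
    refine lt_of_le_of_lt (norm_sub_le _ _) ?_
    have h4 := norm_add_le (((x n).at g).app (f - s)) (((x n).at g).app s - ((x N).at g).app s)
    rw [norm_app] at h4 ⊢
    have h1' : ‖((x n).at g).app s - ((x N).at g).app s‖ < ε / 3 := h1
    linarith
  choose U hU using fun g f => cauchySeq_tendsto_of_complete (hcau g f)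
  obtain ⟨α, hα⟩ := exists_limit x U hU
  refine ⟨α, ?_⟩
  funext p
  show (α.at p.1).app p.2 = a p
  rw [hα]
  exact tendsto_nhds_unique (hU p.1 p.2) (hxa p.1 p.2)

instance [Countable G] : PolishSpace (Act G) := by
  obtain ⟨S, hSc, hSd⟩ := TopologicalSpace.exists_countable_dense L1
  have : Countable S := hSc.to_subtype
  have h1 : Topology.IsClosedEmbedding (ev S : Act G → _) :=
    { toIsInducing := isInducing_ev S hSd
      injective := injective_ev S hSd
      isClosed_range := isClosed_range_ev S hSd }
  exact h1.polishSpace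

instance [Countable G] : PolishSpace (ActPos G) := by
  have h1 : IsClosed {α : Act G | ∀ (g : G) (f : L1), 0 ≤ f → 0 ≤ (α.at g).app f} := by
    have h2 : {α : Act G | ∀ (g : G) (f : L1), 0 ≤ f → 0 ≤ (α.at g).app f} =
        ⋂ (g : G) (f : L1) (_ : 0 ≤ f), {α : Act G | 0 ≤ (α.at g).app f} := by
      ext α
      simp
    rw [h2]
    apply isClosed_iInter; intro g
    apply isClosed_iInter; intro f
    apply isClosed_iInter; intro _
    exact isClosed_le continuous_const (continuous_app g f)
  exact h1.polishSpace

lemma baire_act [Countable G] : BaireSpace (Act G) := by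
  letI := TopologicalSpace.upgradeIsCompletelyMetrizable (Act G)
  infer_instance

lemma baire_actPos [Countable G] : BaireSpace (ActPos G) := by
  letI := TopologicalSpace.upgradeIsCompletelyMetrizable (ActPos G)
  infer_instance

/-- the trivial action -/
def triv (G : Type) [Group G] : ActPos G := ⟨(1 : G →* Iso), fun _ _ hf => hf⟩

lemma not_compl_residual {X : Type} [TopologicalSpace X] [BaireSpace X] [Nonempty X] (A : Set X)
    (h : A ∈ residual X) : Aᶜ ∉ residual X := by
  intro h2
  have h3 := Filter.inter_mem h h2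
  rw [inter_compl_self] at h3
  have h4 := dense_of_mem_residual h3
  rw [dense_iff_closure_eq, closure_empty] at h4
  exact empty_ne_univ h4

end Pool.Agent.Lib_helper92.ActL1.Polish
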